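import Mathlib
import Pool.Agent.Lib.MP_04fdae_co.Rot

/-! Definitions for the global asymptotic bound (see the paper proof in the team store). -/

namespace Pool.Agent.Lib.MP_04fdae_co.G

open Finset
open scoped ENNReal

/-! ### Product expectations -/

open Classical in
/-- Indicator of a proposition. -/
noncomputable def ind (p : Prop) : ℝ≥0∞ := if p then 1 else 0

/-- Expectation under the product of the weight `w` over the sites `ι`. -/
noncomputable def Ex {ι A : Type} [Fintype ι] (w : A → ℝ≥0∞) (F : (ι → A) → ℝ≥0∞) : ℝ≥0∞ :=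
  ∑' x : ι → A, (∏ i, w (x i)) * F x

/-- The geometric weight `2 ^ (-v-1)`. -/
noncomputable def gw (v : ℕ) : ℝ≥0∞ := (2⁻¹ : ℝ≥0∞) ^ (v + 1)

/-- The word with canopy `b` and magnitudes `m + 1`. -/
def bm {ι : Type} (b : ι → Bool) (m : ι → ℕ) : ι → ℕ := fun i => if b i = true then m i + 1 else 0

/-- Quenched expectation: the canopy is `b`. -/
noncomputable def qE {ι : Type} [Fintype ι] (b : ι → Bool) (F : (ι → ℕ) → ℝ≥0∞) : ℝ≥0∞ :=
  Ex gw (fun m => F (bm b m))

/-- Alphabet of two words with the same canopy. -/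
abbrev Om := Bool × ℕ × ℕ

noncomputable def w2 (a : Om) : ℝ≥0∞ := 2⁻¹ * (gw a.2.1 * gw a.2.2)

def l1 (a : Om) : ℕ := if a.1 = true then a.2.1 + 1 else 0

def l2 (a : Om) : ℕ := if a.1 = true then a.2.2 + 1 else 0

/-- `F` reads only the sites of `S`. -/
def Dep {ι A β : Type} (S : Set ι) (F : (ι → A) → β) : Prop :=
  ∀ x y : ι → A, (∀ i ∈ S, x i = y i) → F x = F y

/-! ### Linear words -/

/-- Prefix sums. -/
def ps (o : ℕ → ℕ) (k : ℕ) : ℕ := ∑ i ∈ range k, o i

/-- The forward walk from height `x` survives `r` letters. -/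
def FwdW (x : ℕ) (o : ℕ → ℕ) (r : ℕ) : Prop := ∀ k, 1 ≤ k → k ≤ r → ps o k < x + k

/-- The backward walk from height `h` survives `r` letters. -/
def BackW (h : ℕ) (y : ℕ → ℕ) (r : ℕ) : Prop := ∀ k, 1 ≤ k → k ≤ r → k ≤ h + ps y k

/-- The first `l` letters of `o` span a chord. -/
def ChW (o : ℕ → ℕ) (l : ℕ) : Prop := (∀ k, 1 ≤ k → k < l → ps o k < k) ∧ l ≤ ps o l + 1

/-! ### Cyclic words -/

section Cyc

variable {n : ℕ}

/-- The word read forward from the letter `a`. -/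
def sh (o : ZMod n → ℕ) (a : ZMod n) : ℕ → ℕ := fun k => o (a + (k : ZMod n))

/-- The interval `(a, l)` read backward from its last letter. -/
def rv (o : ZMod n → ℕ) (a : ZMod n) (l : ℕ) : ℕ → ℕ :=
  fun k => o (a + ((l - 1 - k : ℕ) : ZMod n))

/-- The interval `(a, l)` is a chord of the word `o`. -/
def Cd (a : ZMod n) (l : ℕ) (o : ZMod n → ℕ) : Prop := ChW (sh o a) l

/-- The canopy of a word. -/
def can (o : ZMod n → ℕ) : ZMod n → Bool := fun i => decide (o i ≠ 0)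

/-- Letters with the same value in `b` and `b'` at cyclic offset at most `L` have one value. -/
def Sep (L : ℕ) (b b' : ZMod n → Bool) : Prop :=
  ∀ (i : ZMod n) (d : ℕ), d ≤ L → b i = b' i → b (i + (d : ZMod n)) = b' (i + (d : ZMod n)) →
    b i = b (i + (d : ZMod n))

/-- No letter of `(a, l)` has the value `c` in both canopies. -/
def NoCommon (c : Bool) (b b' : ZMod n → Bool) (a : ZMod n) (l : ℕ) : Prop :=
  ∀ k < l, ¬ (b (a + (k : ZMod n)) = c ∧ b' (a + (k : ZMod n)) = c)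

/-- The functional that dominates a short chord under a nearly complementary canopy. -/
noncomputable def Zf (a : ZMod n) (l : ℕ) (o : ZMod n → ℕ) : ℝ≥0∞ :=
  ENNReal.ofReal (28 / √(l : ℝ)) * ind (FwdW 0 (sh o a) (l / 16)) +
    ind (BackW 0 (rv o a l) (l / 16)) * (rv o a l 0 : ℝ≥0∞) *
      (ENNReal.ofReal (2 / √(l : ℝ)) + ind (l ≤ 4 * ps (rv o a l) (l / 16)))

variable [NeZero n]

/-- Words with sum `N`. -/
def Wd (n : ℕ) [NeZero n] (N : ℕ) : Finset (ZMod n → ℕ) := piAntidiag univ N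

/-- The size of a canopy. -/
def sz {ι : Type} [Fintype ι] (b : ι → Bool) : ℕ := (univ.filter (fun i => b i = true)).card

open Classical in
/-- The number of words of sum `N` and canopy `b` with the property `X`. -/
noncomputable def cw (b : ZMod n → Bool) (N : ℕ) (X : (ZMod n → ℕ) → Prop) : ℕ :=
  ((Wd n N).filter (fun o => can o = b ∧ X o)).card

/-- Its quenched probability. -/
noncomputable def pr (b : ZMod n → Bool) (N : ℕ) (X : (ZMod n → ℕ) → Prop) : ℝ :=
  (cw b N X : ℝ) / 2 ^ N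

/-- The number of words of sum `N ≥ 1` with a given canopy of size `k`. -/
def wt (N k : ℕ) : ℕ := if k = 0 then 0 else (N - 1).choose (k - 1)

noncomputable def zz (b : ZMod n → Bool) (a : ZMod n) (l : ℕ) : ℝ :=
  (qE (fun i => !b i) (Zf a l)).toReal

/-- Sum of squares over the long intervals. -/
noncomputable def AA (N L L2 : ℕ) (b : ZMod n → Bool) : ℝ :=
  ∑ a : ZMod n, ∑ l ∈ Icc L (n - L) ∪ Icc (n - L2) n, pr b N (Cd a l) ^ 2

noncomputable def A3 (N s L : ℕ) (b : ZMod n → Bool) : ℝ :=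
  ∑ a : ZMod n, ∑ l ∈ Ico s L, pr b N (Cd (a + (l : ZMod n)) (n - l)) * zz b a l

noncomputable def SH (N s L : ℕ) (b b' : ZMod n → Bool) : ℝ :=
  ∑ a : ZMod n, ∑ l ∈ Ico s L, pr b N (Cd (a + (l : ZMod n)) (n - l)) * pr b' N (Cd a l)

end Cyc

/-! ### Windows and marks -/

/-- A window: length `l`, `q` trailing zeros, letters `u`. -/
structure Win where
  l : ℕ
  q : ℕ
  u : ℕ → ℕ

structure Valid (s q0 : ℕ) (w : Win) : Prop where
  tot : ps w.u w.l + s = w.l + 1
  pre : ∀ j, 1 ≤ j → j < w.l → ps w.u j < j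
  qle : w.q ≤ q0
  qlt : w.q < w.l
  nz : w.u (w.l - 1 - w.q) ≠ 0
  tail : ∀ i, w.l ≤ i + w.q → w.u i = 0

/-- The inside word of a window after its root cell is triangulated as a fan. -/
def up (s : ℕ) (w : Win) (k : ℕ) : ℕ :=
  if k + w.q + 1 < w.l then w.u k else if k + w.q + 1 = w.l then w.u k + (s - 2 - w.q) else 1

noncomputable def nu (U : Finset Win) : ℝ := ∑ w ∈ U, 4 / 4 ^ w.l

noncomputable def varpi (s : ℕ) (U : Finset Win) : ℝ := 2 ^ s * nu U / 8

section Marks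

variable {n : ℕ}

abbrev Tri (n : ℕ) := Finset (Fin n × Fin n)

/-- The linear word of `T` read from the letter `r`. -/
noncomputable def lw (T : Tri n) (r : ZMod n) (k : ℕ) : ℕ := od (ER T r.val) (k + 1)

/-- The interval `(a, l)` names a diagonal of `T`. -/
def Dg (T : Tri n) (a : ZMod n) (l : ℕ) : Prop := ER T a.val 0 l

/-- The interval `(a, l)` names the chord `d`. -/
def Names (d : Fin n × Fin n) (a : ZMod n) (l : ℕ) : Prop :=
  (d.1.val = a.val ∧ d.2.val = (a + (l : ZMod n)).val) ∨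
    (d.2.val = a.val ∧ d.1.val = (a + (l : ZMod n)).val)

/-- The cyclic word of `T` with root letter `r - 1`. -/
noncomputable def enc (T : Tri n) (r : ZMod n) : ZMod n → ℕ := fun i => lw T r (i - r).val

def Mark (s : ℕ) (T : Tri n) (x : ZMod n) (w : Win) : Prop := ∀ k < w.l, lw T x k = up s w k

/-- The word of a mark. -/
noncomputable def mword (T : Tri n) (x : ZMod n) (w : Win) : ZMod n → ℕ := fun i =>
  if (i - x).val < w.l then w.u (i - x).val else lw T (x + (w.l : ZMod n)) ((i - x).val - w.l)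

/-- The three types of names of a diagonal, for a word `o` with window `(x, l)`. -/
def Typ (q0 : ℕ) (o : ZMod n → ℕ) (x : ZMod n) (l : ℕ) (a : ZMod n) (m : ℕ) : Prop :=
  (∃ i : ℕ, a = x + (l : ZMod n) + (i : ZMod n) ∧ i + m + l ≤ n ∧ Cd a m o) ∨
  (∃ i : ℕ, a = x + (i : ZMod n) ∧ i + m ≤ l ∧ o a = 0 ∧ o (a + ((m - 1 : ℕ) : ZMod n)) ≠ 0) ∨
  (a = x ∧ l ≤ m + q0 ∧ m ≤ l)

/-- The six ways in which two marked words can share a diagonal. -/
def Cases (L L2 s q0 : ℕ) (o : ZMod n → ℕ) (x : ZMod n) (l : ℕ) (o' : ZMod n → ℕ) (x' : ZMod n)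
    (l' : ℕ) : Prop :=
  (∃ (a a' : ZMod n) (m m' i : ℕ), n ≤ m + L2 ∧ m ≤ n ∧ n ≤ m' + L2 ∧ m' ≤ n ∧ i ≤ 2 * L2 ∧
    a' + (L2 : ZMod n) = a + (i : ZMod n) ∧ Cd a m o ∧ Cd a' m' o') ∨
  (∃ (a : ZMod n) (m : ℕ), L ≤ m ∧ m + L ≤ n ∧ Cd a m o ∧
    (Cd a m o' ∨ Cd (a + (m : ZMod n)) (n - m) o')) ∨
  (∃ m, l ≤ m + q0 ∧ m ≤ l ∧ Cd x m o') ∨ (∃ m, l' ≤ m + q0 ∧ m ≤ l' ∧ Cd x' m o) ∨
  (∃ (a : ZMod n) (m : ℕ), s ≤ m ∧ m < L ∧ Cd (a + (m : ZMod n)) (n - m) o ∧ Cd a m o') ∨
  (∃ (a : ZMod n) (m : ℕ), s ≤ m ∧ m < L ∧ Cd (a + (m : ZMod n)) (n - m) o' ∧ Cd a m o)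

def Pat (s : ℕ) (ω : ZMod n → ℕ) (x : ZMod n) (w : Win) : Prop :=
  (∀ k, k + 1 < w.l → sh ω x k = up s w k) ∧ up s w (w.l - 1) ≤ sh ω x (w.l - 1)

variable [NeZero n]

open Classical in
/-- The number of patterns in a word. -/
noncomputable def npat (s : ℕ) (U : Finset Win) (ω : ZMod n → ℕ) : ℕ :=
  (((univ : Finset (ZMod n)) ×ˢ U).filter (fun z => Pat s ω z.1 z.2)).card

open Classical in
/-- The number of marks of `T`. -/
noncomputable def nmark (s : ℕ) (U : Finset Win) (T : Tri n) : ℕ :=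
  (((univ : Finset (ZMod n)) ×ˢ U).filter (fun z => Mark s T z.1 z.2)).card

open Classical in
/-- The words of the marks of the members of `F`. -/
noncomputable def Ft (s : ℕ) (U : Finset Win) (F : Finset (Tri n)) : Finset (ZMod n → ℕ) :=
  ((F ×ˢ ((univ : Finset (ZMod n)) ×ˢ U)).filter (fun z => Mark s z.1 z.2.1 z.2.2)).image
    (fun z => mword z.1 z.2.1 z.2.2)

end Marks

/-! ### Cubes -/

/-- The cube map: sites with label `true` read `x`, the others read the complement of `x ∘ π`. -/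
def cm {κ : Type} (α : κ → Bool) (π : Equiv.Perm κ) (x : κ → Bool) : κ → Bool :=
  fun i => if α i = true then x i else !(x (π i))

end Pool.Agent.Lib.MP_04fdae_co.G
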