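import Mathlib
import Pool.Agent.Lib.MP_04fdae_co.G.Defs

/-! Binomial estimates. -/

namespace Pool.Agent.Lib.MP_04fdae_co.G

open Finset
open scoped ENNReal

theorem binom_cb_up (m : ℕ) : Nat.centralBinom m ^ 2 * (2 * m + 1) ≤ 16 ^ m := by
  induction m with
  | zero => simp
  | succ m ih =>
    have h := Nat.succ_mul_centralBinom_succ m
    have hp : 0 < (m + 1) ^ 2 := by positivity
    refine Nat.le_of_mul_le_mul_left ?_ hp
    calc (m + 1) ^ 2 * (Nat.centralBinom (m + 1) ^ 2 * (2 * (m + 1) + 1))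
        = ((m + 1) * Nat.centralBinom (m + 1)) ^ 2 * (2 * m + 3) := by ring
      _ = (Nat.centralBinom m ^ 2 * (2 * m + 1)) * (4 * ((2 * m + 1) * (2 * m + 3))) := by
          rw [h]; ring
      _ ≤ 16 ^ m * (16 * (m + 1) ^ 2) := Nat.mul_le_mul ih (by nlinarith)
      _ = (m + 1) ^ 2 * 16 ^ (m + 1) := by ring

theorem binom_mid_up (M : ℕ) : M.choose (M / 2) ^ 2 * (M + 1) ≤ 4 ^ M := by
  rcases Nat.even_or_odd' M with ⟨m, rfl | rfl⟩
  · have h := binom_cb_up m
    rw [Nat.centralBinom_eq_two_mul_choose] at h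
    have e : 2 * m / 2 = m := by omega
    rw [e, pow_mul]
    exact h
  · have h := binom_cb_up (m + 1)
    rw [Nat.centralBinom_eq_two_mul_choose] at h
    have e : (2 * m + 1) / 2 = m := by omega
    have e2 : (2 * (m + 1)).choose (m + 1) = 2 * (2 * m + 1).choose m := by
      have : 2 * (m + 1) = (2 * m + 1) + 1 := by ring
      rw [this, Nat.choose_succ_succ', Nat.choose_symm_half]
      ring
    rw [e2] at h
    rw [e, pow_succ 4, pow_mul]
    have h16 : (16 : ℕ) ^ (m + 1) = 4 * ((4 ^ 2) ^ m * 4) := by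
      rw [pow_succ]; norm_num; ring
    rw [h16] at h
    nlinarith [Nat.zero_le ((2 * m + 1).choose m ^ 2)]

/-- Reduce to the middle coefficient; `C(2m,m)^2 (2m+1) ≤ 16^m` by induction;
`C(2m+1,m) = C(2m+2,m+1)/2`. -/
theorem choose_le_sqrt (M j : ℕ) : (M.choose j : ℝ) ≤ 2 ^ M / √((M : ℝ) + 1) := by
  have hpos : (0 : ℝ) < (M : ℝ) + 1 := by positivity
  rw [le_div_iff₀ (Real.sqrt_pos.2 hpos)]
  have h1 : M.choose j ^ 2 * (M + 1) ≤ 4 ^ M :=
    le_trans (Nat.mul_le_mul_right _ (Nat.pow_le_pow_left (Nat.choose_le_middle j M) 2))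
      (binom_mid_up M)
  have h2 : ((M.choose j : ℝ)) ^ 2 * ((M : ℝ) + 1) ≤ 4 ^ M := by exact_mod_cast h1
  refine abs_le_of_sq_le_sq' ?_ (by positivity) |>.2
  rw [mul_pow, Real.sq_sqrt hpos.le, ← pow_mul, mul_comm M 2, pow_mul]
  norm_num
  exact h2

theorem binom_mono_half (M j i : ℕ) (hji : j ≤ i) (hi : i ≤ M / 2) :
    M.choose j ≤ M.choose i := by
  induction i, hji using Nat.le_induction with
  | base => exact le_rfl
  | succ i _ ih =>
    exact le_trans (ih (by omega)) (Nat.choose_le_succ_of_lt_half_left (by omega))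

theorem binom_dist_nat (M j : ℕ) (hj : 2 * j ≤ M) : M.choose j * (M - 2 * j + 1) ≤ 2 ^ M := by
  have h1 : ∀ i ∈ Icc j (M - j), M.choose j ≤ M.choose i := by
    intro i hi
    rw [mem_Icc] at hi
    by_cases h : i ≤ M / 2
    · exact binom_mono_half M j i hi.1 h
    · rw [← Nat.choose_symm (show i ≤ M by omega)]
      exact binom_mono_half M j (M - i) (by omega) (by omega)
  have h2 := Finset.card_nsmul_le_sum _ _ _ h1
  rw [Nat.card_Icc, smul_eq_mul] at h2
  have e : M - j + 1 - j = M - 2 * j + 1 := by omega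
  rw [e, mul_comm] at h2
  refine le_trans h2 ?_
  rw [← Nat.sum_range_choose M]
  refine Finset.sum_le_sum_of_subset ?_
  intro i hi
  rw [mem_Icc] at hi
  rw [mem_range]
  omega

theorem binom_dist_half (M j : ℕ) (hj : 2 * j ≤ M) :
    (M.choose j : ℝ) * (|2 * (j : ℝ) - M| + 1) ≤ 2 ^ M := by
  have h := binom_dist_nat M j hj
  have h2 : ((M.choose j : ℝ)) * (((M - 2 * j : ℕ) : ℝ) + 1) ≤ 2 ^ M := by exact_mod_cast h
  rw [Nat.cast_sub hj] at h2
  have hj' : (2 : ℝ) * j ≤ M := by exact_mod_cast hj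
  rw [abs_of_nonpos (by linarith)]
  push_cast at h2
  have : -(2 * (j : ℝ) - M) = M - 2 * j := by ring
  rw [this]
  exact h2

/-- Unimodality: every `i` between `j` and `M - j` has `C(M,j) ≤ C(M,i)`. -/
theorem choose_mul_dist (M j : ℕ) : (M.choose j : ℝ) * (|2 * (j : ℝ) - M| + 1) ≤ 2 ^ M := by
  by_cases hj : 2 * j ≤ M
  · exact binom_dist_half M j hj
  · by_cases hM : j ≤ M
    · have h := binom_dist_half M (M - j) (by omega)
      rw [Nat.choose_symm hM, Nat.cast_sub hM] at h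
      have e : |2 * ((M : ℝ) - j) - M| = |2 * (j : ℝ) - M| := by
        rw [← abs_neg]; congr 1; ring
      rwa [e] at h
    · rw [Nat.choose_eq_zero_of_lt (by omega)]
      simp

theorem binom_cb_low (m : ℕ) (hm : 1 ≤ m) : 16 ^ m ≤ 4 * m * Nat.centralBinom m ^ 2 := by
  induction m, hm using Nat.le_induction with
  | base => decide
  | succ m hm ih =>
    have h := Nat.succ_mul_centralBinom_succ m
    have hp : 0 < m + 1 := by positivity
    refine Nat.le_of_mul_le_mul_left ?_ hp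
    calc (m + 1) * 16 ^ (m + 1) = 16 ^ m * (16 * (m + 1)) := by ring
      _ ≤ (4 * m * Nat.centralBinom m ^ 2) * (16 * (m + 1)) := Nat.mul_le_mul_right _ ih
      _ = Nat.centralBinom m ^ 2 * (16 * (4 * m * (m + 1))) := by ring
      _ ≤ Nat.centralBinom m ^ 2 * (16 * (2 * m + 1) ^ 2) :=
          Nat.mul_le_mul_left _ (by nlinarith)
      _ = 4 * ((m + 1) * Nat.centralBinom (m + 1)) ^ 2 := by rw [h]; ring
      _ = (m + 1) * (4 * (m + 1) * Nat.centralBinom (m + 1) ^ 2) := by ring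

/-- `16^m ≤ 4 m C(2m,m)^2` by induction. -/
theorem central_lower (m : ℕ) (hm : 1 ≤ m) :
    (4 : ℝ) ^ m / (2 * √(m : ℝ)) ≤ (((2 * m).choose m : ℕ) : ℝ) := by
  have hpos : (0 : ℝ) < (m : ℝ) := by exact_mod_cast hm
  have hs : (0 : ℝ) < 2 * √(m : ℝ) := by have := Real.sqrt_pos.2 hpos; linarith
  rw [div_le_iff₀ hs]
  have h1 := binom_cb_low m hm
  rw [Nat.centralBinom_eq_two_mul_choose] at h1
  have h2 : (16 : ℝ) ^ m ≤ 4 * m * (((2 * m).choose m : ℕ) : ℝ) ^ 2 := by exact_mod_cast h1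
  refine abs_le_of_sq_le_sq' ?_ (by positivity) |>.2
  rw [mul_pow, mul_pow, Real.sq_sqrt hpos.le, ← pow_mul, mul_comm m 2, pow_mul]
  norm_num
  linarith

theorem binom_pascal_sum (M : ℕ) (f : ℕ → ℝ) :
    ∑ j ∈ range (M + 1 + 1), ((M + 1).choose j : ℝ) * f j =
      ∑ j ∈ range (M + 1), (M.choose j : ℝ) * (f j + f (j + 1)) := by
  have h1 : ∑ j ∈ range (M + 1), (M.choose j : ℝ) * f j =
      ∑ j ∈ range (M + 1), (M.choose (j + 1) : ℝ) * f (j + 1) + f 0 := by
    have h := Finset.sum_range_succ' (fun j => (M.choose j : ℝ) * f j) (M + 1)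
    rw [Finset.sum_range_succ, Nat.choose_succ_self] at h
    simpa using h
  rw [Finset.sum_range_succ']
  simp only [mul_add, Finset.sum_add_distrib, Nat.choose_succ_succ', Nat.cast_add, add_mul]
  rw [h1]
  simp only [Nat.choose_zero_right, Nat.cast_one, one_mul]
  ring

theorem sum_choose_sq_dev (M : ℕ) :
    ∑ j ∈ range (M + 1), (M.choose j : ℝ) * (2 * (j : ℝ) - M) ^ 2 = (M : ℝ) * 2 ^ M := by
  induction M with
  | zero => simp
  | succ M ih =>
    rw [binom_pascal_sum M (fun j => (2 * (j : ℝ) - ((M + 1 : ℕ) : ℝ)) ^ 2)]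
    have h : ∑ j ∈ range (M + 1), (M.choose j : ℝ) = 2 ^ M := by
      exact_mod_cast Nat.sum_range_choose M
    have e : ∀ j ∈ range (M + 1), (M.choose j : ℝ) *
        ((2 * (j : ℝ) - ((M + 1 : ℕ) : ℝ)) ^ 2 + (2 * ((j + 1 : ℕ) : ℝ) - ((M + 1 : ℕ) : ℝ)) ^ 2) =
        2 * ((M.choose j : ℝ) * (2 * (j : ℝ) - M) ^ 2) + 2 * (M.choose j : ℝ) := by
      intro j _
      push_cast
      ring
    rw [Finset.sum_congr rfl e, Finset.sum_add_distrib, ← Finset.mul_sum, ← Finset.mul_sum, ih, h]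
    push_cast
    ring

/-- Binomial coefficient with an integer lower argument. -/
noncomputable def bz (M : ℕ) (x : ℤ) : ℝ := if 0 ≤ x then (M.choose x.toNat : ℝ) else 0

theorem binom_bz_step (M : ℕ) (x : ℤ) :
    |bz M (x + 1) - bz M x| ≤ 2 ^ (M + 1) / ((M : ℝ) + 1) := by
  have hpos : (0 : ℝ) < (M : ℝ) + 1 := by positivity
  by_cases hx : 0 ≤ x
  · obtain ⟨k, rfl⟩ := Int.eq_ofNat_of_zero_le hx
    have e1 : bz M ((k : ℤ) + 1) = (M.choose (k + 1) : ℝ) := by
      unfold bz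
      rw [if_pos (by omega)]
      congr 2
    have e2 : bz M (k : ℤ) = (M.choose k : ℝ) := by
      unfold bz
      rw [if_pos hx]
      congr 2
    rw [e1, e2, le_div_iff₀ hpos]
    have h1 : ((M : ℝ) + 1) * (M.choose k : ℝ) = ((M + 1).choose (k + 1) : ℝ) * ((k : ℝ) + 1) := by
      exact_mod_cast Nat.add_one_mul_choose_eq M k
    have h2 : ((M + 1).choose (k + 1) : ℝ) = (M.choose k : ℝ) + (M.choose (k + 1) : ℝ) := by
      exact_mod_cast Nat.choose_succ_succ' M k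
    have h3 := choose_mul_dist (M + 1) (k + 1)
    have h4 : ((M.choose (k + 1) : ℝ) - (M.choose k : ℝ)) * ((M : ℝ) + 1) =
        ((M + 1).choose (k + 1) : ℝ) * (-(2 * ((k + 1 : ℕ) : ℝ) - ((M + 1 : ℕ) : ℝ))) := by
      push_cast
      have h5 : (M.choose (k + 1) : ℝ) = ((M + 1).choose (k + 1) : ℝ) - (M.choose k : ℝ) := by
        linarith
      rw [h5]
      linear_combination (-2 : ℝ) * h1
    have hc : (0 : ℝ) ≤ ((M + 1).choose (k + 1) : ℝ) := by positivity
    rw [← abs_of_pos hpos, ← abs_mul, h4, abs_mul, abs_neg, abs_of_nonneg hc]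
    linarith
  · by_cases hx1 : x = -1
    · subst hx1
      have e1 : bz M ((-1 : ℤ) + 1) = 1 := by simp [bz]
      have e2 : bz M (-1 : ℤ) = 0 := by simp [bz]
      rw [e1, e2, le_div_iff₀ hpos]
      have h : M + 1 ≤ 2 ^ (M + 1) := (Nat.lt_two_pow_self).le
      have h' : (M : ℝ) + 1 ≤ 2 ^ (M + 1) := by exact_mod_cast h
      simpa using h'
    · have e1 : bz M (x + 1) = 0 := by unfold bz; rw [if_neg (by omega)]
      have e2 : bz M x = 0 := by unfold bz; rw [if_neg hx]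
      rw [e1, e2]
      simp only [sub_self, abs_zero]
      positivity

theorem binom_bz_add (M : ℕ) (y : ℤ) (d : ℕ) :
    |bz M (y + d) - bz M y| ≤ 2 ^ (M + 1) / ((M : ℝ) + 1) * d := by
  induction d with
  | zero => simp
  | succ d ih =>
    have h := binom_bz_step M (y + d)
    have e : y + ((d + 1 : ℕ) : ℤ) = y + d + 1 := by push_cast; ring
    rw [e]
    have t := abs_sub_le (bz M (y + d + 1)) (bz M (y + d)) (bz M y)
    push_cast
    linarith

/-- `C(M,x+1) - C(M,x) = C(M+1,x+1) (M-2x-1)/(M+1)` and `choose_mul_dist`. -/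
theorem bz_lip (M : ℕ) (x y : ℤ) :
    |bz M x - bz M y| ≤ 2 ^ (M + 1) / ((M : ℝ) + 1) * |(x : ℝ) - y| := by
  rcases le_total y x with h | h
  · obtain ⟨d, rfl⟩ := Int.le.dest h
    have e : |((y + d : ℤ) : ℝ) - y| = d := by
      push_cast
      rw [add_sub_cancel_left, abs_of_nonneg (by positivity)]
    rw [e]
    exact binom_bz_add M y d
  · obtain ⟨d, rfl⟩ := Int.le.dest h
    have e : |(x : ℝ) - ((x + d : ℤ) : ℝ)| = d := by
      push_cast
      rw [abs_sub_comm, add_sub_cancel_left, abs_of_nonneg (by positivity)]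
    rw [e, abs_sub_comm]
    exact binom_bz_add M x d

theorem sum_sz {ι : Type} [Fintype ι] [DecidableEq ι] (f : ℕ → ℝ) :
    ∑ b : ι → Bool, f (sz b) =
      ∑ j ∈ range (Fintype.card ι + 1), ((Fintype.card ι).choose j : ℝ) * f j := by
  have h := Finset.sum_powerset_apply_card f (x := (univ : Finset ι))
  rw [Finset.card_univ] at h
  simp only [nsmul_eq_mul] at h
  rw [← h]
  refine Finset.sum_bij' (fun b _ => univ.filter (fun i => b i = true))
    (fun S _ => fun i => decide (i ∈ S)) ?_ ?_ ?_ ?_ ?_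
  · intro b _; simp
  · intro S _; simp
  · intro b _; funext i; simp
  · intro S _; ext i; simp
  · intro b _; rfl

/-- The number of words of sum `n - s` on `n` letters; compare with the middle coefficient of
`M = 2n - s - 1` by `bz_lip`. -/
theorem dtot : ∃ c0 : ℝ, 0 < c0 ∧ ∀ s : ℕ, ∃ n0 : ℕ, ∀ n : ℕ, n0 ≤ n →
    c0 * 2 ^ (n + (n - s)) / √(n : ℝ) ≤ (((n - s + n - 1).choose (n - s) : ℕ) : ℝ) := by
  refine ⟨1 / 16, by norm_num, fun s => ⟨256 * (s + 1) ^ 2, fun n hn => ?_⟩⟩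
  have hsn : s + 2 ≤ n := by nlinarith
  set M := n - s + n - 1 with hM
  set m := M / 2 with hm
  have hM1 : n + (n - s) = M + 1 := by omega
  have hm1 : 1 ≤ m := by omega
  have hnpos : (0 : ℝ) < n := by exact_mod_cast (show 0 < n by omega)
  have hr : (0 : ℝ) < √(n : ℝ) := Real.sqrt_pos.2 hnpos
  have hrr : √(n : ℝ) * √(n : ℝ) = n := Real.mul_self_sqrt hnpos.le
  have hbig : 16 * ((s : ℝ) + 1) ≤ √(n : ℝ) := by
    refine Real.le_sqrt_of_sq_le ?_
    have : ((256 * (s + 1) ^ 2 : ℕ) : ℝ) ≤ n := by exact_mod_cast hn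
    push_cast at this
    linarith [show (16 * ((s : ℝ) + 1)) ^ 2 = 256 * ((s : ℝ) + 1) ^ 2 by ring]
  have h1 := central_lower m hm1
  have h2 : (((2 * m).choose m : ℕ) : ℝ) ≤ (M.choose m : ℝ) := by
    exact_mod_cast Nat.choose_le_choose m (show 2 * m ≤ M by omega)
  have h3 : (2 : ℝ) ^ M / (4 * √(n : ℝ)) ≤ 4 ^ m / (2 * √(m : ℝ)) := by
    have hmr : (0 : ℝ) < √(m : ℝ) := Real.sqrt_pos.2 (by exact_mod_cast hm1)
    have hle : √(m : ℝ) ≤ √(n : ℝ) := Real.sqrt_le_sqrt (by exact_mod_cast (show m ≤ n by omega))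
    have hp : (2 : ℝ) ^ M ≤ 2 * 4 ^ m := by
      have a : (2 : ℝ) ^ M ≤ 2 ^ (2 * m + 1) := pow_le_pow_right₀ (by norm_num) (by omega)
      rw [pow_succ, pow_mul] at a
      norm_num at a
      linarith
    rw [div_le_div_iff₀ (by positivity) (by positivity)]
    have h4 : (0 : ℝ) < 4 ^ m := by positivity
    calc (2 : ℝ) ^ M * (2 * √(m : ℝ)) ≤ (2 * 4 ^ m) * (2 * √(n : ℝ)) :=
          mul_le_mul hp (by linarith) (by positivity) (by positivity)
      _ = 4 ^ m * (4 * √(n : ℝ)) := by ring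
  have h4 := bz_lip M (m : ℤ) ((n - s : ℕ) : ℤ)
  have e1 : bz M (m : ℤ) = (M.choose m : ℝ) := by simp [bz]
  have e2 : bz M ((n - s : ℕ) : ℤ) = (M.choose (n - s) : ℝ) := by
    unfold bz
    rw [if_pos (by omega), Int.toNat_natCast]
  rw [e1, e2] at h4
  have h5 : |((m : ℤ) : ℝ) - (((n - s : ℕ) : ℤ) : ℝ)| ≤ (s : ℝ) + 1 := by
    have a : |(m : ℤ) - ((n - s : ℕ) : ℤ)| ≤ (s : ℤ) + 1 := by
      rw [abs_le]; constructor <;> omega
    exact_mod_cast a
  have h6 : (2 : ℝ) ^ (M + 1) / ((M : ℝ) + 1) ≤ 2 ^ (M + 1) / n := by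
    refine div_le_div_of_nonneg_left (by positivity) hnpos ?_
    exact_mod_cast (show n ≤ M + 1 by omega)
  have h7 : (2 : ℝ) ^ (M + 1) / n * ((s : ℝ) + 1) ≤ 2 ^ M / (8 * √(n : ℝ)) := by
    rw [div_mul_eq_mul_div, div_le_div_iff₀ hnpos (by positivity), pow_succ]
    have hp : (0 : ℝ) < 2 ^ M := by positivity
    calc (2 : ℝ) ^ M * 2 * ((s : ℝ) + 1) * (8 * √(n : ℝ))
        = 2 ^ M * ((16 * ((s : ℝ) + 1)) * √(n : ℝ)) := by ring
      _ ≤ 2 ^ M * (√(n : ℝ) * √(n : ℝ)) :=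
          mul_le_mul_of_nonneg_left (mul_le_mul_of_nonneg_right hbig hr.le) hp.le
      _ = 2 ^ M * n := by rw [hrr]
  have h8 : |(M.choose m : ℝ) - (M.choose (n - s) : ℝ)| ≤ 2 ^ M / (8 * √(n : ℝ)) :=
    le_trans h4 (le_trans (mul_le_mul h6 h5 (abs_nonneg _) (by positivity)) h7)
  have h9 := (abs_le.1 h8).2
  have e3 : (1 / 16 : ℝ) * 2 ^ (n + (n - s)) / √(n : ℝ) = 2 ^ M / (8 * √(n : ℝ)) := by
    rw [hM1, pow_succ]
    field_simp
    ring
  have e4 : (2 : ℝ) ^ M / (4 * √(n : ℝ)) = 2 * (2 ^ M / (8 * √(n : ℝ))) := by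
    field_simp
    ring
  rw [e3]
  linarith

/-- From `choose_mul_dist`. -/
theorem sz_large (c : ℝ) (hc : 0 < c) (s : ℕ) : ∃ n0 : ℕ, ∀ n : ℕ, n0 ≤ n → ∀ k : ℕ,
    c / √(n : ℝ) ≤ (wt (n - s) k : ℝ) / 2 ^ (n - s) → n ≤ 4 * k := by
  obtain ⟨n1, hn1⟩ := exists_nat_gt ((2 / c) ^ 2)
  refine ⟨n1 + 4 * s + 4, fun n hn k hk => ?_⟩
  by_contra hlt
  have hnpos : (0 : ℝ) < n := by exact_mod_cast (show 0 < n by omega)
  have hr : (0 : ℝ) < √(n : ℝ) := Real.sqrt_pos.2 hnpos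
  have hrr : √(n : ℝ) * √(n : ℝ) = n := Real.mul_self_sqrt hnpos.le
  have hbig : 2 / c < √(n : ℝ) := by
    refine Real.lt_sqrt_of_sq_lt (lt_of_lt_of_le hn1 ?_)
    exact_mod_cast (show n1 ≤ n by omega)
  rw [div_lt_iff₀ hc] at hbig
  by_cases hk0 : k = 0
  · have : (0 : ℝ) < c / √(n : ℝ) := by positivity
    simp [wt, hk0] at hk
    linarith
  · obtain ⟨N, hN⟩ : ∃ N, n - s = N + 1 := ⟨n - s - 1, by omega⟩
    obtain ⟨j, rfl⟩ : ∃ j, k = j + 1 := ⟨k - 1, by omega⟩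
    have e : wt (n - s) (j + 1) = N.choose j := by simp [wt, hN]
    rw [e, hN, div_le_div_iff₀ hr (by positivity), pow_succ] at hk
    have h1 := choose_mul_dist N j
    have h2 : (n : ℝ) / 4 ≤ |2 * (j : ℝ) - N| + 1 := by
      have a : n + 8 * j ≤ 4 * N + 4 := by omega
      have a' : (n : ℝ) + 8 * j ≤ 4 * N + 4 := by exact_mod_cast a
      have := neg_le_abs (2 * (j : ℝ) - N)
      linarith
    have hC : (0 : ℝ) ≤ (N.choose j : ℝ) := by positivity
    have h3 : (N.choose j : ℝ) * ((n : ℝ) / 4) ≤ 2 ^ N :=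
      le_trans (mul_le_mul_of_nonneg_left h2 hC) h1
    have hp : (0 : ℝ) < 2 ^ N := by positivity
    have h4 : c * (2 ^ N * 2) * √(n : ℝ) ≤ (N.choose j : ℝ) * √(n : ℝ) * √(n : ℝ) :=
      mul_le_mul_of_nonneg_right hk hr.le
    rw [mul_assoc (N.choose j : ℝ), hrr] at h4
    have h5 : (2 : ℝ) ^ N * 2 < 2 ^ N * (√(n : ℝ) * c) := mul_lt_mul_of_pos_left hbig hp
    linarith

theorem catalan_succ_le (m : ℕ) : catalan (m + 1) ≤ 4 * catalan m := by
  have h1 := succ_mul_catalan_eq_centralBinom m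
  have h2 := succ_mul_catalan_eq_centralBinom (m + 1)
  have h3 := Nat.succ_mul_centralBinom_succ m
  have hp : 0 < (m + 1) * (m + 1 + 1) := by positivity
  refine Nat.le_of_mul_le_mul_left ?_ hp
  calc (m + 1) * (m + 1 + 1) * catalan (m + 1)
      = (m + 1) * ((m + 1 + 1) * catalan (m + 1)) := by ring
    _ = ((m + 1) * catalan m) * (2 * (2 * m + 1)) := by rw [h2, h3, h1]; ring
    _ ≤ ((m + 1) * catalan m) * (4 * (m + 1 + 1)) := Nat.mul_le_mul_left _ (by omega)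
    _ = (m + 1) * (m + 1 + 1) * (4 * catalan m) := by ring

theorem choose_eq_catalan (n : ℕ) (hn : 2 ≤ n) :
    (n - 2 + n - 1).choose (n - 2) = (2 * n - 3) * catalan (n - 2) := by
  obtain ⟨k, rfl⟩ : ∃ k, n = k + 2 := ⟨n - 2, by omega⟩
  have e1 : k + 2 - 2 = k := by omega
  have e2 : k + (k + 2) - 1 = 2 * k + 1 := by omega
  have e3 : 2 * (k + 2) - 3 = 2 * k + 1 := by omega
  rw [e1, e2, e3]
  have h1 := succ_mul_catalan_eq_centralBinom k
  rw [Nat.centralBinom_eq_two_mul_choose] at h1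
  have h2 := Nat.add_one_mul_choose_eq (2 * k) k
  rw [Nat.choose_symm_half] at h2
  refine Nat.eq_of_mul_eq_mul_left (show 0 < k + 1 by omega) ?_
  calc (k + 1) * (2 * k + 1).choose k = (2 * k + 1) * (2 * k).choose k := by rw [h2]; ring
    _ = (k + 1) * ((2 * k + 1) * catalan k) := by rw [← h1]; ring

/-- `nb(n, n - s) ≤ nb(n, n - 2)`: the step from `x` to `x + 1` has ratio `(x+n)/(x+1) ≥ 2`. -/
theorem choose_shift_le (n s : ℕ) (hs : 2 ≤ s) (hn : s ≤ n) :
    (n - s + n - 1).choose (n - s) * 2 ^ s ≤ 4 * (n - 2 + n - 1).choose (n - 2) := by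
  induction s, hs using Nat.le_induction with
  | base => exact le_of_eq (mul_comm _ _)
  | succ s hs ih =>
    refine le_trans ?_ (ih (by omega))
    obtain ⟨x, hx⟩ : ∃ x, n - (s + 1) = x := ⟨_, rfl⟩
    have e1 : n - s = x + 1 := by omega
    have e2 : x + 1 + n - 1 = (x + n - 1) + 1 := by omega
    rw [hx, e1, e2]
    have h := Nat.add_one_mul_choose_eq (x + n - 1) x
    have h2 : 2 * (x + n - 1).choose x ≤ (x + n - 1 + 1).choose (x + 1) := by
      refine Nat.le_of_mul_le_mul_right ?_ (show 0 < x + 1 by omega)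
      rw [← h, mul_right_comm]
      exact Nat.mul_le_mul_right _ (by omega)
    calc (x + n - 1).choose x * 2 ^ (s + 1) = (2 * (x + n - 1).choose x) * 2 ^ s := by ring
      _ ≤ _ := Nat.mul_le_mul_right _ h2

end Pool.Agent.Lib.MP_04fdae_co.G
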