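import Mathlib
import Pool.Agent.Lib.MP_04fdae_co.G.Defs

/-! The kernel: product expectations. -/

namespace Pool.Agent.Lib.MP_04fdae_co.G

open Finset
open scoped ENNReal

theorem ind_true {p : Prop} (h : p) : ind p = 1 := by simp [ind, h]

theorem ind_false {p : Prop} (h : ¬ p) : ind p = 0 := by simp [ind, h]

theorem ind_le_one (p : Prop) : ind p ≤ 1 := by
  by_cases h : p <;> simp [ind, h]

theorem ind_and (p q : Prop) : ind (p ∧ q) = ind p * ind q := by
  by_cases h : p <;> by_cases h' : q <;> simp [ind, h, h']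

theorem ind_mono {p q : Prop} (h : p → q) : ind p ≤ ind q := by
  by_cases hp : p
  · rw [ind_true hp, ind_true (h hp)]
  · rw [ind_false hp]; exact zero_le

theorem ind_congr {p q : Prop} (h : p ↔ q) : ind p = ind q := by rw [propext h]

variable {ι A B : Type} [Fintype ι] {w : A → ℝ≥0∞}

theorem Ex_mono {F G : (ι → A) → ℝ≥0∞} (h : ∀ x, F x ≤ G x) : Ex w F ≤ Ex w G := by
  exact ENNReal.tsum_le_tsum fun x => mul_le_mul_right (h x) _

theorem Ex_add (F G : (ι → A) → ℝ≥0∞) : Ex w (fun x => F x + G x) = Ex w F + Ex w G := by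
  unfold Ex
  rw [← ENNReal.tsum_add]
  exact tsum_congr fun x => mul_add _ _ _

theorem Ex_mul_left (c : ℝ≥0∞) (F : (ι → A) → ℝ≥0∞) : Ex w (fun x => c * F x) = c * Ex w F := by
  unfold Ex
  rw [← ENNReal.tsum_mul_left]
  exact tsum_congr fun x => by ring

theorem Ex_mul_right (c : ℝ≥0∞) (F : (ι → A) → ℝ≥0∞) : Ex w (fun x => F x * c) = Ex w F * c := by
  unfold Ex
  rw [← ENNReal.tsum_mul_right]
  exact tsum_congr fun x => by ring

theorem Ex_sum {β : Type} (s : Finset β) (F : β → (ι → A) → ℝ≥0∞) :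
    Ex w (fun x => ∑ j ∈ s, F j x) = ∑ j ∈ s, Ex w (F j) := by
  classical
  induction s using Finset.induction_on with
  | empty => simp [Ex]
  | insert a s ha ih =>
    simp only [sum_insert ha]
    rw [Ex_add, ih]

theorem Ex_tsum {β : Type} (F : β → (ι → A) → ℝ≥0∞) :
    Ex w (fun x => ∑' j, F j x) = ∑' j, Ex w (F j) := by
  unfold Ex
  rw [ENNReal.tsum_comm]
  exact tsum_congr fun x => ENNReal.tsum_mul_left.symm

theorem ker_tsum_fin (k : ℕ) (f : Fin k → A → ℝ≥0∞) :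
    ∑' x : Fin k → A, ∏ i, f i (x i) = ∏ i, ∑' a, f i a := by
  induction k with
  | zero => simp
  | succ k ih =>
    rw [← (Fin.consEquiv (fun _ : Fin (k + 1) => A)).tsum_eq, ENNReal.tsum_prod',
      Fin.prod_univ_succ, ← ih, ← ENNReal.tsum_mul_right]
    refine tsum_congr fun a => ?_
    rw [← ENNReal.tsum_mul_left]
    refine tsum_congr fun x => ?_
    simp [Fin.prod_univ_succ, Fin.consEquiv]

theorem ker_tsum_pi (f : ι → A → ℝ≥0∞) :
    ∑' x : ι → A, ∏ i, f i (x i) = ∏ i, ∑' a, f i a := by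
  let e := Fintype.equivFin ι
  rw [← (Equiv.arrowCongr e.symm (Equiv.refl A)).tsum_eq]
  have h1 := ker_tsum_fin _ (fun i => f (e.symm i))
  rw [← e.symm.prod_comp (fun i => ∑' a, f i a), ← h1]
  refine tsum_congr fun x => ?_
  rw [← e.symm.prod_comp]
  simp

theorem Ex_prod (f : ι → A → ℝ≥0∞) :
    Ex w (fun x => ∏ i, f i (x i)) = ∏ i, ∑' a, w a * f i a := by
  rw [← ker_tsum_pi]
  exact tsum_congr fun x => by rw [prod_mul_distrib]

theorem Ex_const (hw : ∑' a, w a = 1) (c : ℝ≥0∞) : Ex w (fun _ : ι → A => c) = c := by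
  have h := Ex_prod (w := w) (fun (_ : ι) (_ : A) => (1 : ℝ≥0∞))
  simp only [prod_const_one, mul_one, hw] at h
  have h2 := Ex_mul_left (w := w) c (fun _ : ι → A => 1)
  simp only [mul_one, h] at h2
  exact h2

variable [DecidableEq ι]

/-- Exchange the coordinates of `S` between two words. -/
def kerSwap (A : Type) (S : Finset ι) : ((ι → A) × (ι → A)) ≃ ((ι → A) × (ι → A)) where
  toFun p := (S.piecewise p.2 p.1, S.piecewise p.1 p.2)
  invFun p := (S.piecewise p.2 p.1, S.piecewise p.1 p.2)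
  left_inv p := by
    ext i <;> by_cases h : i ∈ S <;> simp [h]
  right_inv p := by
    ext i <;> by_cases h : i ∈ S <;> simp [h]

theorem Ex_splice (hw : ∑' a, w a = 1) (S : Finset ι) (F : (ι → A) → ℝ≥0∞) :
    Ex w F = Ex w (fun y => Ex w (fun x => F (S.piecewise x y))) := by
  have h1 : Ex w F = Ex w (fun y => Ex w (fun _ : ι → A => F y)) := by
    congr 1; ext y; rw [Ex_const hw]
  rw [h1]
  unfold Ex
  simp only [← ENNReal.tsum_mul_left]
  rw [← ENNReal.tsum_prod, ← ENNReal.tsum_prod, ← (kerSwap A S).tsum_eq]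
  refine tsum_congr fun p => ?_
  simp only [kerSwap, Equiv.coe_fn_mk, ← mul_assoc, ← prod_mul_distrib]
  congr 1
  refine prod_congr rfl fun i _ => ?_
  by_cases h : i ∈ S <;> simp [h, mul_comm]

/-- Condition on the sites outside `S`. -/
theorem Ex_le_of_splice (hw : ∑' a, w a = 1) (S : Finset ι) {F H : (ι → A) → ℝ≥0∞}
    (h : ∀ y, Ex w (fun x => F (S.piecewise x y)) ≤ H y) : Ex w F ≤ Ex w H := by
  rw [Ex_splice hw S F]
  exact Ex_mono h

theorem Ex_indep (hw : ∑' a, w a = 1) {S T : Set ι} (hST : Disjoint S T)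
    {F G : (ι → A) → ℝ≥0∞} (hF : Dep S F) (hG : Dep T G) :
    Ex w (fun x => F x * G x) = Ex w F * Ex w G := by
  classical
  rw [Ex_splice hw (univ.filter (fun i => i ∈ S)), ← Ex_mul_left]
  congr 1
  ext y
  rw [← Ex_mul_right]
  congr 1
  ext x
  congr 1
  · exact hF _ _ fun i hi => by simp [hi]
  · refine hG _ _ fun i hi => ?_
    have : i ∉ S := fun h => Set.disjoint_left.mp hST h hi
    simp [this]

theorem ker_single (hw : ∑' a, w a = 1) (i : ι) (f : A → ℝ≥0∞) :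
    Ex w (fun x : ι → A => f (x i)) = ∑' a, w a * f a := by
  have h := Ex_prod (w := w) (fun (j : ι) (a : A) => if j = i then f a else 1)
  simp only [prod_ite_eq', mem_univ, if_true] at h
  rw [h, prod_eq_single i]
  · simp
  · intro j _ hj
    simp [hj, hw]
  · simp

theorem Ex_update (hw : ∑' a, w a = 1) (i : ι) (F : (ι → A) → ℝ≥0∞) :
    Ex w F = ∑' a, w a * Ex w (fun x => F (Function.update x i a)) := by
  rw [Ex_splice hw {i} F]
  have h1 : ∀ y : ι → A, Ex w (fun x => F (({i} : Finset ι).piecewise x y)) =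
      ∑' a, w a * F (Function.update y i a) := by
    intro y
    rw [← ker_single hw i (fun a => F (Function.update y i a))]
    congr 1
    ext x
    rw [piecewise_singleton]
  simp only [h1]
  rw [Ex_tsum]
  exact tsum_congr fun a => Ex_mul_left _ _

theorem Ex_single (hw : ∑' a, w a = 1) (i : ι) (f : A → ℝ≥0∞) :
    Ex w (fun x : ι → A => f (x i)) = ∑' a, w a * f a := by
  exact ker_single hw i f

theorem ker_ind_eq {β : Type} (c : β) (f : β → ℝ≥0∞) : ∑' z, ind (c = z) * f z = f c := by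
  rw [tsum_eq_single c]
  · simp [ind]
  · intro z hz
    rw [ind_false (fun h => hz h.symm), zero_mul]

theorem ker_ind_forall (p : ι → Prop) : ind (∀ i, p i) = ∏ i, ind (p i) := by
  by_cases h : ∀ i, p i
  · rw [ind_true h]
    exact (prod_eq_one fun i _ => ind_true (h i)).symm
  · rw [ind_false h]
    obtain ⟨i, hi⟩ := not_forall.mp h
    exact (prod_eq_zero (mem_univ i) (ind_false hi)).symm

theorem Ex_map {w' : B → ℝ≥0∞} (φ : A → B) (h : ∀ b, ∑' a, w a * ind (φ a = b) = w' b)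
    (F : (ι → B) → ℝ≥0∞) : Ex w (fun x => F (fun i => φ (x i))) = Ex w' F := by
  have h1 : ∀ x : ι → A, F (fun i => φ (x i)) =
      ∑' z : ι → B, (∏ i, ind (φ (x i) = z i)) * F z := by
    intro x
    rw [← ker_ind_eq (fun i => φ (x i)) F]
    refine tsum_congr fun z => ?_
    rw [← ker_ind_forall, ind_congr funext_iff]
  simp only [h1]
  rw [Ex_tsum]
  refine tsum_congr fun z => ?_
  rw [Ex_mul_right, Ex_prod (fun i a => ind (φ a = z i))]
  simp only [h]

theorem Ex_pair (w' : B → ℝ≥0∞) (F : (ι → A × B) → ℝ≥0∞) :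
    Ex (fun a : A × B => w a.1 * w' a.2) F =
      Ex w (fun x => Ex w' (fun y => F (fun i => (x i, y i)))) := by
  unfold Ex
  simp only [← ENNReal.tsum_mul_left]
  rw [← ENNReal.tsum_prod, ← (Equiv.arrowProdEquivProdArrow ι (fun _ => A) (fun _ => B)).symm.tsum_eq]
  refine tsum_congr fun p => ?_
  simp only [Equiv.arrowProdEquivProdArrow, Equiv.coe_fn_symm_mk, prod_mul_distrib, mul_assoc]

theorem Ex_bool (F : (ι → Bool) → ℝ≥0∞) :
    Ex (fun _ : Bool => (2⁻¹ : ℝ≥0∞)) F = (2⁻¹ : ℝ≥0∞) ^ Fintype.card ι * ∑ b, F b := by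
  unfold Ex
  rw [tsum_fintype, mul_sum]
  simp

theorem tsum_gw : ∑' v, gw v = 1 := by
  unfold gw
  rw [ENNReal.tsum_geometric_add_one]
  simp [ENNReal.inv_mul_cancel]

theorem tsum_w2 : ∑' a, w2 a = 1 := by
  unfold w2
  rw [ENNReal.tsum_prod', tsum_fintype]
  have : ∑' c : ℕ × ℕ, (2⁻¹ : ℝ≥0∞) * (gw c.1 * gw c.2) = 2⁻¹ := by
    rw [ENNReal.tsum_mul_left, ENNReal.tsum_prod']
    simp only [ENNReal.tsum_mul_left, tsum_gw, mul_one]
  simp only [this]
  simp [ENNReal.mul_inv_cancel]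

theorem gw_succ (v : ℕ) : gw (v + 1) = 2⁻¹ * gw v := by
  unfold gw; rw [pow_succ]; ring

theorem gw_eq_ofReal (v : ℕ) : gw v = ENNReal.ofReal ((1 / 2) ^ (v + 1)) := by
  unfold gw
  rw [ENNReal.ofReal_pow (by norm_num), ENNReal.ofReal_div_of_pos (by norm_num)]
  simp

theorem ker_mom (k : ℕ) : ∑' v, gw v * (((v + k).choose k : ℕ) : ℝ≥0∞) = 2 ^ k := by
  have h := hasSum_choose_mul_geometric_of_norm_lt_one (𝕜 := ℝ) k (r := 1 / 2) (by norm_num)
  have h2 := h.mul_left (1 / 2)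
  have h3 : ∀ v, gw v * (((v + k).choose k : ℕ) : ℝ≥0∞) =
      ENNReal.ofReal (1 / 2 * (((v + k).choose k : ℕ) * (1 / 2 : ℝ) ^ v)) := by
    intro v
    rw [gw_eq_ofReal, ← ENNReal.ofReal_natCast, ← ENNReal.ofReal_mul (by positivity)]
    congr 1; ring
  simp only [h3]
  rw [← ENNReal.ofReal_tsum_of_nonneg (fun v => by positivity) h2.summable, h2.tsum_eq]
  have : (1 / 2 * (1 / (1 - 1 / 2) ^ (k + 1)) : ℝ) = 2 ^ k := by
    rw [show (1 - 1 / 2 : ℝ) = 1 / 2 by norm_num, one_div_pow, one_div_one_div, pow_succ]; ring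
  rw [this, ENNReal.ofReal_pow (by norm_num)]
  simp

theorem ker_c2 (v : ℕ) : 2 * (v + 2).choose 2 = v ^ 2 + 3 * v + 2 := by
  induction v with
  | zero => simp
  | succ v ih =>
    rw [show v + 1 + 2 = (v + 2) + 1 by ring, Nat.choose_succ_succ' (v + 2) 1, Nat.choose_one_right]
    simp only [Nat.reduceAdd]
    nlinarith

theorem ker_c3 (v : ℕ) : 6 * (v + 3).choose 3 = v ^ 3 + 6 * v ^ 2 + 11 * v + 6 := by
  induction v with
  | zero => simp
  | succ v ih =>
    have := ker_c2 (v + 1)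
    rw [show v + 1 + 3 = (v + 3) + 1 by ring, Nat.choose_succ_succ' (v + 3) 2]
    simp only [Nat.reduceAdd]
    rw [show v + 1 + 2 = v + 3 by ring] at this
    nlinarith

theorem gw_mom1 : ∑' v, gw v * (v : ℝ≥0∞) = 1 := by
  have h := ker_mom 1
  simp only [Nat.choose_one_right, Nat.cast_add, Nat.cast_one, mul_add, mul_one,
    ENNReal.tsum_add, tsum_gw, pow_one] at h
  rw [← one_add_one_eq_two] at h
  exact (ENNReal.add_left_inj (by simp)).mp h

theorem gw_mom2 : ∑' v, gw v * (v : ℝ≥0∞) ^ 2 = 3 := by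
  have h : ∑' v, gw v * ((v : ℝ≥0∞) ^ 2 + 3 * v + 2) = 8 := by
    have h0 := ker_mom 2
    have h1 : ∀ v : ℕ, gw v * ((v : ℝ≥0∞) ^ 2 + 3 * v + 2) =
        2 * (gw v * (((v + 2).choose 2 : ℕ) : ℝ≥0∞)) := by
      intro v
      have : ((2 * (v + 2).choose 2 : ℕ) : ℝ≥0∞) = ((v ^ 2 + 3 * v + 2 : ℕ) : ℝ≥0∞) := by
        rw [ker_c2]
      push_cast at this
      rw [← this]; ring
    simp only [h1]
    rw [ENNReal.tsum_mul_left, h0]; norm_num
  have h2 : ∀ v : ℕ, gw v * ((v : ℝ≥0∞) ^ 2 + 3 * v + 2) =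
      gw v * (v : ℝ≥0∞) ^ 2 + (3 * (gw v * v) + 2 * gw v) := fun v => by ring
  simp only [h2, ENNReal.tsum_add, ENNReal.tsum_mul_left, gw_mom1, tsum_gw] at h
  rw [show (8 : ℝ≥0∞) = 3 + (3 * 1 + 2 * 1) by norm_num] at h
  exact (ENNReal.add_left_inj (by norm_num)).mp h

theorem gw_mom3 : ∑' v, gw v * (v : ℝ≥0∞) ^ 3 = 13 := by
  have h : ∑' v, gw v * ((v : ℝ≥0∞) ^ 3 + 6 * v ^ 2 + 11 * v + 6) = 48 := by
    have h0 := ker_mom 3
    have h1 : ∀ v : ℕ, gw v * ((v : ℝ≥0∞) ^ 3 + 6 * v ^ 2 + 11 * v + 6) =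
        6 * (gw v * (((v + 3).choose 3 : ℕ) : ℝ≥0∞)) := by
      intro v
      have : ((6 * (v + 3).choose 3 : ℕ) : ℝ≥0∞) =
          ((v ^ 3 + 6 * v ^ 2 + 11 * v + 6 : ℕ) : ℝ≥0∞) := by rw [ker_c3]
      push_cast at this
      rw [← this]; ring
    simp only [h1]
    rw [ENNReal.tsum_mul_left, h0]; norm_num
  have h2 : ∀ v : ℕ, gw v * ((v : ℝ≥0∞) ^ 3 + 6 * v ^ 2 + 11 * v + 6) =
      gw v * (v : ℝ≥0∞) ^ 3 + (6 * (gw v * (v : ℝ≥0∞) ^ 2) + (11 * (gw v * v) + 6 * gw v)) :=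
    fun v => by ring
  simp only [h2, ENNReal.tsum_add, ENNReal.tsum_mul_left, gw_mom1, gw_mom2, tsum_gw] at h
  rw [show (48 : ℝ≥0∞) = 13 + (6 * 3 + (11 * 1 + 6 * 1)) by norm_num] at h
  exact (ENNReal.add_left_inj (by norm_num)).mp h

theorem ker_push (v : ℕ) :
    ∑' a : Bool × ℕ, (2⁻¹ : ℝ≥0∞) * gw a.2 * ind ((if a.1 = true then a.2 + 1 else 0) = v) =
      gw v := by
  rw [ENNReal.tsum_prod', tsum_fintype, Fintype.sum_bool]
  simp only [if_true, Bool.false_eq_true, if_false]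
  cases v with
  | zero =>
    have h1 : ∀ m : ℕ, ind (m + 1 = 0) = 0 := fun m => ind_false (by omega)
    simp only [h1, mul_zero, tsum_zero, zero_add, ind_true trivial, mul_one, ENNReal.tsum_mul_left,
      tsum_gw]
    simp [gw]
  | succ v =>
    have h1 : ind (0 = v + 1) = 0 := ind_false (by omega)
    simp only [h1, mul_zero, tsum_zero, add_zero]
    rw [tsum_eq_single v]
    · rw [ind_true rfl, mul_one, gw_succ]
    · intro m hm
      rw [ind_false (by omega), mul_zero]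

/-- Annealed = average of quenched. -/
theorem Ex_gw_eq (F : (ι → ℕ) → ℝ≥0∞) :
    Ex gw F = (2⁻¹ : ℝ≥0∞) ^ Fintype.card ι * ∑ b : ι → Bool, qE b F := by
  rw [← Ex_map (w := fun a : Bool × ℕ => (2⁻¹ : ℝ≥0∞) * gw a.2)
    (fun a => if a.1 = true then a.2 + 1 else 0) ker_push F,
    Ex_pair (w := fun _ : Bool => (2⁻¹ : ℝ≥0∞)) gw, Ex_bool]
  rfl

/-- Two copies with the same canopy. -/
theorem Ex_w2_eq (F G : (ι → ℕ) → ℝ≥0∞) :
    Ex w2 (fun ω => F (fun i => l1 (ω i)) * G (fun i => l2 (ω i))) =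
      (2⁻¹ : ℝ≥0∞) ^ Fintype.card ι * ∑ b : ι → Bool, qE b F * qE b G := by
  have h := Ex_pair (ι := ι) (w := fun _ : Bool => (2⁻¹ : ℝ≥0∞))
    (fun c : ℕ × ℕ => gw c.1 * gw c.2)
    (fun ω => F (fun i => l1 (ω i)) * G (fun i => l2 (ω i)))
  have h0 : w2 = fun a : Bool × ℕ × ℕ => (2⁻¹ : ℝ≥0∞) * (gw a.2.1 * gw a.2.2) := rfl
  rw [h0, h, Ex_bool]
  congr 1
  refine sum_congr rfl fun b _ => ?_
  rw [Ex_pair (w := gw) gw]
  unfold qE
  rw [← Ex_mul_right]
  congr 1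
  ext x
  rw [← Ex_mul_left]
  rfl

theorem qE_const (b : ι → Bool) (c : ℝ≥0∞) : qE b (fun _ => c) = c := Ex_const tsum_gw c

theorem Ex_l1 (F : (ι → ℕ) → ℝ≥0∞) : Ex w2 (fun ω => F (fun i => l1 (ω i))) = Ex gw F := by
  have h := Ex_w2_eq F (fun _ => 1)
  simp only [mul_one, qE_const] at h
  rw [h, Ex_gw_eq]

theorem Ex_l2 (F : (ι → ℕ) → ℝ≥0∞) : Ex w2 (fun ω => F (fun i => l2 (ω i))) = Ex gw F := by
  have h := Ex_w2_eq (fun _ => 1) F
  simp only [one_mul, qE_const] at h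
  rw [h, Ex_gw_eq]

theorem qE_mono (b : ι → Bool) {F G : (ι → ℕ) → ℝ≥0∞} (h : ∀ x, F x ≤ G x) : qE b F ≤ qE b G :=
  Ex_mono fun _ => h _

theorem bm_piecewise (b : ι → Bool) (S : Finset ι) (x y : ι → ℕ) :
    bm b (S.piecewise x y) = S.piecewise (bm b x) (bm b y) := by
  ext i
  by_cases h : i ∈ S <;> simp [bm, h]

theorem qE_le_of_splice (b : ι → Bool) (S : Finset ι) {F H : (ι → ℕ) → ℝ≥0∞}
    (h : ∀ y, qE b (fun x => F (S.piecewise x y)) ≤ H y) : qE b F ≤ qE b H := by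
  refine Ex_le_of_splice tsum_gw S fun y => ?_
  simp only [bm_piecewise]
  exact h (bm b y)

theorem qE_indep (b : ι → Bool) {S T : Set ι} (hST : Disjoint S T)
    {F G : (ι → ℕ) → ℝ≥0∞} (hF : Dep S F) (hG : Dep T G) :
    qE b (fun x => F x * G x) = qE b F * qE b G := by
  refine Ex_indep tsum_gw hST (F := fun m => F (bm b m)) (G := fun m => G (bm b m)) ?_ ?_
  · exact fun x y h => hF _ _ fun i hi => by simp [bm, h i hi]
  · exact fun x y h => hG _ _ fun i hi => by simp [bm, h i hi]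

/-- A functional of the sites of `S` sees the canopy only on `S`. -/
theorem qE_congr {S : Set ι} {F : (ι → ℕ) → ℝ≥0∞} (hF : Dep S F) {b b' : ι → Bool}
    (h : ∀ i ∈ S, b i = b' i) : qE b F = qE b' F := by
  unfold qE
  congr 1
  ext m
  exact hF _ _ fun i hi => by simp [bm, h i hi]

end Pool.Agent.Lib.MP_04fdae_co.G
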