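import Mathlib
import Pool.Agent.Lib.MP_04fdae_co.G.Ker
import Pool.Agent.Lib.MP_04fdae_co.G.Binom

/-! Counting words and anti-concentration of block sums. -/

namespace Pool.Agent.Lib.MP_04fdae_co.G

open Finset
open scoped ENNReal

theorem anti_card_pi {ι : Type} [DecidableEq ι] (s : Finset ι) (y : ℕ) :
    (piAntidiag s y).card = (s.card + y - 1).choose y := by
  rw [← Finset.card_finsuppAntidiag_nat_eq_choose]
  simp [Finset.finsuppAntidiag]

theorem anti_ind_forall {ι : Type} [Fintype ι] (p : ι → Prop) :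
    ind (∀ i, p i) = ∏ i, ind (p i) := by
  by_cases h : ∀ i, p i
  · rw [ind_true h]
    exact (Finset.prod_eq_one fun i _ => ind_true (h i)).symm
  · rw [ind_false h]
    push Not at h
    obtain ⟨i, hi⟩ := h
    exact (Finset.prod_eq_zero (Finset.mem_univ i) (ind_false hi)).symm

theorem anti_tsum_pt (v : ℕ) : ∑' a, gw a * ind (a = v) = gw v := by
  rw [tsum_eq_single v]
  · rw [ind_true rfl, mul_one]
  · intro a ha
    rw [ind_false ha, mul_zero]

theorem anti_ofReal (c x : ℕ) :
    (c : ℝ≥0∞) * (2⁻¹ : ℝ≥0∞) ^ x = ENNReal.ofReal ((c : ℝ) / 2 ^ x) := by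
  rw [ENNReal.ofReal_div_of_pos (by positivity), ENNReal.ofReal_natCast,
    ENNReal.ofReal_pow (by norm_num), ENNReal.ofReal_ofNat, div_eq_mul_inv, ENNReal.inv_pow]

section

variable {ι : Type} [Fintype ι] [DecidableEq ι]

theorem anti_cyl (J : Finset ι) (g : ι → ℕ) :
    Ex gw (fun m : ι → ℕ => ind (∀ i, i ∈ J → m i = g i)) =
      (2⁻¹ : ℝ≥0∞) ^ (∑ i ∈ J, g i + J.card) := by
  have h1 : (fun m : ι → ℕ => ind (∀ i, i ∈ J → m i = g i)) =
      fun m : ι → ℕ => ∏ i, (fun i a => ind (i ∈ J → a = g i)) i (m i) := by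
    funext m
    exact anti_ind_forall _
  rw [h1, Ex_prod (fun i a => ind (i ∈ J → a = g i))]
  have h2 : ∀ i, ∑' a, gw a * ind (i ∈ J → a = g i) = if i ∈ J then gw (g i) else 1 := by
    intro i
    by_cases hi : i ∈ J
    · rw [if_pos hi, ← anti_tsum_pt (g i)]
      refine tsum_congr fun a => ?_
      rw [ind_congr (p := i ∈ J → a = g i) (q := a = g i) ⟨fun h => h hi, fun h _ => h⟩]
    · rw [if_neg hi, ← tsum_gw]
      refine tsum_congr fun a => ?_
      rw [ind_true (fun h => absurd h hi), mul_one]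
  simp only [h2]
  rw [Finset.prod_ite_mem, Finset.univ_inter]
  simp only [gw]
  rw [Finset.prod_pow_eq_pow_sum, Finset.sum_add_distrib]
  simp

theorem anti_negbin (J : Finset ι) (y : ℕ) :
    Ex gw (fun m : ι → ℕ => ind (∑ i ∈ J, m i = y)) =
      (((J.card + y - 1).choose y : ℕ) : ℝ≥0∞) * (2⁻¹ : ℝ≥0∞) ^ (y + J.card) := by
  have h1 : (fun m : ι → ℕ => ind (∑ i ∈ J, m i = y)) =
      fun m : ι → ℕ => ∑ g ∈ piAntidiag J y, ind (∀ i, i ∈ J → m i = g i) := by
    funext m
    by_cases h : ∑ i ∈ J, m i = y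
    · rw [ind_true h, Finset.sum_eq_single (fun i => if i ∈ J then m i else 0)]
      · rw [ind_true]
        intro i hi
        simp [hi]
      · intro g hg hne
        refine ind_false fun hc => hne ?_
        funext i
        by_cases hi : i ∈ J
        · simp [hi, hc i hi]
        · have := (mem_piAntidiag.1 hg).2 i
          simp only [hi, if_false]
          by_contra h0
          exact hi (this h0)
      · intro hn
        exfalso
        refine hn (mem_piAntidiag.2 ⟨?_, ?_⟩)
        · rw [← h]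
          exact Finset.sum_congr rfl fun i hi => by simp [hi]
        · intro i hi
          by_contra h0
          simp [h0] at hi
    · rw [ind_false h]
      refine (Finset.sum_eq_zero fun g hg => ind_false fun hc => h ?_).symm
      rw [← (mem_piAntidiag.1 hg).1]
      exact Finset.sum_congr rfl hc
  rw [h1, Ex_sum, Finset.sum_congr rfl (g := fun _ => (2⁻¹ : ℝ≥0∞) ^ (y + J.card))]
  · rw [Finset.sum_const, anti_card_pi, nsmul_eq_mul]
  · intro g hg
    rw [anti_cyl, (mem_piAntidiag.1 hg).1]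

theorem anti_sum_bm (b : ι → Bool) (I : Finset ι) (m : ι → ℕ) :
    ∑ i ∈ I, bm b m i = ∑ i ∈ I.filter (fun i => b i = true), m i +
      (I.filter (fun i => b i = true)).card := by
  simp only [bm]
  rw [← Finset.sum_filter, Finset.sum_add_distrib]
  simp

/-- Exact law of a block sum under a fixed canopy (induction on `I` with `Ex_update`). -/
theorem qE_sum_eq (b : ι → Bool) (I : Finset ι) (x : ℕ) :
    qE b (fun o => ind (∑ i ∈ I, o i = x)) =
      ENNReal.ofReal ((if (I.filter (fun i => b i = true)).card = 0 then (if x = 0 then 1 else 0)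
        else if x = 0 then 0
        else (((x - 1).choose ((I.filter (fun i => b i = true)).card - 1) : ℕ) : ℝ)) / 2 ^ x) := by
  unfold qE
  simp only [anti_sum_bm]
  generalize I.filter (fun i => b i = true) = J
  by_cases hx : J.card ≤ x
  · obtain ⟨y, rfl⟩ := Nat.exists_eq_add_of_le' hx
    have h1 : (fun m : ι → ℕ => ind (∑ i ∈ J, m i + J.card = y + J.card)) =
        fun m : ι → ℕ => ind (∑ i ∈ J, m i = y) := by
      funext m
      exact ind_congr (by omega)
    rw [h1, anti_negbin, anti_ofReal]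
    congr 2
    by_cases hk : J.card = 0
    · rw [if_pos hk, hk]
      rcases y with _ | y
      · simp
      · simp
    · rw [if_neg hk, if_neg (by omega)]
      congr 1
      rw [add_comm y]
      exact Nat.choose_symm_of_eq_add (by omega)
  · have h1 : (fun m : ι → ℕ => ind (∑ i ∈ J, m i + J.card = x)) = fun _ => 0 := by
      funext m
      exact ind_false (by omega)
    rw [h1, Ex_const tsum_gw, if_neg (by omega)]
    by_cases h0 : x = 0
    · simp [h0]
    · rw [if_neg h0, Nat.choose_eq_zero_of_lt (by omega)]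
      simp

theorem qE_sum_le (b : ι → Bool) (I : Finset ι) (x : ℕ) :
    qE b (fun o => ind (∑ i ∈ I, o i = x)) ≤ ENNReal.ofReal (1 / √((x : ℝ) + 1)) := by
  rw [qE_sum_eq]
  refine ENNReal.ofReal_le_ofReal ?_
  rcases x with _ | x
  · split_ifs <;> simp_all
  · have hpos : (0 : ℝ) ≤ 1 / √(((x + 1 : ℕ) : ℝ) + 1) := by positivity
    rw [if_neg (Nat.succ_ne_zero x), if_neg (Nat.succ_ne_zero x)]
    split_ifs with h1
    · rw [zero_div]
      exact hpos
    · rw [Nat.add_sub_cancel]
      have h := choose_le_sqrt x ((I.filter (fun i => b i = true)).card - 1)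
      have hs : √(((x + 1 : ℕ) : ℝ) + 1) ≤ 2 * √((x : ℝ) + 1) := by
        rw [Real.sqrt_le_iff]
        refine ⟨by positivity, ?_⟩
        rw [mul_pow, Real.sq_sqrt (by positivity)]
        push_cast
        have : (0 : ℝ) ≤ x := by positivity
        linarith
      have hp : (0 : ℝ) < √((x : ℝ) + 1) := by positivity
      have hp2 : (0 : ℝ) < √(((x + 1 : ℕ) : ℝ) + 1) := by positivity
      calc _ ≤ (2 ^ x / √((x : ℝ) + 1)) / 2 ^ (x + 1) := by gcongr
        _ = 1 / (2 * √((x : ℝ) + 1)) := by rw [pow_succ]; field_simp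
        _ ≤ _ := one_div_le_one_div_of_le hp2 hs

theorem qE_sum_le' (b : ι → Bool) (I : Finset ι) (x : ℕ) :
    qE b (fun o => ind (∑ i ∈ I, o i = x)) ≤
      ENNReal.ofReal (1 / √(((I.filter (fun i => b i = true)).card : ℝ) + 1)) := by
  by_cases hx : (I.filter (fun i => b i = true)).card ≤ x
  · refine (qE_sum_le b I x).trans (ENNReal.ofReal_le_ofReal ?_)
    have : (((I.filter (fun i => b i = true)).card : ℕ) : ℝ) ≤ x := by exact_mod_cast hx
    gcongr
  · have h1 : (fun m : ι → ℕ => ind (∑ i ∈ I, bm b m i = x)) = fun _ => 0 := by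
      funext m
      rw [anti_sum_bm]
      exact ind_false (by omega)
    unfold qE
    rw [h1, Ex_const tsum_gw]
    exact zero_le

theorem Ex_sum_le (I : Finset ι) (x : ℕ) :
    Ex gw (fun o : ι → ℕ => ind (∑ i ∈ I, o i = x)) ≤ ENNReal.ofReal (2 / √((I.card : ℝ) + 1)) := by
  have h := qE_sum_le' (fun _ : ι => true) I (x + I.card)
  unfold qE at h
  simp only [anti_sum_bm, Finset.filter_true, Nat.add_right_cancel_iff] at h
  refine h.trans (ENNReal.ofReal_le_ofReal ?_)
  gcongr
  norm_num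

theorem anti_sum_restrict (I : Finset ι) (f : ℕ → ℝ) :
    ∑ b : ι → Bool, f (I.filter (fun i => b i = true)).card =
      2 ^ (Fintype.card ι - I.card) * ∑ j ∈ range (I.card + 1), (I.card.choose j : ℝ) * f j := by
  have h := sum_sz (ι := {i // i ∈ I}) f
  rw [Fintype.card_coe] at h
  rw [← h]
  rw [← (Equiv.piEquivPiSubtypeProd (fun i => i ∈ I) (fun _ => Bool)).symm.sum_comp,
    Fintype.sum_prod_type, Finset.mul_sum]
  refine Finset.sum_congr rfl fun b1 _ => ?_
  rw [Finset.sum_congr rfl (g := fun _ => f (sz b1))]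
  · rw [Finset.sum_const, Finset.card_univ, Fintype.card_fun, Fintype.card_subtype_compl,
      Fintype.card_coe, nsmul_eq_mul]
    simp
  · intro b2 _
    congr 1
    unfold sz
    refine Finset.card_bij (fun i hi => ⟨i, (Finset.mem_filter.1 hi).1⟩) ?_ ?_ ?_
    · intro i hi
      have h1 := Finset.mem_filter.1 hi
      have h2 := h1.2
      simp only [Equiv.piEquivPiSubtypeProd_symm_apply, h1.1, dif_pos] at h2
      simpa using h2
    · intro i _ j _ hij
      exact congrArg Subtype.val hij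
    · intro j hj
      refine ⟨j.1, Finset.mem_filter.2 ⟨j.2, ?_⟩, rfl⟩
      simp only [Equiv.piEquivPiSubtypeProd_symm_apply, j.2, dif_pos]
      simpa using hj

theorem anti_avg (t : ℕ) :
    ∑ j ∈ range (t + 1), (t.choose j : ℝ) * (1 / ((j : ℝ) + 1)) ≤ 2 ^ (t + 1) / ((t : ℝ) + 1) := by
  have h1 : ∀ j, (t.choose j : ℝ) * (1 / ((j : ℝ) + 1)) =
      (((t + 1).choose (j + 1) : ℕ) : ℝ) / ((t : ℝ) + 1) := by
    intro j
    have h := Nat.add_one_mul_choose_eq t j
    have h' : ((t : ℝ) + 1) * (t.choose j : ℝ) = (((t + 1).choose (j + 1) : ℕ) : ℝ) * (j + 1) := by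
      exact_mod_cast h
    field_simp
    linarith
  simp only [h1]
  rw [← Finset.sum_div]
  gcongr
  have h2 := Nat.sum_range_choose (t + 1)
  rw [Finset.sum_range_succ'] at h2
  have h3 : ∑ j ∈ range (t + 1), (t + 1).choose (j + 1) ≤ 2 ^ (t + 1) := by omega
  exact_mod_cast h3

/-- `Ex_w2_eq`, `qE_sum_le'` twice, and the average of `1/(j+1)` is at most `2/(t+1)`. -/
theorem Ex2_sum_le (I : Finset ι) (x y : ℕ) :
    Ex w2 (fun ω : ι → Om => ind (∑ i ∈ I, l1 (ω i) = x ∧ ∑ i ∈ I, l2 (ω i) = y)) ≤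
      ENNReal.ofReal (2 / ((I.card : ℝ) + 1)) := by
  simp only [ind_and]
  rw [Ex_w2_eq (fun o => ind (∑ i ∈ I, o i = x)) (fun o => ind (∑ i ∈ I, o i = y))]
  have h1 : ∀ b : ι → Bool, qE b (fun o => ind (∑ i ∈ I, o i = x)) *
      qE b (fun o => ind (∑ i ∈ I, o i = y)) ≤
      ENNReal.ofReal (1 / (((I.filter (fun i => b i = true)).card : ℝ) + 1)) := by
    intro b
    refine (mul_le_mul' (qE_sum_le' b I x) (qE_sum_le' b I y)).trans (le_of_eq ?_)
    rw [← ENNReal.ofReal_mul (by positivity), div_mul_div_comm, one_mul,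
      Real.mul_self_sqrt (by positivity)]
  refine (mul_le_mul' le_rfl (Finset.sum_le_sum fun b _ => h1 b)).trans ?_
  rw [← ENNReal.ofReal_sum_of_nonneg (fun b _ => by positivity),
    anti_sum_restrict I (fun j => 1 / ((j : ℝ) + 1))]
  have h2 := anti_ofReal 1 (Fintype.card ι)
  rw [Nat.cast_one, one_mul] at h2
  rw [h2, ← ENNReal.ofReal_mul (by positivity)]
  refine ENNReal.ofReal_le_ofReal ?_
  obtain ⟨r, hr⟩ := Nat.exists_eq_add_of_le (Finset.card_le_univ I)
  rw [hr, Nat.add_sub_cancel_left]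
  calc _ ≤ ((1 : ℕ) : ℝ) / 2 ^ (I.card + r) * (2 ^ r * (2 ^ (I.card + 1) / ((I.card : ℝ) + 1))) := by
        gcongr
        exact anti_avg _
    _ = _ := by
        rw [pow_add, pow_succ]
        push_cast
        field_simp

end

variable {n : ℕ} [NeZero n]

theorem mem_Wd {N : ℕ} {o : ZMod n → ℕ} : o ∈ Wd n N ↔ ∑ i, o i = N := by
  simp [Wd]

theorem can_bm (b : ZMod n → Bool) (m : ZMod n → ℕ) : can (bm b m) = b := by
  funext i
  cases h : b i <;> simp [can, bm, h]

theorem anti_pt (b : ZMod n → Bool) (o : ZMod n → ℕ) (h : can o = b) :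
    Ex gw (fun m : ZMod n → ℕ => ind (bm b m = o)) = (2⁻¹ : ℝ≥0∞) ^ (∑ i, o i) := by
  have hb : ∀ i, b i = true ↔ o i ≠ 0 := by
    intro i
    rw [← h]
    simp [can]
  have h1 : (fun m : ZMod n → ℕ => ind (bm b m = o)) = fun m : ZMod n → ℕ =>
      ind (∀ i, i ∈ univ.filter (fun i => b i = true) → m i = o i - 1) := by
    funext m
    refine ind_congr ⟨fun hm i hi => ?_, fun hm => funext fun i => ?_⟩
    · have hi' := (Finset.mem_filter.1 hi).2
      rw [← hm]
      simp [bm, hi']
    · by_cases hi : b i = true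
      · have h2 := hm i (Finset.mem_filter.2 ⟨Finset.mem_univ _, hi⟩)
        have h3 := (hb i).1 hi
        simp only [bm, hi, if_true]
        omega
      · have h3 : o i = 0 := by
          by_contra h0
          exact hi ((hb i).2 h0)
        simp [bm, hi, h3]
  rw [h1, anti_cyl, ← anti_sum_bm b univ (fun i => o i - 1)]
  congr 1
  refine Finset.sum_congr rfl fun i _ => ?_
  by_cases hi : b i = true
  · have h3 := (hb i).1 hi
    simp only [bm, hi, if_true]
    omega
  · have h3 : o i = 0 := by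
      by_contra h0
      exact hi ((hb i).2 h0)
    simp [bm, hi, h3]

theorem qE_slice (b : ZMod n → Bool) (N : ℕ) (X : (ZMod n → ℕ) → Prop) :
    qE b (fun o => ind (∑ i, o i = N ∧ X o)) = ENNReal.ofReal (pr b N X) := by
  classical
  unfold qE pr cw
  have h1 : (fun m : ZMod n → ℕ => ind (∑ i, bm b m i = N ∧ X (bm b m))) = fun m : ZMod n → ℕ =>
      ∑ o ∈ (Wd n N).filter (fun o => can o = b ∧ X o), ind (bm b m = o) := by
    funext m
    by_cases h : ∑ i, bm b m i = N ∧ X (bm b m)
    · rw [ind_true h, Finset.sum_eq_single (bm b m)]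
      · rw [ind_true rfl]
      · intro o _ hne
        exact ind_false fun hc => hne hc.symm
      · intro hn
        exact absurd (Finset.mem_filter.2 ⟨mem_Wd.2 h.1, can_bm b m, h.2⟩) hn
    · rw [ind_false h]
      refine (Finset.sum_eq_zero fun o ho => ind_false fun hc => h ?_).symm
      have h2 := Finset.mem_filter.1 ho
      rw [hc]
      exact ⟨mem_Wd.1 h2.1, h2.2.2⟩
  rw [h1, Ex_sum, Finset.sum_congr rfl (g := fun _ => (2⁻¹ : ℝ≥0∞) ^ N)]
  · rw [Finset.sum_const, nsmul_eq_mul, anti_ofReal]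
  · intro o ho
    have h2 := Finset.mem_filter.1 ho
    rw [anti_pt b o h2.2.1, mem_Wd.1 h2.1]

theorem cw_true (b : ZMod n → Bool) {N : ℕ} (hN : 1 ≤ N) :
    cw b N (fun _ => True) = wt N (sz b) := by
  have h1 := qE_slice b N (fun _ => True)
  simp only [and_true] at h1
  rw [qE_sum_eq b univ N] at h1
  have hN0 : N ≠ 0 := by omega
  rw [if_neg hN0, if_neg hN0] at h1
  rw [ENNReal.ofReal_eq_ofReal_iff (by split_ifs <;> positivity) (by unfold pr; positivity)] at h1
  unfold pr at h1
  rw [div_left_inj' (by positivity)] at h1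
  unfold wt sz
  split_ifs at h1 ⊢ with hk
  · exact_mod_cast h1.symm
  · exact_mod_cast h1.symm

open Classical in
theorem sum_cw (N : ℕ) (X : (ZMod n → ℕ) → Prop) :
    ∑ b : ZMod n → Bool, cw b N X = ((Wd n N).filter X).card := by
  rw [Finset.card_eq_sum_card_fiberwise (f := can) (t := univ) (fun _ _ => Finset.mem_univ _)]
  refine Finset.sum_congr rfl fun b _ => ?_
  unfold cw
  rw [Finset.filter_filter]
  congr 1
  ext o
  simp only [Finset.mem_filter, and_comm]

open Classical in
/-- Prescribed values on `P`, lower bounds on `Q`. -/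
theorem card_pat (P Q : Finset (ZMod n)) (hPQ : Disjoint P Q) (hP : P.card < n) (g : ZMod n → ℕ)
    (x y : ℕ) (hx : x = y + ∑ i ∈ P ∪ Q, g i) :
    ((Wd n x).filter (fun ω => (∀ i ∈ P, ω i = g i) ∧ ∀ i ∈ Q, g i ≤ ω i)).card =
      (y + (n - P.card) - 1).choose y := by
  have hc : (univ \ P).card = n - P.card := by
    rw [Finset.card_univ_sdiff, ZMod.card]
  rw [← hc, add_comm y, ← anti_card_pi]
  have hg : ∑ i, (if i ∈ P ∪ Q then g i else 0) = ∑ i ∈ P ∪ Q, g i := by
    rw [Finset.sum_ite_mem, Finset.univ_inter]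
  symm
  refine Finset.card_bij (fun u _ => fun i => u i + if i ∈ P ∪ Q then g i else 0) ?_ ?_ ?_
  · intro u hu
    obtain ⟨h1, h2⟩ := mem_piAntidiag.1 hu
    have h0 : ∀ i ∈ P, u i = 0 := by
      intro i hi
      by_contra h
      exact (Finset.mem_sdiff.1 (h2 i h)).2 hi
    refine Finset.mem_filter.2 ⟨mem_Wd.2 ?_, fun i hi => ?_, fun i hi => ?_⟩
    · rw [Finset.sum_add_distrib, hg, hx, ← h1]
      congr 1
      symm
      refine Finset.sum_subset (Finset.subset_univ _) fun i _ hi => ?_
      by_contra h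
      exact hi (h2 i h)
    · simp [h0 i hi, hi]
    · simp [hi]
  · intro u _ v _ huv
    funext i
    have := congrFun huv i
    simpa using this
  · intro ω hω
    obtain ⟨h1, h2, h3⟩ := Finset.mem_filter.1 hω
    have hle : ∀ i, (if i ∈ P ∪ Q then g i else 0) ≤ ω i := by
      intro i
      split_ifs with hi
      · rcases Finset.mem_union.1 hi with hi | hi
        · exact (h2 i hi).ge
        · exact h3 i hi
      · exact Nat.zero_le _
    have hz : ∀ i ∈ P, ω i - (if i ∈ P ∪ Q then g i else 0) = 0 := by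
      intro i hi
      simp [hi, h2 i hi]
    refine ⟨fun i => ω i - if i ∈ P ∪ Q then g i else 0, mem_piAntidiag.2 ⟨?_, fun i hi => ?_⟩, ?_⟩
    · have h4 : ∑ i, ω i = ∑ i, (ω i - if i ∈ P ∪ Q then g i else 0) +
          ∑ i, (if i ∈ P ∪ Q then g i else 0) := by
        rw [← Finset.sum_add_distrib]
        exact Finset.sum_congr rfl fun i _ => (Nat.sub_add_cancel (hle i)).symm
      have h5 : ∑ i ∈ univ \ P, (ω i - if i ∈ P ∪ Q then g i else 0) =
          ∑ i, (ω i - if i ∈ P ∪ Q then g i else 0) := by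
        refine Finset.sum_subset (Finset.subset_univ _) fun i _ hi => hz i ?_
        by_contra h
        exact hi (Finset.mem_sdiff.2 ⟨Finset.mem_univ _, h⟩)
      have h6 := mem_Wd.1 h1
      rw [hg] at h4
      change ∑ i ∈ univ \ P, (ω i - if i ∈ P ∪ Q then g i else 0) = y
      omega
    · exact Finset.mem_sdiff.2 ⟨Finset.mem_univ _, fun h => hi (hz i h)⟩
    · funext i
      exact Nat.sub_add_cancel (hle i)

theorem card_Wd (n : ℕ) [NeZero n] (N : ℕ) : (Wd n N).card = (N + n - 1).choose N := by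
  rw [Wd, anti_card_pi, Finset.card_univ, ZMod.card, add_comm]

end Pool.Agent.Lib.MP_04fdae_co.G
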