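import Mathlib
import Pool.Agent.Lib.MP_04fdae_co.G.Defs

/-! The cube lemma: Bessel and Harris. -/

namespace Pool.Agent.Lib.MP_04fdae_co.G

open Finset
open scoped ENNReal FinsetFamily

section
variable {V : Type} [Fintype V] [DecidableEq V]

lemma iu_swap (S : Finset V) (f g : (V → Bool) → ℝ) (hg : ∀ x z, g (S.piecewise x z) = g x) :
    ∑ x, (∑ z, f (S.piecewise x z)) * g x = 2 ^ Fintype.card V * ∑ x, f x * g x := by
  have i : Function.Involutive fun p : (V → Bool) × (V → Bool) =>
      (S.piecewise p.1 p.2, S.piecewise p.2 p.1) := fun p => by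
    ext v <;> by_cases hv : v ∈ S <;> simp [hv]
  have h := Equiv.sum_comp i.toPerm fun p => f p.1 * g p.1
  simp only [Function.Involutive.coe_toPerm, Fintype.sum_prod_type, hg, sum_const, card_univ,
    Fintype.card_fun, Fintype.card_bool, nsmul_eq_mul, ← mul_sum] at h
  simp only [sum_mul, h]
  push_cast
  rfl

/-- Bessel for the section densities over disjoint sets -/
lemma iu_bessel {J : Type} [Fintype J] [DecidableEq J] (Λ : J → Finset V)
    (hΛ : ∀ j j', j ≠ j' → Disjoint (Λ j) (Λ j')) (f : (V → Bool) → ℝ) :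
    ∑ j, ∑ x, ((∑ z, f ((Λ j).piecewise x z) - ∑ z, f z) / 2 ^ Fintype.card V) ^ 2 ≤
      ∑ x, f x ^ 2 := by
  set g : J → (V → Bool) → ℝ := fun j x =>
    (∑ z, f ((Λ j).piecewise x z) - ∑ z, f z) / 2 ^ Fintype.card V with hg
  have hN : (0 : ℝ) < 2 ^ Fintype.card V := by positivity
  have d1 : ∀ j x z, g j ((Λ j).piecewise x z) = g j x := fun j x z => by
    simp only [hg, piecewise_idem_left]
  have d2 : ∀ j j', j ≠ j' → ∀ x z, g j' ((Λ j).piecewise x z) = g j' z := fun j j' h x z => by
    rw [← d1 j' _ z]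
    congr 1
    funext v
    by_cases hv : v ∈ Λ j'
    · simp [hv, disjoint_right.1 (hΛ j j' h) hv]
    · simp [hv]
  have m0 : ∀ j, ∑ x, g j x = 0 := fun j => by
    have h := iu_swap (Λ j) f (fun _ => 1) fun _ _ => rfl
    simp only [mul_one] at h
    simp only [hg, ← sum_div, sum_sub_distrib, h]
    simp
  have o1 : ∀ j j', j ≠ j' → ∑ x, g j x * g j' x = 0 := fun j j' h => by
    have h1 := iu_swap (Λ j) (g j') (g j) (d1 j)
    simp only [d2 j j' h, m0, zero_mul, sum_const_zero] at h1
    simpa only [mul_comm] using (mul_eq_zero.1 h1.symm).resolve_left hN.ne'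
  have o2 : ∀ j, ∑ x, f x * g j x = ∑ x, g j x ^ 2 := fun j => by
    refine mul_left_cancel₀ hN.ne' ((iu_swap (Λ j) f (g j) (d1 j)).symm.trans ?_)
    have e : ∀ x, (∑ z, f ((Λ j).piecewise x z)) * g j x =
        2 ^ Fintype.card V * g j x ^ 2 + (∑ z, f z) * g j x := fun x => by
      simp only [hg]; field_simp; ring
    simp only [e, sum_add_distrib, ← mul_sum, m0, mul_zero, add_zero]
  have o3 : ∑ x, (∑ j, g j x) ^ 2 = ∑ j, ∑ x, g j x ^ 2 := by
    simp only [sq, sum_mul_sum]
    rw [sum_comm]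
    refine sum_congr rfl fun j _ => ?_
    rw [sum_comm, sum_eq_single j (fun j' _ h => o1 j j' h.symm) (by simp)]
  have o4 : ∑ x, f x * ∑ j, g j x = ∑ j, ∑ x, g j x ^ 2 := by
    simp only [mul_sum]
    rw [sum_comm]
    exact sum_congr rfl fun j _ => o2 j
  have h : 0 ≤ ∑ x, (f x - ∑ j, g j x) ^ 2 := sum_nonneg fun _ _ => sq_nonneg _
  simp only [sub_sq, mul_assoc, sum_add_distrib, sum_sub_distrib, ← mul_sum (a := (2 : ℝ)), o3,
    o4] at h
  linarith

/-- two families with a common one and a common zero in every pair are small -/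
lemma iu_harris (B B' : Finset (V → Bool))
    (h : ∀ w ∈ B, ∀ w' ∈ B', ∀ c, ∃ v, w v = c ∧ w' v = c) :
    16 * ((B.card : ℝ) * B'.card) ≤ (2 ^ Fintype.card V) ^ 2 := by
  have hc : (univ : Finset (V → Bool)).card = 2 ^ Fintype.card V := by simp
  have inj : Function.Injective fun (y : V → Bool) v => !y v := fun y y' e =>
    funext fun v => Bool.not_inj (congrFun e v)
  have key : ∀ U U' : Finset (V → Bool), (∀ y ∈ U, (fun v => !y v) ∉ U') →
      4 * ((U.card : ℝ) * U'.card) ≤ (2 ^ Fintype.card V) ^ 2 := fun U U' hU => by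
    have h1 : (U.image fun y v => !y v).card + U'.card ≤ 2 ^ Fintype.card V := by
      rw [← card_union_of_disjoint (disjoint_left.2 fun y hy => by
        obtain ⟨y', hy', rfl⟩ := mem_image.1 hy
        exact hU y' hy'), ← hc]
      exact card_le_univ _
    rw [card_image_of_injective _ inj] at h1
    have h2 : (U.card : ℝ) + U'.card ≤ 2 ^ Fintype.card V := by exact_mod_cast h1
    have h3 : ((U.card : ℝ) + U'.card) ^ 2 ≤ (2 ^ Fintype.card V) ^ 2 :=
      pow_le_pow_left₀ (by positivity) h2 2
    nlinarith [sq_nonneg ((U.card : ℝ) - U'.card)]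
  have k1 := key (B ⊻ univ) (B' ⊻ univ) fun y hy hy' => by
    obtain ⟨w, hw, t, -, rfl⟩ := mem_sups.1 hy
    obtain ⟨w', hw', t', -, e⟩ := mem_sups.1 hy'
    obtain ⟨v, h1, h2⟩ := h w hw w' hw' true
    have := congrFun e v
    simp [h1, h2] at this
  have k2 := key (B ⊼ univ) (B' ⊼ univ) fun y hy hy' => by
    obtain ⟨w, hw, t, -, rfl⟩ := mem_infs.1 hy
    obtain ⟨w', hw', t', -, e⟩ := mem_infs.1 hy'
    obtain ⟨v, h1, h2⟩ := h w hw w' hw' false
    have := congrFun e v
    simp [h1, h2] at this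
  have d : ∀ C : Finset (V → Bool), (C.card : ℝ) * 2 ^ Fintype.card V ≤
      (C ⊼ univ).card * (C ⊻ univ).card := fun C => by
    have := le_card_infs_mul_card_sups C univ
    rw [hc] at this
    exact_mod_cast this
  have hN : (0 : ℝ) < (2 ^ Fintype.card V) ^ 2 := by positivity
  have h1 := mul_le_mul (d B) (d B') (by positivity) (by positivity)
  have h2 := mul_le_mul k1 k2 (by positivity) (by positivity)
  exact le_of_mul_le_mul_right (by nlinarith) hN

end

/-- IU.  Bessel: the section densities `h_j` of `H` over the disjoint sets `Λ j` have variances of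
sum at most `1`; so for some `j` and some `y` both sections (at `y` and at its complement) have
density above `1/4`.  If they had no such pair, the up-closures (after the flip `σ j`, outside
`Λ j`) have densities of sum at most `1`, the down-closures too, and Harris-Kleitman
(`IsUpperSet.card_inter_le_finset`) bounds the product of the densities by `1/16`. -/
theorem iu {V : Type} [Fintype V] [DecidableEq V] (e : ℝ) (he : 0 < e) (N0 : ℕ)
    (hN : 2 < N0 * e ^ 2) (Λ : Fin N0 → Finset V)
    (hΛ : ∀ j j', j ≠ j' → Disjoint (Λ j) (Λ j')) (σ : Fin N0 → V → Bool)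
    (H : Finset (V → Bool)) (hH : (1 / 4 + e) * 2 ^ Fintype.card V ≤ H.card) :
    ∃ j, ∃ x ∈ H, ∃ x' ∈ H, ∃ c : Bool, (∀ v ∈ Λ j, x v ≠ x' v) ∧
      ∀ v, v ∉ Λ j → x v = x' v → x v = xor c (σ j v) := by
  by_contra hcon
  push Not at hcon
  set N : ℝ := 2 ^ Fintype.card V with hNd
  have hN0 : 0 < N := by positivity
  set f : (V → Bool) → ℝ := fun x => if x ∈ H then 1 else 0 with hf
  have hs : ∑ z, f z = H.card := by simp [hf]
  have hb := iu_bessel Λ hΛ f
  have hf2 : ∑ x, f x ^ 2 ≤ N := by
    refine (sum_le_card_nsmul _ _ 1 fun x _ => ?_).trans (by simp [hNd])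
    simp only [hf]
    split_ifs <;> norm_num
  set A : Fin N0 → (V → Bool) → Finset (V → Bool) := fun j x =>
    univ.filter fun z => (Λ j).piecewise x z ∈ H with hA
  have hc : ∀ j x, ∑ z, f ((Λ j).piecewise x z) = (A j x).card := fun j x => by simp [hf, hA]
  have pair : ∀ j x, e ^ 2 ≤ ((((A j x).card : ℝ) - H.card) / N) ^ 2 +
      ((((A j fun v => !x v).card : ℝ) - H.card) / N) ^ 2 := fun j x => by
    have inj : Function.Injective fun (z : V → Bool) v => xor (z v) (σ j v) := fun z z' h =>
      funext fun v => Bool.xor_left_inj.1 (congrFun h v)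
    have h := iu_harris ((A j x).image fun z v => xor (z v) (σ j v))
      ((A j fun v => !x v).image fun z v => xor (z v) (σ j v)) fun w hw w' hw' c => by
        obtain ⟨z, hz, rfl⟩ := mem_image.1 hw
        obtain ⟨z', hz', rfl⟩ := mem_image.1 hw'
        obtain ⟨v, h1, h2, h3⟩ := hcon j _ (mem_filter.1 hz).2 _ (mem_filter.1 hz').2 (!c)
          fun v hv => by simp [hv]
        simp only [piecewise_eq_of_notMem _ _ _ h1] at h2 h3
        have bb : ∀ a b d : Bool, a ≠ xor (!b) d → xor a d = b := by decide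
        exact ⟨v, bb _ _ _ h3, bb _ _ _ (h2 ▸ h3)⟩
    rw [card_image_of_injective _ inj, card_image_of_injective _ inj, ← hNd] at h
    have one : ∀ a : ℝ, 4 * a ≤ N → e ^ 2 ≤ ((a - H.card) / N) ^ 2 := fun a ha => by
      rw [← neg_sq ((a - _) / N)]
      refine pow_le_pow_left₀ he.le ?_ 2
      rw [← neg_div, le_div_iff₀ hN0]
      linarith
    by_cases h1 : 4 * ((A j x).card : ℝ) ≤ N
    · exact le_add_of_le_of_nonneg (one _ h1) (sq_nonneg _)
    · refine le_add_of_nonneg_of_le (sq_nonneg _) (one _ (not_lt.1 fun h2 => ?_))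
      have := mul_lt_mul'' (not_le.1 h1) h2 hN0.le hN0.le
      nlinarith
  have each : ∀ j, N * e ^ 2 ≤ 2 * ∑ x, ((((A j x).card : ℝ) - H.card) / N) ^ 2 := fun j => by
    have i : Function.Involutive fun (x : V → Bool) v => !x v := fun x => by simp
    have h1 := Equiv.sum_comp i.toPerm fun x => ((((A j x).card : ℝ) - H.card) / N) ^ 2
    have h2 := sum_le_sum fun x (_ : x ∈ univ) => pair j x
    simp only [Function.Involutive.coe_toPerm] at h1
    rw [sum_add_distrib, h1, sum_const, card_univ, Fintype.card_fun, Fintype.card_bool,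
      nsmul_eq_mul] at h2
    push_cast at h2
    linarith
  have tot := sum_le_sum fun j (_ : j ∈ univ) => each j
  simp only [hc, hs, ← hNd] at hb
  rw [sum_const, ← mul_sum, card_univ, Fintype.card_fin, nsmul_eq_mul] at tot
  nlinarith [mul_lt_mul_of_pos_left hN hN0]

end Pool.Agent.Lib.MP_04fdae_co.G
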