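import Mathlib
import Pool.Agent.Lib.MP_04fdae_co.G.Binom

/-! Freeing the zones, and the geometry of zones and cores. -/

namespace Pool.Agent.Lib.MP_04fdae_co.G

open Finset
open scoped ENNReal

theorem t1_pascal (M : ℕ) (x : ℤ) : bz (M + 1) x = bz M x + bz M (x - 1) := by
  rcases lt_trichotomy x 0 with h | rfl | h
  · simp [bz, not_le.2 h, show ¬ 1 ≤ x by omega]
  · simp [bz]
  · obtain ⟨k, rfl⟩ : ∃ k : ℕ, x = k + 1 := ⟨(x - 1).toNat, by omega⟩
    have e : ((k : ℤ) + 1).toNat = k + 1 := by omega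
    simp only [bz, h.le, if_true, add_sub_cancel_right, Int.natCast_nonneg, Int.toNat_natCast, e,
      Nat.choose_succ_succ', Nat.cast_add, add_comm]

theorem t1_vdm (M A : ℕ) (x : ℤ) :
    bz (M + A) x = ∑ c ∈ range (A + 1), (A.choose c : ℝ) * bz M (x - c) := by
  induction A generalizing x with
  | zero => simp
  | succ A ih =>
    rw [← add_assoc, t1_pascal, ih, ih, sum_choose_succ_mul (fun c _ => bz M (x - c)) A]
    congr 1
    refine sum_congr rfl fun c _ => ?_
    rw [Nat.cast_succ, sub_sub, add_comm (1 : ℤ)]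

theorem t1_pow (M : ℕ) : ∑ j ∈ range (M + 1), (M.choose j : ℝ) = 2 ^ M := by
  exact_mod_cast Nat.sum_range_choose M

theorem t1_dev (M : ℕ) :
    ∑ j ∈ range (M + 1), (M.choose j : ℝ) * |2 * (j : ℝ) - M| ≤ 2 ^ M * √(M : ℝ) := by
  have h := sum_sq_le_sum_mul_sum_of_sq_le_mul (range (M + 1))
    (r := fun j => (M.choose j : ℝ) * |2 * (j : ℝ) - M|) (f := fun j => (M.choose j : ℝ))
    (g := fun j => (M.choose j : ℝ) * (2 * (j : ℝ) - M) ^ 2) (fun _ _ => by positivity)
    (fun _ _ => by positivity) (fun _ _ => le_of_eq (by rw [mul_pow, sq_abs]; ring))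
  rw [t1_pow, sum_choose_sq_dev] at h
  refine (abs_le_of_sq_le_sq' (h.trans_eq ?_) (by positivity)).2
  rw [mul_pow, Real.sq_sqrt (Nat.cast_nonneg M)]; ring

theorem t1_sub {ι : Type} [Fintype ι] (p : ι → Prop) [DecidablePred p] [Fintype {i // p i}]
    (b : ι → Bool) :
    sz (fun i : {i // p i} => b i) = ∑ i ∈ univ.filter p, if b i = true then 1 else 0 := by
  unfold sz
  rw [card_filter]
  exact (sum_subtype (p := p) (univ.filter p) (fun i => by simp)
    (fun i => if b i = true then 1 else 0)).symm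

theorem t1_split {ι : Type} [Fintype ι] (p : ι → Prop) [Fintype {i // p i}]
    [Fintype {i // ¬ p i}] (b : ι → Bool) :
    sz b = sz (fun i : {i // p i} => b i) + sz (fun i : {i // ¬ p i} => b i) := by
  classical
  rw [t1_sub p, t1_sub (fun i => ¬ p i), sum_filter_add_sum_filter_not]
  unfold sz
  rw [card_filter]

theorem t1_mean {ι : Type} [Fintype ι] [DecidableEq ι] (Y : Finset ι) :
    ∑ b : ι → Bool, |2 * (sz (fun i : {i // i ∈ Y} => b i) : ℝ) - Y.card| ≤
      2 ^ Fintype.card ι * √(Y.card : ℝ) := by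
  have h := sum_sz (ι := {i // i ∈ Y}) fun k => |2 * (k : ℝ) - Y.card|
  rw [Fintype.card_coe] at h
  have e := (Equiv.piEquivPiSubtypeProd (fun i => i ∈ Y) fun _ => Bool).sum_comp
    fun z => |2 * (sz z.1 : ℝ) - Y.card|
  rw [Fintype.sum_prod_type_right] at e
  simp only [sum_const, card_univ, Fintype.card_fun, Fintype.card_bool,
    Fintype.card_subtype_compl, Fintype.card_coe, nsmul_eq_mul, h] at e
  refine e.trans_le ?_
  have : (2 : ℝ) ^ Fintype.card ι = 2 ^ (Fintype.card ι - Y.card) * 2 ^ Y.card := by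
    rw [← pow_add, Nat.sub_add_cancel (card_le_univ Y)]
  rw [this, mul_assoc]
  push_cast
  exact mul_le_mul_of_nonneg_left (t1_dev _) (by positivity)

theorem t1_one (M A s k k' : ℕ) :
    |(wt (M + A + 1) (k + k') : ℝ) / 2 ^ (M + A) - (M.choose k' : ℕ) / 2 ^ M| ≤
      (|2 * (k : ℝ) - (A + s + 1 : ℕ)| + √((A + s + 1 : ℕ) : ℝ) + 2 * (s + 1)) / (M + 1) := by
  have w : (wt (M + A + 1) (k + k') : ℝ) = bz (M + A) ((k + k' : ℕ) - 1) := by
    rcases k + k' with _ | j <;> simp [wt, bz]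
  have w' : ((M.choose k' : ℕ) : ℝ) = bz M k' := by simp [bz]
  have e : bz (M + A) ((k + k' : ℕ) - 1) / 2 ^ (M + A) - bz M k' / 2 ^ M =
      (∑ c ∈ range (A + 1), (A.choose c : ℝ) * (bz M ((k + k' : ℕ) - 1 - c) - bz M k')) /
        2 ^ (M + A) := by
    simp only [mul_sub, sum_sub_distrib, ← sum_mul, t1_pow, ← t1_vdm]
    rw [pow_add]; field_simp
  rw [w, w', e, abs_div, abs_of_pos (show (0 : ℝ) < 2 ^ (M + A) by positivity),
    div_le_iff₀ (by positivity)]
  have b : ∀ c ∈ range (A + 1), |(A.choose c : ℝ) * (bz M ((k + k' : ℕ) - 1 - c) - bz M k')| ≤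
      2 ^ M / ((M : ℝ) + 1) * ((A.choose c : ℝ) * (|2 * (k : ℝ) - (A + s + 1 : ℕ)| + 2 * (s + 1)) +
        (A.choose c : ℝ) * |2 * (c : ℝ) - A|) := fun c _ => by
    have l := bz_lip M ((k + k' : ℕ) - 1 - c) k'
    have t : 2 * |(((k + k' : ℕ) - 1 - c : ℤ) : ℝ) - (k' : ℤ)| ≤
        |2 * (k : ℝ) - (A + s + 1 : ℕ)| + 2 * (s + 1) + |2 * (c : ℝ) - A| := by
      have h1 := le_abs_self (2 * (k : ℝ) - (A + s + 1 : ℕ))
      have h2 := neg_abs_le (2 * (k : ℝ) - (A + s + 1 : ℕ))
      have h3 := le_abs_self (2 * (c : ℝ) - A)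
      have h4 := neg_abs_le (2 * (c : ℝ) - A)
      have h5 : (0 : ℝ) ≤ s := Nat.cast_nonneg s
      push_cast at h1 h2 ⊢
      rcases abs_cases ((k : ℝ) + k' - 1 - c - k') with h | h <;> linarith [h.1]
    rw [abs_mul, Nat.abs_cast, ← mul_add, mul_left_comm]
    refine mul_le_mul_of_nonneg_left (l.trans ?_) (Nat.cast_nonneg _)
    rw [pow_succ, mul_div_right_comm, mul_assoc]
    exact mul_le_mul_of_nonneg_left t (by positivity)
  refine (abs_sum_le_sum_abs _ _).trans ((sum_le_sum b).trans ?_)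
  rw [← mul_sum, sum_add_distrib, ← sum_mul, t1_pow, pow_add]
  have d := (t1_dev A).trans (mul_le_mul_of_nonneg_left
    (Real.sqrt_le_sqrt (Nat.cast_le.2 (show A ≤ A + s + 1 by omega))) (by positivity))
  refine (mul_le_mul_of_nonneg_left (add_le_add_right d _) (by positivity)).trans_eq ?_
  ring

/-- T1.  With `N' = card ι - |Y|`: Vandermonde
`C(N-1,k-1) = ∑ c, C(|Y|-s-1, c) * bz N' (k-1-c)`, `bz_lip`, and the mean of
`|k_Y - 1 - c|` is at most `√|Y| + s + 1` (`sum_choose_sq_dev`, Cauchy-Schwarz). -/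
theorem t1 {ι : Type} [Fintype ι] [DecidableEq ι] (Y : Finset ι) (N s : ℕ)
    (hN : N + s = Fintype.card ι) (hY : s + 1 ≤ Y.card) :
    ∑ b : ι → Bool, |(wt N (sz b) : ℝ) / 2 ^ (N - 1) -
        ((Fintype.card ι - Y.card).choose (sz (fun i : {i // i ∉ Y} => b i)) : ℕ) /
          2 ^ (Fintype.card ι - Y.card)| ≤
      2 ^ Fintype.card ι *
        (2 * (√(Y.card : ℝ) + s + 1) / (((Fintype.card ι - Y.card : ℕ) : ℝ) + 1)) := by
  have hc := card_le_univ Y
  obtain ⟨A, hA⟩ : ∃ A, Y.card = A + s + 1 := ⟨Y.card - s - 1, by omega⟩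
  obtain ⟨M, hM⟩ : ∃ M, Fintype.card ι - Y.card = M := ⟨_, rfl⟩
  have e : N = M + A + 1 := by omega
  have m := t1_mean Y
  rw [hM, e, Nat.add_sub_cancel]
  simp only [t1_split (fun i => i ∈ Y)]
  refine (sum_le_sum fun b _ => t1_one M A s _ _).trans ?_
  rw [← hA, ← sum_div, ← mul_div_assoc]
  refine div_le_div_of_nonneg_right ?_ (by positivity)
  simp only [add_assoc, sum_add_distrib, sum_const, card_univ, Fintype.card_fun, Fintype.card_bool,
    nsmul_eq_mul]
  push_cast
  linarith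

/-- The block of a position. -/
def t1b (B M x : ℕ) : ℕ := min (x / B) (M - 1)

theorem t1b_mono {B M x y : ℕ} (h : x ≤ y) : t1b B M x ≤ t1b B M y :=
  min_le_min_right _ (Nat.div_le_div_right h)

theorem t1b_low (B M x : ℕ) : t1b B M x * B ≤ x :=
  (Nat.mul_le_mul_right _ (min_le_left _ _)).trans (Nat.div_mul_le_self x B)

theorem t1b_lt {M : ℕ} (hM : 1 ≤ M) (B x : ℕ) : t1b B M x < M :=
  (min_le_right _ _).trans_lt (by omega)

theorem t1b_ge {B M x c : ℕ} (hB : 0 < B) (hc : c < M) (h : c * B ≤ x) : c ≤ t1b B M x :=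
  le_min ((Nat.le_div_iff_mul_le hB).2 h) (by omega)

theorem t1b_eq {B M c t : ℕ} (hc : c < M) (h : t < B) : t1b B M (c * B + t) = c :=
  le_antisymm ((min_le_left _ _).trans (Nat.lt_succ_iff.1 ((Nat.div_lt_iff_lt_mul (by omega)).2
    (by rw [Nat.succ_mul]; omega)))) (t1b_ge (by omega) hc (by omega))

/-- Blocks of length `B = n / M` (the last takes the remainder), `blk i = min (i / B) (M - 1)`,
`off i = i - blk i * B`; `Y = {off < N0 L}`, `Λ j = {j L ≤ off < (j+1) L}`,
`β j i = blk (i - j L)`. -/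
theorem geo (n M N0 L : ℕ) [NeZero n] (hM : 1 ≤ M) (hL : M * (N0 * L) ≤ n) (hMn : M ≤ n) :
    ∃ (Y : Finset (ZMod n)) (Λ : Fin N0 → Finset (ZMod n)) (blk : ZMod n → Fin M)
      (β : Fin N0 → ZMod n → Fin M), Y.card = M * (N0 * L) ∧ (∀ j, Λ j ⊆ Y) ∧
      (∀ j j', j ≠ j' → Disjoint (Λ j) (Λ j')) ∧
      (∀ c, (univ.filter (fun i => blk i = c)).card ≤ n / M + M) ∧
      (∀ j i, i ∉ Y → β j i = blk i) ∧
      ∀ j (i : ZMod n) (d : ℕ), d ≤ L → i ∉ Λ j → i + (d : ZMod n) ∉ Λ j →
        β j i = β j (i + (d : ZMod n)) := by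
  set B := n / M with hBd
  have hB : 0 < B := Nat.div_pos hMn hM
  have hLB : N0 * L ≤ B := (Nat.le_div_iff_mul_le hM).2 (by rwa [mul_comm])
  have hMB : M * B ≤ n := Nat.mul_div_le n M
  have hn : n < M * B + M := by
    have : M * B + n % M = n := Nat.div_add_mod n M
    have := Nat.mod_lt n hM
    omega
  have lt : ∀ {c t : ℕ}, c < M → t < B → c * B + t < n := fun {c t} hc ht => by
    have := Nat.mul_le_mul_right B (Nat.succ_le_of_lt hc)
    rw [Nat.succ_mul] at this
    omega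
  have jl : ∀ j : Fin N0, j * L + L ≤ N0 * L := fun j => by
    have := Nat.mul_le_mul_right L (Nat.succ_le_of_lt j.2)
    rwa [Nat.succ_mul] at this
  let off : ZMod n → ℕ := fun i => i.val - t1b B M i.val * B
  have dec : ∀ i : ZMod n, i.val = t1b B M i.val * B + off i := fun i =>
    (Nat.add_sub_cancel' (t1b_low B M _)).symm
  have key : ∀ (j : Fin N0) (i : ZMod n), off (i - (j * L : ℕ)) < L →
      j * L ≤ off i ∧ off i < j * L + L := fun j i h => by
    have h1 := jl j
    have h2 := dec (i - (j * L : ℕ))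
    have h3 : i.val = t1b B M (i - (j * L : ℕ)).val * B + (off (i - (j * L : ℕ)) + j * L) := by
      rw [← ZMod.val_cast_of_lt (lt (t1b_lt hM B _) (by omega)), ← add_assoc, ← h2,
        Nat.cast_add, ZMod.natCast_zmod_val, sub_add_cancel]
    have h4 := dec i
    rw [h3, t1b_eq (t1b_lt hM B _) (by omega)] at h4
    omega
  refine ⟨univ.filter fun i => off i < N0 * L, fun j => univ.filter fun i =>
    off (i - (j * L : ℕ)) < L, fun i => ⟨t1b B M i.val, t1b_lt hM B _⟩,
    fun j i => ⟨t1b B M (i - (j * L : ℕ)).val, t1b_lt hM B _⟩, ?_, fun j i h => ?_,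
    fun j j' e => disjoint_filter.2 fun i _ h h' => e (Fin.ext ?_), fun c => ?_, fun j i h => ?_,
    fun j i d hd _ h => ?_⟩
  · refine Eq.trans ?_ ((card_product (range M) (range (N0 * L))).trans
      (by rw [card_range, card_range]))
    refine card_nbij' (fun i => (t1b B M i.val, off i)) (fun z => ((z.1 * B + z.2 : ℕ) : ZMod n))
      (fun i h => ?_) (fun z h => ?_) (fun i _ => ?_) fun z h => ?_
    · simpa [t1b_lt hM] using h
    · simp only [coe_product, coe_range, Set.mem_prod, Set.mem_Iio] at h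
      have h2 : z.2 < B := by omega
      simp only [coe_filter, mem_univ, true_and, Set.mem_ofPred_eq, off,
        ZMod.val_cast_of_lt (lt h.1 h2), t1b_eq h.1 h2]
      omega
    · simp only [← dec, ZMod.natCast_zmod_val]
    · simp only [coe_product, coe_range, Set.mem_prod, Set.mem_Iio] at h
      have h2 : z.2 < B := by omega
      simp only [off, ZMod.val_cast_of_lt (lt h.1 h2), t1b_eq h.1 h2, Nat.add_sub_cancel_left]
  · have := key j i (mem_filter.1 h).2
    have := jl j
    exact mem_filter.2 ⟨mem_univ _, by omega⟩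
  · have a := key j i h
    have b := key j' i h'
    rcases lt_trichotomy j.val j'.val with l | l | l
    · have := Nat.mul_le_mul_right L (Nat.succ_le_of_lt l)
      rw [Nat.succ_mul] at this
      omega
    · exact l
    · have := Nat.mul_le_mul_right L (Nat.succ_le_of_lt l)
      rw [Nat.succ_mul] at this
      omega
  · refine (card_le_card_of_injOn (t := Ico (c * B) (c * B + (B + M))) ZMod.val (fun i h => ?_)
      (ZMod.val_injective n).injOn).trans (by simp)
    have e : t1b B M i.val = c := congrArg Fin.val (mem_filter.1 h).2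
    have h1 := t1b_low B M i.val
    have h2 := i.val_lt
    refine mem_Ico.2 ⟨e ▸ h1, ?_⟩
    by_contra h3
    rcases (Nat.succ_le_of_lt c.2).lt_or_eq with l | l
    · have := t1b_ge (x := i.val) hB l (by rw [Nat.succ_mul]; omega)
      omega
    · rw [← l, Nat.succ_mul] at hn
      omega
  · have h1 : N0 * L ≤ off i := not_lt.1 fun l => h (mem_filter.2 ⟨mem_univ _, l⟩)
    have h2 := jl j
    have h3 := dec i
    have h4 := i.val_lt
    have e : (i - (j * L : ℕ)).val = i.val - j * L := by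
      rw [ZMod.val_sub, ZMod.val_cast_of_lt (by omega)]
      rw [ZMod.val_cast_of_lt (by omega)]
      omega
    refine Fin.ext (le_antisymm (t1b_mono (by omega)) (t1b_ge hB (t1b_lt hM B _) ?_))
    dsimp only
    omega
  · have h1 : L ≤ off (i + d - (j * L : ℕ)) := not_lt.1 fun l => h (mem_filter.2 ⟨mem_univ _, l⟩)
    have h2 := dec (i + d - (j * L : ℕ))
    have h3 := (i - (j * L : ℕ)).val_lt
    have e : (i + d - (j * L : ℕ)).val = ((i - (j * L : ℕ)).val + d) % n := by
      rw [add_sub_right_comm, ZMod.val_add, ZMod.val_natCast, Nat.add_mod_mod]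
    rcases lt_or_ge ((i - (j * L : ℕ)).val + d) n with l | l
    · rw [Nat.mod_eq_of_lt l] at e
      refine Fin.ext (le_antisymm (t1b_mono (by omega)) (t1b_ge hB (t1b_lt hM B _) ?_))
      dsimp only
      omega
    · rw [Nat.mod_eq_sub_mod l] at e
      have := Nat.mod_le ((i - (j * L : ℕ)).val + d - n) n
      omega

end Pool.Agent.Lib.MP_04fdae_co.G
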