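import Mathlib
import Pool.Agent.Lib.MP_04fdae_co.G.Binom

/-! Second moments over the half-subsets of a set of size 2N. -/

namespace Pool.Agent.Lib.MP_04fdae_co.G

open Finset
open scoped ENNReal

variable {X : Type} [Fintype X] [DecidableEq X]

omit [DecidableEq X] in
theorem t2a_perm (N : ℕ) (σ : Equiv.Perm X) (F : Finset X → ℝ) :
    ∑ W ∈ powersetCard N (univ : Finset X), F (W.map σ.toEmbedding) =
      ∑ W ∈ powersetCard N (univ : Finset X), F W := by
  refine sum_bijective (fun W => W.map σ.toEmbedding) (Equiv.finsetCongr σ).bijective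
    (fun W => ?_) (fun W _ => rfl)
  simp [mem_powersetCard]

omit [Fintype X] in
theorem t2a_card (W S : Finset X) :
    ((W ∩ S).card : ℝ) = ∑ x ∈ S, if x ∈ W then (1 : ℝ) else 0 := by
  rw [sum_boole, inter_comm, filter_mem_eq_inter]

/-- Swap symmetry: pair `P` with `Q`; cross terms cancel by a transposition. -/
theorem swap_var (N : ℕ) (P Q : Finset X) (hPQ : Disjoint P Q) (hc : P.card = Q.card) :
    ∑ W ∈ powersetCard N (univ : Finset X), (((W ∩ P).card : ℝ) - (W ∩ Q).card) ^ 2 ≤
      P.card * ((Fintype.card X).choose N : ℕ) := by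
  obtain ⟨φ⟩ : Nonempty (P ≃ Q) := Fintype.card_eq.1 (by simpa using hc)
  set d : P → Finset X → ℝ := fun p W =>
    (if (p : X) ∈ W then (1 : ℝ) else 0) - if (φ p : X) ∈ W then (1 : ℝ) else 0 with hd
  have hne : ∀ (p : P) (q : Q), (p : X) ≠ q := fun p q h =>
    disjoint_left.1 hPQ p.2 (h ▸ q.2)
  have h1 : ∀ W : Finset X, ((W ∩ P).card : ℝ) - (W ∩ Q).card = ∑ p, d p W := by
    intro W
    rw [t2a_card, t2a_card, ← sum_coe_sort P, ← sum_coe_sort Q, ← φ.sum_comp, ← sum_sub_distrib]
  have h2 : ∀ p p' : P, p ≠ p' →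
      ∑ W ∈ powersetCard N (univ : Finset X), d p W * d p' W = 0 := by
    intro p p' hpp
    have h3 := t2a_perm N (Equiv.swap (p : X) (φ p)) (fun W => d p W * d p' W)
    have h4 : ∀ W : Finset X, d p (W.map (Equiv.swap (p : X) (φ p)).toEmbedding) = - d p W := by
      intro W
      simp only [hd, mem_map_equiv, Equiv.symm_swap, Equiv.swap_apply_left, Equiv.swap_apply_right,
        neg_sub]
    have h5 : ∀ W : Finset X, d p' (W.map (Equiv.swap (p : X) (φ p)).toEmbedding) = d p' W := by
      intro W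
      have a1 : (p' : X) ≠ p := fun h => hpp (Subtype.ext h).symm
      have a2 : (φ p' : X) ≠ φ p := fun h => hpp (φ.injective (Subtype.ext h)).symm
      simp only [hd, mem_map_equiv, Equiv.symm_swap, Equiv.swap_apply_of_ne_of_ne a1 (hne p' _),
        Equiv.swap_apply_of_ne_of_ne (hne p _).symm a2]
    simp only [h4, h5, neg_mul, sum_neg_distrib] at h3
    linarith
  have h6 : ∀ p : P, ∑ W ∈ powersetCard N (univ : Finset X), d p W * d p W ≤
      ((Fintype.card X).choose N : ℕ) := by
    intro p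
    have : ∀ W ∈ powersetCard N (univ : Finset X), d p W * d p W ≤ 1 := by
      intro W _
      simp only [hd]
      split_ifs <;> norm_num
    refine (sum_le_sum this).trans ?_
    simp [card_powersetCard]
  simp only [h1, sq, sum_mul_sum]
  rw [sum_comm]
  calc ∑ p : P, ∑ W ∈ powersetCard N (univ : Finset X), ∑ p' : P, d p W * d p' W
      = ∑ p : P, ∑ W ∈ powersetCard N (univ : Finset X), d p W * d p W := by
        refine sum_congr rfl fun p _ => ?_
        rw [sum_comm, sum_eq_single p (fun p' _ h => h2 p p' h.symm) (by simp)]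
    _ ≤ ∑ _p : P, (((Fintype.card X).choose N : ℕ) : ℝ) := sum_le_sum fun p _ => h6 p
    _ = _ := by simp

theorem sum_inter (N : ℕ) (hX : Fintype.card X = 2 * N) (A : Finset X) (hA : A.card = N)
    (r : ℕ → ℝ) :
    ∑ W ∈ powersetCard N (univ : Finset X), r (W ∩ A).card =
      ∑ j ∈ range (N + 1), (N.choose j : ℝ) ^ 2 * r j := by
  have hc : (Aᶜ).card = N := by rw [card_compl, hX, hA]; omega
  rw [← sum_fiberwise_of_maps_to (s := powersetCard N univ) (t := range (N + 1))
    (g := fun W => (W ∩ A).card) (fun W _ => by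
      rw [mem_range, Nat.lt_succ_iff, ← hA]; exact card_le_card inter_subset_right)]
  refine sum_congr rfl fun j hj => ?_
  have hj' : j ≤ N := by simpa [Nat.lt_succ_iff] using hj
  rw [sum_congr rfl (g := fun _ => r j) (fun W hW => by rw [(mem_filter.1 hW).2]), sum_const,
    nsmul_eq_mul]
  congr 1
  have : (filter (fun W => (W ∩ A).card = j) (powersetCard N univ)).card =
      (powersetCard j A ×ˢ powersetCard (N - j) Aᶜ).card := by
    refine card_nbij' (fun W => (W ∩ A, W \ A)) (fun z => z.1 ∪ z.2) ?_ ?_ ?_ ?_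
    · intro W hW
      simp only [coe_filter, mem_powersetCard, subset_univ, true_and, Set.mem_ofPred_eq] at hW
      simp only [coe_product, Set.mem_prod, mem_coe, mem_powersetCard]
      refine ⟨⟨inter_subset_right, hW.2⟩, fun x hx => by simpa using (mem_sdiff.1 hx).2, ?_⟩
      have := card_sdiff_add_card_inter W A
      omega
    · intro z hz
      simp only [coe_product, Set.mem_prod, mem_coe, mem_powersetCard] at hz
      obtain ⟨⟨a1, a2⟩, a3, a4⟩ := hz
      have a5 : Disjoint z.1 z.2 := disjoint_left.2 fun x h1 h2 =>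
        (mem_compl.1 (a3 h2)) (a1 h1)
      have a6 : (z.1 ∪ z.2) ∩ A = z.1 := by
        ext x
        simp only [mem_inter, mem_union]
        exact ⟨fun h => h.1.resolve_right fun h2 => (mem_compl.1 (a3 h2)) h.2,
          fun h => ⟨Or.inl h, a1 h⟩⟩
      simp only [coe_filter, mem_powersetCard, subset_univ, true_and, Set.mem_ofPred_eq]
      rw [a6, card_union_of_disjoint a5]
      omega
    · intro W _
      ext x
      simp only [mem_union, mem_inter, mem_sdiff]
      tauto
    · intro z hz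
      simp only [coe_product, Set.mem_prod, mem_coe, mem_powersetCard] at hz
      obtain ⟨⟨a1, a2⟩, a3, a4⟩ := hz
      have b1 : ∀ x ∈ z.1, x ∈ A := fun x h => a1 h
      have b2 : ∀ x ∈ z.2, x ∉ A := fun x h => mem_compl.1 (a3 h)
      refine Prod.ext ?_ ?_ <;> ext x <;> simp only [mem_union, mem_inter, mem_sdiff] <;>
        have := b1 x <;> have := b2 x <;> tauto
  rw [this, card_product, card_powersetCard, card_powersetCard, hA, hc, Nat.choose_symm hj']
  push_cast
  ring

theorem t2a_cs {α : Type} (S : Finset α) (f : α → ℝ) (a : ℝ) (ha : 0 ≤ a)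
    (h : ∑ x ∈ S, f x ^ 2 ≤ a * S.card) : ∑ x ∈ S, f x ≤ S.card * √a := by
  refine (le_abs_self _).trans (abs_le_of_sq_le_sq ?_ (by positivity))
  refine (sq_sum_le_card_mul_sum_sq).trans ?_
  rw [mul_pow, Real.sq_sqrt ha]
  have : (0 : ℝ) ≤ S.card := by positivity
  nlinarith [mul_le_mul_of_nonneg_left h this]

theorem t2a_lip (N : ℕ) (r : ℕ → ℝ) (lam : ℝ) (hl : ∀ j < N, |r (j + 1) - r j| ≤ lam) (a b : ℕ)
    (ha : a ≤ N) (hb : b ≤ N) : |r a - r b| ≤ lam * |(a : ℝ) - b| := by
  have key : ∀ c k : ℕ, c + k ≤ N → |r (c + k) - r c| ≤ lam * k := by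
    intro c k
    induction k with
    | zero => simp
    | succ k ih =>
      intro h
      have h1 := hl (c + k) (by omega)
      have h2 := ih (by omega)
      have h3 := abs_sub_le (r (c + k + 1)) (r (c + k)) (r c)
      rw [← add_assoc]
      push_cast
      linarith
  rcases le_total a b with h | h
  · obtain ⟨k, rfl⟩ := Nat.exists_eq_add_of_le h
    rw [abs_sub_comm, abs_sub_comm (a : ℝ)]
    simpa using key a k hb
  · obtain ⟨k, rfl⟩ := Nat.exists_eq_add_of_le h
    simpa using key b k ha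

/-- The unnormalised correlation. -/
noncomputable def t2aPhi (N : ℕ) (r : ℕ → ℝ) (A B : Finset X) : ℝ :=
  ∑ W ∈ powersetCard N (univ : Finset X), r (W ∩ A).card * r (W ∩ B).card

theorem t2a_same (N : ℕ) (r : ℕ → ℝ) (A B B' : Finset X) (h1 : B.card = B'.card)
    (h2 : (A ∩ B).card = (A ∩ B').card) : t2aPhi N r A B = t2aPhi N r A B' := by
  have h3 : ∀ c : Bool × Bool, Fintype.card {x // (decide (x ∈ A), decide (x ∈ B)) = c} =
      Fintype.card {x // (decide (x ∈ A), decide (x ∈ B')) = c} := by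
    have e1 : ∀ C : Finset X, univ.filter (fun x => (decide (x ∈ A), decide (x ∈ C)) = (true, true))
        = A ∩ C := fun C => by ext x; simp
    have e2 : ∀ C : Finset X, univ.filter (fun x => (decide (x ∈ A), decide (x ∈ C)) = (true, false))
        = A \ C := fun C => by ext x; simp
    have e3 : ∀ C : Finset X, univ.filter (fun x => (decide (x ∈ A), decide (x ∈ C)) = (false, true))
        = C \ A := fun C => by ext x; simp [and_comm]
    have e4 : ∀ C : Finset X, univ.filter (fun x => (decide (x ∈ A), decide (x ∈ C)) = (false, false))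
        = (A ∪ C)ᶜ := fun C => by ext x; simp
    have f1 := card_sdiff_add_card_inter A B
    have f2 := card_sdiff_add_card_inter A B'
    have f3 := card_sdiff_add_card_inter B A
    have f4 := card_sdiff_add_card_inter B' A
    have f5 := card_union_add_card_inter A B
    have f6 := card_union_add_card_inter A B'
    rw [inter_comm] at f3 f4
    rintro ⟨a, b⟩
    rw [Fintype.card_subtype, Fintype.card_subtype]
    cases a <;> cases b
    · rw [e4, e4, card_compl, card_compl]; omega
    · rw [e3, e3]; omega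
    · rw [e2, e2]; omega
    · rw [e1, e1, h2]
  let σ : Equiv.Perm X := Equiv.ofFiberEquiv fun c => Fintype.equivOfCardEq (h3 c)
  have hσ : ∀ x, (σ x ∈ A ↔ x ∈ A) ∧ (σ x ∈ B' ↔ x ∈ B) := by
    intro x
    have : (decide (σ x ∈ A), decide (σ x ∈ B')) = (decide (x ∈ A), decide (x ∈ B)) :=
      Equiv.ofFiberEquiv_map (fun c => Fintype.equivOfCardEq (h3 c)) x
    simpa only [Prod.mk.injEq, decide_eq_decide] using this
  have h4 : ∀ (W C C' : Finset X), (∀ x, σ x ∈ C' ↔ x ∈ C) →
      (W.map σ.toEmbedding ∩ C').card = (W ∩ C).card := by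
    intro W C C' h
    rw [← card_map σ.toEmbedding (s := W ∩ C)]
    congr 1
    ext x
    simp only [mem_inter, mem_map_equiv, ← h, Equiv.apply_symm_apply]
  unfold t2aPhi
  rw [← t2a_perm N σ (fun W => r (W ∩ A).card * r (W ∩ B').card)]
  refine sum_congr rfl fun W _ => ?_
  rw [h4 W A A fun x => (hσ x).1, h4 W B B' fun x => (hσ x).2]

theorem t2a_move (N : ℕ) (hX : Fintype.card X = 2 * N) (r : ℕ → ℝ) (K lam : ℝ)
    (h0 : ∀ j, 0 ≤ r j) (hK : ∀ j, r j ≤ K) (hlam : 0 ≤ lam)
    (hl : ∀ j < N, |r (j + 1) - r j| ≤ lam) (A B B' : Finset X) (hA : A.card = N)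
    (hB : B.card = N) (hB' : B'.card = N) (h : (A ∩ B').card ≤ (A ∩ B).card) :
    |t2aPhi N r A B - t2aPhi N r A B'| ≤
      (((2 * N).choose N : ℕ) : ℝ) * (K * lam * √(((A ∩ B).card : ℝ) - (A ∩ B').card)) := by
  obtain ⟨k, hk⟩ := Nat.exists_eq_add_of_le h
  obtain ⟨P, hP, hPc⟩ := exists_subset_card_eq (s := A ∩ B) (n := k) (by omega)
  obtain ⟨Q, hQ, hQc⟩ := exists_subset_card_eq (s := (A ∪ B)ᶜ) (n := k) (by
    have := card_union_add_card_inter A B
    rw [card_compl, hX]; omega)
  have p1 : ∀ x ∈ P, x ∈ A ∧ x ∈ B := fun x hx => mem_inter.1 (hP hx)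
  have q1 : ∀ x ∈ Q, x ∉ A ∧ x ∉ B := fun x hx => by simpa using hQ hx
  have hPQ : Disjoint P Q := disjoint_left.2 fun x a b => (q1 x b).1 (p1 x a).1
  have c1 : ∀ W : Finset X, (W ∩ (B \ P ∪ Q)).card + (W ∩ P).card =
      (W ∩ B).card + (W ∩ Q).card := by
    intro W
    rw [← card_union_of_disjoint, ← card_union_of_disjoint]
    · congr 1
      ext x
      simp only [mem_union, mem_inter, mem_sdiff]
      have := p1 x
      tauto
    · refine disjoint_left.2 fun x a b => (q1 x (mem_inter.1 b).2).2 (mem_inter.1 a).2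
    · refine disjoint_left.2 fun x a b => ?_
      simp only [mem_union, mem_inter, mem_sdiff] at a b
      have := p1 x
      have := q1 x
      tauto
  have c2 : (B \ P ∪ Q).card = N := by
    have := c1 univ
    simp only [univ_inter] at this
    omega
  have c3 : (A ∩ (B \ P ∪ Q)).card = (A ∩ B').card := by
    have h1 := c1 A
    have h2 : A ∩ P = P := inter_eq_right.2 fun x hx => (p1 x hx).1
    have h3 : A ∩ Q = ∅ := eq_empty_of_forall_notMem fun x hx =>
      (q1 x (mem_inter.1 hx).2).1 (mem_inter.1 hx).1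
    rw [h2, h3, card_empty] at h1
    omega
  rw [← t2a_same N r A (B \ P ∪ Q) B' (c2.trans hB'.symm) c3]
  have hK0 : 0 ≤ K := (h0 0).trans (hK 0)
  have hS : ((powersetCard N (univ : Finset X)).card : ℝ) = ((2 * N).choose N : ℕ) := by
    rw [card_powersetCard, card_univ, hX]
  have h5 := t2a_cs (powersetCard N (univ : Finset X))
    (fun W => |((W ∩ P).card : ℝ) - (W ∩ Q).card|) (k : ℝ) (by positivity) (by
      simp only [sq_abs]
      have := swap_var N P Q hPQ (hPc.trans hQc.symm)
      rwa [hPc, hX, ← hS] at this)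
  have h6 : ((A ∩ B).card : ℝ) - (A ∩ B').card = k := by rw [hk]; push_cast; ring
  rw [h6, ← hS]
  unfold t2aPhi
  rw [← sum_sub_distrib]
  refine (abs_sum_le_sum_abs _ _).trans ?_
  calc ∑ W ∈ powersetCard N (univ : Finset X),
        |r (W ∩ A).card * r (W ∩ B).card - r (W ∩ A).card * r (W ∩ (B \ P ∪ Q)).card|
      ≤ ∑ W ∈ powersetCard N (univ : Finset X), K * lam * |((W ∩ P).card : ℝ) - (W ∩ Q).card| := by
        refine sum_le_sum fun W _ => ?_
        rw [← mul_sub, abs_mul, abs_of_nonneg (h0 _), mul_assoc]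
        refine mul_le_mul (hK _) ?_ (abs_nonneg _) hK0
        have h7 := t2a_lip N r lam hl (W ∩ B).card (W ∩ (B \ P ∪ Q)).card
          (hB ▸ card_le_card inter_subset_right) (c2 ▸ card_le_card inter_subset_right)
        have h8 : ((W ∩ B).card : ℝ) - (W ∩ (B \ P ∪ Q)).card =
            ((W ∩ P).card : ℝ) - (W ∩ Q).card := by
          have := congrArg (Nat.cast : ℕ → ℝ) (c1 W)
          push_cast at this
          linarith
        rwa [h8] at h7
    _ ≤ _ := by
        rw [← mul_sum]
        have := mul_le_mul_of_nonneg_left h5 (mul_nonneg hK0 hlam)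
        linarith

/-- T2a.  `Φ(A,A')` depends only on the overlap (permute `X`), moves by at most
`K lam √|d - d'|` when the overlap moves from `d` to `d'` (swap points, `swap_var`), and its
average over all `A''` is `μ^2`; the overlap of `A` with a uniform `A''` has mean square
deviation at most `N/4` (`swap_var` with `P = A`, `Q = Aᶜ`). -/
theorem phi_close (N : ℕ) (hX : Fintype.card X = 2 * N) (r : ℕ → ℝ) (K lam : ℝ)
    (h0 : ∀ j, 0 ≤ r j) (hK : ∀ j, r j ≤ K) (hlam : 0 ≤ lam)
    (hl : ∀ j < N, |r (j + 1) - r j| ≤ lam) (A A' : Finset X) (hA : A.card = N)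
    (hA' : A'.card = N) :
    (∑ W ∈ powersetCard N (univ : Finset X), r (W ∩ A).card * r (W ∩ A').card) /
        (((2 * N).choose N : ℕ) : ℝ) ≤
      ((∑ j ∈ range (N + 1), (N.choose j : ℝ) ^ 2 * r j) / (((2 * N).choose N : ℕ) : ℝ)) ^ 2 +
        K * lam * √(|((A ∩ A').card : ℝ) - N / 2| + √(N : ℝ)) := by
  have hK0 : 0 ≤ K := (h0 0).trans (hK 0)
  have hS : ((powersetCard N (univ : Finset X)).card : ℝ) = ((2 * N).choose N : ℕ) := by
    rw [card_powersetCard, card_univ, hX]
  set C : ℝ := (((2 * N).choose N : ℕ) : ℝ) with hC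
  have hC0 : 0 < C := by rw [hC]; exact_mod_cast Nat.choose_pos (by omega)
  set M : ℝ := ∑ j ∈ range (N + 1), (N.choose j : ℝ) ^ 2 * r j with hM
  have hmem : ∀ B ∈ powersetCard N (univ : Finset X), B.card = N := fun B hB =>
    (mem_powersetCard.1 hB).2
  have h1 : ∑ B ∈ powersetCard N (univ : Finset X), t2aPhi N r A B = M ^ 2 := by
    unfold t2aPhi
    rw [sum_comm, sq]
    have : ∀ W ∈ powersetCard N (univ : Finset X),
        ∑ B ∈ powersetCard N (univ : Finset X), r (W ∩ A).card * r (W ∩ B).card =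
          r (W ∩ A).card * M := by
      intro W hW
      rw [← mul_sum, hM, ← sum_inter N hX W (hmem W hW) r]
      simp only [inter_comm W]
    rw [sum_congr rfl this, ← sum_mul, sum_inter N hX A hA r]
  have h2 : ∀ B ∈ powersetCard N (univ : Finset X), t2aPhi N r A A' ≤ t2aPhi N r A B +
      C * (K * lam) * √|((A ∩ A').card : ℝ) - (A ∩ B).card| := by
    intro B hB
    rcases le_total (A ∩ B).card (A ∩ A').card with h | h
    · have h3 := t2a_move N hX r K lam h0 hK hlam hl A A' B hA hA' (hmem B hB) h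
      rw [abs_of_nonneg (a := ((A ∩ A').card : ℝ) - _) (by rw [sub_nonneg]; exact_mod_cast h)]
      have := le_abs_self (t2aPhi N r A A' - t2aPhi N r A B)
      linarith
    · have h3 := t2a_move N hX r K lam h0 hK hlam hl A B A' hA (hmem B hB) hA' h
      rw [abs_sub_comm ((A ∩ A').card : ℝ),
        abs_of_nonneg (a := ((A ∩ B).card : ℝ) - _) (by rw [sub_nonneg]; exact_mod_cast h)]
      have := neg_abs_le (t2aPhi N r A B - t2aPhi N r A A')
      linarith
  have h4 : ∑ B ∈ powersetCard N (univ : Finset X), |((A ∩ B).card : ℝ) - N / 2| ≤ C * √(N : ℝ) := by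
    rw [← hS]
    refine t2a_cs _ _ _ (by positivity) ?_
    have h5 := swap_var N A Aᶜ disjoint_compl_right (by rw [card_compl, hX, hA]; omega)
    rw [hA, hX, ← hC, ← hS] at h5
    refine le_trans (sum_le_sum fun B hB => ?_) h5
    have h6 : (B ∩ Aᶜ).card + (B ∩ A).card = N := by
      rw [← hmem B hB, ← card_sdiff_add_card_inter B A, sdiff_eq_inter_compl]
    have h7 : ((B ∩ Aᶜ).card : ℝ) = N - (B ∩ A).card := by
      rw [← h6]; push_cast; ring
    rw [sq_abs, h7, inter_comm A B]
    nlinarith [sq_nonneg (((B ∩ A).card : ℝ) - N / 2)]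
  have h8 : ∑ B ∈ powersetCard N (univ : Finset X), √|((A ∩ A').card : ℝ) - (A ∩ B).card| ≤
      C * √(|((A ∩ A').card : ℝ) - N / 2| + √(N : ℝ)) := by
    rw [← hS]
    refine t2a_cs _ _ _ (by positivity) ?_
    have h9 : ∀ B ∈ powersetCard N (univ : Finset X),
        √|((A ∩ A').card : ℝ) - (A ∩ B).card| ^ 2 ≤
          |((A ∩ A').card : ℝ) - N / 2| + |((A ∩ B).card : ℝ) - N / 2| := by
      intro B _
      rw [Real.sq_sqrt (abs_nonneg _), abs_sub_comm ((A ∩ B).card : ℝ)]
      exact abs_sub_le _ _ _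
    refine (sum_le_sum h9).trans ?_
    rw [sum_add_distrib, sum_const, nsmul_eq_mul, hS]
    linarith
  have h10 := sum_le_sum h2
  rw [sum_add_distrib, sum_const, nsmul_eq_mul, hS, h1, ← mul_sum] at h10
  have h11 := mul_le_mul_of_nonneg_left h8 (mul_nonneg hC0.le (mul_nonneg hK0 hlam))
  change t2aPhi N r A A' / C ≤ _
  rw [div_le_iff₀ hC0, div_pow]
  refine le_of_mul_le_mul_left ?_ hC0
  have h12 : C * ((M ^ 2 / C ^ 2 + K * lam * √(|((A ∩ A').card : ℝ) - N / 2| + √(N : ℝ))) * C) =
      M ^ 2 + C * (K * lam) * (C * √(|((A ∩ A').card : ℝ) - N / 2| + √(N : ℝ))) := by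
    field_simp
  rw [h12]
  linarith

end Pool.Agent.Lib.MP_04fdae_co.G
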