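import Mathlib
import Pool.Agent.Lib.MP_04fdae_co.G.T2a

/-! The trace of a uniform half-subset is nearly a mixture of structured cubes. -/

namespace Pool.Agent.Lib.MP_04fdae_co.G

set_option linter.unusedSectionVars false

open Finset
open scoped ENNReal

/-- The clipped density. -/
noncomputable def rt (K : ℝ) (N j : ℕ) : ℝ :=
  min K ((((2 * N).choose N : ℕ) : ℝ) / (2 ^ N * (N.choose j : ℝ)))

theorem t2_lip {K s a b u v : ℝ} (hK : 0 < K) (hs : 4 * K ≤ s) (ha : 0 < a) (hb : 0 < b)
    (huv : u + v = s ^ 2 + 1) (h : b * v = a * u) (hd : a < K ∨ b < K → |u - v| ≤ 2 * K * s) :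
    |min K b - min K a| ≤ 8 * K ^ 2 / s := by
  have s0 : 0 < s := by linarith
  have key : ∀ {a b u v : ℝ}, 0 < a → a ≤ b → u + v = s ^ 2 + 1 → b * v = a * u →
      (a < K ∨ b < K → |u - v| ≤ 2 * K * s) → |min K b - min K a| ≤ 8 * K ^ 2 / s := by
    intro a b u v ha hab huv h hd
    rw [abs_of_nonneg (sub_nonneg.2 (min_le_min_left _ hab))]
    rcases le_or_gt K a with c | c
    · rw [min_eq_left c, min_eq_left (c.trans hab), sub_self]
      positivity
    · obtain ⟨d1, d2⟩ := abs_le.1 (hd (.inl c))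
      have hv : s ^ 2 / 4 ≤ v := by nlinarith
      have e : (b - a) * v ≤ K * (2 * K * s) := by
        have : (b - a) * v = a * (u - v) := by linarith
        rw [this]
        have : 0 < K * s := by positivity
        nlinarith
      have e2 : (b - a) * (s ^ 2 / 4) ≤ K * (2 * K * s) :=
        (mul_le_mul_of_nonneg_left hv (sub_nonneg.2 hab)).trans e
      rw [min_eq_right c.le, le_div_iff₀ s0]
      have e3 : (b - a) * s ≤ 8 * K ^ 2 := le_of_mul_le_mul_right (by nlinarith) s0
      have := min_le_right K b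
      nlinarith
  rcases le_total a b with c | c
  · exact key ha c huv h hd
  · rw [abs_sub_comm]
    exact key hb c (by linarith : v + u = _) h.symm fun e => abs_sub_comm u v ▸ hd e.symm

theorem t2_count (N : ℕ) {B : ℝ} (hB : 0 ≤ B) :
    (((range (N + 1)).filter fun j : ℕ => |2 * (j : ℝ) - N| ≤ B).card : ℝ) ≤ B + 1 := by
  set S := (range (N + 1)).filter fun j : ℕ => |2 * (j : ℝ) - N| ≤ B
  rcases S.eq_empty_or_nonempty with h | h
  · rw [h, card_empty, Nat.cast_zero]
    linarith
  have h1 : S ⊆ Icc (S.min' h) (S.min' h + ⌊B⌋₊) := fun j hj => by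
    have a := S.min'_le j hj
    have b := abs_le.1 (mem_filter.1 hj).2
    have c := abs_le.1 (mem_filter.1 (S.min'_mem h)).2
    have d : j - S.min' h ≤ ⌊B⌋₊ := Nat.le_floor (by rw [Nat.cast_sub a]; linarith [b.2, c.1])
    exact mem_Icc.2 ⟨a, by omega⟩
  have h2 : S.card ≤ ⌊B⌋₊ + 1 := (card_le_card h1).trans (by rw [Nat.card_Icc]; omega)
  have h3 : (S.card : ℝ) ≤ ⌊B⌋₊ + 1 := by exact_mod_cast h2
  linarith [Nat.floor_le hB]

theorem t2_sum_choose (N : ℕ) : ∑ j ∈ range (N + 1), (N.choose j : ℝ) = 2 ^ N := by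
  exact_mod_cast Nat.sum_range_choose N

/-- If one of two neighbours is below `K` then `|2j - N| ≤ 2 K √N` (`choose_mul_dist`,
`central_lower`) and the ratio is `(j+1)/(N-j)`; the mass lost by clipping is bounded with
`sum_choose_sq_dev` and `choose_le_sqrt`. -/
theorem rt_facts (ε : ℝ) (hε : 0 < ε) : ∃ K K' : ℝ, 0 < K ∧ 0 < K' ∧ ∃ N1 : ℕ, ∀ N, N1 ≤ N →
    (∀ j < N, |rt K N (j + 1) - rt K N j| ≤ K' / √(N : ℝ)) ∧
    1 - ε ≤ (∑ j ∈ range (N + 1), (N.choose j : ℝ) ^ 2 * rt K N j) /
      (((2 * N).choose N : ℕ) : ℝ) ∧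
    (∑ j ∈ range (N + 1), (N.choose j : ℝ) ^ 2 * rt K N j) / (((2 * N).choose N : ℕ) : ℝ) ≤ 1 := by
  obtain ⟨A, hA⟩ : ∃ A : ℝ, A = 1 + 2 / ε := ⟨_, rfl⟩
  have A1 : 1 < A := by rw [hA]; linarith [div_pos two_pos hε]
  have A2 : 2 ≤ A * ε := by rw [hA, add_mul, div_mul_cancel₀ _ hε.ne']; linarith
  obtain ⟨K, hK⟩ : ∃ K : ℝ, K = 2 * (A + 1) / ε := ⟨_, rfl⟩
  have K0 : 0 < K := by rw [hK]; positivity
  have K1 : K * ε = 2 * (A + 1) := by rw [hK, div_mul_cancel₀ _ hε.ne']
  refine ⟨K, 8 * K ^ 2, K0, by positivity, ⌈(4 * K) ^ 2⌉₊ + 1, fun N hN => ?_⟩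
  have N1 : 1 ≤ N := by omega
  have N1' : (1 : ℝ) ≤ N := by exact_mod_cast N1
  have hs : 4 * K ≤ √(N : ℝ) := Real.le_sqrt_of_sq_le
    ((Nat.le_ceil _).trans (by exact_mod_cast (by omega)))
  have s1 : 1 ≤ √(N : ℝ) := Real.one_le_sqrt.2 N1'
  have ss : √(N : ℝ) ^ 2 = N := Real.sq_sqrt (by linarith)
  have lo := central_lower N N1
  have up := choose_le_sqrt (2 * N) N
  have e4 : (4 : ℝ) ^ N = 2 ^ N * 2 ^ N := by rw [← mul_pow]; norm_num
  have up' : (((2 * N).choose N : ℕ) : ℝ) * √(N : ℝ) ≤ 2 ^ N * 2 ^ N := by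
    rw [le_div_iff₀ (by positivity), two_mul N, pow_add, ← two_mul N] at up
    refine le_trans (mul_le_mul_of_nonneg_left (Real.sqrt_le_sqrt ?_) (by positivity)) up
    push_cast
    linarith
  rw [div_le_iff₀ (by positivity), e4] at lo
  have D0 : (0 : ℝ) < (((2 * N).choose N : ℕ) : ℝ) := by
    exact_mod_cast Nat.choose_pos (by omega)
  unfold rt
  generalize (((2 * N).choose N : ℕ) : ℝ) = D at *
  have P0 : (0 : ℝ) < 2 ^ N := by positivity
  have C0 : ∀ j ≤ N, (0 : ℝ) < N.choose j := fun j h => by exact_mod_cast Nat.choose_pos h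
  refine ⟨fun j hj => ?_, ?_, ?_⟩
  · have c1 := C0 j hj.le
    have c2 := C0 (j + 1) hj
    have d : ∀ i ≤ N, D / (2 ^ N * (N.choose i : ℝ)) < K →
        |2 * (i : ℝ) - N| + 1 ≤ 2 * K * √(N : ℝ) := fun i hi h => by
      have c := C0 i hi
      have e := choose_mul_dist N i
      rw [div_lt_iff₀ (by positivity)] at h
      have f : 2 ^ N * 2 ^ N ≤ K * (2 ^ N * (N.choose i : ℝ)) * (2 * √(N : ℝ)) :=
        lo.trans (mul_le_mul_of_nonneg_right h.le (by positivity))
      have f2 : 2 ^ N ≤ (N.choose i : ℝ) * (2 * K * √(N : ℝ)) :=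
        le_of_mul_le_mul_left (by linarith) P0
      exact le_of_mul_le_mul_left (e.trans f2) c
    refine t2_lip (u := j + 1) (v := N - j) K0 hs (by positivity) (by positivity)
      (by rw [ss]; ring) ?_ fun h => ?_
    · have e : (N.choose (j + 1) : ℝ) * (j + 1) = N.choose j * (N - j) := by
        have := Nat.choose_succ_right_eq N j
        rw [← Nat.cast_sub hj.le]
        exact_mod_cast this
      field_simp
      linarith
    · rcases h with h | h
      · have := d j hj.le h
        cases abs_cases (2 * (j : ℝ) - N) <;> rw [abs_le] <;> constructor <;> linarith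
      · have := d (j + 1) hj h
        push_cast at this
        cases abs_cases (2 * ((j : ℝ) + 1) - N) <;> rw [abs_le] <;> constructor <;> linarith
  · rw [le_div_iff₀ D0]
    have pt : ∀ j ∈ range (N + 1), D / 2 ^ N * (N.choose j : ℝ) -
        D / (2 ^ N * (A ^ 2 * N)) * ((N.choose j : ℝ) * (2 * (j : ℝ) - N) ^ 2) -
        (if |2 * (j : ℝ) - N| ≤ A * √(N : ℝ) then D / (K * √(N : ℝ)) else 0) ≤
        (N.choose j : ℝ) ^ 2 * min K (D / (2 ^ N * (N.choose j : ℝ))) := fun j hj => by
      have c := C0 j (Nat.lt_succ_iff.1 (mem_range.1 hj))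
      have p1 : 0 ≤ D / (2 ^ N * (A ^ 2 * N)) * ((N.choose j : ℝ) * (2 * (j : ℝ) - N) ^ 2) := by
        positivity
      have p2 : 0 ≤ D / (K * √(N : ℝ)) := by positivity
      rcases le_total (D / (2 ^ N * (N.choose j : ℝ))) K with h | h
      · rw [min_eq_right h]
        have : (N.choose j : ℝ) ^ 2 * (D / (2 ^ N * (N.choose j : ℝ))) =
            D / 2 ^ N * (N.choose j : ℝ) := by field_simp
        split_ifs <;> linarith
      · rw [min_eq_left h]
        have p3 : 0 ≤ (N.choose j : ℝ) ^ 2 * K := by positivity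
        split_ifs with e
        · have : D / 2 ^ N * (N.choose j : ℝ) ≤ D / (K * √(N : ℝ)) := by
            rw [le_div_iff₀ (by positivity)] at h
            have f : K * (2 ^ N * (N.choose j : ℝ)) * √(N : ℝ) ≤ 2 ^ N * 2 ^ N :=
              (mul_le_mul_of_nonneg_right h (by positivity)).trans up'
            have f2 : (N.choose j : ℝ) * (K * √(N : ℝ)) ≤ 2 ^ N :=
              le_of_mul_le_mul_left (by linarith) P0
            rw [div_mul_eq_mul_div, div_le_div_iff₀ P0 (by positivity), mul_assoc]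
            exact mul_le_mul_of_nonneg_left f2 D0.le
          linarith
        · have f : A ^ 2 * N ≤ (2 * (j : ℝ) - N) ^ 2 := by
            have := pow_le_pow_left₀ (by positivity) (not_le.1 e).le 2
            rwa [sq_abs, mul_pow, ss] at this
          have : D / 2 ^ N * (N.choose j : ℝ) ≤
              D / (2 ^ N * (A ^ 2 * N)) * ((N.choose j : ℝ) * (2 * (j : ℝ) - N) ^ 2) := by
            refine le_trans (le_of_eq ?_) (mul_le_mul_of_nonneg_left
              (mul_le_mul_of_nonneg_left f c.le) (by positivity))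
            field_simp
          linarith
    refine le_trans ?_ (sum_le_sum pt)
    rw [sum_sub_distrib, sum_sub_distrib, ← mul_sum, ← mul_sum, t2_sum_choose, sum_choose_sq_dev,
      ← sum_filter, sum_const, nsmul_eq_mul]
    have c := t2_count N (B := A * √(N : ℝ)) (by positivity)
    have q1 : D / 2 ^ N * 2 ^ N = D := by field_simp
    have q2 : D / (2 ^ N * (A ^ 2 * N)) * (N * 2 ^ N) ≤ ε / 2 * D := by
      have : D / (2 ^ N * (A ^ 2 * N)) * (N * 2 ^ N) = 1 / A ^ 2 * D := by field_simp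
      rw [this]
      refine mul_le_mul_of_nonneg_right ?_ D0.le
      rw [div_le_iff₀ (by positivity)]
      nlinarith
    have q3 : (A * √(N : ℝ) + 1) * (D / (K * √(N : ℝ))) ≤ ε / 2 * D := by
      rw [mul_div_assoc', div_le_iff₀ (by positivity)]
      have : ε / 2 * D * (K * √(N : ℝ)) = ((A + 1) * √(N : ℝ)) * D := by
        linear_combination (D * √(N : ℝ) / 2) * K1
      rw [this]
      exact mul_le_mul_of_nonneg_right (by linarith) D0.le
    have q4 := mul_le_mul_of_nonneg_right c (by positivity : 0 ≤ D / (K * √(N : ℝ)))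
    linarith
  · rw [div_le_one D0]
    refine (sum_le_sum (g := fun j => D / 2 ^ N * (N.choose j : ℝ)) fun j hj => ?_).trans ?_
    · have c := C0 j (Nat.lt_succ_iff.1 (mem_range.1 hj))
      refine (mul_le_mul_of_nonneg_left (min_le_right _ _) (by positivity)).trans (le_of_eq ?_)
      field_simp
    · rw [← mul_sum, t2_sum_choose, div_mul_cancel₀ _ P0.ne']

variable {κ : Type} [Fintype κ] [DecidableEq κ]

/-- The side of the doubled set picked by the labels. -/
def side (α : κ → Bool) : Finset (κ × Bool) := univ.filter (fun z => z.2 = α z.1)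

/-- The trace on the true copy. -/
def tr (W : Finset (κ × Bool)) : κ → Bool := fun i => decide ((i, true) ∈ W)

/-- The subset of the doubled set with two given traces. -/
def t2mk (α x y : κ → Bool) : Finset (κ × Bool) :=
  univ.filter fun z => (if z.2 = α z.1 then x z.1 else !y z.1) = true

theorem t2_sz (x : κ → Bool) : sz x = ∑ i, if x i = true then 1 else 0 := card_filter _ _

theorem t2_card (α x y : κ → Bool) : (t2mk α x y).card + sz y = sz x + Fintype.card κ := by
  rw [t2mk, card_filter, Fintype.sum_prod_type, t2_sz, t2_sz, ← card_univ, card_eq_sum_ones,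
    ← sum_add_distrib, ← sum_add_distrib]
  refine sum_congr rfl fun i _ => ?_
  rw [Fintype.sum_bool]
  cases α i <;> cases x i <;> cases y i <;> simp

theorem t2_inter (α x y : κ → Bool) : (t2mk α x y ∩ side α).card = sz x := by
  rw [t2mk, side, ← filter_and, card_filter, Fintype.sum_prod_type, t2_sz]
  refine sum_congr rfl fun i _ => ?_
  rw [Fintype.sum_bool]
  cases α i <;> cases x i <;> cases y i <;> simp

theorem t2_tr (α x y : κ → Bool) :
    tr (t2mk α x y) = fun i => if α i = true then x i else !y i := by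
  funext i
  cases h : α i <;> simp [tr, t2mk, h]

theorem t2_param (α : κ → Bool) (F : Finset (κ × Bool) → ℝ) :
    ∑ W ∈ powersetCard (Fintype.card κ) (univ : Finset (κ × Bool)), F W =
      ∑ x : κ → Bool, ∑ y : κ → Bool, if sz x = sz y then F (t2mk α x y) else 0 := by
  have b : Function.Bijective fun p : (κ → Bool) × (κ → Bool) => t2mk α p.1 p.2 := by
    refine Function.bijective_iff_has_inverse.2
      ⟨fun W => (fun i => decide ((i, α i) ∈ W), fun i => !decide ((i, !α i) ∈ W)),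
        fun p => Prod.ext (funext fun i => ?_) (funext fun i => ?_), fun W => ?_⟩
    · simp [t2mk]
    · simp [t2mk]
    · ext ⟨i, c⟩
      cases c <;> cases h : α i <;> simp [t2mk, h]
  rw [powersetCard_eq_filter, powerset_univ, sum_filter, ← Fintype.sum_prod_type',
    ← b.sum_comp]
  refine sum_congr rfl fun p _ => if_congr ?_ rfl rfl
  have := t2_card α p.1 p.2
  omega

theorem t2_le (x : κ → Bool) : sz x ≤ Fintype.card κ := card_le_univ _

theorem t2_fib (x y : κ → Bool) :
    ((univ.filter fun π : Equiv.Perm κ => (fun i => x (π i)) = y).card : ℝ) =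
      if sz x = sz y then ((Fintype.card κ).factorial : ℝ) / ((Fintype.card κ).choose (sz x) : ℕ)
      else 0 := by
  have ct : ∀ x : κ → Bool, Fintype.card {i // x i = true} = sz x := fun x =>
    Fintype.card_subtype _
  have cf : ∀ x : κ → Bool, Fintype.card {i // x i = false} = Fintype.card κ - sz x := fun x => by
    rw [← ct, ← Fintype.card_subtype_compl]
    exact Fintype.card_congr (Equiv.subtypeEquivRight fun i => by simp)
  split_ifs with h
  · have e : ∀ c, {i // y i = c} ≃ {i // x i = c} := fun c => Fintype.equivOfCardEq (by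
      cases c
      · rw [cf, cf, h]
      · rw [ct, ct, h])
    have s := DomMulAct.stabilizer_card x
    rw [Fintype.prod_bool, ct, cf, Fintype.card_subtype] at s
    have q : (univ.filter fun π : Equiv.Perm κ => (fun i => x (π i)) = y).card =
        (univ.filter fun π : Equiv.Perm κ => x ∘ π = x).card := by
      refine (card_equiv (Equiv.mulRight (Equiv.ofFiberEquiv e : Equiv.Perm κ)) fun π => ?_).symm
      simp only [mem_filter, mem_univ, true_and, Equiv.coe_mulRight, Equiv.Perm.mul_apply]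
      refine ⟨fun a => funext fun i => (congrFun a _).trans (Equiv.ofFiberEquiv_map e i),
        fun a => funext fun i => ?_⟩
      obtain ⟨j, rfl⟩ := (Equiv.ofFiberEquiv e).surjective i
      exact (congrFun a j).trans (Equiv.ofFiberEquiv_map e j).symm
    have c : (0 : ℝ) < ((Fintype.card κ).choose (sz x) : ℕ) := by
      exact_mod_cast Nat.choose_pos (t2_le x)
    rw [q, s, eq_div_iff c.ne', ← Nat.choose_mul_factorial_mul_factorial (t2_le x)]
    push_cast
    ring
  · rw [Nat.cast_eq_zero, card_eq_zero, filter_eq_empty_iff]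
    rintro π - rfl
    exact h (by rw [t2_sz, t2_sz]; exact (Equiv.sum_comp π fun i => if x i = true then 1 else 0).symm)

/-- `(x, π) ↦ W = {(i, α i) | x i} ∪ {(i, !α i) | ! x (π i)}`; a fibre has
`N! / C(N, |W ∩ side α|)` elements. -/
theorem mix_eq (α : κ → Bool) (g : (κ → Bool) → ℝ) :
    ∑ π : Equiv.Perm κ, ∑ x : κ → Bool, g (cm α π x) =
      ∑ W ∈ powersetCard (Fintype.card κ) (univ : Finset (κ × Bool)),
        ((Fintype.card κ).factorial : ℝ) / ((Fintype.card κ).choose (W ∩ side α).card : ℕ) *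
          g (tr W) := by
  rw [t2_param α, sum_comm]
  refine sum_congr rfl fun x _ => ?_
  rw [← sum_fiberwise univ fun π : Equiv.Perm κ => fun i => x (π i)]
  refine sum_congr rfl fun y _ => ?_
  rw [sum_congr rfl (g := fun _ => g (tr (t2mk α x y))), sum_const, nsmul_eq_mul, t2_fib, t2_inter]
  · split_ifs <;> simp
  · intro π h
    rw [t2_tr, ← (mem_filter.1 h).2]
    rfl

theorem sum_tr (g : (κ → Bool) → ℝ) :
    ∑ W ∈ powersetCard (Fintype.card κ) (univ : Finset (κ × Bool)), g (tr W) =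
      ∑ b : κ → Bool, ((Fintype.card κ).choose (sz b) : ℝ) * g b := by
  rw [t2_param fun _ => true]
  refine sum_congr rfl fun x _ => ?_
  simp only [t2_tr, if_true]
  rw [sum_sz fun j => if sz x = j then g x else 0]
  simp only [mul_ite, mul_zero, sum_ite_eq, mem_range, Nat.lt_succ_of_le (t2_le x), if_true]

theorem t2_abs {Ω A : Type} [Fintype A] [Nonempty A] (S : Finset Ω) (f : A → Ω → ℝ) (g : Ω → ℝ)
    {m δ e : ℝ} (hδ : 0 < δ) (g0 : ∀ W, 0 ≤ g W) (g1 : ∀ W, g W ≤ 1) (m1 : m ≤ 1) (m2 : 1 - e ≤ m)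
    (h1 : ∀ a, ∑ W ∈ S, f a W = S.card * m)
    (h2 : ∑ a, ∑ a', ∑ W ∈ S, f a W * f a' W ≤
      (Fintype.card A : ℝ) ^ 2 * S.card * (m ^ 2 + δ ^ 2)) :
    Fintype.card A * (∑ W ∈ S, g W - (e + 2 * δ) * S.card) ≤ ∑ a, ∑ W ∈ S, f a W * g W := by
  have Q0 : (0 : ℝ) < Fintype.card A := by exact_mod_cast Fintype.card_pos
  have s1 : ∑ W ∈ S, ∑ a, f a W = Fintype.card A * (S.card * m) := by
    rw [sum_comm]
    simp only [h1, sum_const, card_univ, nsmul_eq_mul]
  have s2 : ∑ W ∈ S, (∑ a, f a W) ^ 2 = ∑ a, ∑ a', ∑ W ∈ S, f a W * f a' W := by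
    simp only [sq, sum_mul_sum]
    rw [sum_comm]
    exact sum_congr rfl fun _ _ => sum_comm
  generalize (Fintype.card A : ℝ) = Q at *
  have pt : ∀ W ∈ S, Q * g W - Q * (e + δ) - (1 / (Q * δ)) *
      ((∑ a, f a W) ^ 2 - 2 * Q * m * (∑ a, f a W) + Q ^ 2 * m ^ 2) ≤ ∑ a, f a W * g W := by
    intro W _
    rw [← sum_mul]
    generalize ∑ a, f a W = Y
    have p : 0 < Q * δ := by positivity
    have a : |Q * m - Y| ≤ Q * δ + 1 / (Q * δ) * (Y ^ 2 - 2 * Q * m * Y + Q ^ 2 * m ^ 2) := by
      have : Y ^ 2 - 2 * Q * m * Y + Q ^ 2 * m ^ 2 = |Q * m - Y| ^ 2 := by rw [sq_abs]; ring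
      rw [this, one_div_mul_eq_div, ← sub_le_iff_le_add', le_div_iff₀ p]
      nlinarith [sq_nonneg (|Q * m - Y| - Q * δ), abs_nonneg (Q * m - Y)]
    have b : g W * (Q * m - Y) ≤ |Q * m - Y| :=
      (mul_le_mul_of_nonneg_left (le_abs_self _) (g0 W)).trans
        (mul_le_of_le_one_left (abs_nonneg _) (g1 W))
    have c : g W * (Q * (1 - m)) ≤ Q * e :=
      (mul_le_of_le_one_left (mul_nonneg Q0.le (by linarith)) (g1 W)).trans
        (mul_le_mul_of_nonneg_left (by linarith) Q0.le)
    linarith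
  rw [sum_comm]
  refine le_trans ?_ (sum_le_sum pt)
  simp only [sum_sub_distrib, sum_add_distrib, ← mul_sum, s1, s2, sum_const, nsmul_eq_mul]
  have k : 1 / (Q * δ) * (∑ a, ∑ a', ∑ W ∈ S, f a W * f a' W - 2 * Q * m * (Q * (S.card * m)) +
      S.card * (Q ^ 2 * m ^ 2)) ≤ 1 / (Q * δ) * (Q ^ 2 * S.card * δ ^ 2) :=
    mul_le_mul_of_nonneg_left (by linarith) (by positivity)
  have k2 : 1 / (Q * δ) * (Q ^ 2 * S.card * δ ^ 2) = Q * S.card * δ := by field_simp
  linarith

/-- The sign of a bit. -/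
def t2s (b : Bool) : ℝ := if b = true then 1 else -1

theorem t2_side (α : κ → Bool) : (side α).card = Fintype.card κ := by
  rw [side, card_filter, Fintype.sum_prod_type, ← card_univ, card_eq_sum_ones]
  refine sum_congr rfl fun i _ => ?_
  rw [Fintype.sum_bool]
  cases α i <;> simp

theorem t2_overlap (α β : κ → Bool) : ((side α ∩ side β).card : ℝ) - Fintype.card κ / 2 =
    (∑ i, t2s (α i) * t2s (β i)) / 2 := by
  rw [side, side, ← filter_and, card_filter, Fintype.sum_prod_type, ← card_univ, card_eq_sum_ones]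
  push_cast
  rw [sum_div, sum_div, ← sum_sub_distrib]
  refine sum_congr rfl fun i _ => ?_
  rw [Fintype.sum_bool]
  cases α i <;> cases β i <;> simp [t2s] <;> norm_num

theorem t2_dev {μ : Type} [Fintype μ] [DecidableEq μ] (blk : κ → μ) {B : ℝ}
    (hB : ∀ c, ((univ.filter (fun i => blk i = c)).card : ℝ) ≤ B) (β : κ → Bool) :
    ∑ α : μ → Bool, (∑ i, t2s (α (blk i)) * t2s (β i)) ^ 2 ≤
      Fintype.card (μ → Bool) * (Fintype.card κ * B) := by
  have o : ∀ c c' : μ, c ≠ c' → ∑ α : μ → Bool, t2s (α c) * t2s (α c') = 0 := fun c c' h => by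
    have i : Function.Involutive fun α : μ → Bool => Function.update α c (!α c) := fun α => by
      simp
    have := i.bijective.sum_comp fun α => t2s (α c) * t2s (α c')
    have n : ∀ b, t2s (!b) = -t2s b := fun b => by cases b <;> simp [t2s]
    simp only [Function.update_self, Function.update_of_ne h.symm, n, neg_mul,
      sum_neg_distrib] at this
    linarith
  have b : ∀ a b c d, t2s a * t2s b * (t2s c * t2s d) ≤ 1 := fun a b c d => by
    cases a <;> cases b <;> cases c <;> cases d <;> simp [t2s]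
  simp only [sq, sum_mul_sum]
  rw [sum_comm]
  refine (sum_le_sum (g := fun _ => Fintype.card (μ → Bool) * B) fun i _ => ?_).trans
    (by rw [sum_const, card_univ, nsmul_eq_mul]; linarith)
  rw [sum_comm]
  refine (sum_le_sum (g := fun j => if blk j = blk i then (Fintype.card (μ → Bool) : ℝ) else 0)
    fun j _ => ?_).trans ?_
  · split_ifs with h
    · exact (sum_le_sum fun α _ => b _ _ _ _).trans (by simp)
    · simp only [mul_mul_mul_comm (t2s _) (t2s (β i)), ← sum_mul, o _ _ (Ne.symm h), zero_mul,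
        le_refl]
  · rw [← sum_filter, sum_const, nsmul_eq_mul, mul_comm]
    exact mul_le_mul_of_nonneg_left (hB _) (by positivity)

theorem t2_sqrt {τ s d : ℝ} (hτ : 0 < τ) (s0 : 0 < s) (hs : 1 ≤ τ ^ 2 * s) :
    √(|d| + s) / s ≤ 3 * τ + d ^ 2 / (τ ^ 3 * s ^ 4) := by
  have a : |d| ≤ τ ^ 2 * s ^ 2 + d ^ 2 / (τ ^ 2 * s ^ 2) := by
    rw [← sub_le_iff_le_add', le_div_iff₀ (by positivity), ← sq_abs d]
    have : 0 < τ ^ 2 * s ^ 2 := by positivity
    nlinarith [sq_nonneg (|d| - τ ^ 2 * s ^ 2), abs_nonneg d]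
  have b : √(|d| + s) ≤ τ * s + (|d| + s) / (τ * s) := by
    have q := Real.sq_sqrt (by positivity : 0 ≤ |d| + s)
    have : 0 < τ * s := by positivity
    rw [← sub_le_iff_le_add', le_div_iff₀ this]
    nlinarith [sq_nonneg (√(|d| + s) - τ * s), Real.sqrt_nonneg (|d| + s)]
  have c : (|d| + s) / (τ * s) ≤ (2 * (τ ^ 2 * s ^ 2) + d ^ 2 / (τ ^ 2 * s ^ 2)) / (τ * s) :=
    div_le_div_of_nonneg_right (by nlinarith) (by positivity)
  rw [div_le_iff₀ s0]
  refine (b.trans (add_le_add_right c _)).trans (le_of_eq ?_)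
  field_simp
  ring

/-- T2.  `X W` = average over `α : μ → Bool` of `rt K N |W ∩ side (α ∘ blk)|`; `E X = μ0`,
`E X^2 ≤ μ0^2 + small` by `phi_close` (the overlap of two sides is a sum of block sizes times fair
bits, mean square deviation at most `θ N^2 / 4`); Cauchy-Schwarz; pick the best `(α, π)`. -/
theorem t2 (ε : ℝ) (hε : 0 < ε) : ∃ θ : ℝ, 0 < θ ∧ ∃ N1 : ℕ,
    ∀ (κ μ : Type) [Fintype κ] [DecidableEq κ] [Fintype μ] [DecidableEq μ] (blk : κ → μ),
      N1 ≤ Fintype.card κ →
      (∀ c, ((univ.filter (fun i => blk i = c)).card : ℝ) ≤ θ * Fintype.card κ) →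
      ∀ g : (κ → Bool) → ℝ, (∀ b, 0 ≤ g b) → (∀ b, g b ≤ 1) →
      ∃ (α : μ → Bool) (π : Equiv.Perm κ),
        (∑ b : κ → Bool, ((Fintype.card κ).choose (sz b) : ℝ) * g b) /
            (((2 * Fintype.card κ).choose (Fintype.card κ) : ℕ) : ℝ) - ε ≤
          (∑ x : κ → Bool, g (cm (fun i => α (blk i)) π x)) / 2 ^ Fintype.card κ := by
  obtain ⟨K, K', K0, K1, N1, H⟩ := rt_facts (ε / 3) (by positivity)
  obtain ⟨τ, hτ⟩ : ∃ τ : ℝ, τ = (ε / 3) ^ 2 / (4 * (K * K')) := ⟨_, rfl⟩
  have τ0 : 0 < τ := by rw [hτ]; positivity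
  have τ1 : K * K' * (4 * τ) = (ε / 3) ^ 2 := by rw [hτ]; field_simp
  refine ⟨τ ^ 4, by positivity, N1 + ⌈(1 / τ ^ 2) ^ 2⌉₊ + 1,
    fun κ μ _ _ _ _ blk hN hb g g0 g1 => ?_⟩
  obtain ⟨h1, h2, h3⟩ := H (Fintype.card κ) (by omega)
  have hX : Fintype.card (κ × Bool) = 2 * Fintype.card κ := by
    rw [Fintype.card_prod, Fintype.card_bool, mul_comm]
  have hs : 1 / τ ^ 2 ≤ √(Fintype.card κ : ℝ) := Real.le_sqrt_of_sq_le
    ((Nat.le_ceil _).trans (by exact_mod_cast (by omega)))
  have N0 : (0 : ℝ) < Fintype.card κ := by exact_mod_cast (by omega)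
  have s0 := Real.sqrt_pos.2 N0
  have ss := Real.sq_sqrt N0.le
  rw [div_le_iff₀' (by positivity)] at hs
  have D0 : (0 : ℝ) < (((2 * Fintype.card κ).choose (Fintype.card κ) : ℕ) : ℝ) := by
    exact_mod_cast Nat.choose_pos (by omega)
  have hS : ((powersetCard (Fintype.card κ) (univ : Finset (κ × Bool))).card : ℝ) =
      (((2 * Fintype.card κ).choose (Fintype.card κ) : ℕ) : ℝ) := by
    rw [card_powersetCard, card_univ, hX]
  have r0 : ∀ j, 0 ≤ rt K (Fintype.card κ) j := fun j => le_min K0.le (by positivity)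
  have main := t2_abs (powersetCard (Fintype.card κ) (univ : Finset (κ × Bool)))
    (fun (α : μ → Bool) W => rt K (Fintype.card κ) (W ∩ side fun i => α (blk i)).card)
    (fun W => g (tr W)) (δ := ε / 3) (by positivity) (fun _ => g0 _) (fun _ => g1 _) h3 h2
    (fun α => by rw [sum_inter _ hX _ (t2_side _), hS, mul_div_cancel₀ _ D0.ne']) ?_
  · rw [sum_tr, hS] at main
    suffices h : ∃ p ∈ (univ : Finset ((μ → Bool) × Equiv.Perm κ)), _ ≤
        (∑ x : κ → Bool, g (cm (fun i => p.1 (blk i)) p.2 x)) / 2 ^ Fintype.card κ by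
      obtain ⟨p, -, hp⟩ := h
      exact ⟨p.1, p.2, hp⟩
    refine exists_le_of_sum_le univ_nonempty ?_
    rw [sum_const, card_univ, Fintype.card_prod, Fintype.card_perm, nsmul_eq_mul,
      Fintype.sum_prod_type]
    simp only [← sum_div, mix_eq]
    have F0 : (0 : ℝ) < (Fintype.card κ).factorial := by positivity
    have := mul_le_mul_of_nonneg_left main (div_pos F0 D0).le
    refine le_trans (le_of_eq ?_) (this.trans ?_)
    · push_cast
      field_simp
      ring
    rw [mul_sum, sum_div]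
    refine sum_le_sum fun α _ => ?_
    rw [mul_sum, sum_div]
    refine sum_le_sum fun W _ => ?_
    have c : (0 : ℝ) < (Fintype.card κ).choose (W ∩ side fun i => α (blk i)).card := by
      exact_mod_cast Nat.choose_pos ((card_le_card inter_subset_right).trans (t2_side _).le)
    refine (mul_le_mul_of_nonneg_left (mul_le_mul_of_nonneg_right (min_le_right _ _) (g0 _))
      (div_pos F0 D0).le).trans (le_of_eq ?_)
    field_simp
  · rw [hS, sum_comm]
    generalize hm : (∑ j ∈ range (Fintype.card κ + 1), ((Fintype.card κ).choose j : ℝ) ^ 2 *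
      rt K (Fintype.card κ) j) / (((2 * Fintype.card κ).choose (Fintype.card κ) : ℕ) : ℝ) = m
    refine (sum_le_sum (g := fun _ => (Fintype.card (μ → Bool) : ℝ) *
      (((2 * Fintype.card κ).choose (Fintype.card κ) : ℕ) * (m ^ 2 + (ε / 3) ^ 2)))
      fun β _ => ?_).trans (by rw [sum_const, card_univ, nsmul_eq_mul]; linarith)
    refine (sum_le_sum (g := fun α : μ → Bool =>
      (((2 * Fintype.card κ).choose (Fintype.card κ) : ℕ) : ℝ) * (m ^ 2 + K * K' * (3 * τ) +
        K * K' / (τ ^ 3 * (Fintype.card κ : ℝ) ^ 2) *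
          (∑ i, t2s (α (blk i)) * t2s (β (blk i))) ^ 2)) fun α _ => ?_).trans ?_
    · have p := phi_close _ hX (rt K (Fintype.card κ)) K (K' / √(Fintype.card κ : ℝ)) r0
        (fun _ => min_le_left _ _) (by positivity) h1 (side fun i => α (blk i))
        (side fun i => β (blk i)) (t2_side _) (t2_side _)
      rw [hm, div_le_iff₀' D0, t2_overlap] at p
      refine p.trans (mul_le_mul_of_nonneg_left ?_ D0.le)
      generalize ∑ i, t2s (α (blk i)) * t2s (β (blk i)) = d
      have q := mul_le_mul_of_nonneg_left (t2_sqrt (d := d / 2) τ0 s0 hs) (mul_pos K0 K1).le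
      have e : √(Fintype.card κ : ℝ) ^ 4 = (Fintype.card κ : ℝ) ^ 2 := by
        rw [← congrArg (· ^ 2) ss]
        ring
      have q2 : K * K' * ((d / 2) ^ 2 / (τ ^ 3 * √(Fintype.card κ : ℝ) ^ 4)) ≤
          K * K' / (τ ^ 3 * (Fintype.card κ : ℝ) ^ 2) * d ^ 2 := by
        rw [e, div_mul_eq_mul_div, mul_div_assoc]
        exact mul_le_mul_of_nonneg_left (div_le_div_of_nonneg_right (by nlinarith [sq_nonneg d])
          (by positivity)) (mul_pos K0 K1).le
      have q3 : K * (K' / √(Fintype.card κ : ℝ)) * √(|d / 2| + √(Fintype.card κ : ℝ)) =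
          K * K' * (√(|d / 2| + √(Fintype.card κ : ℝ)) / √(Fintype.card κ : ℝ)) := by ring
      linarith
    · rw [← mul_sum, sum_add_distrib, ← mul_sum, sum_const, card_univ, nsmul_eq_mul,
        mul_left_comm (Fintype.card (μ → Bool) : ℝ)]
      refine mul_le_mul_of_nonneg_left ?_ D0.le
      have q := mul_le_mul_of_nonneg_left (t2_dev blk hb fun i => β (blk i))
        (by positivity : 0 ≤ K * K' / (τ ^ 3 * (Fintype.card κ : ℝ) ^ 2))
      have q2 : K * K' / (τ ^ 3 * (Fintype.card κ : ℝ) ^ 2) * (Fintype.card (μ → Bool) *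
          (Fintype.card κ * (τ ^ 4 * Fintype.card κ))) = Fintype.card (μ → Bool) * (K * K' * τ) := by
        field_simp
      rw [← τ1]
      linarith

end Pool.Agent.Lib.MP_04fdae_co.G
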