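import Mathlib
import Pool.Agent.Lib.MP_04fdae_co.G.T1
import Pool.Agent.Lib.MP_04fdae_co.G.T2
import Pool.Agent.Lib.MP_04fdae_co.G.IU

/-! The cube theorem. -/

namespace Pool.Agent.Lib.MP_04fdae_co.G

open Finset
open scoped ENNReal

section
variable {ι : Type} [Fintype ι] [DecidableEq ι]

/-- The canopy with `y` on `Y` and `b` outside. -/
def ct_glue (Y : Finset ι) (y : {i // i ∈ Y} → Bool) (b : {i // i ∉ Y} → Bool) : ι → Bool :=
  fun i => if h : i ∈ Y then y ⟨i, h⟩ else b ⟨i, h⟩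

theorem ct_split (Y : Finset ι) (F : (ι → Bool) → ℝ) :
    ∑ x, F x = ∑ b : {i // i ∉ Y} → Bool, ∑ y : {i // i ∈ Y} → Bool, F (ct_glue Y y b) := by
  rw [← (Equiv.piEquivPiSubtypeProd (fun i => i ∈ Y) (fun _ => Bool)).symm.sum_comp,
    Fintype.sum_prod_type_right]
  rfl

omit [Fintype ι] in
theorem ct_out (Y : Finset ι) (y : {i // i ∈ Y} → Bool) (b : {i // i ∉ Y} → Bool) :
    (fun i : {i // i ∉ Y} => ct_glue Y y b i) = b := by
  funext i
  exact dif_neg i.2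

omit [Fintype ι] in
theorem ct_in (Y : Finset ι) (y : {i // i ∈ Y} → Bool) (b : {i // i ∉ Y} → Bool) :
    (fun i : {i // i ∈ Y} => ct_glue Y y b i) = y := by
  funext i
  exact dif_pos i.2

/-- The density of `G` over the letters of `Y`. -/
noncomputable def ct_g (Y : Finset ι) (G : Finset (ι → Bool)) (b : {i // i ∉ Y} → Bool) : ℝ :=
  (∑ y : {i // i ∈ Y} → Bool, if ct_glue Y y b ∈ G then (1 : ℝ) else 0) / 2 ^ Y.card

theorem ct_g_nonneg (Y : Finset ι) (G : Finset (ι → Bool)) (b : {i // i ∉ Y} → Bool) :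
    0 ≤ ct_g Y G b :=
  div_nonneg (sum_nonneg fun _ _ => by split_ifs <;> norm_num) (by positivity)

theorem ct_g_le (Y : Finset ι) (G : Finset (ι → Bool)) (b : {i // i ∉ Y} → Bool) :
    ct_g Y G b ≤ 1 := by
  rw [ct_g, div_le_one (by positivity)]
  refine (sum_le_sum (g := fun _ => (1 : ℝ)) fun _ _ => by split_ifs <;> norm_num).trans ?_
  simp

theorem ct_card (Y : Finset ι) : Fintype.card {i // i ∉ Y} = Fintype.card ι - Y.card := by
  rw [Fintype.card_subtype_compl]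
  simp

theorem ct_mass (Y : Finset ι) (N s N' : ℕ) (hN : N + s = Fintype.card ι)
    (hN' : N' = Fintype.card ι - Y.card) (hs : (s + 1) ^ 2 ≤ Y.card) (h1 : 1 ≤ N') (ε δ : ℝ)
    (hε : 0 < ε) (h0 : 0 < δ) (hδ : 64 * (Y.card : ℝ) ≤ δ ^ 2 * N')
    (hδε : (5 / 4 + ε) * δ ≤ ε / 2) (G : Finset (ι → Bool))
    (hG : (1 / 4 + ε) * ∑ b : ι → Bool, (wt N (sz b) : ℝ) ≤ ∑ b ∈ G, (wt N (sz b) : ℝ)) :
    (1 / 4 + ε / 2) * (((2 * N').choose N' : ℕ) : ℝ) ≤
      ∑ b : {i // i ∉ Y} → Bool, (N'.choose (sz b) : ℝ) * ct_g Y G b := by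
  have hY : Y.card ≤ Fintype.card ι := card_le_univ Y
  have ht := t1 Y N s hN (by nlinarith)
  rw [← hN'] at ht
  set P : (ι → Bool) → ℝ := fun b => (wt N (sz b) : ℝ) / 2 ^ (N - 1) with hP
  set Q : (ι → Bool) → ℝ := fun b =>
    (N'.choose (sz (fun i : {i // i ∉ Y} => b i)) : ℕ) / 2 ^ N' with hQ
  set C : ℝ := (((2 * N').choose N' : ℕ) : ℝ) with hC
  set E : ℝ := ∑ b, |P b - Q b| with hE
  have hpos : (0 : ℝ) < 2 ^ Y.card / 2 ^ N' := by positivity
  have hQ1 : ∑ b, Q b = 2 ^ Y.card / 2 ^ N' * C := by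
    rw [ct_split Y]
    simp only [hQ, ct_out, sum_const, card_univ, Fintype.card_fun, Fintype.card_bool,
      Fintype.card_coe, nsmul_eq_mul]
    rw [sum_sz (ι := {i // i ∉ Y}) fun j => ((2 ^ Y.card : ℕ) : ℝ) * ((N'.choose j : ℝ) / 2 ^ N'),
      ct_card, ← hN', hC, ← Nat.sum_range_choose_sq]
    push_cast
    rw [mul_sum]
    exact sum_congr rfl fun j _ => by ring
  have hQ2 : ∑ b ∈ G, Q b = 2 ^ Y.card / 2 ^ N' *
      ∑ b : {i // i ∉ Y} → Bool, (N'.choose (sz b) : ℝ) * ct_g Y G b := by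
    rw [show ∑ b ∈ G, Q b = ∑ b, if b ∈ G then Q b else 0 by rw [sum_ite_mem, univ_inter],
      ct_split Y, mul_sum]
    refine sum_congr rfl fun b _ => ?_
    simp only [hQ, ct_out, ct_g]
    rw [sum_div, mul_sum, mul_sum]
    refine sum_congr rfl fun y _ => ?_
    split_ifs
    · field_simp
    · simp
  have hP1 : (1 / 4 + ε) * ∑ b, P b ≤ ∑ b ∈ G, P b := by
    simp only [hP]
    rw [← sum_div, ← sum_div, ← mul_div_assoc]
    exact div_le_div_of_nonneg_right hG (by positivity)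
  have e1 : ∑ b, Q b - ∑ b, P b ≤ E := by
    rw [← sum_sub_distrib]
    exact sum_le_sum fun b _ => by rw [abs_sub_comm]; exact le_abs_self _
  have e2 : ∑ b ∈ G, P b - ∑ b ∈ G, Q b ≤ E := by
    rw [← sum_sub_distrib]
    exact (sum_le_sum fun b _ => le_abs_self _).trans
      (sum_le_sum_of_subset_of_nonneg (subset_univ _) fun _ _ _ => abs_nonneg _)
  have hE2 : E ≤ δ * (2 ^ Y.card / 2 ^ N' * C) := by
    have hc := central_lower N' h1
    rw [← hC] at hc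
    have hN0 : (0 : ℝ) < N' := by exact_mod_cast h1
    have hr : 0 < √(N' : ℝ) := Real.sqrt_pos.2 hN0
    have hrr : √(N' : ℝ) * √(N' : ℝ) = N' := Real.mul_self_sqrt hN0.le
    have a1 : (s : ℝ) + 1 ≤ √(Y.card : ℝ) := Real.le_sqrt_of_sq_le (by exact_mod_cast hs)
    have a2 : 8 * √(Y.card : ℝ) ≤ δ * √(N' : ℝ) := by
      refine abs_le_of_sq_le_sq' ?_ (by positivity) |>.2
      rw [mul_pow, mul_pow, Real.sq_sqrt (by positivity), Real.sq_sqrt hN0.le]
      linarith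
    have a3 : 2 * (√(Y.card : ℝ) + s + 1) / ((N' : ℝ) + 1) ≤ δ / (2 * √(N' : ℝ)) := by
      rw [div_le_div_iff₀ (by positivity) (by positivity)]
      nlinarith
    have a4 : (2 : ℝ) ^ Fintype.card ι = 2 ^ Y.card / 2 ^ N' * 4 ^ N' := by
      rw [show Fintype.card ι = Y.card + N' by omega, show (4 : ℝ) = 2 * 2 by norm_num, mul_pow,
        pow_add]
      field_simp
    calc E ≤ 2 ^ Fintype.card ι * (δ / (2 * √(N' : ℝ))) :=
          ht.trans (mul_le_mul_of_nonneg_left a3 (by positivity))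
      _ = δ * (2 ^ Y.card / 2 ^ N' * (4 ^ N' / (2 * √(N' : ℝ)))) := by rw [a4]; ring
      _ ≤ _ := by gcongr
  have hC0 : 0 ≤ C := by positivity
  refine le_of_mul_le_mul_left ?_ hpos
  rw [← hQ2]
  rw [← hQ1] at hE2
  have hS : 0 ≤ ∑ b, Q b := by rw [hQ1]; positivity
  have e3 : 2 ^ Y.card / 2 ^ N' * ((1 / 4 + ε / 2) * C) = (1 / 4 + ε / 2) * ∑ b, Q b := by
    rw [hQ1]; ring
  rw [e3]
  have e4 : (5 / 4 + ε) * E ≤ ε / 2 * ∑ b, Q b :=
    (mul_le_mul_of_nonneg_left hE2 (by positivity)).trans (by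
      rw [← mul_assoc]; exact mul_le_mul_of_nonneg_right hδε hS)
  nlinarith

/-- The image of a point of the cube. -/
def ct_im (Y : Finset ι) (α : {i // i ∉ Y} → Bool) (π : Equiv.Perm {i // i ∉ Y})
    (x : ι → Bool) : ι → Bool :=
  ct_glue Y (fun i => x i) (cm α π fun i => x i)

theorem ct_H (Y : Finset ι) (α : {i // i ∉ Y} → Bool) (π : Equiv.Perm {i // i ∉ Y})
    (G : Finset (ι → Bool)) :
    ((univ.filter fun x => ct_im Y α π x ∈ G).card : ℝ) =
      2 ^ Y.card * ∑ x, ct_g Y G (cm α π x) := by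
  rw [card_filter, Nat.cast_sum, ct_split Y, mul_sum]
  refine sum_congr rfl fun b _ => ?_
  rw [ct_g, mul_div_cancel₀ _ (by positivity)]
  refine sum_congr rfl fun y _ => ?_
  simp only [ct_im, ct_in, ct_out]
  split_ifs <;> simp

omit [Fintype ι] in
theorem ct_val (Y Λ : Finset ι) (hΛ : Λ ⊆ Y) (a : ι → Bool) (α : {i // i ∉ Y} → Bool)
    (ha : ∀ i : {i // i ∉ Y}, a i = α i) (π : Equiv.Perm {i // i ∉ Y}) (x x' : ι → Bool)
    (c : Bool) (h1 : ∀ v ∈ Λ, x v ≠ x' v)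
    (h2 : ∀ v, v ∉ Λ → x v = x' v → x v = xor c (if v ∈ Y then a v else true)) (i : ι)
    (h : ct_im Y α π x i = ct_im Y α π x' i) : i ∉ Λ ∧ ct_im Y α π x i = xor c (a i) := by
  by_cases hi : i ∈ Y
  · simp only [ct_im, ct_glue, dif_pos hi] at h ⊢
    have hl : i ∉ Λ := fun hl => h1 i hl h
    exact ⟨hl, by rw [h2 i hl h, if_pos hi]⟩
  · refine ⟨fun hl => hi (hΛ hl), ?_⟩
    simp only [ct_im, ct_glue, dif_neg hi, cm] at h ⊢
    rw [ha ⟨i, hi⟩]
    by_cases hα : α ⟨i, hi⟩ = true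
    · rw [if_pos hα, if_pos hα] at h
      rw [if_pos hα, hα, h2 i (fun hl => hi (hΛ hl)) h, if_neg hi]
    · rw [if_neg hα, if_neg hα, Bool.not_inj_iff] at h
      have hp := (π ⟨i, hi⟩).2
      rw [if_neg hα, h2 _ (fun hl => hp (hΛ hl)) h, if_neg hp, Bool.eq_false_iff.2 hα]
      cases c <;> rfl

end

/-- CT.  `t1` moves the weight to `C(N', |b outside Y|)`; `g` = density of `G` over the letters of
`Y`; `t2` on `κ = {i // i ∉ Y}` gives `α, π`; `H` = the `x : ZMod n → Bool` whose image (`x` on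
`Y`, `cm` outside) lies in `G`; `iu` with `σ j v = if v ∈ Y then α (β j v) else true`: a common
value of the two images at `v ∉ Λ j` is determined by `α (β j v)`. -/
theorem ct (ε : ℝ) (hε : 0 < ε) : ∃ γ : ℝ, 0 < γ ∧ ∀ s : ℕ, ∃ n0 : ℕ, ∀ (n : ℕ) [NeZero n],
    n0 ≤ n → ∀ L : ℕ, (L : ℝ) ≤ γ * n → ∀ G : Finset (ZMod n → Bool),
      (1 / 4 + ε) * ∑ b : ZMod n → Bool, (wt (n - s) (sz b) : ℝ) ≤
        ∑ b ∈ G, (wt (n - s) (sz b) : ℝ) →
      ∃ b ∈ G, ∃ b' ∈ G, Sep L b b' := by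
  obtain ⟨θ, hθ, N1, h2⟩ := t2 (ε / 4) (by positivity)
  obtain ⟨N0, hN0⟩ := exists_nat_gt (2 / (ε / 4) ^ 2)
  have hN0' : 2 < N0 * (ε / 4) ^ 2 := (div_lt_iff₀ (by positivity)).1 hN0
  have hN0p : (0 : ℝ) < N0 := lt_trans (by positivity) hN0
  obtain ⟨M, hM⟩ := exists_nat_gt (4 / θ)
  have hMp : (0 : ℝ) < M := lt_trans (by positivity) hM
  have hM' : 4 < M * θ := (div_lt_iff₀ hθ).1 hM
  set δ : ℝ := ε / (2 * (5 / 4 + ε)) with hδ
  have hδ0 : 0 < δ := by positivity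
  have hδ1 : δ ≤ 1 := by rw [hδ, div_le_one (by positivity)]; linarith
  have hδε : (5 / 4 + ε) * δ ≤ ε / 2 := le_of_eq (by rw [hδ]; field_simp)
  set γ : ℝ := δ ^ 2 / (128 * (M * N0)) with hγ
  have hγ0 : 0 < γ := by positivity
  refine ⟨γ, hγ0, fun s => ?_⟩
  obtain ⟨n1, hn1⟩ := exists_nat_ge (((s + 1 : ℕ) ^ 2 : ℕ) / γ)
  refine ⟨n1 + 2 * N1 + M * M + s + 2, fun n _ hn L hL G hG => ?_⟩
  have hM1 : 1 ≤ M := by exact_mod_cast hMp
  have hN1 : 1 ≤ N0 := by exact_mod_cast hN0p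
  have hnp : (0 : ℝ) < n := by exact_mod_cast (show 0 < n by omega)
  set L' := ⌊γ * n⌋₊ with hL'
  have hLL : L ≤ L' := Nat.le_floor hL
  have hsL : (s + 1) ^ 2 ≤ L' := Nat.le_floor (by
    rw [div_le_iff₀ hγ0, mul_comm] at hn1
    refine hn1.trans (mul_le_mul_of_nonneg_left ?_ hγ0.le)
    exact_mod_cast (show n1 ≤ n by omega))
  have hY1 : ((M * (N0 * L') : ℕ) : ℝ) ≤ δ ^ 2 / 128 * n := by
    have : (L' : ℝ) ≤ γ * n := Nat.floor_le (by positivity)
    push_cast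
    calc (M : ℝ) * (N0 * L') ≤ M * (N0 * (γ * n)) := by gcongr
      _ = _ := by rw [hγ]; field_simp
  have hδ2 : δ ^ 2 ≤ 1 := pow_le_one₀ hδ0.le hδ1
  have hY2 : 2 * (M * (N0 * L')) ≤ n := by
    have : (2 : ℝ) * ((M * (N0 * L') : ℕ) : ℝ) ≤ n := by nlinarith
    exact_mod_cast this
  have hMM : M ≤ M * M := Nat.le_mul_self M
  obtain ⟨Y, Λ, blk, β, g1, g2, g3, g4, g5, g6⟩ := geo n M N0 L' hM1 (by omega) (by omega)
  rw [← g1] at hY1 hY2
  have hc : Fintype.card {i // i ∉ Y} = n - Y.card := by rw [ct_card, ZMod.card]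
  have hN' : (n : ℝ) ≤ 2 * ((n - Y.card : ℕ) : ℝ) := by
    exact_mod_cast (show n ≤ 2 * (n - Y.card) by omega)
  have hm := ct_mass Y (n - s) s (n - Y.card) (by rw [ZMod.card]; omega) (by rw [ZMod.card])
    (hsL.trans (by rw [g1, ← mul_assoc]; exact Nat.le_mul_of_pos_left _ (by positivity)))
    (by omega) ε δ hε hδ0 (by nlinarith [sq_nonneg δ]) hδε G hG
  obtain ⟨α, π, h3⟩ := h2 {i // i ∉ Y} (Fin M) (fun i => blk i) (by omega) (fun c => by
    have b1 : (univ.filter fun i : {i // i ∉ Y} => blk i = c).card ≤ n / M + M := by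
      refine le_trans ?_ (g4 c)
      exact card_le_card_of_injOn (fun i => i.1) (fun i hi => by simpa using hi)
        fun _ _ _ _ h => Subtype.ext h
    have b2 : ((n / M : ℕ) : ℝ) ≤ n / M := Nat.cast_div_le
    have b3 : (M : ℝ) ≤ n / M := by
      rw [le_div_iff₀ hMp]
      exact_mod_cast (show M * M ≤ n by omega)
    have b4 : (n : ℝ) / M ≤ θ * n / 4 := by
      rw [div_le_iff₀ hMp]
      nlinarith
    have b5 : (((univ.filter fun i : {i // i ∉ Y} => blk i = c).card : ℕ) : ℝ) ≤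
        ((n / M : ℕ) : ℝ) + M := by exact_mod_cast b1
    rw [hc]
    nlinarith) (ct_g Y G) (ct_g_nonneg Y G) (ct_g_le Y G)
  rw [hc] at h3
  have hCp : (0 : ℝ) < (((2 * (n - Y.card)).choose (n - Y.card) : ℕ) : ℝ) := by
    exact_mod_cast Nat.choose_pos (by omega)
  rw [← le_div_iff₀ hCp] at hm
  obtain ⟨j, x, hx, x', hx', c, k1, k2⟩ := iu (ε / 4) (by positivity) N0 hN0' Λ g3
    (fun j v => if v ∈ Y then α (β j v) else true)
    (univ.filter fun x => ct_im Y (fun i => α (blk i)) π x ∈ G) (by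
      rw [ct_H, ZMod.card, show (2 : ℝ) ^ n = 2 ^ Y.card * 2 ^ (n - Y.card) by
        rw [← pow_add]; congr 1; omega, mul_left_comm]
      refine mul_le_mul_of_nonneg_left ?_ (by positivity)
      rw [← le_div_iff₀ (by positivity)]
      linarith)
  refine ⟨_, (mem_filter.1 hx).2, _, (mem_filter.1 hx').2, fun i d hd a1 a2 => ?_⟩
  have hv := ct_val Y (Λ j) (g2 j) (fun v => α (β j v)) (fun i => α (blk i))
    (fun i => by rw [g5 j i i.2]) π x x' c k1 k2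
  rw [(hv i a1).2, (hv _ a2).2, g6 j i d (hd.trans hLL) (hv i a1).1 (hv _ a2).1]

end Pool.Agent.Lib.MP_04fdae_co.G
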