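import Mathlib
import Pool.Agent.Lib.MP_04fdae_co.G.Defs

/-! The case analysis (paper section 6). -/

namespace Pool.Agent.Lib.MP_04fdae_co.G

open Finset
open scoped ENNReal

variable {n : ℕ} [NeZero n]

theorem Sep.symm {L : ℕ} {b b' : ZMod n → Bool} (h : Sep L b b') : Sep L b' b :=
  fun i d hd h1 h2 => h1.trans ((h i d hd h1.symm h2.symm).trans h2.symm)

theorem Sep.mono {L L' : ℕ} {b b' : ZMod n → Bool} (h : Sep L b b') (hL : L' ≤ L) :
    Sep L' b b' := fun i d hd => h i d (hd.trans hL)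

theorem Sep.noCommon {L : ℕ} {b b' : ZMod n → Bool} (h : Sep L b b') (a : ZMod n) {l : ℕ}
    (hl : l ≤ L) : ∃ c, NoCommon c b b' a l := by
  by_contra hc
  simp only [NoCommon, not_exists, not_forall, not_not] at hc
  obtain ⟨k, hk, h1, h2⟩ := hc true
  obtain ⟨k', hk', h3, h4⟩ := hc false
  rcases le_total k k' with e | e
  · obtain ⟨d, rfl⟩ := Nat.exists_eq_add_of_le e
    have := h (a + k) d (by omega) (h1.trans h2.symm) (by
      rw [add_assoc, ← Nat.cast_add, h3, h4])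
    rw [add_assoc, ← Nat.cast_add, h1, h3] at this
    exact Bool.noConfusion this
  · obtain ⟨d, rfl⟩ := Nat.exists_eq_add_of_le e
    have := h (a + k') d (by omega) (h3.trans h4.symm) (by
      rw [add_assoc, ← Nat.cast_add, h1, h2])
    rw [add_assoc, ← Nat.cast_add, h1, h3] at this
    exact Bool.noConfusion this

theorem case_ends {o : ZMod n → ℕ} {a : ZMod n} {m : ℕ} (hm : 2 ≤ m) (h : Cd a m o) :
    o a = 0 ∧ o (a + ((m - 1 : ℕ) : ZMod n)) ≠ 0 := by
  obtain ⟨k, rfl⟩ : ∃ k, m = k + 1 := ⟨m - 1, by omega⟩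
  have h1 := h.1 1 le_rfl hm
  have h2 := h.1 k (by omega) (by omega)
  have h3 := h.2
  simp only [ps, sum_range_succ, sh, range_zero, sum_empty, Nat.cast_zero, add_zero] at h1 h2 h3
  rw [Nat.add_sub_cancel]
  omega

theorem case_sep {L : ℕ} {o o' : ZMod n → ℕ} (hsep : Sep L (can o) (can o')) {a : ZMod n} {m : ℕ}
    (hm : 2 ≤ m) (hmn : m + 2 ≤ n) (h : o a = 0 ∧ o (a + ((m - 1 : ℕ) : ZMod n)) ≠ 0)
    (h' : o' a = 0 ∧ o' (a + ((m - 1 : ℕ) : ZMod n)) ≠ 0) : L ≤ m ∧ m + L ≤ n := by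
  have e : a + ((m - 1 : ℕ) : ZMod n) + ((n - (m - 1) : ℕ) : ZMod n) = a := by
    rw [add_assoc, ← Nat.cast_add, show m - 1 + (n - (m - 1)) = n by omega, ZMod.natCast_self,
      add_zero]
  constructor
  · by_contra hc
    have := hsep a (m - 1) (by omega)
    simp [can, h.1, h.2, h'.1, h'.2] at this
  · by_contra hc
    have := hsep (a + ((m - 1 : ℕ) : ZMod n)) (n - (m - 1)) (by omega)
    rw [e] at this
    simp [can, h.1, h.2, h'.1, h'.2] at this

theorem cases_of_typ {L L2 s q0 : ℕ} (hL : L2 < L) (hLn : 2 * L ≤ n) {o o' : ZMod n → ℕ}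
    {x x' : ZMod n} {l l' : ℕ} (hl : s ≤ l) (hl2 : l ≤ L2) (hl' : s ≤ l') (hl2' : l' ≤ L2)
    (hs : 1 ≤ s) (h2 : Cd (x + (l : ZMod n)) (n - l) o) (h2' : Cd (x' + (l' : ZMod n)) (n - l') o')
    (hsep : Sep L (can o) (can o')) {a a' : ZMod n} {m m' : ℕ} (hm : 2 ≤ m) (hmn : m + 2 ≤ n)
    (ht : Typ q0 o x l a m) (ht' : Typ q0 o' x' l' a' m')
    (hname : (a' = a ∧ m' = m) ∨ (a' = a + (m : ZMod n) ∧ m' = n - m)) :
    Cases L L2 s q0 o x l o' x' l' := by
  have nr : ∀ j j' : ℕ, j ≤ j' + l → j' ≤ j + l' → x + (j : ZMod n) = x' + (j' : ZMod n) →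
      Cases L L2 s q0 o x l o' x' l' := fun j j' h1 h3 e => by
    obtain ⟨i, hi⟩ : ∃ i, l + j' + i = L2 + l' + j := ⟨L2 + l' + j - (l + j'), by omega⟩
    refine Or.inl ⟨_, _, n - l, n - l', i, by omega, by omega, by omega, by omega, by omega, ?_,
      h2, h2'⟩
    have := congrArg (Nat.cast : ℕ → ZMod n) hi
    push_cast at this
    linear_combination -e - this
  have hn : ((n - m : ℕ) : ZMod n) = -(m : ZMod n) := by
    rw [Nat.cast_sub (by omega), ZMod.natCast_self, zero_sub]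
  rcases hname with ⟨rfl, rfl⟩ | ⟨rfl, rfl⟩
  · rcases ht with ⟨i, e, h3, h4⟩ | ⟨i, e, h3, h4⟩ | ⟨e, h3, h4⟩ <;>
      rcases ht' with ⟨i', e', h5, h6⟩ | ⟨i', e', h5, h6⟩ | ⟨e', h5, h6⟩
    · have := case_sep hsep hm hmn (case_ends hm h4) (case_ends hm h6)
      exact Or.inr (Or.inl ⟨_, _, this.1, this.2, h4, Or.inl h6⟩)
    · have := case_sep hsep hm hmn (case_ends hm h4) h6
      omega
    · exact Or.inr (Or.inr (Or.inr (Or.inl ⟨_, h5, h6, e' ▸ h4⟩)))
    · have := case_sep hsep hm hmn h4 (case_ends hm h6)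
      omega
    · have := case_sep hsep hm hmn h4 h6
      omega
    · exact nr i 0 (by omega) (by omega) (by rw [← e, ← e', Nat.cast_zero, add_zero])
    · exact Or.inr (Or.inr (Or.inl ⟨_, h3, h4, e ▸ h6⟩))
    · exact nr 0 i' (by omega) (by omega) (by rw [← e, ← e', Nat.cast_zero, add_zero])
    · exact nr 0 0 (by omega) (by omega) (by rw [← e, ← e'])
  · rcases ht with ⟨i, e, h3, h4⟩ | ⟨i, e, h3, h4⟩ | ⟨e, h3, h4⟩ <;>
      rcases ht' with ⟨i', e', h5, h6⟩ | ⟨i', e', h5, h6⟩ | ⟨e', h5, h6⟩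
    · by_cases c1 : m < L
      · exact Or.inr (Or.inr (Or.inr (Or.inr (Or.inr ⟨a, m, by omega, c1, h6, h4⟩))))
      by_cases c2 : n - m < L
      · refine Or.inr (Or.inr (Or.inr (Or.inr (Or.inl ⟨_, n - m, by omega, c2, ?_, h6⟩))))
        rwa [hn, add_neg_cancel_right, show n - (n - m) = m by omega]
      · exact Or.inr (Or.inl ⟨a, m, by omega, by omega, h4, Or.inr h6⟩)
    · refine nr (l + i) (i' + (n - m)) (by omega) (by omega) ?_
      rw [Nat.cast_add, Nat.cast_add, hn]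
      linear_combination e' - e
    · refine nr (l + i) (n - m) (by omega) (by omega) ?_
      rw [Nat.cast_add, hn]
      linear_combination e' - e
    · refine nr (i + m) (l' + i') (by omega) (by omega) ?_
      rw [Nat.cast_add, Nat.cast_add]
      linear_combination e' - e
    · omega
    · omega
    · refine nr m (l' + i') (by omega) (by omega) ?_
      rw [Nat.cast_add]
      linear_combination e' - e
    · omega
    · omega

end Pool.Agent.Lib.MP_04fdae_co.G
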