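import Mathlib
import Pool.Agent.Lib.MP_04fdae_co.G.Ker

/-! Survival of one walk (moment method, paper section 2). -/

namespace Pool.Agent.Lib.MP_04fdae_co.G

open Finset
open scoped ENNReal

theorem surv1_mono (P : Module.End ℝ≥0∞ (ℕ → ℝ≥0∞)) {f g : ℕ → ℝ≥0∞} (h : f ≤ g) :
    P f ≤ P g := by
  obtain ⟨c, rfl⟩ := exists_add_of_le h
  rw [map_add]
  exact le_self_add

/-- The function `x + 1`. -/
noncomputable def surv1U : ℕ → ℝ≥0∞ := fun x => ((x + 1 : ℕ) : ℝ≥0∞)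

theorem surv1_mom (P : Module.End ℝ≥0∞ (ℕ → ℝ≥0∞)) (h0 : P 1 ≤ 1) (h1 : P surv1U ≤ surv1U)
    (h2 : surv1U ^ 2 + 1 ≤ P (surv1U ^ 2)) (h3 : P (surv1U ^ 3) ≤ surv1U ^ 3 + 12 • surv1U)
    (t : ℕ) : (P ^ t) 1 ≤ 1 ∧ (P ^ t) surv1U ≤ surv1U ∧
      (t + 1) • (P ^ t) 1 ≤ (P ^ t) (surv1U ^ 2) ∧
      (P ^ t) (surv1U ^ 3) ≤ surv1U ^ 3 + (12 * t) • surv1U := by
  induction t with
  | zero =>
    refine ⟨le_rfl, le_rfl, fun x => ?_, le_self_add⟩
    simp only [surv1U, pow_zero, Module.End.one_apply, zero_add, one_smul, Pi.one_apply,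
      Pi.pow_apply]
    exact_mod_cast Nat.one_le_pow _ _ (Nat.succ_pos x)
  | succ t ih =>
    obtain ⟨a, b, c, d⟩ := ih
    simp only [pow_succ P, Module.End.mul_apply]
    refine ⟨(surv1_mono _ h0).trans a, (surv1_mono _ h1).trans b, ?_,
      (surv1_mono _ h3).trans ?_⟩
    · refine (nsmul_le_nsmul_right (surv1_mono _ h0) _).trans (le_trans ?_ (surv1_mono _ h2))
      rw [map_add, succ_nsmul]
      exact add_le_add c le_rfl
    · rw [map_add, map_nsmul, mul_add, mul_one, add_nsmul, ← add_assoc]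
      exact add_le_add d (nsmul_le_nsmul_right b _)

theorem surv1_real {f u L : ℝ} (hf : f ≤ 1) (hu : 0 < u) (hL : 0 < L)
    (h : 2 * L * (L ^ 2 * f) ≤ L ^ 2 * u + (u ^ 3 + 12 * L ^ 2 * u)) : f ≤ 7 * u / L := by
  rw [le_div_iff₀ hL]
  rcases le_total u L with a | a
  · have : u ^ 3 ≤ L ^ 2 * u := by
      rw [pow_succ]; exact mul_le_mul_of_nonneg_right (pow_le_pow_left₀ hu.le a 2) hu.le
    exact le_of_mul_le_mul_left (by nlinarith) (show 0 < 2 * L ^ 2 by positivity)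
  · nlinarith

theorem surv1_bound (P : Module.End ℝ≥0∞ (ℕ → ℝ≥0∞)) (h0 : P 1 ≤ 1) (h1 : P surv1U ≤ surv1U)
    (h2 : surv1U ^ 2 + 1 ≤ P (surv1U ^ 2)) (h3 : P (surv1U ^ 3) ≤ surv1U ^ 3 + 12 • surv1U)
    (t x : ℕ) : (P ^ t) 1 x ≤ ENNReal.ofReal (7 * ((x : ℝ) + 1) / √((t : ℝ) + 1)) := by
  obtain ⟨a, b, c, d⟩ := surv1_mom P h0 h1 h2 h3 t
  obtain ⟨L, hL⟩ : ∃ L : NNReal, L ^ 2 = t + 1 := ⟨NNReal.sqrt (t + 1), NNReal.sq_sqrt _⟩
  have hL' : (L : ℝ) ^ 2 = t + 1 := by exact_mod_cast hL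
  have am : (2 * L : ℝ≥0∞) • surv1U ^ 2 ≤ (L ^ 2 : ℝ≥0∞) • surv1U + surv1U ^ 3 := fun y => by
    simp only [surv1U, Pi.smul_apply, Pi.pow_apply, Pi.add_apply, smul_eq_mul]
    have : (2 * L * ((y + 1 : ℕ) : ℝ) ^ 2 : ℝ) ≤ L ^ 2 * (y + 1 : ℕ) + (y + 1 : ℕ) ^ 3 := by
      nlinarith [mul_nonneg (Nat.cast_nonneg (α := ℝ) (y + 1))
        (sq_nonneg ((L : ℝ) - (y + 1 : ℕ)))]
    exact_mod_cast this
  have e := surv1_mono (P ^ t) am
  rw [map_smul, map_add, map_smul] at e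
  have e' := ((smul_le_smul_of_nonneg_left c zero_le).trans
    (e.trans (add_le_add (smul_le_smul_of_nonneg_left b zero_le) d))) x
  have a' := a x
  simp only [surv1U, Pi.smul_apply, Pi.pow_apply, Pi.add_apply, smul_eq_mul, nsmul_eq_mul,
    Pi.one_apply, Pi.mul_apply, Pi.natCast_apply] at e' a'
  lift (P ^ t) 1 x to NNReal using ne_top_of_le_ne_top ENNReal.one_ne_top a' with f
  have e2 : (2 * L * (((t + 1 : ℕ) : ℝ) * f) : ℝ) ≤
      L ^ 2 * (x + 1 : ℕ) + ((x + 1 : ℕ) ^ 3 + (12 * t : ℕ) * (x + 1 : ℕ)) := by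
    exact_mod_cast e'
  have p : (0 : ℝ) < L := by
    refine lt_of_le_of_ne L.2 fun h => ?_
    rw [← h] at hL'
    nlinarith [Nat.cast_nonneg (α := ℝ) t]
  rw [← hL', Real.sqrt_sq p.le, ← ENNReal.ofReal_coe_nnreal]
  refine ENNReal.ofReal_le_ofReal (surv1_real (by exact_mod_cast a') (by positivity) p ?_)
  push_cast at e2
  rw [hL'] at e2 ⊢
  nlinarith [Nat.cast_nonneg (α := ℝ) x]

/-- The operator of a killed walk. -/
noncomputable def surv1Op (al : ℕ → ℕ → Prop) (nx : ℕ → ℕ → ℕ) : Module.End ℝ≥0∞ (ℕ → ℝ≥0∞) where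
  toFun f x := ∑' v, gw v * (ind (al x v) * f (nx x v))
  map_add' f g := funext fun x => by simp only [Pi.add_apply, mul_add, ENNReal.tsum_add]
  map_smul' c f := funext fun x => by
    simp only [Pi.smul_apply, smul_eq_mul, RingHom.id_apply, ← ENNReal.tsum_mul_left]
    exact tsum_congr fun v => by ring

theorem surv1Op_apply (al : ℕ → ℕ → Prop) (nx : ℕ → ℕ → ℕ) (f : ℕ → ℝ≥0∞) (x : ℕ) :
    surv1Op al nx f x = ∑' v, gw v * (ind (al x v) * f (nx x v)) := rfl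

theorem surv1Op_one (al : ℕ → ℕ → Prop) (nx : ℕ → ℕ → ℕ) : surv1Op al nx 1 ≤ 1 := fun x => by
  rw [surv1Op_apply, Pi.one_apply, ← tsum_gw]
  exact ENNReal.tsum_le_tsum fun v => mul_le_of_le_one_right' (by simpa using ind_le_one _)

theorem surv1_inj {ι : Type} {e : ℕ → ι} {r : ℕ} (h : Set.InjOn e (Set.Iio (r + 1))) :
    Set.InjOn (fun k => e (k + 1)) (Set.Iio r) ∧ ∀ k < r, e (k + 1) ≠ e 0 :=
  ⟨fun _ a _ b c => Nat.succ_injective (h (Nat.succ_lt_succ a) (Nat.succ_lt_succ b) c),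
    fun k a c => Nat.succ_ne_zero k (h (Nat.succ_lt_succ a) (Nat.succ_pos r) c)⟩

theorem surv1_ex {al : ℕ → ℕ → Prop} {nx : ℕ → ℕ → ℕ} {W : ℕ → (ℕ → ℕ) → ℕ → Prop}
    (hs : ∀ x o r, W x o (r + 1) → al x (o 0) ∧ W (nx x (o 0)) (fun k => o (k + 1)) r)
    (hc : ∀ x o o' r, (∀ k < r, o k = o' k) → W x o r → W x o' r)
    {ι : Type} [Fintype ι] [DecidableEq ι] (r : ℕ) : ∀ (x : ℕ) (e : ℕ → ι),
    Set.InjOn e (Set.Iio r) →
    Ex gw (fun o : ι → ℕ => ind (W x (fun k => o (e k)) r)) ≤ (surv1Op al nx ^ r) 1 x := by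
  induction r with
  | zero => exact fun x e _ => (Ex_mono fun _ => ind_le_one _).trans (Ex_const tsum_gw 1).le
  | succ r ih =>
    intro x e h
    rw [Ex_update tsum_gw (e 0), pow_succ', Module.End.mul_apply, surv1Op_apply]
    refine ENNReal.tsum_le_tsum fun v => mul_le_mul_right ?_ _
    refine le_trans ?_ (mul_le_mul_right (ih (nx x v) _ (surv1_inj h).1) _)
    rw [← Ex_mul_left]
    refine Ex_mono fun o => ?_
    rw [← ind_and]
    refine ind_mono fun a => ?_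
    have b := hs _ _ _ a
    simp only [Function.update_self] at b
    exact ⟨b.1, hc _ _ _ _ (fun k hk => Function.update_of_ne ((surv1_inj h).2 k hk) _ _) b.2⟩

theorem surv1_ps (o : ℕ → ℕ) (k : ℕ) : ps o (k + 1) = ps (fun k => o (k + 1)) k + o 0 :=
  sum_range_succ' _ _

theorem surv1_ps_congr {o o' : ℕ → ℕ} {r k : ℕ} (h : ∀ k < r, o k = o' k) (hk : k ≤ r) :
    ps o k = ps o' k := sum_congr rfl fun i a => h i ((mem_range.1 a).trans_le hk)

theorem surv1_half (a : ℝ≥0∞) : 2 * (2⁻¹ * a) = a := by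
  rw [← mul_assoc, ENNReal.mul_inv_cancel two_ne_zero ENNReal.ofNat_ne_top, one_mul]

theorem surv1_rec (f : ℕ → ℝ≥0∞) :
    2 * surv1Op (fun x v => v ≤ x) (fun x v => x + 1 - v) f 0 = f 1 ∧
    ∀ x, 2 * surv1Op (fun x v => v ≤ x) (fun x v => x + 1 - v) f (x + 1) =
      f (x + 2) + surv1Op (fun x v => v ≤ x) (fun x v => x + 1 - v) f x := by
  refine ⟨?_, fun x => ?_⟩
  · rw [surv1Op_apply, tsum_eq_single 0 fun v hv => by rw [ind_false (by omega)]; simp]
    simpa [gw, ind] using surv1_half _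
  · rw [surv1Op_apply, surv1Op_apply, tsum_eq_zero_add' ENNReal.summable, mul_add,
      ← ENNReal.tsum_mul_left]
    congr 1
    · simpa [gw, ind] using surv1_half _
    · refine tsum_congr fun v => ?_
      rw [gw, pow_succ', mul_assoc, surv1_half, ind_congr Nat.add_le_add_iff_right,
        Nat.add_sub_add_right]
      rfl

theorem surv1_two {a b : ℝ≥0∞} (h : 2 * a ≤ 2 * b) : a ≤ b :=
  (ENNReal.mul_le_mul_iff_right two_ne_zero ENNReal.ofNat_ne_top).1 h

theorem surv1_fwd {ι : Type} [Fintype ι] [DecidableEq ι] (e : ℕ → ι) (r x : ℕ)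
    (h : Set.InjOn e (Set.Iio r)) : Ex gw (fun o : ι → ℕ => ind (FwdW x (fun k => o (e k)) r)) ≤
      ENNReal.ofReal (7 * ((x : ℝ) + 1) / √((r : ℝ) + 1)) := by
  refine (surv1_ex (al := fun x v => v ≤ x) (nx := fun x v => x + 1 - v) (fun x o r a => ?_)
    (fun x o o' r a b k c d => surv1_ps_congr a d ▸ b k c d) r x e h).trans
    (surv1_bound _ (surv1Op_one _ _) (fun x => ?_) (fun x => ?_) (fun x => ?_) r x)
  · have b := a 1 le_rfl (by omega)
    rw [surv1_ps, ps, sum_range_zero] at b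
    refine ⟨by omega, fun k c d => ?_⟩
    have := a (k + 1) (by omega) (by omega)
    rw [surv1_ps] at this
    omega
  · induction x with
    | zero =>
      refine surv1_two ((surv1_rec _).1.trans_le ?_)
      simp only [surv1U]
      norm_cast
    | succ x ih =>
      refine surv1_two (((surv1_rec _).2 x).trans_le ((add_le_add le_rfl ih).trans ?_))
      simp only [surv1U]
      norm_cast
      omega
  · induction x with
    | zero =>
      refine surv1_two (le_trans ?_ (surv1_rec _).1.ge)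
      simp only [surv1U, Pi.add_apply, Pi.pow_apply, Pi.one_apply]
      norm_cast
    | succ x ih =>
      refine surv1_two (le_trans (le_trans ?_ (add_le_add le_rfl ih)) ((surv1_rec _).2 x).ge)
      simp only [surv1U, Pi.add_apply, Pi.pow_apply, Pi.one_apply]
      norm_cast
      nlinarith
  · induction x with
    | zero =>
      refine surv1_two ((surv1_rec _).1.trans_le ?_)
      simp only [surv1U, Pi.add_apply, Pi.pow_apply, nsmul_eq_mul, Pi.mul_apply,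
        Pi.natCast_apply]
      norm_cast
    | succ x ih =>
      refine surv1_two (((surv1_rec _).2 x).trans_le ((add_le_add le_rfl ih).trans ?_))
      simp only [surv1U, Pi.add_apply, Pi.pow_apply, nsmul_eq_mul, Pi.mul_apply,
        Pi.natCast_apply]
      norm_cast
      nlinarith

theorem surv1_pow (h k : ℕ) :
    surv1Op (fun h v => 1 ≤ h + v) (fun h v => h + v - 1) (surv1U ^ (k + 1)) h =
      ∑' v, gw v * ((h : ℝ≥0∞) + v) ^ (k + 1) := by
  refine tsum_congr fun v => congrArg _ ?_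
  rw [← Nat.cast_add]
  obtain a | a := (h + v).eq_zero_or_pos
  · simp [a, ind]
  · simp only [ind_true (show 1 ≤ h + v from a), surv1U, Pi.pow_apply, one_mul, Nat.sub_add_cancel a]

theorem surv1_cubic (a b c d : ℝ≥0∞) :
    ∑' v, gw v * (a + b * v + c * (v : ℝ≥0∞) ^ 2 + d * (v : ℝ≥0∞) ^ 3) =
      a + b + c * 3 + d * 13 := by
  simp only [mul_add, ENNReal.tsum_add, mul_left_comm (gw _), ENNReal.tsum_mul_left,
    ENNReal.tsum_mul_right, tsum_gw, gw_mom1, gw_mom2, gw_mom3, mul_one, one_mul]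

theorem surv1_step {h r : ℕ} {y : ℕ → ℕ} (a : BackW h y (r + 1)) :
    1 ≤ h + y 0 ∧ BackW (h + y 0 - 1) (fun k => y (k + 1)) r := by
  have b := a 1 le_rfl (by omega)
  rw [surv1_ps, ps, sum_range_zero] at b
  refine ⟨by omega, fun k c d => ?_⟩
  have := a (k + 1) (by omega) (by omega)
  rw [surv1_ps] at this
  omega

theorem surv1_back {ι : Type} [Fintype ι] [DecidableEq ι] (e : ℕ → ι) (r x : ℕ)
    (h : Set.InjOn e (Set.Iio r)) : Ex gw (fun o : ι → ℕ => ind (BackW x (fun k => o (e k)) r)) ≤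
      ENNReal.ofReal (7 * ((x : ℝ) + 1) / √((r : ℝ) + 1)) := by
  refine (surv1_ex (al := fun h v => 1 ≤ h + v) (nx := fun h v => h + v - 1)
    (fun x o r a => surv1_step a)
    (fun x o o' r a b k c d => surv1_ps_congr a d ▸ b k c d) r x e h).trans
    (surv1_bound _ (surv1Op_one _ _) (fun x => ?_) (fun x => ?_) (fun x => ?_) r x)
  · have := surv1_pow x 0
    rw [zero_add, pow_one] at this
    refine (this.trans ((tsum_congr fun v => ?_).trans (surv1_cubic x 1 0 0))).trans_le ?_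
    · congr 1; ring
    · simp [surv1U]
  · refine le_trans ?_ ((surv1_pow x 1).trans ((tsum_congr fun v => ?_).trans
      (surv1_cubic (x ^ 2) (2 * x) 1 0))).ge
    · simp only [surv1U, Pi.add_apply, Pi.pow_apply, Pi.one_apply]
      norm_cast
      nlinarith
    · congr 1; ring
  · refine ((surv1_pow x 2).trans ((tsum_congr fun v => ?_).trans
      (surv1_cubic (x ^ 3) (3 * x ^ 2) (3 * x) 1))).trans_le ?_
    · congr 1; ring
    · simp only [surv1U, Pi.add_apply, Pi.pow_apply, nsmul_eq_mul, Pi.mul_apply,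
        Pi.natCast_apply]
      norm_cast
      nlinarith

theorem surv1_sqrt {r : ℕ} (hr : 1 ≤ r) {a : ℝ} (ha : 0 ≤ a) :
    ENNReal.ofReal (a / √((r : ℝ) + 1)) ≤ ENNReal.ofReal (a / √(r : ℝ)) :=
  ENNReal.ofReal_le_ofReal (div_le_div_of_nonneg_left ha (Real.sqrt_pos.2 (by exact_mod_cast hr))
    (Real.sqrt_le_sqrt (by linarith)))

/-- C1.  Operator `P f x = ∑ v ≤ x, 2^(-v-1) f (x+1-v)`, `P f (x+1) = (f (x+2) + P f x)/2`,
`u = x+1`: `P u = u`, `u^2 + 1 ≤ P u^2`, `P u^3 ≤ u^3 + 6u`, `2 L u^2 ≤ L^2 u + u^3`. -/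
theorem fwd_le : ∃ K : ℝ, 0 < K ∧ ∀ (ι : Type) [Fintype ι] [DecidableEq ι] (e : ℕ → ι) (r x : ℕ),
    1 ≤ r → Set.InjOn e (Set.Iio r) →
    Ex gw (fun o : ι → ℕ => ind (FwdW x (fun k => o (e k)) r)) ≤
      ENNReal.ofReal (K * ((x : ℝ) + 1) / √(r : ℝ)) :=
  ⟨7, by norm_num, fun _ _ _ e r x hr h =>
    (surv1_fwd e r x h).trans (surv1_sqrt hr (by positivity))⟩

/-- C2.  Operator `Q f h = ∑' v, gw v * [1 ≤ h+v] f (h+v-1)` in `ℝ≥0∞`, `V = h+1`: `Q V = V`,
`Q V^2 = V^2 + 2`, `Q V^3 ≤ V^3 + 12 V`. -/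
theorem back_le : ∃ K : ℝ, 0 < K ∧ ∀ (ι : Type) [Fintype ι] [DecidableEq ι] (e : ℕ → ι) (r h : ℕ),
    1 ≤ r → Set.InjOn e (Set.Iio r) →
    Ex gw (fun o : ι → ℕ => ind (BackW h (fun k => o (e k)) r)) ≤
      ENNReal.ofReal (K * ((h : ℝ) + 1) / √(r : ℝ)) :=
  ⟨7, by norm_num, fun _ _ _ e r x hr h =>
    (surv1_back e r x h).trans (surv1_sqrt hr (by positivity))⟩

/-- Peel the first letter, then `back_le` and `gw_mom3`. -/
theorem back_sq_le : ∃ K : ℝ, 0 < K ∧ ∀ (ι : Type) [Fintype ι] [DecidableEq ι] (e : ℕ → ι) (r : ℕ),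
    1 ≤ r → Set.InjOn e (Set.Iio r) →
    Ex gw (fun o : ι → ℕ => ind (BackW 0 (fun k => o (e k)) r) * (o (e 0) : ℝ≥0∞) ^ 2) ≤
      ENNReal.ofReal (K / √(r : ℝ)) := by
  refine ⟨91, by norm_num, fun ι _ _ e r hr h => ?_⟩
  obtain ⟨r, rfl⟩ := Nat.exists_eq_add_of_le' hr
  have e91 : ENNReal.ofReal (91 / √((r + 1 : ℕ) : ℝ)) =
      ENNReal.ofReal (7 / √((r : ℝ) + 1)) * 13 := by
    rw [← ENNReal.ofReal_ofNat 13, ← ENNReal.ofReal_mul (by positivity)]
    congr 1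
    push_cast
    ring
  rw [Ex_update tsum_gw (e 0), e91, ← gw_mom3, ← ENNReal.tsum_mul_left]
  refine ENNReal.tsum_le_tsum fun v => ?_
  rw [mul_left_comm]
  refine mul_le_mul_right ?_ _
  simp only [Function.update_self]
  rw [Ex_mul_right]
  obtain rfl | hv := v.eq_zero_or_pos
  · simp
  refine (mul_le_mul_left ((Ex_mono fun o => ind_mono fun a => ?_).trans
    (surv1_back _ r (v - 1) (surv1_inj h).1)) _).trans (le_of_eq ?_)
  · have b := (surv1_step a).2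
    simp only [Function.update_self, zero_add] at b
    intro k c d
    rw [← surv1_ps_congr (o := fun k => Function.update o (e 0) v (e (k + 1)))
      (fun k hk => Function.update_of_ne ((surv1_inj h).2 k hk) _ _) d]
    exact b k c d
  · rw [Nat.cast_pred hv, sub_add_cancel, mul_div_right_comm,
      ENNReal.ofReal_mul (by positivity), ENNReal.ofReal_natCast]
    ring

end Pool.Agent.Lib.MP_04fdae_co.G
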