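import Mathlib
import Pool.Agent.Lib.MP_04fdae_co.G.Anti
import Pool.Agent.Lib.MP_04fdae_co.G.Surv1

/-! Quenched chord bounds (paper E1, E2, E3). -/

namespace Pool.Agent.Lib.MP_04fdae_co.G

open Finset
open scoped ENNReal

variable {n : ℕ} [NeZero n]

theorem chorde_ps_rev (o : ℕ → ℕ) (l k : ℕ) (hk : k ≤ l) :
    ps o (l - k) + ps (fun j => o (l - 1 - j)) k = ps o l := by
  induction k with
  | zero => simp [ps]
  | succ k ih =>
    have h1 := ih (by omega)
    have h2 : l - k = (l - (k + 1)) + 1 := by omega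
    have h3 : l - 1 - k = l - (k + 1) := by omega
    simp only [ps] at h1 ⊢
    rw [h2, sum_range_succ] at h1
    rw [sum_range_succ, h3]
    omega

/-- A chord: both walks survive and the total lies in a window of `o_last` values. -/
theorem chW_facts {o : ℕ → ℕ} {l : ℕ} (hl : 2 ≤ l) (h : ChW o l) :
    (∀ r, r < l → FwdW 0 o r) ∧ (∀ r, r < l → BackW 0 (fun k => o (l - 1 - k)) r) ∧
      ∃ v < o (l - 1), ps o l + 1 = l + v := by
  obtain ⟨h1, h2⟩ := h
  refine ⟨fun r hr k hk1 hk2 => ?_, fun r hr k hk1 hk2 => ?_, ?_⟩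
  · have := h1 k hk1 (by omega)
    omega
  · have h3 := chorde_ps_rev o l k (by omega)
    have h4 := h1 (l - k) (by omega) (by omega)
    omega
  · have h4 := h1 (l - 1) (by omega) (by omega)
    have h5 : ps o l = ps o (l - 1) + o (l - 1) := by
      have h6 : l = (l - 1) + 1 := by omega
      unfold ps
      conv_lhs => rw [h6, sum_range_succ]
    exact ⟨ps o l + 1 - l, by omega, by omega⟩

theorem natCast_inj_of_lt {i j : ℕ} (hi : i < n) (hj : j < n)
    (h : (i : ZMod n) = (j : ZMod n)) : i = j := by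
  have h1 := congrArg ZMod.val h
  rwa [ZMod.val_cast_of_lt hi, ZMod.val_cast_of_lt hj] at h1

section Aux

variable {ι : Type} [Fintype ι]

theorem chorde_qE_mul (b : ι → Bool) (c : ℝ≥0∞) (F : (ι → ℕ) → ℝ≥0∞) :
    qE b (fun o => c * F o) = c * qE b F := Ex_mul_left c _

theorem chorde_qE_add (b : ι → Bool) (F G : (ι → ℕ) → ℝ≥0∞) :
    qE b (fun o => F o + G o) = qE b F + qE b G := Ex_add _ _

theorem chorde_qE_const (b : ι → Bool) (c : ℝ≥0∞) : qE b (fun _ : ι → ℕ => c) = c :=
  Ex_const tsum_gw c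

theorem chorde_qE_sum {β : Type} (b : ι → Bool) (s : Finset β) (F : β → (ι → ℕ) → ℝ≥0∞) :
    qE b (fun o => ∑ j ∈ s, F j o) = ∑ j ∈ s, qE b (F j) :=
  Ex_sum s (fun j m => F j (bm b m))

theorem chorde_qE_ind_le (b : ι → Bool) (X : (ι → ℕ) → Prop) :
    qE b (fun o => ind (X o)) ≤ 1 := by
  have h : qE b (fun o => ind (X o)) ≤ qE b (fun _ => 1) := Ex_mono fun _ => ind_le_one _
  rwa [chorde_qE_const] at h

variable [DecidableEq ι]

theorem chorde_letter (b : ι → Bool) (i : ι) : qE b (fun o => (o i : ℝ≥0∞)) ≤ 2 := by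
  have h1 : qE b (fun o => (o i : ℝ≥0∞)) ≤ Ex gw (fun m : ι → ℕ => (m i : ℝ≥0∞) + 1) := by
    refine Ex_mono fun m => ?_
    by_cases h : b i = true <;> simp [bm, h]
  rw [Ex_add, Ex_const tsum_gw, Ex_single tsum_gw i (fun v : ℕ => (v : ℝ≥0∞)), gw_mom1] at h1
  rwa [one_add_one_eq_two] at h1

/-- A window of `m` values for a block sum. -/
theorem chorde_window (b : ι → Bool) (I : Finset ι) (X : (ι → ℕ) → Prop) (P : Prop) (m : ℕ)
    (t : ℕ → ℕ) (c : ℝ≥0∞) (hX : ∀ x, X x → P ∧ ∃ v < m, ∑ i ∈ I, x i = t v)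
    (hc : P → ∀ v < m, qE b (fun o => ind (∑ i ∈ I, o i = t v)) ≤ c) :
    qE b (fun x => ind (X x)) ≤ ind P * (m : ℝ≥0∞) * c := by
  by_cases hP : P
  · rw [ind_true hP, one_mul]
    have h1 : qE b (fun x => ind (X x)) ≤
        qE b (fun x => ∑ v ∈ range m, ind (∑ i ∈ I, x i = t v)) := by
      refine qE_mono b fun x => ?_
      by_cases hx : X x
      · obtain ⟨_, v, hv, he⟩ := hX x hx
        rw [ind_true hx, ← ind_true he]
        exact single_le_sum (f := fun v => ind (∑ i ∈ I, x i = t v)) (fun _ _ => zero_le)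
          (mem_range.2 hv)
      · rw [ind_false hx]; exact zero_le
    rw [chorde_qE_sum b (range m) (fun v x => ind (∑ i ∈ I, x i = t v))] at h1
    refine h1.trans ?_
    refine (sum_le_card_nsmul _ _ c fun v hv => hc hP v (mem_range.1 hv)).trans ?_
    rw [card_range, nsmul_eq_mul]
  · have h1 : qE b (fun x => ind (X x)) ≤ qE b (fun _ => 0) :=
      qE_mono b fun x => by rw [ind_false fun hx => hP (hX x hx).1]
    rw [chorde_qE_const] at h1
    exact h1.trans zero_le

end Aux

theorem chorde_sqrt {l x : ℕ} (hl : 1 ≤ l) (h : l ≤ 4 * (x + 1)) :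
    1 / √((x : ℝ) + 1) ≤ 2 / √(l : ℝ) := by
  have hl0 : (0 : ℝ) < l := by exact_mod_cast hl
  have h1 : (l : ℝ) ≤ 4 * ((x : ℝ) + 1) := by exact_mod_cast h
  have h2 : 0 < √(l : ℝ) := Real.sqrt_pos.2 hl0
  have h3 : 0 < √((x : ℝ) + 1) := Real.sqrt_pos.2 (by positivity)
  rw [div_le_div_iff₀ h3 h2, one_mul]
  have h4 : √(l : ℝ) ≤ √(2 ^ 2 * ((x : ℝ) + 1)) := Real.sqrt_le_sqrt (by linarith)
  rwa [Real.sqrt_mul (by positivity), Real.sqrt_sq (by norm_num)] at h4

/-- The letters of the interval with index in `T`. -/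
def chordeBlock (a : ZMod n) (T : Finset ℕ) : Finset (ZMod n) :=
  T.image (fun k : ℕ => a + (k : ZMod n))

theorem chorde_mem {a : ZMod n} {T : Finset ℕ} (hT : ∀ j ∈ T, j < n) {k : ℕ} (hk : k < n) :
    a + (k : ZMod n) ∈ chordeBlock a T ↔ k ∈ T := by
  unfold chordeBlock
  rw [mem_image]
  constructor
  · rintro ⟨j, hj, he⟩
    have := natCast_inj_of_lt (hT j hj) hk (add_left_cancel he)
    rwa [← this]
  · intro h
    exact ⟨k, h, rfl⟩

theorem chorde_sum {a : ZMod n} {T : Finset ℕ} (hT : ∀ j ∈ T, j < n) (x : ZMod n → ℕ) :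
    ∑ i ∈ chordeBlock a T, x i = ∑ k ∈ T, x (a + (k : ZMod n)) := by
  unfold chordeBlock
  refine sum_image fun i hi j hj he => ?_
  exact natCast_inj_of_lt (hT i hi) (hT j hj) (add_left_cancel he)

theorem chorde_ps_congr {o o' : ℕ → ℕ} {k : ℕ} (h : ∀ j < k, o j = o' j) : ps o k = ps o' k :=
  sum_congr rfl fun j hj => h j (mem_range.1 hj)

theorem chorde_ps_mono {o o' : ℕ → ℕ} {k : ℕ} (h : ∀ j < k, o j ≤ o' j) : ps o k ≤ ps o' k :=
  sum_le_sum fun j hj => h j (mem_range.1 hj)

theorem chorde_fwd_anti {o o' : ℕ → ℕ} {x r : ℕ} (h : ∀ j < r, o j ≤ o' j) (hf : FwdW x o' r) :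
    FwdW x o r := fun k h1 h2 =>
  lt_of_le_of_lt (chorde_ps_mono fun j hj => h j (by omega)) (hf k h1 h2)

theorem chorde_back_mono {o o' : ℕ → ℕ} {x r : ℕ} (h : ∀ j < r, o j ≤ o' j) (hf : BackW x o r) :
    BackW x o' r := fun k h1 h2 =>
  (hf k h1 h2).trans (Nat.add_le_add_left (chorde_ps_mono fun j hj => h j (by omega)) x)

theorem chorde_ch_congr {o o' : ℕ → ℕ} {l : ℕ} (h : ∀ j < l, o j = o' j) (hc : ChW o l) :
    ChW o' l := by
  refine ⟨fun k h1 h2 => ?_, ?_⟩
  · rw [← chorde_ps_congr (o := o) fun j hj => h j (by omega)]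
    exact hc.1 k h1 h2
  · rw [← chorde_ps_congr (o := o) h]
    exact hc.2

/-- E1: splice on the letters `r, ..., l - 2` of the interval, `qE_sum_le`. -/
theorem e1 (b : ZMod n → Bool) (a : ZMod n) (l r : ℕ) (hl : 2 ≤ l) (hln : l ≤ n)
    (hr : 2 * r ≤ l) :
    qE b (fun o => ind (Cd a l o)) ≤
      ENNReal.ofReal (28 / √(l : ℝ)) * qE b (fun o => ind (FwdW 0 (sh o a) r)) := by
  have hT : ∀ j ∈ Ico r (l - 1), j < n := fun j hj => by have := (mem_Ico.1 hj).2; omega
  have hl0 : (0 : ℝ) < l := by exact_mod_cast (by omega : 0 < l)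
  have hs : 0 < √(l : ℝ) := Real.sqrt_pos.2 hl0
  have h1 : qE b (fun o => ind (Cd a l o)) ≤
      qE b (fun o => ENNReal.ofReal (4 / √(l : ℝ)) *
        (ind (FwdW 0 (sh o a) r) * (o (a + ((l - 1 : ℕ) : ZMod n)) : ℝ≥0∞))) := by
    refine qE_le_of_splice b (chordeBlock a (Ico r (l - 1))) fun y => ?_
    have key : ∀ x : ZMod n → ℕ, Cd a l ((chordeBlock a (Ico r (l - 1))).piecewise x y) →
        FwdW 0 (sh y a) r ∧ ∃ v < y (a + ((l - 1 : ℕ) : ZMod n)),
          ∑ i ∈ chordeBlock a (Ico r (l - 1)), x i =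
            l - 1 + v - ps (sh y a) r - y (a + ((l - 1 : ℕ) : ZMod n)) := by
      intro x hx
      set z := (chordeBlock a (Ico r (l - 1))).piecewise x y with hz
      obtain ⟨f1, _, v, hv, f3⟩ := chW_facts hl hx
      have g1 : ∀ j < r, sh z a j = sh y a j := fun j hj => by
        refine piecewise_eq_of_notMem _ _ _ ?_
        rw [chorde_mem hT (by omega), mem_Ico]
        omega
      have g2 : sh z a (l - 1) = y (a + ((l - 1 : ℕ) : ZMod n)) := by
        refine piecewise_eq_of_notMem _ _ _ ?_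
        rw [chorde_mem hT (by omega), mem_Ico]
        omega
      have g3 : ∑ k ∈ Ico r (l - 1), sh z a k = ∑ i ∈ chordeBlock a (Ico r (l - 1)), x i := by
        rw [chorde_sum hT]
        refine sum_congr rfl fun k hk => ?_
        exact piecewise_eq_of_mem _ _ _ ((chorde_mem hT (hT k hk)).2 hk)
      have g4 : ps (sh z a) l = ps (sh z a) r + ∑ k ∈ Ico r (l - 1), sh z a k
          + sh z a (l - 1) := by
        have h6 : l = (l - 1) + 1 := by omega
        unfold ps
        rw [sum_range_add_sum_Ico _ (by omega : r ≤ l - 1)]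
        conv_lhs => rw [h6, sum_range_succ]
      refine ⟨chorde_fwd_anti (fun j hj => (g1 j hj).ge) (f1 r (by omega)), v, g2 ▸ hv, ?_⟩
      rw [g2, g3, chorde_ps_congr g1] at g4
      omega
    by_cases hb : 4 * y (a + ((l - 1 : ℕ) : ZMod n)) ≤ l
    · refine (chorde_window b _ _ _ _ _ (ENNReal.ofReal (4 / √(l : ℝ))) key ?_).trans ?_
      · intro hP v _
        refine (qE_sum_le b _ _).trans (ENNReal.ofReal_le_ofReal ?_)
        have h3 : ps (sh y a) r ≤ r := by
          rcases Nat.eq_zero_or_pos r with h0 | h0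
          · simp [h0, ps]
          · have := hP r h0 le_rfl
            omega
        refine (chorde_sqrt (l := l) (by omega) (by omega)).trans ?_
        exact div_le_div_of_nonneg_right (by norm_num) hs.le
      · rw [mul_comm]
    · by_cases hP : FwdW 0 (sh y a) r
      · refine (chorde_qE_ind_le b _).trans ?_
        rw [ind_true hP, one_mul, ← ENNReal.ofReal_natCast,
          ← ENNReal.ofReal_mul (by positivity), ← ENNReal.ofReal_one]
        refine ENNReal.ofReal_le_ofReal ?_
        have h3 : (l : ℝ) ≤ 4 * (y (a + ((l - 1 : ℕ) : ZMod n)) : ℝ) := by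
          exact_mod_cast (by omega : l ≤ 4 * y (a + ((l - 1 : ℕ) : ZMod n)))
        have h4 : √(l : ℝ) ≤ l := by
          rw [Real.sqrt_le_left hl0.le]
          have : (1 : ℝ) ≤ l := by exact_mod_cast (by omega : 1 ≤ l)
          nlinarith
        rw [div_mul_eq_mul_div, le_div_iff₀ hs]
        linarith
      · have h5 : qE b (fun x => ind (Cd a l ((chordeBlock a (Ico r (l - 1))).piecewise x y))) ≤
            qE b (fun _ => 0) :=
          qE_mono b fun x => by rw [ind_false fun hx => hP (key x hx).1]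
        rw [chorde_qE_const] at h5
        exact h5.trans zero_le
  refine h1.trans ?_
  rw [chorde_qE_mul, qE_indep b (S := (chordeBlock a (range r) : Set (ZMod n)))
    (T := {a + ((l - 1 : ℕ) : ZMod n)})]
  · have h2 := chorde_letter b (a + ((l - 1 : ℕ) : ZMod n))
    calc ENNReal.ofReal (4 / √(l : ℝ)) * (qE b (fun o => ind (FwdW 0 (sh o a) r)) *
          qE b (fun o => (o (a + ((l - 1 : ℕ) : ZMod n)) : ℝ≥0∞)))
        ≤ ENNReal.ofReal (4 / √(l : ℝ)) * (qE b (fun o => ind (FwdW 0 (sh o a) r)) * 2) := by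
          gcongr
      _ = (ENNReal.ofReal (4 / √(l : ℝ)) * ENNReal.ofReal 2) *
            qE b (fun o => ind (FwdW 0 (sh o a) r)) := by
          rw [ENNReal.ofReal_ofNat]; ring
      _ ≤ _ := by
          gcongr
          rw [← ENNReal.ofReal_mul (by positivity)]
          refine ENNReal.ofReal_le_ofReal ?_
          rw [div_mul_eq_mul_div]
          exact div_le_div_of_nonneg_right (by norm_num) hs.le
  · rw [Set.disjoint_singleton_right, mem_coe,
      chorde_mem (fun j hj => by have := mem_range.1 hj; omega) (by omega), mem_range]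
    omega
  · intro x y hxy
    have g1 : ∀ j < r, sh x a j = sh y a j := fun j hj =>
      hxy _ (mem_coe.2 (mem_image.2 ⟨j, mem_range.2 hj, rfl⟩))
    exact ind_congr ⟨chorde_fwd_anti fun j hj => (g1 j hj).ge,
      chorde_fwd_anti fun j hj => (g1 j hj).le⟩
  · intro x y hxy
    simp only [hxy _ (Set.mem_singleton _)]

/-- E2: splice on all letters of the interval but the last `l / 16`. -/
theorem e2 (b : ZMod n → Bool) (a : ZMod n) (l : ℕ) (hl : 16 ≤ l) (hln : l ≤ n) :
    qE b (fun o => ind (Cd a l o)) ≤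
      qE b (fun o => ind (BackW 0 (rv o a l) (l / 16)) * (rv o a l 0 : ℝ≥0∞) *
        (ENNReal.ofReal (2 / √(l : ℝ)) + ind (l ≤ 4 * ps (rv o a l) (l / 16)))) := by
  have hT : ∀ j ∈ range (l - l / 16), j < n := fun j hj => by have := mem_range.1 hj; omega
  refine qE_le_of_splice b (chordeBlock a (range (l - l / 16))) fun y => ?_
  refine chorde_window b (chordeBlock a (range (l - l / 16))) _ _ _
    (fun v => l - 1 + v - ps (rv y a l) (l / 16)) _ ?_ ?_
  · intro x hx
    set z := (chordeBlock a (range (l - l / 16))).piecewise x y with hz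
    obtain ⟨_, f2, v, hv, f3⟩ := chW_facts (by omega) hx
    have g1 : ∀ j < l / 16, sh z a (l - 1 - j) = rv y a l j := fun j hj => by
      refine piecewise_eq_of_notMem _ _ _ ?_
      rw [chorde_mem hT (by omega), mem_range]
      omega
    have g3 : ps (sh z a) (l - l / 16) = ∑ i ∈ chordeBlock a (range (l - l / 16)), x i := by
      rw [chorde_sum hT]
      refine sum_congr rfl fun k hk => ?_
      exact piecewise_eq_of_mem _ _ _ ((chorde_mem hT (hT k hk)).2 hk)
    have g4 := chorde_ps_rev (sh z a) l (l / 16) (by omega)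
    refine ⟨chorde_back_mono (fun j hj => (g1 j hj).le) (f2 (l / 16) (by omega)), v, ?_, ?_⟩
    · rw [← g1 0 (by omega)]
      exact hv
    · rw [g3, chorde_ps_congr g1] at g4
      omega
  · intro _ v _
    by_cases h4 : l ≤ 4 * ps (rv y a l) (l / 16)
    · rw [ind_true h4]
      exact (chorde_qE_ind_le b _).trans le_add_self
    · refine le_trans ?_ le_self_add
      refine (qE_sum_le b _ _).trans (ENNReal.ofReal_le_ofReal ?_)
      exact chorde_sqrt (by omega) (by omega)

/-- E3: splice on the complement of the interval, `qE_sum_le'`. -/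
theorem e3 (b : ZMod n → Bool) (N : ℕ) (a : ZMod n) (l : ℕ) (hl : 8 * l ≤ n) (hb : n ≤ 4 * sz b) :
    ENNReal.ofReal (pr b N (Cd a l)) ≤
      ENNReal.ofReal (3 / √(n : ℝ)) * qE b (fun o => ind (Cd a l o)) := by
  have hn : 0 < n := Nat.pos_of_ne_zero (NeZero.ne n)
  have hT : ∀ j ∈ range l, j < n := fun j hj => by have := mem_range.1 hj; omega
  rw [← qE_slice, ← chorde_qE_mul]
  refine qE_le_of_splice b (chordeBlock a (range l))ᶜ fun y => ?_
  refine (chorde_window b (chordeBlock a (range l))ᶜ _ (Cd a l y) 1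
    (fun _ => N - ∑ i ∈ chordeBlock a (range l), y i) (ENNReal.ofReal (3 / √(n : ℝ))) ?_ ?_).trans ?_
  · intro x hx
    obtain ⟨h1, h2⟩ := hx
    refine ⟨chorde_ch_congr (fun j hj => ?_) h2, 0, one_pos, ?_⟩
    · refine piecewise_eq_of_notMem _ _ _ ?_
      rw [mem_compl, not_not]
      exact mem_image.2 ⟨j, mem_range.2 hj, rfl⟩
    · rw [← sum_compl_add_sum (chordeBlock a (range l))] at h1
      rw [sum_congr rfl (fun i hi => piecewise_eq_of_mem _ x y hi),
        sum_congr rfl (fun i hi => piecewise_eq_of_notMem _ x y (by rwa [mem_compl, not_not]))]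
        at h1
      omega
  · intro _ _ _
    refine (qE_sum_le' b _ _).trans (ENNReal.ofReal_le_ofReal ?_)
    have h1 : sz b ≤ ((chordeBlock a (range l))ᶜ.filter (fun i => b i = true)).card + l := by
      have h2 : univ.filter (fun i => b i = true) ⊆
          (chordeBlock a (range l))ᶜ.filter (fun i => b i = true) ∪ chordeBlock a (range l) := by
        intro i hi
        rw [mem_union, mem_filter, mem_compl]
        by_cases h : i ∈ chordeBlock a (range l)
        · exact Or.inr h
        · exact Or.inl ⟨h, (mem_filter.1 hi).2⟩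
      have h3 : (chordeBlock a (range l)).card ≤ l := card_image_le.trans (card_range l).le
      exact (card_le_card h2).trans ((card_union_le _ _).trans (by omega))
    set k := ((chordeBlock a (range l))ᶜ.filter (fun i => b i = true)).card
    have hn0 : (0 : ℝ) < n := by exact_mod_cast hn
    have h4 : (n : ℝ) ≤ 8 * (k : ℝ) := by exact_mod_cast (by omega : n ≤ 8 * k)
    have h5 : 0 < √(n : ℝ) := Real.sqrt_pos.2 hn0
    have h6 : 0 < √((k : ℝ) + 1) := Real.sqrt_pos.2 (by positivity)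
    rw [div_le_div_iff₀ h6 h5, one_mul]
    have h7 : √(n : ℝ) ≤ √(3 ^ 2 * ((k : ℝ) + 1)) := Real.sqrt_le_sqrt (by linarith)
    rwa [Real.sqrt_mul (by positivity), Real.sqrt_sq (by norm_num)] at h7
  · rw [Nat.cast_one, mul_one, mul_comm]

theorem qE_Zf_ne_top (b : ZMod n → Bool) (a : ZMod n) (l : ℕ) : qE b (Zf a l) ≠ ⊤ := by
  have h1 : qE b (Zf a l) ≤ qE b (fun o => ENNReal.ofReal (28 / √(l : ℝ)) +
      (ENNReal.ofReal (2 / √(l : ℝ)) + 1) * (o (a + ((l - 1 - 0 : ℕ) : ZMod n)) : ℝ≥0∞)) := by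
    refine qE_mono b fun o => ?_
    unfold Zf
    refine add_le_add (mul_le_of_le_one_right' (ind_le_one _)) ?_
    rw [mul_comm]
    exact mul_le_mul' (add_le_add le_rfl (ind_le_one _)) (mul_le_of_le_one_left' (ind_le_one _))
  rw [chorde_qE_add, chorde_qE_const, chorde_qE_mul] at h1
  refine ne_top_of_le_ne_top ?_ h1
  refine ENNReal.add_ne_top.2 ⟨ENNReal.ofReal_ne_top, ENNReal.mul_ne_top ?_ ?_⟩
  · exact ENNReal.add_ne_top.2 ⟨ENNReal.ofReal_ne_top, ENNReal.one_ne_top⟩
  · exact ne_top_of_le_ne_top ENNReal.ofNat_ne_top (chorde_letter b _)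

theorem o2 (b : ZMod n → Bool) (N : ℕ) (a : ZMod n) (l : ℕ) (h2 : 2 ≤ l) (hl : 8 * l ≤ n)
    (hb : n ≤ 4 * sz b) : pr b N (Cd a l) ≤ 84 / (√(l : ℝ) * √(n : ℝ)) := by
  have h3 := e3 b N a l hl hb
  have h4 := e1 b a l 0 h2 (by omega) (by omega)
  have h5 := h4.trans (mul_le_of_le_one_right' (chorde_qE_ind_le b _))
  have h6 := h3.trans (mul_le_mul' le_rfl h5)
  rw [← ENNReal.ofReal_mul (by positivity), ENNReal.ofReal_le_ofReal_iff (by positivity)] at h6
  refine h6.trans (le_of_eq ?_)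
  rw [div_mul_div_comm, mul_comm (√(n : ℝ))]
  norm_num

/-- No common `true`: `bm b' m ≤ bm (!b) m` on the interval, use E2.  No common `false`: the
reverse inequality, use E1 with `r = l / 16`. -/
theorem o3 (c : Bool) (b b' : ZMod n → Bool) (N : ℕ) (a : ZMod n) (l : ℕ) (h16 : 16 ≤ l)
    (hl : 8 * l ≤ n) (hb : n ≤ 4 * sz b') (hc : NoCommon c b b' a l) :
    pr b' N (Cd a l) ≤ 3 * zz b a l / √(n : ℝ) := by
  have h3 := e3 b' N a l hl hb
  have h4 : qE b' (fun o => ind (Cd a l o)) ≤ qE (fun i => !b i) (Zf a l) := by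
    cases c with
    | true =>
      refine (e2 b' a l h16 (by omega)).trans (Ex_mono fun m => ?_)
      have g : ∀ j < l, rv (bm b' m) a l j ≤ rv (bm (fun i => !b i) m) a l j := by
        intro j hj
        have h5 := hc (l - 1 - j) (by omega)
        unfold rv bm
        cases h6 : b (a + ((l - 1 - j : ℕ) : ZMod n)) <;>
          cases h7 : b' (a + ((l - 1 - j : ℕ) : ZMod n)) <;> simp_all
      have g' : ∀ j < l / 16, rv (bm b' m) a l j ≤ rv (bm (fun i => !b i) m) a l j :=
        fun j hj => g j (by omega)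
      refine le_trans ?_ le_add_self
      refine mul_le_mul' (mul_le_mul' (ind_mono (chorde_back_mono g')) ?_)
        (add_le_add le_rfl (ind_mono fun h => h.trans ?_))
      · exact_mod_cast g 0 (by omega)
      · exact Nat.mul_le_mul_left 4 (chorde_ps_mono g')
    | false =>
      refine (e1 b' a l (l / 16) (by omega) (by omega) (by omega)).trans ?_
      rw [← chorde_qE_mul]
      refine Ex_mono fun m => ?_
      have g : ∀ j < l / 16, sh (bm (fun i => !b i) m) a j ≤ sh (bm b' m) a j := by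
        intro j hj
        have h5 := hc j (by omega)
        unfold sh bm
        cases h6 : b (a + (j : ZMod n)) <;> cases h7 : b' (a + (j : ZMod n)) <;> simp_all
      refine le_trans ?_ le_self_add
      exact mul_le_mul' le_rfl (ind_mono (chorde_fwd_anti g))
  have h6 := h3.trans (mul_le_mul' le_rfl h4)
  rw [← ENNReal.ofReal_toReal (qE_Zf_ne_top (fun i => !b i) a l),
    ← ENNReal.ofReal_mul (by positivity), ENNReal.ofReal_le_ofReal_iff (by positivity)] at h6
  refine h6.trans (le_of_eq ?_)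
  unfold zz
  ring

end Pool.Agent.Lib.MP_04fdae_co.G
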