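import Mathlib
import Pool.Agent.Lib.MP_04fdae_co.G.ChordE

/-! Annealed chord bounds (paper D1, E z, Z). -/

namespace Pool.Agent.Lib.MP_04fdae_co.G

open Finset
open scoped ENNReal

theorem chordd_spl {ι : Type} [Fintype ι] [DecidableEq ι] (S : Finset ι) {G : (ι → ℕ) → ℝ≥0∞}
    {t : (ι → ℕ) → ℕ} (hG : Dep (↑S)ᶜ G) (ht : Dep (↑S)ᶜ t) :
    Ex gw (fun o => G o * ind (∑ i ∈ S, o i = t o)) ≤
      Ex gw G * ENNReal.ofReal (2 / √((S.card : ℝ) + 1)) := by
  rw [← Ex_mul_right]
  refine Ex_le_of_splice tsum_gw S fun y => ?_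
  have e : ∀ x, ∀ i ∈ (↑S : Set ι)ᶜ, S.piecewise x y i = y i := fun x i hi =>
    S.piecewise_eq_of_notMem _ _ hi
  have e2 : ∀ x, ∑ i ∈ S, S.piecewise x y i = ∑ i ∈ S, x i := fun x =>
    sum_congr rfl fun i hi => S.piecewise_eq_of_mem _ _ hi
  simp only [fun x => hG _ _ (e x), fun x => ht _ _ (e x), e2]
  rw [Ex_mul_left]
  exact mul_le_mul_right (Ex_sum_le S _) _

theorem chordd_ps {o o' : ℕ → ℕ} {r k : ℕ} (h : ∀ i < r, o i = o' i) (hk : k ≤ r) :
    ps o k = ps o' k := sum_congr rfl fun i hi => h i ((mem_range.1 hi).trans_le hk)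

theorem chordd_fwd {o o' : ℕ → ℕ} {r x : ℕ} (h : ∀ i < r, o i = o' i) :
    FwdW x o r = FwdW x o' r :=
  propext (forall₂_congr fun _ _ => forall_congr' fun hk => by rw [chordd_ps h hk])

theorem chordd_back {o o' : ℕ → ℕ} {r x : ℕ} (h : ∀ i < r, o i = o' i) :
    BackW x o r = BackW x o' r :=
  propext (forall₂_congr fun _ _ => forall_congr' fun hk => by rw [chordd_ps h hk])

theorem chordd_ch {o o' : ℕ → ℕ} {r : ℕ} (h : ∀ i < r, o i = o' i) : ChW o r = ChW o' r :=
  propext (and_congr (forall₂_congr fun _ _ => forall_congr' fun hk => by rw [chordd_ps h hk.le])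
    (by rw [chordd_ps h le_rfl]))

theorem chordd_cnt (m : ℕ) : ∑' v : ℕ, ind (v < m) = m := by
  rw [tsum_eq_sum (s := range m) fun v hv => ind_false (by simpa using hv),
    sum_congr rfl fun v hv => ind_true (mem_range.1 hv)]
  simp

theorem chordd_sq (v : ℕ) : (v : ℝ≥0∞) ≤ (v : ℝ≥0∞) ^ 2 := by
  exact_mod_cast Nat.le_self_pow two_ne_zero v

theorem chordd_half {x y : ℝ} (hx : 0 < x) (h : x ≤ 4 * y) : 2 / √y ≤ 4 / √x := by
  have h1 : √x ≤ 2 * √y := by
    rw [Real.sqrt_le_left (by positivity), mul_pow, Real.sq_sqrt (by linarith)]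
    linarith
  rw [div_le_div_iff₀ (Real.sqrt_pos.2 (by linarith)) (Real.sqrt_pos.2 hx)]
  linarith

section

variable {n : ℕ} [NeZero n] {a : ZMod n} {i j k l : ℕ}

/-- The letters `i, ..., j - 1` counted from `a`. -/
def chorddI (a : ZMod n) (i j : ℕ) : Finset (ZMod n) := (Ico i j).image fun k : ℕ => a + k

theorem chordd_inj (hj : j ≤ n) : Set.InjOn (fun k : ℕ => a + (k : ZMod n)) (Set.Iio j) :=
  fun _ h _ h' e => natCast_inj_of_lt (h.trans_le hj) (h'.trans_le hj) (add_left_cancel e)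

theorem chordd_inj' (hl : l ≤ n) (hj : j ≤ l) :
    Set.InjOn (fun k : ℕ => a + ((l - 1 - k : ℕ) : ZMod n)) (Set.Iio j) := fun x h y h' e => by
  have h1 : x < j := h
  have h2 : y < j := h'
  have := natCast_inj_of_lt (n := n) (by omega) (by omega) (add_left_cancel e)
  omega

theorem chordd_injI (hj : j ≤ n) : Set.InjOn (fun k : ℕ => a + (k : ZMod n)) (Ico i j) :=
  (chordd_inj hj).mono fun _ h => (mem_Ico.1 h).2

omit [NeZero n] in
theorem chordd_mem (h : i ≤ k) (h' : k < j) : a + k ∈ (↑(chorddI a i j) : Set (ZMod n)) :=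
  mem_image_of_mem _ (mem_Ico.2 ⟨h, h'⟩)

theorem chordd_not (hj : j ≤ n) (hk : k < n) (h : k < i ∨ j ≤ k) :
    a + k ∈ (↑(chorddI a i j) : Set (ZMod n))ᶜ := fun e => by
  obtain ⟨m, h1, h2⟩ := mem_image.1 e
  rw [mem_Ico] at h1
  have := natCast_inj_of_lt (by omega) hk (add_left_cancel h2)
  omega

theorem chordd_card (hj : j ≤ n) : (chorddI a i j).card = j - i := by
  rw [chorddI, card_image_of_injOn (chordd_injI hj), Nat.card_Ico]

omit [NeZero n] in
theorem chordd_Zf {S : Set (ZMod n)} (hl : 16 ≤ l)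
    (h : ∀ k, k < l → k < l / 16 ∨ l - l / 16 ≤ k → a + k ∈ S) : Dep S (Zf a l) := fun x y e => by
  have e1 : ∀ k < l / 16, sh x a k = sh y a k := fun k hk => e _ (h k (by omega) (.inl hk))
  have e2 : ∀ k < l / 16, rv x a l k = rv y a l k := fun k hk =>
    e _ (h _ (by omega) (.inr (by omega)))
  rw [Zf, Zf, chordd_fwd e1, chordd_back e2, chordd_ps e2 le_rfl, e2 0 (by omega)]

end

theorem chordd_exp {ι : Type} [Fintype ι] [DecidableEq ι] (e : ℕ → ι) (r : ℕ)
    (h : Set.InjOn e (Set.Iio r)) :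
    Ex gw (fun o : ι → ℕ => ENNReal.ofReal (3 / 2) ^ ps (fun k => o (e k)) r) = 2 ^ r := by
  have h' : Set.InjOn e (range r) := by rwa [coe_range]
  have h1 : ∑' v, gw v * ENNReal.ofReal (3 / 2) ^ v = 2 := by
    have : ∀ v, gw v * ENNReal.ofReal (3 / 2) ^ v = ENNReal.ofReal (1 / 2 * (3 / 4) ^ v) := fun v => by
      rw [gw, show (2⁻¹ : ℝ≥0∞) = ENNReal.ofReal (1 / 2) by simp [ENNReal.ofReal_inv_of_pos],
        ← ENNReal.ofReal_pow (by norm_num), ← ENNReal.ofReal_pow (by norm_num),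
        ← ENNReal.ofReal_mul (by positivity), pow_succ', mul_assoc, ← mul_pow]
      norm_num
    simp only [this]
    rw [← ENNReal.ofReal_tsum_of_nonneg (fun _ => by positivity)
      ((summable_geometric_of_lt_one (by norm_num) (by norm_num)).mul_left _), tsum_mul_left,
      tsum_geometric_of_lt_one (by norm_num) (by norm_num)]
    norm_num
  have h2 := Ex_prod (w := gw) fun i v =>
    if i ∈ (range r).image e then ENNReal.ofReal (3 / 2) ^ v else 1
  simp only [Fintype.prod_ite_mem, prod_image h', prod_pow_eq_pow_sum] at h2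
  unfold ps
  rw [h2, show (2 : ℝ≥0∞) ^ r = ∏ _i ∈ (range r).image e, 2 by
    rw [prod_const, card_image_of_injOn h', card_range], ← Fintype.prod_ite_mem (image e _)]
  refine prod_congr rfl fun i _ => ?_
  split_ifs
  · exact h1
  · simpa using tsum_gw

/-- D1: front and tail of length `l / 4`, splice on the middle, `Ex_sum_le`, `Ex_indep`. -/
theorem d1 : ∃ K : ℝ, 0 < K ∧ ∀ (n : ℕ) [NeZero n] (a : ZMod n) (l : ℕ), 2 ≤ l → l ≤ n →
    Ex gw (fun o => ind (Cd a l o)) ≤ ENNReal.ofReal (K / (l * √(l : ℝ))) := by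
  obtain ⟨K1, p1, h1⟩ := fwd_le
  obtain ⟨K2, p2, h2⟩ := back_sq_le
  refine ⟨32 * K1 * K2 + 8, by positivity, fun n _ a l hl hn => ?_⟩
  have l0 : (0 : ℝ) < l := by exact_mod_cast (by omega : 0 < l)
  have s0 := Real.sqrt_pos.2 l0
  by_cases h4 : l < 4
  · refine (Ex_mono fun o => ind_le_one _).trans ((Ex_const tsum_gw 1).trans_le ?_)
    have l4 : (l : ℝ) ≤ 4 := by exact_mod_cast h4.le
    have : √(l : ℝ) ≤ 2 := Real.sqrt_le_iff.2 ⟨by norm_num, by linarith⟩
    rw [ENNReal.one_le_ofReal, one_le_div (by positivity)]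
    nlinarith [mul_pos p1 p2]
  obtain ⟨r, hr, r1, r2⟩ : ∃ r, 1 ≤ r ∧ 4 * r ≤ l ∧ l ≤ 8 * r := ⟨l / 4, by omega⟩
  have df : ∀ {x y : ZMod n → ℕ} {i j : ℕ}, (∀ z ∈ (↑(chorddI a i j) : Set (ZMod n))ᶜ, x z = y z) →
      j + r ≤ l → ∀ k < r, rv x a l k = rv y a l k := fun e q k hk =>
    e _ (chordd_not (by omega) (by omega) (.inr (by omega)))
  calc _ ≤ Ex gw fun o => ∑' v : ℕ, ind (FwdW 0 (sh o a) r) * (ind (BackW 0 (rv o a l) r) *
        ind (v < rv o a l 0)) * ind (∑ i ∈ chorddI a r (l - r), o i =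
          l + v - 1 - (ps (sh o a) r + ∑ k ∈ Ico (l - r) l, sh o a k)) := Ex_mono fun o => by
        by_cases h : Cd a l o
        · obtain ⟨f1, f2, v, f3, f4⟩ := chW_facts hl h
          refine le_trans ?_ (ENNReal.le_tsum v)
          have e1 := sum_Ico_consecutive (sh o a) (Nat.zero_le r) (by omega : r ≤ l - r)
          have e2 := sum_Ico_consecutive (sh o a) (Nat.zero_le (l - r)) (Nat.sub_le l r)
          rw [ind_true h, ind_true (f1 r (by omega)),
            ind_true (p := BackW 0 (rv o a l) r) (f2 r (by omega)),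
            ind_true (p := v < rv o a l 0) f3, ind_true, one_mul, one_mul, one_mul]
          rw [chorddI, sum_image (chordd_injI (by omega))]
          simp only [ps, range_eq_Ico] at f4 ⊢
          change ∑ k ∈ Ico r (l - r), sh o a k = _
          omega
        · rw [ind_false h]
          exact zero_le
    _ ≤ ∑' v : ℕ, Ex gw (fun o => ind (FwdW 0 (sh o a) r) * (ind (BackW 0 (rv o a l) r) *
        ind (v < rv o a l 0))) * ENNReal.ofReal (2 / √(((chorddI a r (l - r)).card : ℝ) + 1)) := by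
        rw [Ex_tsum]
        refine ENNReal.tsum_le_tsum fun v => chordd_spl _ (fun x y e => ?_) fun x y e => ?_
        all_goals
          have e1 : ∀ k < r, sh x a k = sh y a k := fun k hk =>
            e _ (chordd_not (by omega) (by omega) (.inl hk))
        · rw [chordd_fwd e1, chordd_back (df e (by omega)), df e (by omega) 0 hr]
        · rw [chordd_ps e1 le_rfl, sum_congr rfl fun k hk => show sh x a k = sh y a k from
            e _ (chordd_not (by omega) (by have := mem_Ico.1 hk; omega) (.inr (mem_Ico.1 hk).1))]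
    _ ≤ ENNReal.ofReal (K1 * ((0 : ℕ) + 1) / √r) * ENNReal.ofReal (K2 / √r) *
        ENNReal.ofReal (4 / √l) := by
        rw [ENNReal.tsum_mul_right, ← Ex_tsum]
        simp only [ENNReal.tsum_mul_left, chordd_cnt]
        rw [Ex_indep tsum_gw (S := ↑(chorddI a 0 r)) disjoint_compl_right
          (F := fun o => ind (FwdW 0 (sh o a) r))
          (fun x y e => congrArg ind (chordd_fwd fun k hk => e _ (chordd_mem k.zero_le hk)))
          fun x y e => by rw [chordd_back (df e (by omega)), df e (by omega) 0 hr]]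
        refine mul_le_mul' (mul_le_mul' (h1 _ _ r 0 hr (chordd_inj (by omega)))
          ((Ex_mono fun o => mul_le_mul_right (chordd_sq _) _).trans
            (h2 _ _ r hr (chordd_inj' hn (by omega))))) (ENNReal.ofReal_le_ofReal ?_)
        refine chordd_half l0 ?_
        rw [chordd_card (by omega)]
        exact_mod_cast (by omega : l ≤ 4 * (l - r - r + 1))
    _ ≤ _ := by
        have r0 : (0 : ℝ) < r := by exact_mod_cast hr
        have r3 : (l : ℝ) ≤ 8 * r := by exact_mod_cast r2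
        rw [← ENNReal.ofReal_mul (by positivity), ← ENNReal.ofReal_mul (by positivity)]
        refine ENNReal.ofReal_le_ofReal ?_
        rw [div_mul_div_comm, Real.mul_self_sqrt r0.le, div_mul_div_comm,
          div_le_div_iff₀ (by positivity) (by positivity), Nat.cast_zero, zero_add, mul_one]
        nlinarith [mul_pos (mul_pos p1 p2) s0, mul_pos r0 s0]

/-- The tail term: `ind (l ≤ 4 S) ≤ (4/3)^S (3/4)^(l/4)`, `Ex_prod`, `E (4/3)^o = 3/2`. -/
theorem ez : ∃ K : ℝ, 0 < K ∧ ∀ (n : ℕ) [NeZero n] (a : ZMod n) (l : ℕ), 16 ≤ l → l ≤ n →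
    Ex gw (Zf a l) ≤ ENNReal.ofReal (K / l) := by
  obtain ⟨K1, p1, h1⟩ := fwd_le
  obtain ⟨K2, p2, h2⟩ := back_sq_le
  refine ⟨6 * (28 * K1 + 2 * K2) + 512, by positivity, fun n _ a l hl hn => ?_⟩
  unfold Zf
  obtain ⟨r, hr, r1, r2, e⟩ : ∃ r, 1 ≤ r ∧ 16 * r ≤ l ∧ l ≤ 32 * r ∧ l / 16 = r :=
    ⟨l / 16, by omega⟩
  have l0 : (0 : ℝ) < l := by exact_mod_cast (by omega : 0 < l)
  have r0 : (0 : ℝ) < r := by exact_mod_cast hr
  have r3 : (l : ℝ) ≤ 32 * r := by exact_mod_cast r2
  have s0 := Real.sqrt_pos.2 l0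
  have s1 := Real.sqrt_pos.2 r0
  have i2 := chordd_inj' (a := a) hn (by omega : r ≤ l)
  have t : ∀ o : ZMod n → ℕ, ind (BackW 0 (rv o a l) r) * (rv o a l 0 : ℝ≥0∞) *
      ind (l ≤ 4 * ps (rv o a l) r) ≤
      ENNReal.ofReal (8 * (81 / 256) ^ r) * ENNReal.ofReal (3 / 2) ^ ps (rv o a l) r := fun o => by
    by_cases h : l ≤ 4 * ps (rv o a l) r
    · obtain ⟨d, hd⟩ : ∃ d, ps (rv o a l) r = 4 * r + d := Nat.exists_eq_add_of_le (by omega)
      have q : (rv o a l 0 : ℝ) ≤ ps (rv o a l) r := by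
        exact_mod_cast single_le_sum (f := rv o a l) (fun _ _ => Nat.zero_le _) (mem_range.2 hr)
      have b := one_add_mul_le_pow (a := (1 / 8 : ℝ)) (by norm_num) (ps (rv o a l) r)
      have c : (1 : ℝ) ≤ (4 / 3) ^ d := one_le_pow₀ (by norm_num)
      have c2 : (81 / 256 : ℝ) ^ r * (3 / 2) ^ ps (rv o a l) r =
          (1 + 1 / 8) ^ ps (rv o a l) r * (4 / 3) ^ d := by
        rw [show (3 / 2 : ℝ) = (1 + 1 / 8) * (4 / 3) by norm_num, mul_pow, mul_left_comm, hd,
          pow_add (4 / 3), pow_mul, ← mul_assoc ((81 / 256) ^ r), ← mul_pow]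
        norm_num
      rw [ind_true h, mul_one, ← ENNReal.ofReal_pow (by norm_num),
        ← ENNReal.ofReal_mul (by positivity), ← ENNReal.ofReal_natCast, mul_assoc, c2]
      refine (mul_le_of_le_one_left' (ind_le_one _)).trans (ENNReal.ofReal_le_ofReal ?_)
      nlinarith [mul_le_mul b c zero_le_one (by positivity)]
    · rw [ind_false h, mul_zero]
      exact zero_le
  simp only [e, mul_add]
  rw [Ex_add, Ex_add, Ex_mul_left, Ex_mul_right]
  refine (add_le_add (mul_le_mul_right (h1 _ _ r 0 hr (chordd_inj (by omega))) _) (add_le_add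
    (mul_le_mul_left ((Ex_mono fun o => mul_le_mul_right (chordd_sq _) _).trans (h2 _ _ r hr i2)) _)
    ((Ex_mono t).trans_eq ((Ex_mul_left _ _).trans (congrArg _ (chordd_exp _ r i2)))))).trans ?_
  rw [← ENNReal.ofReal_ofNat 2, ← ENNReal.ofReal_pow (by norm_num),
    ← ENNReal.ofReal_mul (by positivity), ← ENNReal.ofReal_mul (by positivity),
    ← ENNReal.ofReal_mul (by positivity), ← ENNReal.ofReal_add (by positivity) (by positivity),
    ← ENNReal.ofReal_add (by positivity) (by positivity)]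
  refine ENNReal.ofReal_le_ofReal ?_
  have u : 1 / (√(l : ℝ) * √r) ≤ 6 / l := by
    have : √(l : ℝ) ≤ 6 * √r := by
      rw [Real.sqrt_le_left (by positivity), mul_pow, Real.sq_sqrt r0.le]
      linarith
    rw [div_le_div_iff₀ (by positivity) l0]
    nlinarith [Real.mul_self_sqrt l0.le]
  have v : (81 / 256 : ℝ) ^ r * 2 ^ r ≤ 64 / l := by
    have b := one_add_mul_le_pow (a := (1 / 2 : ℝ)) (by norm_num) r
    have c : (81 / 256 : ℝ) ^ r * 2 ^ r * (1 + 1 / 2) ^ r ≤ 1 := by
      rw [← mul_pow, ← mul_pow]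
      exact pow_le_one₀ (by norm_num) (by norm_num)
    rw [le_div_iff₀ l0]
    nlinarith [show (0 : ℝ) < (81 / 256) ^ r * 2 ^ r by positivity]
  calc _ = (28 * K1 + 2 * K2) * (1 / (√(l : ℝ) * √r)) + 8 * ((81 / 256) ^ r * 2 ^ r) := by
        push_cast
        field_simp
        ring
    _ ≤ (28 * K1 + 2 * K2) * (6 / l) + 8 * (64 / l) := by gcongr
    _ = _ := by ring

/-- Z: the sum is `2^n Ex gw (slice * chord * z (can o))`; `z (can o)` reads the two ends of
`(a, l)` (`qE_congr`), the slice is spliced on its middle, the chord reads the complement;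
`Ex gw (z (can o)) = Ex gw (Zf a l)` by `Ex_gw_eq` and `b ↦ !b`. -/
theorem oz : ∃ K : ℝ, 0 < K ∧ ∀ (n : ℕ) [NeZero n] (N : ℕ) (a : ZMod n) (l : ℕ), 16 ≤ l →
    2 * l ≤ n → ∑ b : ZMod n → Bool, pr b N (Cd (a + (l : ZMod n)) (n - l)) * zz b a l ≤
      2 ^ n * (K / (n * √(n : ℝ) * (l * √(l : ℝ)))) := by
  obtain ⟨K1, p1, h1⟩ := d1
  obtain ⟨K2, p2, h2⟩ := ez
  refine ⟨16 * K1 * K2, by positivity, fun n _ N a l hl hn => ?_⟩
  have l0 : (0 : ℝ) < l := by exact_mod_cast (by omega : 0 < l)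
  have n0 : (0 : ℝ) < n := by exact_mod_cast (by omega : 0 < n)
  have m0 : (0 : ℝ) < (n - l : ℕ) := by exact_mod_cast (by omega : 0 < n - l)
  have m1 : (n : ℝ) ≤ 2 * (n - l : ℕ) := by exact_mod_cast (by omega : n ≤ 2 * (n - l))
  let z : (ZMod n → ℕ) → ℝ≥0∞ := fun o => qE (fun i => !can o i) (Zf a l)
  have dz : ∀ {S : Set (ZMod n)}, (∀ k, k < l → k < l / 16 ∨ l - l / 16 ≤ k → a + k ∈ S) →
      Dep S z := fun h x y e => qE_congr (chordd_Zf hl h) fun i hi => by simp only [can, e i hi]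
  have dc : ∀ {i j : ℕ}, j ≤ l → Dep (↑(chorddI a i j) : Set (ZMod n))ᶜ
      fun o => ind (Cd (a + (l : ZMod n)) (n - l) o) := fun q x y e =>
    congrArg ind (chordd_ch fun k hk => e _ (by
      rw [add_assoc, ← Nat.cast_add]
      exact chordd_not (by omega) (by omega) (.inr (by omega))))
  have avg : ∀ F : (ZMod n → ℕ) → ℝ≥0∞, ∑ b, qE b F = 2 ^ n * Ex gw F := fun F => by
    rw [Ex_gw_eq, ZMod.card, ← mul_assoc, ← mul_pow, ENNReal.mul_inv_cancel (by simp) (by simp),
      one_pow, one_mul]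
  have ez' : Ex gw z = Ex gw (Zf a l) := by
    rw [Ex_gw_eq, Ex_gw_eq]
    refine congrArg _ (Fintype.sum_equiv (Equiv.piCongrRight fun _ => Equiv.boolNot) _ _ fun b => ?_)
    simp only [qE, z, can_bm]
    exact Ex_const tsum_gw _
  rw [← ENNReal.ofReal_le_ofReal_iff (by positivity), ENNReal.ofReal_sum_of_nonneg fun b _ =>
    by unfold pr zz; positivity]
  calc _ = ∑ b, qE b fun o => ind (∑ i, o i = N ∧ Cd (a + (l : ZMod n)) (n - l) o) * z o :=
        sum_congr rfl fun b _ => by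
          rw [ENNReal.ofReal_mul (by unfold pr; positivity), ← qE_slice, zz,
            ENNReal.ofReal_toReal (qE_Zf_ne_top _ _ _)]
          simp only [qE, z, can_bm, Ex_mul_right]
    _ ≤ 2 ^ n * Ex gw fun o => z o * ind (Cd (a + (l : ZMod n)) (n - l) o) *
          ind (∑ i ∈ chorddI a (l / 16) (l - l / 16), o i =
            N - ∑ i ∈ (chorddI a (l / 16) (l - l / 16))ᶜ, o i) := by
        rw [avg]
        refine mul_le_mul_right (Ex_mono fun o => ?_) _
        rw [mul_comm, mul_assoc, ← ind_and]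
        refine mul_le_mul_right (ind_mono fun h => ⟨h.2, ?_⟩) _
        rw [← h.1, ← sum_add_sum_compl (chorddI a (l / 16) (l - l / 16)), Nat.add_sub_cancel]
    _ ≤ 2 ^ n * (ENNReal.ofReal (K2 / l) *
          ENNReal.ofReal (K1 / ((n - l : ℕ) * √((n - l : ℕ) : ℝ))) * ENNReal.ofReal (4 / √l)) := by
        refine mul_le_mul_right ((chordd_spl _ (fun x y e => ?_) fun x y e => ?_).trans ?_) _
        · exact congrArg₂ _ (dz (fun k hk q => chordd_not (by omega) (by omega) q) x y e)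
            (dc (by omega) x y e)
        · rw [sum_congr rfl fun i hi => e i (mem_compl.1 hi)]
        · rw [Ex_indep tsum_gw disjoint_compl_right
            (dz fun k hk _ => chordd_mem k.zero_le hk) (dc le_rfl), ez']
          refine mul_le_mul' (mul_le_mul' (h2 n a l hl (by omega))
            (h1 n _ _ (by omega) (by omega))) (ENNReal.ofReal_le_ofReal (chordd_half l0 ?_))
          rw [chordd_card (by omega)]
          exact_mod_cast (by omega : l ≤ 4 * (l - l / 16 - l / 16 + 1))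
    _ ≤ _ := by
        have u : √(n : ℝ) ≤ 2 * √((n - l : ℕ) : ℝ) := by
          rw [Real.sqrt_le_left (by positivity), mul_pow, Real.sq_sqrt m0.le]
          linarith
        rw [ENNReal.ofReal_mul (by positivity), ENNReal.ofReal_pow (by norm_num),
          ENNReal.ofReal_ofNat, ← ENNReal.ofReal_mul (by positivity),
          ← ENNReal.ofReal_mul (by positivity)]
        refine mul_le_mul_right (ENNReal.ofReal_le_ofReal ?_) _
        calc _ = 16 * K1 * K2 / (2 * (n - l : ℕ) * (2 * √((n - l : ℕ) : ℝ)) * (l * √l)) := by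
              field_simp
              ring
          _ ≤ _ := by gcongr

theorem chordd_tel {s : ℕ} (hs : 1 ≤ s) (L : ℕ) :
    ∑ l ∈ Ico s L, 1 / ((l : ℝ) * √(l : ℝ)) ≤ 4 / √(s : ℝ) := by
  have key : ∀ L, s ≤ L → ∑ l ∈ Ico s L, 1 / ((l : ℝ) * √(l : ℝ)) ≤ 4 / √(s : ℝ) - 4 / √(L : ℝ) := by
    intro L hL
    induction L, hL using Nat.le_induction with
    | base => simp
    | succ L hL ih =>
      have l1 : (1 : ℝ) ≤ L := by exact_mod_cast hs.trans hL
      have x0 := Real.sqrt_pos.2 (one_pos.trans_le l1)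
      have y0 : 0 < √((L + 1 : ℕ) : ℝ) := by positivity
      have x2 := Real.mul_self_sqrt (zero_le_one.trans l1)
      have y2 : √((L + 1 : ℕ) : ℝ) * √((L + 1 : ℕ) : ℝ) = L + 1 := by
        rw [Real.mul_self_sqrt (by positivity), Nat.cast_succ]
      have : 1 / ((L : ℝ) * √(L : ℝ)) ≤ 4 / √(L : ℝ) - 4 / √((L + 1 : ℕ) : ℝ) := by
        generalize √(L : ℝ) = x at *
        generalize √((L + 1 : ℕ) : ℝ) = y at *
        have d : 0 < y - x := by nlinarith
        have e : y * (x + y) ≤ 4 * L := by nlinarith [sq_nonneg (x - y)]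
        rw [div_sub_div _ _ x0.ne' y0.ne', div_le_div_iff₀ (by positivity) (by positivity)]
        have f : y ≤ (y - x) * (4 * L) := by nlinarith [mul_le_mul_of_nonneg_left e d.le]
        nlinarith [mul_le_mul_of_nonneg_left f x0.le]
      rw [sum_Ico_succ_top hL]
      linarith
  rcases le_total s L with h | h
  · exact (key L h).trans (sub_le_self _ (by positivity))
  · rw [Ico_eq_empty_of_le h, sum_empty]
    positivity

theorem sum_A3 : ∃ K : ℝ, 0 < K ∧ ∀ (n : ℕ) [NeZero n] (N s L : ℕ), 16 ≤ s → 2 * L ≤ n →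
    ∑ b : ZMod n → Bool, A3 N s L b ≤ 2 ^ n * (K / (√(n : ℝ) * √(s : ℝ))) := by
  obtain ⟨K, p, h⟩ := oz
  refine ⟨4 * K, by positivity, fun n _ N s L hs hL => ?_⟩
  have n0 : (0 : ℝ) < n := by exact_mod_cast NeZero.pos n
  unfold A3
  rw [sum_comm]
  calc _ ≤ ∑ _a : ZMod n, 2 ^ n * (K / (n * √(n : ℝ))) * (4 / √(s : ℝ)) := sum_le_sum fun a _ => by
        rw [sum_comm]
        refine le_trans (sum_le_sum fun l hl => ?_)
          ((mul_sum _ _ _).ge.trans (mul_le_mul_of_nonneg_left (chordd_tel (by omega) L)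
            (by positivity)))
        rw [mem_Ico] at hl
        refine (h n N a l (by omega) (by omega)).trans_eq ?_
        rw [mul_assoc (2 ^ n), div_mul_div_comm, mul_one]
    _ = _ := by
        rw [sum_const, card_univ, ZMod.card, nsmul_eq_mul]
        field_simp

end Pool.Agent.Lib.MP_04fdae_co.G
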