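import Mathlib
import Pool.Agent.Lib.MP_04fdae_co.G.Surv1

/-! Survival of two walks with the same canopy (paper C3). -/

namespace Pool.Agent.Lib.MP_04fdae_co.G

open Finset
open scoped ENNReal

/-- One killed geometric step down. -/
noncomputable def surv2_S (f : ℕ → ℝ) (x : ℕ) : ℝ :=
  ∑ a ∈ range (x + 1), (1 / 2 : ℝ) ^ (a + 1) * f (x - a)

/-- One step of the pair of walks (heights `x + 1`, `y + 1`). -/
noncomputable def surv2_R (f : ℕ → ℕ → ℝ) : ℕ → ℕ → ℝ := fun x y =>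
  f (x + 1) (y + 1) / 2 + surv2_S (fun i => surv2_S (fun j => f i j) y) x / 2

theorem surv2_S_zero (f : ℕ → ℝ) : surv2_S f 0 = f 0 / 2 := by
  simp [surv2_S]; ring

theorem surv2_S_succ (f : ℕ → ℝ) (x : ℕ) :
    surv2_S f (x + 1) = (f (x + 1) + surv2_S f x) / 2 := by
  unfold surv2_S
  rw [Finset.sum_range_succ', add_div, Finset.sum_div, add_comm]
  congr 1
  · simp; ring
  · refine Finset.sum_congr rfl fun a _ => ?_
    rw [Nat.add_sub_add_right]
    ring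

theorem surv2_S_mono {f g : ℕ → ℝ} (h : ∀ i, f i ≤ g i) (x : ℕ) : surv2_S f x ≤ surv2_S g x :=
  Finset.sum_le_sum fun _ _ => mul_le_mul_of_nonneg_left (h _) (by positivity)

theorem surv2_S_nonneg {f : ℕ → ℝ} (h : ∀ i, 0 ≤ f i) (x : ℕ) : 0 ≤ surv2_S f x :=
  Finset.sum_nonneg fun _ _ => mul_nonneg (by positivity) (h _)

theorem surv2_S_lin (α β : ℝ) (f g : ℕ → ℝ) (x : ℕ) :
    surv2_S (fun i => α * f i + β * g i) x = α * surv2_S f x + β * surv2_S g x := by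
  unfold surv2_S
  rw [Finset.mul_sum, Finset.mul_sum, ← Finset.sum_add_distrib]
  refine Finset.sum_congr rfl fun a _ => ?_
  ring

theorem surv2_S_const {c : ℝ} (hc : 0 ≤ c) (x : ℕ) : surv2_S (fun _ => c) x ≤ c := by
  induction x with
  | zero => rw [surv2_S_zero]; linarith
  | succ x ih => rw [surv2_S_succ]; linarith

theorem surv2_S_id (x : ℕ) : surv2_S (fun i => (i : ℝ) + 2) x = (x : ℝ) + 1 := by
  induction x with
  | zero => rw [surv2_S_zero]; norm_num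
  | succ x ih => rw [surv2_S_succ, ih]; push_cast; ring

theorem surv2_S_cube (x : ℕ) : surv2_S (fun i => ((i : ℝ) + 2) ^ 3) x ≤
    ((x : ℝ) + 2) ^ 3 - 3 * ((x : ℝ) + 2) ^ 2 + 9 * ((x : ℝ) + 2) - 1 := by
  induction x with
  | zero => rw [surv2_S_zero]; norm_num
  | succ x ih => rw [surv2_S_succ]; push_cast; nlinarith

theorem surv2_S_ge0 {f : ℕ → ℝ} (h : ∀ i, 0 ≤ f i) (x : ℕ) : f x / 2 ≤ surv2_S f x := by
  cases x with
  | zero => rw [surv2_S_zero]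
  | succ x => rw [surv2_S_succ]; have := surv2_S_nonneg h x; linarith

theorem surv2_S_ge1 {f : ℕ → ℝ} (h : ∀ i, 0 ≤ f i) (x : ℕ) : f x / 4 ≤ surv2_S f (x + 1) := by
  rw [surv2_S_succ]
  have := surv2_S_ge0 h x
  have := h (x + 1)
  linarith

theorem surv2_R_mono {f g : ℕ → ℕ → ℝ} (h : ∀ i j, f i j ≤ g i j) (x y : ℕ) :
    surv2_R f x y ≤ surv2_R g x y := by
  unfold surv2_R
  have h1 := h (x + 1) (y + 1)
  have h2 := surv2_S_mono (f := fun i => surv2_S (fun j => f i j) y)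
    (g := fun i => surv2_S (fun j => g i j) y) (fun i => surv2_S_mono (h i) y) x
  linarith

theorem surv2_R_nonneg {f : ℕ → ℕ → ℝ} (h : ∀ i j, 0 ≤ f i j) (x y : ℕ) :
    0 ≤ surv2_R f x y := by
  unfold surv2_R
  have h1 := h (x + 1) (y + 1)
  have h2 := surv2_S_nonneg (f := fun i => surv2_S (fun j => f i j) y)
    (fun i => surv2_S_nonneg (h i) y) x
  linarith

theorem surv2_R_lin (α β : ℝ) (f g : ℕ → ℕ → ℝ) :
    surv2_R (fun i j => α * f i j + β * g i j) =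
      fun x y => α * surv2_R f x y + β * surv2_R g x y := by
  funext x y
  unfold surv2_R
  simp only [surv2_S_lin]
  ring

theorem surv2_R_left {φ : ℕ → ℝ} (h : ∀ i, 0 ≤ φ i) (x y : ℕ) :
    surv2_R (fun i _ => φ i) x y ≤ φ (x + 1) / 2 + surv2_S φ x / 2 := by
  unfold surv2_R
  have h2 := surv2_S_mono (f := fun i => surv2_S (fun _ => φ i) y) (g := φ)
    (fun i => surv2_S_const (h i) y) x
  linarith

theorem surv2_R_right {φ : ℕ → ℝ} (h : ∀ i, 0 ≤ φ i) (x y : ℕ) :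
    surv2_R (fun _ j => φ j) x y ≤ φ (y + 1) / 2 + surv2_S φ y / 2 := by
  unfold surv2_R
  have h2 := surv2_S_const (surv2_S_nonneg h y) x
  linarith

theorem surv2_R_u (x y : ℕ) : surv2_R (fun i _ => (i : ℝ) + 2) x y ≤ (x : ℝ) + 2 := by
  have := surv2_R_left (φ := fun i => (i : ℝ) + 2) (fun i => by positivity) x y
  rw [surv2_S_id] at this
  push_cast at this
  linarith

theorem surv2_R_v (x y : ℕ) : surv2_R (fun _ j => (j : ℝ) + 2) x y ≤ (y : ℝ) + 2 := by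
  have := surv2_R_right (φ := fun i => (i : ℝ) + 2) (fun i => by positivity) x y
  rw [surv2_S_id] at this
  push_cast at this
  linarith

theorem surv2_R_v0 (y : ℕ) :
    surv2_R (fun _ j => (j : ℝ) + 2) 0 y = (y : ℝ) + 2 - ((y : ℝ) + 1) / 4 := by
  unfold surv2_R
  rw [surv2_S_zero, surv2_S_id]
  push_cast
  ring

theorem surv2_R_w (x y : ℕ) :
    surv2_R (fun i j => 1 * ((i : ℝ) + 2) + 1 * ((j : ℝ) + 2)) x y ≤
      1 * ((x : ℝ) + 2) + 1 * ((y : ℝ) + 2) := by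
  rw [surv2_R_lin 1 1 (fun i _ => (i : ℝ) + 2) (fun _ j => (j : ℝ) + 2)]
  have := surv2_R_u x y
  have := surv2_R_v x y
  dsimp only
  linarith

theorem surv2_R_cube (x y : ℕ) :
    surv2_R (fun i j => 1 * ((i : ℝ) + 2) ^ 3 + 1 * ((j : ℝ) + 2) ^ 3) x y ≤
      1 * (1 * ((x : ℝ) + 2) ^ 3 + 1 * ((y : ℝ) + 2) ^ 3) +
        6 * (1 * ((x : ℝ) + 2) + 1 * ((y : ℝ) + 2)) := by
  rw [surv2_R_lin 1 1 (fun i _ => ((i : ℝ) + 2) ^ 3) (fun _ j => ((j : ℝ) + 2) ^ 3)]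
  have h1 := surv2_R_left (φ := fun i => ((i : ℝ) + 2) ^ 3) (fun i => by positivity) x y
  have h2 := surv2_R_right (φ := fun i => ((i : ℝ) + 2) ^ 3) (fun i => by positivity) x y
  have h3 := surv2_S_cube x
  have h4 := surv2_S_cube y
  push_cast at h1 h2
  dsimp only
  nlinarith

/-- The concave Lyapunov function. -/
noncomputable def surv2_g : ℕ → ℕ → ℝ := fun i j =>
  ((i : ℝ) + 2) * ((j : ℝ) + 2) / ((i : ℝ) + (j : ℝ) + 4)

theorem surv2_g_nonneg (i j : ℕ) : 0 ≤ surv2_g i j := by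
  unfold surv2_g; positivity

theorem surv2_R_g (x y : ℕ) :
    surv2_R surv2_g x y ≤ 1 * surv2_g x y + (-1 / 160) * (1 / ((x : ℝ) + (y : ℝ) + 4)) := by
  have hx : (0 : ℝ) ≤ x := Nat.cast_nonneg x
  have hy : (0 : ℝ) ≤ y := Nat.cast_nonneg y
  obtain ⟨D, hD⟩ : ∃ D : ℕ → ℕ → ℝ, D = fun (i j : ℕ) =>
      (((y : ℝ) + 2) * ((i : ℝ) + 2) - ((x : ℝ) + 2) * ((j : ℝ) + 2)) ^ 2 /
        (((x : ℝ) + (y : ℝ) + 4) ^ 2 * ((i : ℝ) + (j : ℝ) + 4)) := ⟨_, rfl⟩
  have hD0 : ∀ i j, 0 ≤ D i j := fun i j => by rw [hD]; positivity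
  have hg : surv2_g = fun (i j : ℕ) =>
      1 * ((((y : ℝ) + 2) / ((x : ℝ) + (y : ℝ) + 4)) ^ 2 * ((i : ℝ) + 2) +
        (((x : ℝ) + 2) / ((x : ℝ) + (y : ℝ) + 4)) ^ 2 * ((j : ℝ) + 2)) + (-1) * D i j := by
    funext i j
    rw [hD]
    unfold surv2_g
    have hi : (0 : ℝ) ≤ i := Nat.cast_nonneg i
    have hj : (0 : ℝ) ≤ j := Nat.cast_nonneg j
    field_simp
    ring
  have hR : surv2_R surv2_g x y =
      (((y : ℝ) + 2) / ((x : ℝ) + (y : ℝ) + 4)) ^ 2 * surv2_R (fun i _ => (i : ℝ) + 2) x y +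
        (((x : ℝ) + 2) / ((x : ℝ) + (y : ℝ) + 4)) ^ 2 * surv2_R (fun _ j => (j : ℝ) + 2) x y -
          surv2_R D x y := by
    rw [hg, surv2_R_lin, surv2_R_lin _ _ (fun i _ => (i : ℝ) + 2) (fun _ j => (j : ℝ) + 2)]
    ring
  have hgv : surv2_g x y =
      (((y : ℝ) + 2) / ((x : ℝ) + (y : ℝ) + 4)) ^ 2 * ((x : ℝ) + 2) +
        (((x : ℝ) + 2) / ((x : ℝ) + (y : ℝ) + 4)) ^ 2 * ((y : ℝ) + 2) := by
    unfold surv2_g
    field_simp
    ring
  have hu := mul_le_mul_of_nonneg_left (surv2_R_u x y)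
    (sq_nonneg (((y : ℝ) + 2) / ((x : ℝ) + (y : ℝ) + 4)))
  have hv := mul_le_mul_of_nonneg_left (surv2_R_v x y)
    (sq_nonneg (((x : ℝ) + 2) / ((x : ℝ) + (y : ℝ) + 4)))
  cases x with
  | zero =>
    have h0 := surv2_R_nonneg hD0 0 y
    rw [surv2_R_v0] at hR
    have hk : (1 / 160) * (1 / (((0 : ℕ) : ℝ) + (y : ℝ) + 4)) ≤
        ((((0 : ℕ) : ℝ) + 2) / (((0 : ℕ) : ℝ) + (y : ℝ) + 4)) ^ 2 * (((y : ℝ) + 1) / 4) := by
      push_cast
      rw [div_pow, div_mul_div_comm, div_mul_div_comm, div_le_div_iff₀ (by positivity) (by positivity)]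
      nlinarith
    rw [hR, hgv]
    linarith
  | succ x =>
    have hx' : (0 : ℝ) ≤ x := Nat.cast_nonneg x
    have h1 : D x y / 8 ≤ surv2_S (fun i => surv2_S (fun j => D i j) y) (x + 1) := by
      have a := surv2_S_ge1 (f := fun i => surv2_S (fun j => D i j) y)
        (fun i => surv2_S_nonneg (hD0 i) y) x
      have b := surv2_S_ge0 (f := fun j => D x j) (hD0 x) y
      linarith
    have h2 : D (x + 1 + 1) (y + 1) / 2 + D x y / 16 ≤ surv2_R D (x + 1) y := by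
      unfold surv2_R
      linarith
    have e1 : ((y : ℝ) - x - 1) ^ 2 / (((x : ℝ) + y + 5) ^ 2 * (2 * ((x : ℝ) + y + 5))) ≤
        D (x + 1 + 1) (y + 1) := by
      rw [hD]
      push_cast
      have : ((y : ℝ) + 2) * (x + 1 + 1 + 2) - (x + 1 + 2) * (y + 1 + 2) = y - x - 1 := by ring
      rw [this]
      have : (x : ℝ) + 1 + y + 4 = x + y + 5 := by ring
      rw [this]
      gcongr
      linarith
    have e2 : ((y : ℝ) + 2) ^ 2 / (((x : ℝ) + y + 5) ^ 2 * (2 * ((x : ℝ) + y + 5))) ≤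
        D x y := by
      rw [hD]
      push_cast
      have : (((y : ℝ) + 2) * (x + 2) - (x + 1 + 2) * (y + 2)) ^ 2 = (y + 2) ^ 2 := by ring
      rw [this]
      have : (x : ℝ) + 1 + y + 4 = x + y + 5 := by ring
      rw [this]
      gcongr
      linarith
    have e3 : (1 / 10) * (1 / ((x : ℝ) + y + 5)) ≤
        ((y : ℝ) - x - 1) ^ 2 / (((x : ℝ) + y + 5) ^ 2 * (2 * ((x : ℝ) + y + 5))) +
          ((y : ℝ) + 2) ^ 2 / (((x : ℝ) + y + 5) ^ 2 * (2 * ((x : ℝ) + y + 5))) := by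
      rw [← add_div, div_mul_div_comm, div_le_div_iff₀ (by positivity) (by positivity)]
      have h5 : ((x : ℝ) + y + 5) ^ 2 ≤ 5 * (((y : ℝ) - x - 1) ^ 2 + ((y : ℝ) + 2) ^ 2) := by
        nlinarith [sq_nonneg (2 * ((x : ℝ) + 1 - y) - ((y : ℝ) + 2))]
      have h6 : (0 : ℝ) < (x : ℝ) + y + 5 := by positivity
      nlinarith [mul_le_mul_of_nonneg_right h5 h6.le]
    have e4 := hD0 (x + 1 + 1) (y + 1)
    have e5 : (((x + 1 : ℕ) : ℝ) + (y : ℝ) + 4) = (x : ℝ) + y + 5 := by push_cast; ring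
    rw [hR, hgv]
    have e6 : 1 / (((x + 1 : ℕ) : ℝ) + (y : ℝ) + 4) = 1 / ((x : ℝ) + y + 5) := by rw [e5]
    rw [e6]
    linarith

theorem surv2_it_mono {f g : ℕ → ℕ → ℝ} (h : ∀ i j, f i j ≤ g i j) (t x y : ℕ) :
    surv2_R^[t] f x y ≤ surv2_R^[t] g x y := by
  induction t generalizing x y with
  | zero => exact h x y
  | succ t ih =>
    rw [Function.iterate_succ_apply', Function.iterate_succ_apply']
    exact surv2_R_mono ih x y

theorem surv2_it_nonneg {f : ℕ → ℕ → ℝ} (h : ∀ i j, 0 ≤ f i j) (t x y : ℕ) :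
    0 ≤ surv2_R^[t] f x y := by
  induction t generalizing x y with
  | zero => exact h x y
  | succ t ih =>
    rw [Function.iterate_succ_apply']
    exact surv2_R_nonneg ih x y

theorem surv2_it_lin (α β : ℝ) (f g : ℕ → ℕ → ℝ) (t : ℕ) :
    surv2_R^[t] (fun i j => α * f i j + β * g i j) =
      fun x y => α * surv2_R^[t] f x y + β * surv2_R^[t] g x y := by
  induction t with
  | zero => rfl
  | succ t ih =>
    rw [Function.iterate_succ_apply', Function.iterate_succ_apply', Function.iterate_succ_apply',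
      ih, surv2_R_lin]

theorem surv2_it_w (t : ℕ) :
    surv2_R^[t] (fun i j => 1 * ((i : ℝ) + 2) + 1 * ((j : ℝ) + 2)) 0 0 ≤ 4 := by
  induction t with
  | zero => norm_num
  | succ t ih =>
    rw [Function.iterate_succ_apply]
    exact (surv2_it_mono surv2_R_w t 0 0).trans ih

theorem surv2_it_cube (t : ℕ) :
    surv2_R^[t] (fun i j => 1 * ((i : ℝ) + 2) ^ 3 + 1 * ((j : ℝ) + 2) ^ 3) 0 0 ≤
      24 * ((t : ℝ) + 1) := by
  induction t with
  | zero => norm_num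
  | succ t ih =>
    rw [Function.iterate_succ_apply]
    refine (surv2_it_mono surv2_R_cube t 0 0).trans ?_
    rw [surv2_it_lin 1 6 (fun i j => 1 * ((i : ℝ) + 2) ^ 3 + 1 * ((j : ℝ) + 2) ^ 3)
      (fun i j => 1 * ((i : ℝ) + 2) + 1 * ((j : ℝ) + 2))]
    have := surv2_it_w t
    push_cast
    linarith

theorem surv2_it_g (t : ℕ) :
    surv2_R^[t] surv2_g 0 0 + (1 / 160) * ∑ k ∈ range t,
      surv2_R^[k] (fun i j => 1 / ((i : ℝ) + (j : ℝ) + 4)) 0 0 ≤ 1 := by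
  induction t with
  | zero => norm_num [surv2_g]
  | succ t ih =>
    rw [Function.iterate_succ_apply, Finset.sum_range_succ]
    have h := surv2_it_mono surv2_R_g t 0 0
    rw [surv2_it_lin 1 (-1 / 160) surv2_g (fun i j => 1 / ((i : ℝ) + (j : ℝ) + 4))] at h
    linarith

theorem surv2_pt {c : ℝ} (hc : 0 < c) (i j : ℕ) :
    (i : ℝ) + 2 ≤ c * (1 / ((i : ℝ) + (j : ℝ) + 4)) +
      (1 / c) * (1 * ((i : ℝ) + 2) ^ 3 + 1 * ((j : ℝ) + 2) ^ 3) := by
  have hi : (0 : ℝ) ≤ i := Nat.cast_nonneg i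
  have hj : (0 : ℝ) ≤ j := Nat.cast_nonneg j
  obtain ⟨w, hw⟩ : ∃ w : ℝ, w = (i : ℝ) + (j : ℝ) + 4 := ⟨_, rfl⟩
  have hw0 : 0 < w := by rw [hw]; positivity
  have h1 : w ^ 3 / 4 ≤ 1 * ((i : ℝ) + 2) ^ 3 + 1 * ((j : ℝ) + 2) ^ 3 := by
    have : 0 ≤ w * ((i : ℝ) - j) ^ 2 := by positivity
    rw [hw] at this ⊢
    nlinarith
  have h2 : w ≤ c * (1 / w) + (1 / c) * (w ^ 3 / 4) := by
    have : c * (1 / w) + (1 / c) * (w ^ 3 / 4) - w = (2 * c - w ^ 2) ^ 2 / (4 * c * w) := by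
      field_simp
      ring
    have h3 : 0 ≤ (2 * c - w ^ 2) ^ 2 / (4 * c * w) := by positivity
    linarith
  have h4 := mul_le_mul_of_nonneg_left h1 (by positivity : (0 : ℝ) ≤ 1 / c)
  rw [← hw]
  linarith

theorem surv2_small {z : ℝ} (hz : 0 < z) :
    ∃ t : ℕ, surv2_R^[t] (fun i _ => (i : ℝ) + 2) 0 0 ≤ z := by
  by_contra hcon
  push Not at hcon
  have ha : ∀ t : ℕ, z ^ 2 / 96 * (1 / ((t : ℝ) + 1)) ≤
      surv2_R^[t] (fun i j => 1 / ((i : ℝ) + (j : ℝ) + 4)) 0 0 := by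
    intro t
    have ht : (0 : ℝ) < (t : ℝ) + 1 := by positivity
    have hc : (0 : ℝ) < 48 * ((t : ℝ) + 1) / z := by positivity
    have h := surv2_it_mono (surv2_pt hc) t 0 0
    rw [surv2_it_lin _ _ (fun i j => 1 / ((i : ℝ) + (j : ℝ) + 4))
      (fun i j => 1 * ((i : ℝ) + 2) ^ 3 + 1 * ((j : ℝ) + 2) ^ 3)] at h
    have h2 := mul_le_mul_of_nonneg_left (surv2_it_cube t)
      (by positivity : (0 : ℝ) ≤ 1 / (48 * ((t : ℝ) + 1) / z))
    have h3 : 1 / (48 * ((t : ℝ) + 1) / z) * (24 * ((t : ℝ) + 1)) = z / 2 := by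
      field_simp
      ring
    have h4 := hcon t
    have h5 : z / 2 ≤ 48 * ((t : ℝ) + 1) / z *
        surv2_R^[t] (fun i j => 1 / ((i : ℝ) + (j : ℝ) + 4)) 0 0 := by
      dsimp only at h
      linarith
    have h6 : z ^ 2 / 96 * (1 / ((t : ℝ) + 1)) = (z / 2) / (48 * ((t : ℝ) + 1) / z) := by
      field_simp
      ring
    rw [h6, div_le_iff₀' hc]
    exact h5
  have hb : ∀ n : ℕ, ∑ k ∈ range n, (1 / ((k : ℝ) + 1)) ≤ 160 / (z ^ 2 / 96) := by
    intro n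
    have h1 := surv2_it_g n
    have h2 := surv2_it_nonneg surv2_g_nonneg n 0 0
    have h3 : ∑ k ∈ range n, z ^ 2 / 96 * (1 / ((k : ℝ) + 1)) ≤ ∑ k ∈ range n,
        surv2_R^[k] (fun i j => 1 / ((i : ℝ) + (j : ℝ) + 4)) 0 0 :=
      Finset.sum_le_sum fun k _ => ha k
    rw [← Finset.mul_sum] at h3
    rw [le_div_iff₀' (by positivity)]
    linarith
  obtain ⟨n, hn⟩ := (Real.tendsto_sum_range_one_div_nat_succ_atTop.eventually_gt_atTop
    (160 / (z ^ 2 / 96))).exists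
  exact absurd (hb n) (not_le.2 hn)

theorem surv2_fwd_succ {x r : ℕ} {o : ℕ → ℕ} (h : FwdW (x + 1) o (r + 1)) :
    o 0 ≤ x + 1 ∧ FwdW (x + 1 - o 0 + 1) (fun k => o (k + 1)) r := by
  have h1 := h 1 le_rfl (by omega)
  have h0 : o 0 ≤ x + 1 := by
    simp only [ps, Finset.sum_range_one] at h1
    omega
  refine ⟨h0, fun k hk hkr => ?_⟩
  have h2 := h (k + 1) (by omega) (by omega)
  simp only [ps] at h2 ⊢
  rw [Finset.sum_range_succ'] at h2
  omega

theorem surv2_tsum_S {f : ℕ → ℝ} (h : ∀ i, 0 ≤ f i) (x : ℕ) :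
    ∑' a, gw a * (ind (a ≤ x) * ENNReal.ofReal (f (x - a))) = ENNReal.ofReal (surv2_S f x) := by
  rw [tsum_eq_sum (s := range (x + 1))]
  · unfold surv2_S
    rw [ENNReal.ofReal_sum_of_nonneg (fun a _ => mul_nonneg (by positivity) (h _))]
    refine Finset.sum_congr rfl fun a ha => ?_
    rw [ind_true (by simpa [Nat.lt_succ_iff] using ha), one_mul,
      ENNReal.ofReal_mul (by positivity), ENNReal.ofReal_pow (by norm_num), gw]
    congr 2
    rw [one_div, ENNReal.ofReal_inv_of_pos (by norm_num)]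
    norm_num
  · intro a ha
    rw [ind_false (by simpa [Nat.lt_succ_iff] using ha)]
    simp

theorem surv2_tsum_R {φ : ℕ → ℕ → ℝ} (h : ∀ i j, 0 ≤ φ i j) (x y : ℕ) :
    ∑' a : Om, w2 a * (ind (l1 a ≤ x + 1 ∧ l2 a ≤ y + 1) *
      ENNReal.ofReal (φ (x + 1 - l1 a) (y + 1 - l2 a))) = ENNReal.ofReal (surv2_R φ x y) := by
  have hS := surv2_S_nonneg (f := fun i => surv2_S (fun j => φ i j) y)
    (fun i => surv2_S_nonneg (h i) y) x
  have h2 : ∀ r : ℝ, ENNReal.ofReal (r / 2) = 2⁻¹ * ENNReal.ofReal r := by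
    intro r
    rw [div_eq_inv_mul, ENNReal.ofReal_mul (by norm_num), ENNReal.ofReal_inv_of_pos (by norm_num)]
    norm_num
  unfold surv2_R
  rw [ENNReal.ofReal_add (div_nonneg (h _ _) (by norm_num)) (div_nonneg hS (by norm_num)), h2, h2,
    ENNReal.tsum_prod', tsum_bool]
  congr 1
  · rw [ENNReal.tsum_prod']
    have : ∀ a b : ℕ, w2 (false, a, b) * (ind (l1 (false, a, b) ≤ x + 1 ∧ l2 (false, a, b) ≤ y + 1) *
        ENNReal.ofReal (φ (x + 1 - l1 (false, a, b)) (y + 1 - l2 (false, a, b)))) =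
        (2⁻¹ * ENNReal.ofReal (φ (x + 1) (y + 1))) * gw a * gw b := by
      intro a b
      have e1 : l1 (false, a, b) = 0 := rfl
      have e2 : l2 (false, a, b) = 0 := rfl
      rw [e1, e2, ind_true ⟨Nat.zero_le _, Nat.zero_le _⟩, Nat.sub_zero, Nat.sub_zero]
      unfold w2
      ring
    simp only [this, ENNReal.tsum_mul_left, tsum_gw, mul_one]
  · rw [ENNReal.tsum_prod', ← surv2_tsum_S (fun i => surv2_S_nonneg (h i) y) x,
      ← ENNReal.tsum_mul_left]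
    refine tsum_congr fun a => ?_
    rw [← surv2_tsum_S (h (x - a)) y, ← ENNReal.tsum_mul_left, ← ENNReal.tsum_mul_left,
      ← ENNReal.tsum_mul_left]
    refine tsum_congr fun b => ?_
    have e1 : l1 (true, a, b) = a + 1 := rfl
    have e2 : l2 (true, a, b) = b + 1 := rfl
    rw [e1, e2, Nat.add_sub_add_right, Nat.add_sub_add_right, ind_and,
      ind_congr (Nat.add_le_add_iff_right : a + 1 ≤ x + 1 ↔ a ≤ x),
      ind_congr (Nat.add_le_add_iff_right : b + 1 ≤ y + 1 ↔ b ≤ y)]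
    unfold w2
    ring

theorem surv2_link {ι : Type} [Fintype ι] [DecidableEq ι] (s : ℕ) {φ : ℕ → ℕ → ℝ}
    (h0 : ∀ i j, 0 ≤ φ i j)
    (hφ : ∀ e : ℕ → ι, Set.InjOn e (Set.Iio s) → ∀ x y : ℕ,
      Ex w2 (fun ω : ι → Om => ind (FwdW (x + 1) (fun k => l1 (ω (e k))) s ∧
        FwdW (y + 1) (fun k => l2 (ω (e k))) s)) ≤ ENNReal.ofReal (φ x y)) (t : ℕ) :
    ∀ e : ℕ → ι, Set.InjOn e (Set.Iio (s + t)) → ∀ x y : ℕ,
      Ex w2 (fun ω : ι → Om => ind (FwdW (x + 1) (fun k => l1 (ω (e k))) (s + t) ∧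
        FwdW (y + 1) (fun k => l2 (ω (e k))) (s + t))) ≤ ENNReal.ofReal (surv2_R^[t] φ x y) := by
  induction t with
  | zero => exact hφ
  | succ t ih =>
    intro e he x y
    have he' : Set.InjOn (fun k => e (k + 1)) (Set.Iio (s + t)) := by
      intro a ha b hb hab
      have ha' : a < s + t := ha
      have hb' : b < s + t := hb
      have := he (show a + 1 < s + (t + 1) by omega) (show b + 1 < s + (t + 1) by omega) hab
      omega
    rw [Function.iterate_succ_apply', ← surv2_tsum_R (surv2_it_nonneg h0 t) x y,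
      Ex_update tsum_w2 (e 0)]
    refine ENNReal.tsum_le_tsum fun a => ?_
    refine mul_le_mul_right ?_ _
    refine le_trans ?_ (mul_le_mul_right (ih _ he' (x + 1 - l1 a) (y + 1 - l2 a)) _)
    rw [← Ex_mul_left]
    refine Ex_mono fun ω => ?_
    rw [← ind_and]
    refine ind_mono fun hh => ?_
    obtain ⟨p1, p2⟩ := surv2_fwd_succ (r := s + t) hh.1
    obtain ⟨q1, q2⟩ := surv2_fwd_succ (r := s + t) hh.2
    simp only [Function.update_self] at p1 p2 q1 q2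
    have hne : ∀ i, i < s + t → e (i + 1) ≠ e 0 := by
      intro i hi hh
      have := he (show i + 1 < s + (t + 1) by omega) (show 0 < s + (t + 1) by omega) hh
      omega
    refine ⟨⟨p1, q1⟩, fun k hk hkr => ?_, fun k hk hkr => ?_⟩
    · refine lt_of_eq_of_lt ?_ (p2 k hk hkr)
      refine Finset.sum_congr rfl fun i hi => ?_
      simp only [Function.update_of_ne (hne i (lt_of_lt_of_le (Finset.mem_range.1 hi) hkr))]
    · refine lt_of_eq_of_lt ?_ (q2 k hk hkr)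
      refine Finset.sum_congr rfl fun i hi => ?_
      simp only [Function.update_of_ne (hne i (lt_of_lt_of_le (Finset.mem_range.1 hi) hkr))]

/-- C3.  Real operator with finite sums
`P2 f x y = f (x+1) (y+1) / 2 + ∑ i ∈ Icc 1 x, ∑ j ∈ Icc 1 y, 2^(-i-j-1) f (x+1-i) (y+1-j)`;
`u = x+1`, `v = y+1`, `g = u v/(u+v)`; for `x, y ≥ 1`: `P2 g ≤ g - 1/(160 (u+v))` (tangent
identity); `P2^t (u^3+v^3) ≤ 24 (t+1)` from `(1,1)`; `u ≤ c/w + (u^3+v^3)/c`; so `P2^t u (1,1)`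
gets below any `z > 0`; then `fwd_le` with `Ex_l1`. -/
theorem fwd2_le (δ : ℝ) (hδ : 0 < δ) : ∃ r0 : ℕ, ∀ (ι : Type) [Fintype ι] [DecidableEq ι]
    (e : ℕ → ι) (r : ℕ), r0 ≤ r → Set.InjOn e (Set.Iio r) →
    Ex w2 (fun ω : ι → Om => ind (FwdW 0 (fun k => l1 (ω (e k))) r ∧
      FwdW 0 (fun k => l2 (ω (e k))) r)) ≤ ENNReal.ofReal (δ / √(r : ℝ)) := by
  obtain ⟨K, hK, hfw⟩ := fwd_le
  obtain ⟨t, ht⟩ := surv2_small (z := δ / (2 * K)) (by positivity)
  refine ⟨2 * t + 1, fun ι _ _ e r hr he => ?_⟩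
  obtain ⟨s, rfl⟩ : ∃ s, r = s + t := ⟨r - t, by omega⟩
  have hs : 1 ≤ s := by omega
  have hs0 : (0 : ℝ) < √(s : ℝ) := Real.sqrt_pos.2 (by exact_mod_cast hs)
  have hr0 : (0 : ℝ) < √((s + t : ℕ) : ℝ) := Real.sqrt_pos.2 (by exact_mod_cast (by omega : 0 < s + t))
  have key := surv2_link (ι := ι) s
    (φ := fun i _ => (K / √(s : ℝ)) * ((i : ℝ) + 2) + 0 * ((i : ℝ) + 2))
    (fun i _ => by positivity) ?_ t e he 0 0
  · rw [surv2_it_lin _ _ (fun i _ => (i : ℝ) + 2) (fun i _ => (i : ℝ) + 2)] at key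
    refine le_trans (Ex_mono fun ω => ind_mono fun hh => ?_) (key.trans ?_)
    · exact ⟨fun k hk hkr => lt_of_lt_of_le (hh.1 k hk hkr) (by omega),
        fun k hk hkr => lt_of_lt_of_le (hh.2 k hk hkr) (by omega)⟩
    · refine ENNReal.ofReal_le_ofReal ?_
      have h1 := mul_le_mul_of_nonneg_left ht (by positivity : (0 : ℝ) ≤ K / √(s : ℝ))
      have h2 : K / √(s : ℝ) * (δ / (2 * K)) = δ / (2 * √(s : ℝ)) := by
        field_simp
      have h3 : √((s + t : ℕ) : ℝ) ≤ 2 * √(s : ℝ) := by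
        rw [Real.sqrt_le_left (by positivity), mul_pow, Real.sq_sqrt (by positivity)]
        have : ((s + t : ℕ) : ℝ) ≤ ((4 * s : ℕ) : ℝ) := by exact_mod_cast (by omega : s + t ≤ 4 * s)
        push_cast at this ⊢
        linarith
      have h4 : δ / (2 * √(s : ℝ)) ≤ δ / √((s + t : ℕ) : ℝ) := by gcongr
      linarith
  · intro e' he' x y
    refine le_trans (Ex_mono fun ω => ind_mono fun hh => hh.1) ?_
    have h1 := Ex_l1 (ι := ι) (fun o : ι → ℕ => ind (FwdW (x + 1) (fun k => o (e' k)) s))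
    refine (le_of_eq h1).trans ((hfw ι e' s (x + 1) hs he').trans (le_of_eq ?_))
    congr 1
    push_cast
    ring

end Pool.Agent.Lib.MP_04fdae_co.G
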