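import Mathlib
import Pool.Agent.Lib.MP_04fdae_co.G.ChordE
import Pool.Agent.Lib.MP_04fdae_co.G.Surv2

/-! The two-copy chord bound (paper D2). -/

namespace Pool.Agent.Lib.MP_04fdae_co.G

open Finset
open scoped ENNReal

theorem chordp_mul_le (a b : ℝ≥0∞) : a * b ≤ a ^ 2 + b ^ 2 := by
  rcases le_total a b with h | h
  · calc a * b ≤ b * b := by gcongr
      _ = b ^ 2 := (sq b).symm
      _ ≤ _ := le_add_self
  · calc a * b ≤ a * a := by gcongr
      _ = a ^ 2 := (sq a).symm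
      _ ≤ _ := le_self_add

theorem chordp_ps_congr {o o' : ℕ → ℕ} {l k : ℕ} (h : ∀ j < l, o j = o' j) (hk : k ≤ l) :
    ps o k = ps o' k :=
  Finset.sum_congr rfl fun j hj => h j (lt_of_lt_of_le (mem_range.1 hj) hk)

theorem chordp_ChW_congr {o o' : ℕ → ℕ} {l : ℕ} (h : ∀ j < l, o j = o' j) (hc : ChW o l) :
    ChW o' l :=
  ⟨fun k h1 h2 => by rw [← chordp_ps_congr h h2.le]; exact hc.1 k h1 h2,
    by rw [← chordp_ps_congr h le_rfl]; exact hc.2⟩

theorem chordp_Fwd_congr {o o' : ℕ → ℕ} {x r : ℕ} (h : ∀ j < r, o j = o' j) (hc : FwdW x o r) :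
    FwdW x o' r :=
  fun k h1 h2 => by rw [← chordp_ps_congr h h2]; exact hc k h1 h2

theorem chordp_Back_congr {o o' : ℕ → ℕ} {x r : ℕ} (h : ∀ j < r, o j = o' j) (hc : BackW x o r) :
    BackW x o' r :=
  fun k h1 h2 => by rw [← chordp_ps_congr h h2]; exact hc k h1 h2

theorem chordp_slice {ι : Type} [Fintype ι] [DecidableEq ι] (S : Finset ι) (c1 c2 x1 x2 : ℕ) :
    Ex w2 (fun x : ι → Om => ind (∑ i ∈ S, l1 (x i) + c1 = x1 ∧ ∑ i ∈ S, l2 (x i) + c2 = x2)) ≤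
      ENNReal.ofReal (2 / ((S.card : ℝ) + 1)) :=
  le_trans (Ex_mono fun _ => ind_mono fun h => ⟨by omega, by omega⟩)
    (Ex2_sum_le S (x1 - c1) (x2 - c2))

theorem chordp_inj {n : ℕ} [NeZero n] (a : ZMod n) {l : ℕ} (hln : l ≤ n) {i j : ℕ} (hi : i < l)
    (hj : j < l) (h : a + (i : ZMod n) = a + (j : ZMod n)) : i = j :=
  natCast_inj_of_lt (lt_of_lt_of_le hi hln) (lt_of_lt_of_le hj hln) (add_left_cancel h)

theorem chordp_pw_out {ι A : Type} [DecidableEq ι] (e : ℕ → ι) {l : ℕ}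
    (he : ∀ i < l, ∀ j < l, e i = e j → i = j) {I : Finset ℕ} (hI : ∀ k ∈ I, k < l)
    (x y : ι → A) {k : ℕ} (hk : k < l) (hkI : k ∉ I) :
    (I.image e).piecewise x y (e k) = y (e k) := by
  apply Finset.piecewise_eq_of_notMem
  intro hm
  obtain ⟨j, hj, hjk⟩ := mem_image.1 hm
  exact hkI (he j (hI j hj) k hk hjk ▸ hj)

theorem chordp_pw_sum {ι A : Type} [DecidableEq ι] (e : ℕ → ι) {l : ℕ}
    (he : ∀ i < l, ∀ j < l, e i = e j → i = j) {I : Finset ℕ} (hI : ∀ k ∈ I, k < l)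
    (x y : ι → A) (φ : A → ℕ) :
    ∑ k ∈ range l, φ ((I.image e).piecewise x y (e k)) =
      ∑ i ∈ I.image e, φ (x i) + ∑ k ∈ range l \ I, φ (y (e k)) := by
  have hsub : I ⊆ range l := fun k hk => mem_range.2 (hI k hk)
  rw [← Finset.sum_sdiff hsub, add_comm, Finset.sum_image
    (fun i hi j hj h => he i (hI i hi) j (hI j hj) h)]
  congr 1
  · exact Finset.sum_congr rfl fun k hk => by
      rw [Finset.piecewise_eq_of_mem _ _ _ (mem_image_of_mem e hk)]
  · exact Finset.sum_congr rfl fun k hk => by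
      rw [chordp_pw_out e he hI x y (mem_range.1 (mem_sdiff.1 hk).1) (mem_sdiff.1 hk).2]

/-- Splice on the complement of the interval. -/
theorem chordp_s1 {n : ℕ} [NeZero n] (N : ℕ) (a : ZMod n) (l : ℕ) (hln : l ≤ n) :
    Ex w2 (fun ω : ZMod n → Om => ind (∑ i, l1 (ω i) = N ∧ Cd a l (fun i => l1 (ω i))) *
        ind (∑ i, l2 (ω i) = N ∧ Cd a l (fun i => l2 (ω i)))) ≤
      ENNReal.ofReal (2 / ((n : ℝ) - l + 1)) *
        Ex w2 (fun ω : ZMod n → Om => ind (Cd a l (fun i => l1 (ω i))) *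
          ind (Cd a l (fun i => l2 (ω i)))) := by
  rw [← Ex_mul_left]
  set J : Finset (ZMod n) := (range l).image (fun k : ℕ => a + (k : ZMod n)) with hJ
  have hcJ : J.card = l := by
    rw [hJ, card_image_of_injOn, card_range]
    intro i hi j hj h
    exact chordp_inj a hln (mem_range.1 (mem_coe.1 hi)) (mem_range.1 (mem_coe.1 hj)) h
  have hcS : ((Jᶜ.card : ℕ) : ℝ) = (n : ℝ) - l := by
    rw [card_compl, ZMod.card, hcJ, Nat.cast_sub hln]
  refine Ex_le_of_splice tsum_w2 Jᶜ fun y => ?_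
  have hsum : ∀ (x : ZMod n → Om) (φ : Om → ℕ), ∑ i, φ (Jᶜ.piecewise x y i) =
      ∑ i ∈ Jᶜ, φ (x i) + ∑ i ∈ J, φ (y i) := by
    intro x φ
    rw [← Finset.sum_compl_add_sum J]
    congr 1
    · exact Finset.sum_congr rfl fun i hi => by rw [Finset.piecewise_eq_of_mem _ _ _ hi]
    · exact Finset.sum_congr rfl fun i hi => by
        rw [Finset.piecewise_eq_of_notMem _ _ _ (by simpa using hi)]
  have hcd : ∀ (x : ZMod n → Om) (φ : Om → ℕ), Cd a l (fun i => φ (Jᶜ.piecewise x y i)) →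
      Cd a l (fun i => φ (y i)) := by
    intro x φ h
    refine chordp_ChW_congr (fun j hj => ?_) h
    have hm : a + (j : ZMod n) ∈ J := mem_image_of_mem _ (mem_range.2 hj)
    simp only [sh]
    rw [Finset.piecewise_eq_of_notMem _ _ _ (by simpa using hm)]
  calc _ ≤ Ex w2 (fun x : ZMod n → Om =>
        ind (∑ i ∈ Jᶜ, l1 (x i) + ∑ i ∈ J, l1 (y i) = N ∧
          ∑ i ∈ Jᶜ, l2 (x i) + ∑ i ∈ J, l2 (y i) = N) *
        (ind (Cd a l (fun i => l1 (y i))) * ind (Cd a l (fun i => l2 (y i))))) := by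
        refine Ex_mono fun x => ?_
        rw [← ind_and, ← ind_and, ← ind_and]
        refine ind_mono fun h => ⟨⟨?_, ?_⟩, hcd x l1 h.1.2, hcd x l2 h.2.2⟩
        · rw [← hsum x l1]; exact h.1.1
        · rw [← hsum x l2]; exact h.2.1
    _ ≤ _ := by
        rw [Ex_mul_right]
        gcongr
        rw [← hcS]
        exact chordp_slice _ _ _ _ _

/-- Splice on the middle of the interval. -/
theorem chordp_s2 {n : ℕ} [NeZero n] (a : ZMod n) (l r : ℕ) (hln : l ≤ n) (hr : 1 ≤ r)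
    (hrl : 2 * r ≤ l) :
    Ex w2 (fun ω : ZMod n → Om => ind (Cd a l (fun i => l1 (ω i))) *
        ind (Cd a l (fun i => l2 (ω i)))) ≤
      ENNReal.ofReal (2 / ((l : ℝ) - 2 * r + 1)) *
        Ex w2 (fun ω : ZMod n → Om =>
          ind (FwdW 0 (fun k => l1 (ω (a + (k : ZMod n)))) r ∧
            FwdW 0 (fun k => l2 (ω (a + (k : ZMod n)))) r) *
          ((ind (BackW 0 (fun k => l1 (ω (a + ((l - 1 - k : ℕ) : ZMod n)))) r) *
              (l1 (ω (a + ((l - 1 - 0 : ℕ) : ZMod n))) : ℝ≥0∞)) *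
            (ind (BackW 0 (fun k => l2 (ω (a + ((l - 1 - k : ℕ) : ZMod n)))) r) *
              (l2 (ω (a + ((l - 1 - 0 : ℕ) : ZMod n))) : ℝ≥0∞)))) := by
  rw [← Ex_mul_left]
  set e : ℕ → ZMod n := fun k => a + (k : ZMod n) with he0
  have he : ∀ i < l, ∀ j < l, e i = e j → i = j := fun i hi j hj h => chordp_inj a hln hi hj h
  set I : Finset ℕ := Ico r (l - r) with hI0
  have hI : ∀ k ∈ I, k < l := fun k hk => by have := mem_Ico.1 hk; omega
  have hcM : (((I.image e).card : ℕ) : ℝ) = (l : ℝ) - 2 * r := by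
    rw [card_image_of_injOn (fun i hi j hj h => he i (hI i hi) j (hI j hj) h), hI0, Nat.card_Ico]
    have : l - r - r = l - 2 * r := by omega
    rw [this, Nat.cast_sub hrl]; push_cast; ring
  refine Ex_le_of_splice tsum_w2 (I.image e) fun y => ?_
  have key : ∀ (x : ZMod n → Om) (φ : Om → ℕ),
      Cd a l (fun i => φ ((I.image e).piecewise x y i)) →
      FwdW 0 (fun k => φ (y (e k))) r ∧ BackW 0 (fun k => φ (y (e (l - 1 - k)))) r ∧
        ∃ v ∈ range (φ (y (e (l - 1 - 0)))),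
          ∑ i ∈ I.image e, φ (x i) + (∑ k ∈ range l \ I, φ (y (e k)) + 1) = l + v := by
    intro x φ h
    obtain ⟨h1, h2, v, hv, h3⟩ := chW_facts (by omega) h
    have hout : ∀ k < l, k ∉ I → (I.image e).piecewise x y (e k) = y (e k) :=
      fun k hk hkI => chordp_pw_out e he hI x y hk hkI
    refine ⟨chordp_Fwd_congr (fun j hj => ?_) (h1 r (by omega)),
      chordp_Back_congr (fun j hj => ?_) (h2 r (by omega)), v, ?_, ?_⟩
    · exact congrArg φ (hout j (by omega) (by rw [hI0, mem_Ico]; omega))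
    · exact congrArg φ (hout (l - 1 - j) (by omega) (by rw [hI0, mem_Ico]; omega))
    · rw [mem_range, ← hout (l - 1 - 0) (by omega) (by rw [hI0, mem_Ico]; omega)]
      exact hv
    · rw [← add_assoc, ← chordp_pw_sum e he hI x y φ]
      exact h3
  calc _ ≤ Ex w2 (fun x : ZMod n → Om =>
        (ind (FwdW 0 (fun k => l1 (y (e k))) r ∧ FwdW 0 (fun k => l2 (y (e k))) r) *
          (ind (BackW 0 (fun k => l1 (y (e (l - 1 - k)))) r) *
            ind (BackW 0 (fun k => l2 (y (e (l - 1 - k)))) r))) *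
        ∑ v ∈ range (l1 (y (e (l - 1 - 0)))) ×ˢ range (l2 (y (e (l - 1 - 0)))),
          ind (∑ i ∈ I.image e, l1 (x i) + (∑ k ∈ range l \ I, l1 (y (e k)) + 1) = l + v.1 ∧
            ∑ i ∈ I.image e, l2 (x i) + (∑ k ∈ range l \ I, l2 (y (e k)) + 1) = l + v.2)) := by
        refine Ex_mono fun x => ?_
        rw [← ind_and]
        by_cases h : Cd a l (fun i => l1 ((I.image e).piecewise x y i)) ∧
            Cd a l (fun i => l2 ((I.image e).piecewise x y i))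
        · obtain ⟨a1, a2, v1, hv1, a3⟩ := key x l1 h.1
          obtain ⟨b1, b2, v2, hv2, b3⟩ := key x l2 h.2
          rw [ind_true h, ind_true ⟨a1, b1⟩, ind_true a2, ind_true b2, one_mul, one_mul, one_mul]
          refine le_trans ?_ (Finset.single_le_sum (f := fun v : ℕ × ℕ =>
            ind (∑ i ∈ I.image e, l1 (x i) + (∑ k ∈ range l \ I, l1 (y (e k)) + 1) = l + v.1 ∧
            ∑ i ∈ I.image e, l2 (x i) + (∑ k ∈ range l \ I, l2 (y (e k)) + 1) = l + v.2))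
            (fun _ _ => zero_le) (mem_product.2 ⟨hv1, hv2⟩ : (v1, v2) ∈ _))
          exact (ind_true ⟨a3, b3⟩).ge
        · rw [ind_false h]; exact zero_le
    _ ≤ _ := by
        rw [Ex_mul_left, Ex_sum]
        have hb := Finset.sum_le_card_nsmul
          (range (l1 (y (e (l - 1 - 0)))) ×ˢ range (l2 (y (e (l - 1 - 0)))))
          (fun v : ℕ × ℕ => Ex w2 (fun x : ZMod n → Om =>
            ind (∑ i ∈ I.image e, l1 (x i) + (∑ k ∈ range l \ I, l1 (y (e k)) + 1) = l + v.1 ∧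
            ∑ i ∈ I.image e, l2 (x i) + (∑ k ∈ range l \ I, l2 (y (e k)) + 1) = l + v.2)))
          (ENNReal.ofReal (2 / ((l : ℝ) - 2 * r + 1)))
          (fun v _ => by rw [← hcM]; exact chordp_slice _ _ _ _ _)
        rw [card_product, card_range, card_range, nsmul_eq_mul, Nat.cast_mul] at hb
        refine le_trans (mul_le_mul_right hb _) (le_of_eq ?_)
        simp only [he0]
        ring

/-- The two ends are independent. -/
theorem chordp_s3 {n : ℕ} [NeZero n] (a : ZMod n) (l r : ℕ) (hln : l ≤ n) (hr : 1 ≤ r)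
    (hrl : 2 * r ≤ l) :
    Ex w2 (fun ω : ZMod n → Om =>
          ind (FwdW 0 (fun k => l1 (ω (a + (k : ZMod n)))) r ∧
            FwdW 0 (fun k => l2 (ω (a + (k : ZMod n)))) r) *
          ((ind (BackW 0 (fun k => l1 (ω (a + ((l - 1 - k : ℕ) : ZMod n)))) r) *
              (l1 (ω (a + ((l - 1 - 0 : ℕ) : ZMod n))) : ℝ≥0∞)) *
            (ind (BackW 0 (fun k => l2 (ω (a + ((l - 1 - k : ℕ) : ZMod n)))) r) *
              (l2 (ω (a + ((l - 1 - 0 : ℕ) : ZMod n))) : ℝ≥0∞)))) ≤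
      Ex w2 (fun ω : ZMod n → Om => ind (FwdW 0 (fun k => l1 (ω (a + (k : ZMod n)))) r ∧
            FwdW 0 (fun k => l2 (ω (a + (k : ZMod n)))) r)) *
        (2 * Ex gw (fun o : ZMod n → ℕ =>
          ind (BackW 0 (fun k => o (a + ((l - 1 - k : ℕ) : ZMod n))) r) *
            (o (a + ((l - 1 - 0 : ℕ) : ZMod n)) : ℝ≥0∞) ^ 2)) := by
  have hdis : Disjoint ((fun k : ℕ => a + (k : ZMod n)) '' Set.Iio r)
      ((fun k : ℕ => a + ((l - 1 - k : ℕ) : ZMod n)) '' Set.Iio r) := by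
    rw [Set.disjoint_left]
    rintro _ ⟨i, hi, rfl⟩ ⟨j, hj, h⟩
    have hi' : i < r := hi
    have hj' : j < r := hj
    have := chordp_inj a hln (by omega : l - 1 - j < l) (by omega : i < l) h
    omega
  rw [Ex_indep tsum_w2 hdis]
  · gcongr
    rw [two_mul]
    nth_rewrite 1 [← Ex_l1]
    nth_rewrite 1 [← Ex_l2]
    rw [← Ex_add]
    refine Ex_mono fun ω => le_trans (chordp_mul_le _ _) (le_of_eq ?_)
    rw [mul_pow, mul_pow, sq (ind _), sq (ind _), ← ind_and, ← ind_and, and_self, and_self]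
  · intro x y h
    have h' : ∀ j < r, x (a + (j : ZMod n)) = y (a + (j : ZMod n)) :=
      fun j hj => h _ ⟨j, hj, rfl⟩
    refine ind_congr ⟨fun c => ⟨?_, ?_⟩, fun c => ⟨?_, ?_⟩⟩
    · exact chordp_Fwd_congr (fun j hj => congrArg l1 (h' j hj)) c.1
    · exact chordp_Fwd_congr (fun j hj => congrArg l2 (h' j hj)) c.2
    · exact chordp_Fwd_congr (fun j hj => congrArg l1 (h' j hj).symm) c.1
    · exact chordp_Fwd_congr (fun j hj => congrArg l2 (h' j hj).symm) c.2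
  · intro x y h
    have h' : ∀ j < r, x (a + ((l - 1 - j : ℕ) : ZMod n)) = y (a + ((l - 1 - j : ℕ) : ZMod n)) :=
      fun j hj => h _ ⟨j, hj, rfl⟩
    have hb : ∀ φ : Om → ℕ, ind (BackW 0 (fun k => φ (x (a + ((l - 1 - k : ℕ) : ZMod n)))) r) =
        ind (BackW 0 (fun k => φ (y (a + ((l - 1 - k : ℕ) : ZMod n)))) r) := fun φ =>
      ind_congr ⟨chordp_Back_congr fun j hj => congrArg φ (h' j hj),
        chordp_Back_congr fun j hj => congrArg φ (h' j hj).symm⟩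
    beta_reduce
    rw [hb l1, hb l2, h' 0 hr]

theorem chordp_pr_nonneg {n : ℕ} [NeZero n] (b : ZMod n → Bool) (N : ℕ)
    (X : (ZMod n → ℕ) → Prop) : 0 ≤ pr b N X := by
  unfold pr; positivity

theorem chordp_conv {n : ℕ} [NeZero n] (N : ℕ) (X : (ZMod n → ℕ) → Prop) (c : ℝ) (hc : 0 ≤ c)
    (h : Ex w2 (fun ω : ZMod n → Om => ind (∑ i, l1 (ω i) = N ∧ X (fun i => l1 (ω i))) *
        ind (∑ i, l2 (ω i) = N ∧ X (fun i => l2 (ω i)))) ≤ ENNReal.ofReal c) :
    ∑ b : ZMod n → Bool, pr b N X ^ 2 ≤ 2 ^ n * c := by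
  have h1 := Ex_w2_eq (ι := ZMod n) (fun o => ind (∑ i, o i = N ∧ X o))
    (fun o => ind (∑ i, o i = N ∧ X o))
  simp only [qE_slice, ZMod.card] at h1
  rw [h1] at h
  have h2 : ∑ b : ZMod n → Bool, ENNReal.ofReal (pr b N X) * ENNReal.ofReal (pr b N X) =
      ENNReal.ofReal (∑ b : ZMod n → Bool, pr b N X ^ 2) := by
    rw [ENNReal.ofReal_sum_of_nonneg (fun b _ => sq_nonneg _)]
    exact Finset.sum_congr rfl fun b _ => by
      rw [← ENNReal.ofReal_mul (chordp_pr_nonneg b N X), sq]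
  have h3 : (2⁻¹ : ℝ≥0∞) ^ n = ENNReal.ofReal ((2⁻¹ : ℝ) ^ n) := by
    rw [ENNReal.ofReal_pow (by norm_num), ENNReal.ofReal_inv_of_pos (by norm_num),
      ENNReal.ofReal_ofNat]
  rw [h2, h3, ← ENNReal.ofReal_mul (by positivity), ENNReal.ofReal_le_ofReal_iff hc] at h
  have h4 : (2 : ℝ) ^ n * (2⁻¹ : ℝ) ^ n = 1 := by rw [← mul_pow]; norm_num
  calc _ = (2 : ℝ) ^ n * ((2⁻¹ : ℝ) ^ n * ∑ b : ZMod n → Bool, pr b N X ^ 2) := by
        rw [← mul_assoc, h4, one_mul]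
    _ ≤ _ := by gcongr

/-- D2: `Ex_w2_eq` and `qE_slice`; splice on the complement of the interval (`Ex2_sum_le`), then
on its middle half; front `fwd2_le`, tail `2 a b ≤ a^2 + b^2` with `back_sq_le`, `Ex_l1`, `Ex_l2`. -/
theorem o1 (δ : ℝ) (hδ : 0 < δ) : ∃ l0 : ℕ, ∀ (n : ℕ) [NeZero n] (N : ℕ) (a : ZMod n) (l : ℕ),
    l0 ≤ l → l ≤ n → ∑ b : ZMod n → Bool, pr b N (Cd a l) ^ 2 ≤
      2 ^ n * (δ / ((l : ℝ) ^ 2 * ((n : ℝ) - l + 1))) := by
  obtain ⟨K, hK, hb⟩ := back_sq_le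
  obtain ⟨r0, hf⟩ := fwd2_le (δ / (128 * K)) (by positivity)
  refine ⟨4 * r0 + 4, fun n _ N a l hl hln => ?_⟩
  set r := l / 4 with hr0
  have hr : 1 ≤ r := by omega
  have hrl : 2 * r ≤ l := by omega
  have hnl : (0 : ℝ) < (n : ℝ) - l + 1 := by
    have : (l : ℝ) ≤ n := by exact_mod_cast hln
    linarith
  have hl0 : (0 : ℝ) < l := by exact_mod_cast (by omega : 0 < l)
  have hrp : (0 : ℝ) < r := by exact_mod_cast hr
  have h4r : 4 * (r : ℝ) ≤ l := by exact_mod_cast (by omega : 4 * r ≤ l)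
  have h8r : (l : ℝ) ≤ 8 * r := by exact_mod_cast (by omega : l ≤ 8 * r)
  have hm : (0 : ℝ) < (l : ℝ) - 2 * r + 1 := by linarith
  have hsq : (0 : ℝ) < √(r : ℝ) := Real.sqrt_pos.2 hrp
  refine chordp_conv N (Cd a l) _ (by positivity) ?_
  have hF := hf (ZMod n) (fun k : ℕ => a + (k : ZMod n)) r (by omega) (fun i hi j hj h =>
    chordp_inj a hln (lt_of_lt_of_le hi (by omega)) (lt_of_lt_of_le hj (by omega)) h)
  have hB := hb (ZMod n) (fun k : ℕ => a + ((l - 1 - k : ℕ) : ZMod n)) r hr (fun i hi j hj h => by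
    have hi' : i < r := hi
    have hj' : j < r := hj
    have := chordp_inj a hln (by omega : l - 1 - i < l) (by omega : l - 1 - j < l) h
    omega)
  calc _ ≤ _ := chordp_s1 N a l hln
    _ ≤ _ := mul_le_mul_right (chordp_s2 a l r hln hr hrl) _
    _ ≤ _ := mul_le_mul_right (mul_le_mul_right (chordp_s3 a l r hln hr hrl) _) _
    _ ≤ ENNReal.ofReal (2 / ((n : ℝ) - l + 1)) * (ENNReal.ofReal (2 / ((l : ℝ) - 2 * r + 1)) *
        (ENNReal.ofReal (δ / (128 * K) / √(r : ℝ)) * (2 * ENNReal.ofReal (K / √(r : ℝ))))) := by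
        gcongr
    _ = ENNReal.ofReal (2 / ((n : ℝ) - l + 1) * (2 / ((l : ℝ) - 2 * r + 1) *
        (δ / (128 * K) / √(r : ℝ) * (2 * (K / √(r : ℝ)))))) := by
        rw [ENNReal.ofReal_mul (by positivity), ENNReal.ofReal_mul (by positivity),
          ENNReal.ofReal_mul (by positivity), ENNReal.ofReal_mul (by positivity),
          ENNReal.ofReal_ofNat]
    _ ≤ _ := by
        apply ENNReal.ofReal_le_ofReal
        have hss : √(r : ℝ) * √(r : ℝ) = r := Real.mul_self_sqrt hrp.le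
        have e1 : 2 / ((n : ℝ) - l + 1) * (2 / ((l : ℝ) - 2 * r + 1) *
            (δ / (128 * K) / √(r : ℝ) * (2 * (K / √(r : ℝ))))) =
            δ / (16 * (((l : ℝ) - 2 * r + 1) * (√(r : ℝ) * √(r : ℝ))) * ((n : ℝ) - l + 1)) := by
          field_simp
          ring
        rw [e1, hss]
        have e2 : (l : ℝ) ^ 2 ≤ 16 * (((l : ℝ) - 2 * r + 1) * r) := by
          have a1 : (l : ℝ) ≤ 2 * ((l : ℝ) - 2 * r + 1) := by linarith
          calc (l : ℝ) ^ 2 = l * l := sq _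
            _ ≤ (2 * ((l : ℝ) - 2 * r + 1)) * (8 * r) := by gcongr
            _ = _ := by ring
        gcongr

theorem sum_AA (γ : ℝ) (hγ : 0 < γ) (L2 : ℕ) (δ : ℝ) (hδ : 0 < δ) : ∃ n0 : ℕ,
    ∀ (n : ℕ) [NeZero n], n0 ≤ n → ∀ N L : ℕ, γ * n ≤ L →
      ∑ b : ZMod n → Bool, AA N L L2 b ≤ 2 ^ n * (δ / n) := by
  have hD : (0 : ℝ) < 1 / γ ^ 3 + 4 * ((L2 : ℝ) + 1) := by positivity
  set D : ℝ := 1 / γ ^ 3 + 4 * ((L2 : ℝ) + 1) with hD0
  obtain ⟨l0, h0⟩ := o1 (δ / D) (by positivity)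
  obtain ⟨m, hm⟩ := exists_nat_ge ((l0 : ℝ) / γ)
  refine ⟨m + 2 * L2 + 2 * l0 + 1, fun n _ hn N L hL => ?_⟩
  have hn0 : (0 : ℝ) < n := by exact_mod_cast (by omega : 0 < n)
  have hγn : 0 < γ * n := by positivity
  have hL0 : l0 ≤ L := by
    have a1 : (m : ℝ) ≤ n := by exact_mod_cast (by omega : m ≤ n)
    have a2 : (l0 : ℝ) ≤ γ * n := by
      rw [div_le_iff₀ hγ] at hm
      nlinarith
    exact_mod_cast a2.trans hL
  have hL1 : 1 ≤ L := by
    have : (0 : ℝ) < L := lt_of_lt_of_le hγn hL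
    exact_mod_cast this
  have hδD : 0 < δ / D := by positivity
  have t1 : ∀ a : ZMod n, ∑ l ∈ Icc L (n - L), ∑ b : ZMod n → Bool, pr b N (Cd a l) ^ 2 ≤
      n * (2 ^ n * (δ / D / (γ * n) ^ 3)) := by
    intro a
    refine le_trans (Finset.sum_le_card_nsmul _ _ (2 ^ n * (δ / D / (γ * n) ^ 3)) ?_) ?_
    · intro l hl
      obtain ⟨b1, b2⟩ := mem_Icc.1 hl
      refine (h0 n N a l (by omega) (by omega)).trans ?_
      have c1 : γ * n ≤ l := hL.trans (by exact_mod_cast b1)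
      have c2 : γ * n ≤ (n : ℝ) - l + 1 := by
        have : (l : ℝ) + L ≤ n := by exact_mod_cast (by omega : l + L ≤ n)
        linarith
      have c3 : (γ * n) ^ 3 ≤ (l : ℝ) ^ 2 * ((n : ℝ) - l + 1) := by
        rw [pow_succ]; gcongr
      gcongr
    · rw [nsmul_eq_mul, Nat.card_Icc]
      have : ((n - L + 1 - L : ℕ) : ℝ) ≤ n := by exact_mod_cast (by omega : n - L + 1 - L ≤ n)
      gcongr
  have t2 : ∀ a : ZMod n, ∑ l ∈ Icc (n - L2) n, ∑ b : ZMod n → Bool, pr b N (Cd a l) ^ 2 ≤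
      ((L2 : ℝ) + 1) * (2 ^ n * (δ / D / ((n : ℝ) / 2) ^ 2)) := by
    intro a
    refine le_trans (Finset.sum_le_card_nsmul _ _ (2 ^ n * (δ / D / ((n : ℝ) / 2) ^ 2)) ?_) ?_
    · intro l hl
      obtain ⟨b1, b2⟩ := mem_Icc.1 hl
      refine (h0 n N a l (by omega) b2).trans ?_
      have c1 : (n : ℝ) / 2 ≤ l := by
        have : (n : ℝ) ≤ 2 * l := by exact_mod_cast (by omega : n ≤ 2 * l)
        linarith
      have c2 : (1 : ℝ) ≤ (n : ℝ) - l + 1 := by
        have : (l : ℝ) ≤ n := by exact_mod_cast b2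
        linarith
      have c3 : ((n : ℝ) / 2) ^ 2 ≤ (l : ℝ) ^ 2 * ((n : ℝ) - l + 1) := by
        calc ((n : ℝ) / 2) ^ 2 = ((n : ℝ) / 2) ^ 2 * 1 := (mul_one _).symm
          _ ≤ _ := by gcongr
      gcongr
    · rw [nsmul_eq_mul, Nat.card_Icc]
      have : ((n + 1 - (n - L2) : ℕ) : ℝ) ≤ (L2 : ℝ) + 1 := by
        exact_mod_cast (by omega : n + 1 - (n - L2) ≤ L2 + 1)
      gcongr
  calc ∑ b : ZMod n → Bool, AA N L L2 b
      = ∑ a : ZMod n, ∑ l ∈ Icc L (n - L) ∪ Icc (n - L2) n,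
          ∑ b : ZMod n → Bool, pr b N (Cd a l) ^ 2 := by
        unfold AA
        rw [Finset.sum_comm]
        exact Finset.sum_congr rfl fun a _ => Finset.sum_comm
    _ ≤ ∑ _a : ZMod n, (n * (2 ^ n * (δ / D / (γ * n) ^ 3)) +
          ((L2 : ℝ) + 1) * (2 ^ n * (δ / D / ((n : ℝ) / 2) ^ 2))) := by
        refine Finset.sum_le_sum fun a _ => le_trans ?_ (add_le_add (t1 a) (t2 a))
        rw [← Finset.sum_union_inter]
        exact le_add_of_nonneg_right
          (Finset.sum_nonneg fun l _ => Finset.sum_nonneg fun b _ => sq_nonneg _)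
    _ = 2 ^ n * (δ / D * (1 / γ ^ 3 + 4 * ((L2 : ℝ) + 1)) / n) := by
        rw [Finset.sum_const, card_univ, ZMod.card, nsmul_eq_mul]
        field_simp
        ring
    _ = _ := by rw [← hD0, div_mul_cancel₀ _ hD.ne']

end Pool.Agent.Lib.MP_04fdae_co.G
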