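import Mathlib
import Pool.Agent.Lib.MP_04fdae_co.G.Defs

/-! Words of triangulations (paper K2, K3). -/

namespace Pool.Agent.Lib.MP_04fdae_co.G

open Finset
open scoped ENNReal

theorem enc_ps (o : ℕ → ℕ) : ∀ v, ps (fun k => o (k + 1)) v = ∑ i ∈ Icc 1 v, o i
  | 0 => rfl
  | v + 1 => by rw [sum_Icc_succ_top (by omega), ← enc_ps o v]; exact sum_range_succ _ _

theorem enc_stk (o : ℕ → ℕ) : ∀ t,
    (0 ∈ stk o t ↔ ∀ k, 1 ≤ k → k ≤ t → ps (fun k => o (k + 1)) k < k) ∧
      (0 ∈ stk o t → rk (stk o t) 0 + ps (fun k => o (k + 1)) t = t)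
  | 0 => ⟨⟨fun _ _ _ _ => by omega, fun _ => top_mem_stk o 0⟩, fun _ => by
      rw [rk_top]; rfl⟩
  | t + 1 => by
    obtain ⟨h1, h2⟩ := enc_stk o t
    have h3 : ps (fun k => o (k + 1)) (t + 1) = ps (fun k => o (k + 1)) t + o (t + 1) :=
      sum_range_succ _ _
    have h4 : 0 ∈ stk o (t + 1) ↔ 0 ∈ stk o t ∧ o (t + 1) ≤ rk (stk o t) 0 := by
      rw [stk, mem_insert, mem_filter]
      exact or_iff_right (by omega)
    have h5 : ∀ S : Finset ℕ, 0 ∈ S → rk S 0 + 1 = S.card := fun S hS => by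
      rw [rk, ← cnt_of_mem hS, cnt, filter_true_of_mem fun _ _ => Nat.zero_le _]
    refine ⟨⟨fun a k t1 t2 => ?_, fun a => ?_⟩, fun a => ?_⟩
    · obtain ⟨b, c⟩ := h4.1 a
      have := h2 b
      by_cases e : k = t + 1
      · subst e; omega
      · exact h1.1 b k t1 (by omega)
    · have b := h1.2 fun k t1 t2 => a k t1 (by omega)
      have := h2 b
      have := a (t + 1) (by omega) le_rfl
      exact h4.2 ⟨b, by omega⟩
    · obtain ⟨b, c⟩ := h4.1 a
      have := h2 b
      have := h5 _ b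
      have := card_filter_le_rk (stk o t) (t := o (t + 1)) (by omega)
      have h6 := h5 _ a
      conv_rhs at h6 => rw [stk, card_insert_of_notMem fun k =>
        succ_not_mem_stk o t (mem_filter.1 k).1]
      omega

/-- K2, linear form: `ch_iff`, `ch_shift`; `0 ∈ stk o t` iff the prefix bounds hold, and then
`rk (stk o t) 0 + ∑ i ∈ Icc 1 t, o i = t` (`card_filter_le_rk`). -/
theorem chW_iff {n : ℕ} {E : ℕ → ℕ → Prop} (h : LinTri n E) (i m : ℕ) (hm : 2 ≤ m) :
    E i (i + m) ↔ ChW (fun k => od E (i + k + 1)) m := by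
  obtain ⟨t, rfl⟩ : ∃ t, m = t + 1 := ⟨m - 1, by omega⟩
  have h1 := ch_shift (od E) i t 0
  have h2 := enc_stk (fun k => od E (i + k)) t
  rw [h.ch_iff] at h1
  have h3 : ps (fun k => od E (i + k + 1)) (t + 1) =
      ps (fun k => od E (i + k + 1)) t + od E (i + (t + 1)) := sum_range_succ _ _
  refine h1.symm.trans ⟨fun ⟨a, _, c⟩ => ⟨fun k t1 t2 => h2.1.1 a k t1 (by omega), ?_⟩,
    fun ⟨a, b⟩ => ?_⟩
  · have : _ + ps (fun k => od E (i + k + 1)) t = _ := h2.2 a
    beta_reduce at c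
    omega
  · have a' := h2.1.2 fun k t1 t2 => a k t1 (by omega)
    have : _ + ps (fun k => od E (i + k + 1)) t = _ := h2.2 a'
    exact ⟨a', by omega, by beta_reduce; omega⟩

variable {n : ℕ} [NeZero n] {T : Tri n}

theorem enc_val (r : ZMod n) (i : ℕ) : (r + (i : ZMod n)).val = (i + r.val) % n := by
  rw [ZMod.val_add, ZMod.val_natCast, Nat.add_mod_mod, add_comm]

theorem enc_names (T : Tri n) (a : ZMod n) {m : ℕ} (hm : 2 ≤ m) (hmn : m + 2 ≤ n) :
    Dg T a m ↔ ∃ d ∈ T, Names d a m := by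
  simp only [Dg, ER, Names, enc_val, zero_add, Nat.mod_eq_of_lt a.val_lt]
  exact ⟨fun ⟨_, _, c⟩ => (c.resolve_left (by omega)).imp fun _ k => ⟨k.1, k.2.imp_right And.symm⟩,
    fun c => ⟨by omega, by omega, .inr (c.imp fun _ k => ⟨k.1, k.2.imp_right And.symm⟩)⟩⟩

omit [NeZero n] in
theorem enc_compl (d : Fin n × Fin n) (a : ZMod n) {m : ℕ} (hm : m ≤ n) :
    Names d (a + (m : ZMod n)) (n - m) ↔ Names d a m := by
  rw [Names, Names, add_assoc, ← Nat.cast_add, Nat.add_sub_cancel' hm, ZMod.natCast_self, add_zero]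
  tauto

theorem er_shift (T : Tri n) (r : ZMod n) (i j : ℕ) (hij : i < j) (hj : j < n) :
    ER T r.val i j ↔ Dg T (r + (i : ZMod n)) (j - i) := by
  rw [Dg, ER, ER, enc_val, Nat.add_mod_mod, Nat.add_mod_mod, zero_add,
    show j - i + (i + r.val) = j + r.val by omega]
  have h1 : i = 0 ∧ j = n - 1 ↔ 0 = 0 ∧ j - i = n - 1 := by omega
  have h2 : 0 < j - i ∧ j - i < n := by omega
  exact ⟨fun c => ⟨h2.1, h2.2, c.2.2.imp_left h1.1⟩, fun c => ⟨hij, hj, c.2.2.imp_left h1.2⟩⟩

theorem dg_iff (hn : 3 ≤ n) (hT : IsTriangulation T) (r : ZMod n) (i m : ℕ) (hm : 2 ≤ m)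
    (him : i + m < n) : Dg T (r + (i : ZMod n)) m ↔ ChW (fun k => lw T r (i + k)) m := by
  have h1 := er_shift T r i (i + m) (by omega) him
  rw [Nat.add_sub_cancel_left] at h1
  exact h1.symm.trans (chW_iff (linTri_ER hn r.val_lt hT) i m hm)

theorem dg_compl (T : Tri n) (a : ZMod n) (m : ℕ) (hm : 2 ≤ m) (hmn : m + 2 ≤ n) :
    Dg T a m ↔ Dg T (a + (m : ZMod n)) (n - m) := by
  simp only [enc_names T a hm hmn, enc_names T _ (show 2 ≤ n - m by omega) (by omega),
    enc_compl _ a (show m ≤ n by omega)]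

/-- K3. -/
theorem lw_sub (hn : 3 ≤ n) (hT : IsTriangulation T) (r : ZMod n) (i m : ℕ) (him : i + m < n)
    (h : Dg T (r + (i : ZMod n)) m) (k : ℕ) (hk : k + 1 < m) :
    lw T (r + (i : ZMod n)) k = lw T r (i + k) := by
  have L := linTri_ER hn r.val_lt hT
  have L' := linTri_ER hn (r + (i : ZMod n)).val_lt hT
  have h1 : ER T r.val i (i + m) :=
    (er_shift T r i (i + m) (by omega) him).2 (by rwa [Nat.add_sub_cancel_left])
  have h2 : ∀ u, u < k + 1 →
      (ER T (r + (i : ZMod n)).val u (k + 1) ↔ ER T r.val (i + u) (i + k + 1)) := fun u hu => by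
    rw [er_shift T _ u _ hu (by omega), er_shift T r _ _ (by omega) (by omega), Nat.cast_add,
      add_assoc, show i + k + 1 - (i + u) = k + 1 - u by omega]
  unfold lw od
  refine card_nbij' (fun u => i + u) (fun u => u - i) (fun u hu => ?_) (fun u hu => ?_)
    (fun u _ => Nat.add_sub_cancel_left ..) fun u hu => ?_
  · have := L'.mem_DD.1 hu
    exact L.mem_DD.2 ((h2 u this.1).1 this)
  · have h3 := L.mem_DD.1 hu
    have h4 := L.nc _ _ _ _ h3 h1
    have h5 := h3.1
    refine L'.mem_DD.2 ((h2 (u - i) (by omega)).2 ?_)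
    rwa [show i + (u - i) = u by omega]
  · have h4 := L.nc _ _ _ _ (L.mem_DD.1 hu) h1
    show i + (u - i) = u
    omega

theorem enc_ballot (hn : 3 ≤ n) (hT : IsTriangulation T) (a : ZMod n) {v : ℕ} (hv : 1 ≤ v) :
    ps (lw T a) v + 1 ≤ v :=
  (congrArg (· + 1) (enc_ps _ v)).le.trans ((linTri_ER hn a.val_lt hT).ballot hv)

theorem ps_lw (hn : 3 ≤ n) (hT : IsTriangulation T) (a : ZMod n) (m : ℕ) (h : Dg T a m) :
    ps (lw T a) m + 1 = m := by
  have L := linTri_ER hn a.val_lt hT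
  have h1 := L.diag _ _ h
  have h2 := ((chW_iff L 0 m (by omega)).1 (by rwa [zero_add])).2
  have h3 := enc_ballot hn hT a (v := m) (by omega)
  simp only [zero_add] at h2
  exact le_antisymm h3 h2

theorem mem_iff_dg (hT : IsTriangulation T) {d : Fin n × Fin n} (hd : IsDiag d) {a : ZMod n}
    {m : ℕ} (hm : 2 ≤ m) (hmn : m + 2 ≤ n) (h : Names d a m) : d ∈ T ↔ Dg T a m := by
  rw [enc_names T a hm hmn]
  refine ⟨fun k => ⟨d, k, h⟩, fun ⟨p, k, h'⟩ => ?_⟩
  have h1 := hd.1
  have h2 := (hT.1 p k).1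
  unfold Names at h h'
  rwa [show d = p from Prod.ext (Fin.ext (by omega)) (Fin.ext (by omega))]

theorem exists_name (hT : IsTriangulation T) {x : ZMod n} {l : ℕ} (hl : 2 ≤ l) (hln : l + 2 ≤ n)
    (hx : Dg T x l) {d : Fin n × Fin n} (hd : d ∈ T) :
    ∃ (a : ZMod n) (m : ℕ), 2 ≤ m ∧ m + 2 ≤ n ∧ Names d a m ∧
      ((∃ i : ℕ, a = x + (i : ZMod n) ∧ i + m ≤ l) ∨
        (∃ i : ℕ, a = x + (l : ZMod n) + (i : ZMod n) ∧ i + m + l ≤ n)) := by
  have L := linTri_ER (by omega) x.val_lt hT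
  have hd' := hT.1 d hd
  obtain ⟨k, j, hE, e⟩ := exists_ER x.val_lt hd hd'
  have h1 := L.diag _ _ hE
  have h2 := L.nc _ _ _ _ hx hE
  have h3 : Names d (x + (k : ZMod n)) (j - k) := by
    rw [Names, add_assoc, ← Nat.cast_add, enc_val, enc_val, show k + (j - k) = j by omega]
    exact e.imp_right And.symm
  by_cases c : j ≤ l
  · exact ⟨_, _, by omega, by omega, h3, .inl ⟨k, rfl, by omega⟩⟩
  by_cases c' : l ≤ k
  · exact ⟨_, _, by omega, by omega, h3, .inr ⟨k - l, by
      rw [add_assoc, ← Nat.cast_add, show l + (k - l) = k by omega], by omega⟩⟩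
  obtain rfl : k = 0 := by omega
  have c1 := phi_cases x.val_lt (show 0 < n by omega)
  have c2 := phi_cases x.val_lt h1.2
  unfold IsDiag at hd'
  refine ⟨_, _, by omega, by omega, (enc_compl d _ (by omega)).2 h3, .inr ⟨j - l, ?_, by omega⟩⟩
  rw [add_assoc, add_assoc, ← Nat.cast_add, ← Nat.cast_add, show l + (j - l) = 0 + (j - 0) by omega]

theorem names_eq {d : Fin n × Fin n} {a a' : ZMod n} {m m' : ℕ} (hm : 2 ≤ m) (hmn : m + 2 ≤ n)
    (hm' : 2 ≤ m') (hmn' : m' + 2 ≤ n) (h : Names d a m) (h' : Names d a' m') :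
    (a' = a ∧ m' = m) ∨ (a' = a + (m : ZMod n) ∧ m' = n - m) := by
  have c1 := phi_cases a.val_lt (show m < n by omega)
  have c2 := phi_cases a'.val_lt (show m' < n by omega)
  have c3 := a.val_lt
  have c4 := a'.val_lt
  rw [← (ZMod.val_injective n).eq_iff, ← (ZMod.val_injective n).eq_iff (a := a'), enc_val]
  simp only [Names, enc_val] at h h'
  omega

omit [NeZero n] in
theorem enc_last (hn : 3 ≤ n) (T : Tri n) (r : ZMod n) : lw T r (n - 1) = 0 := by
  have L : ∀ u, u ∉ DD (ER T r.val) (n - 1 + 1) := fun u k => by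
    simp only [DD, mem_filter] at k
    have := k.2.2.1
    omega
  exact card_eq_zero.2 (eq_empty_of_forall_notMem L)

theorem enc_total (hn : 3 ≤ n) (hT : IsTriangulation T) (r : ZMod n) :
    ps (lw T r) n + 2 = n := by
  have h1 := (linTri_ER hn r.val_lt hT).total
  have h2 : ps (lw T r) (n - 1 + 1) = ps (lw T r) (n - 1) + lw T r (n - 1) := sum_range_succ _ _
  have h3 : ps (lw T r) (n - 1) = _ := enc_ps _ _
  rw [enc_last hn, show n - 1 + 1 = n by omega] at h2
  omega

omit [NeZero n] in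
theorem enc_at (T : Tri n) (r : ZMod n) {k : ℕ} (hk : k < n) :
    enc T r (r + (k : ZMod n)) = lw T r k := by
  rw [enc, add_sub_cancel_left, ZMod.val_natCast, Nat.mod_eq_of_lt hk]

theorem enc_mem (hn : 3 ≤ n) (hT : IsTriangulation T) (r : ZMod n) : enc T r ∈ Wd n (n - 2) := by
  refine mem_piAntidiag.2 ⟨?_, fun _ _ => mem_univ _⟩
  have h1 := enc_total hn hT r
  rw [show ∑ i, enc T r i = ps (lw T r) n from sum_nbij' (fun i => (i - r).val)
    (fun k => r + (k : ZMod n)) (fun i _ => mem_range.2 (ZMod.val_lt _)) (fun _ _ => mem_univ _)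
    (fun i _ => by simp) (fun k hk => by
      simp [ZMod.val_natCast, Nat.mod_eq_of_lt (mem_range.1 hk)]) fun _ _ => rfl]
  omega

/-- Cycle lemma: prefix sums from `r` are below the length, and the letter `r - 1` is zero. -/
theorem enc_inj (hn : 3 ≤ n) {T' : Tri n} (hT : IsTriangulation T) (hT' : IsTriangulation T')
    {r r' : ZMod n} (h : enc T r = enc T' r') : T = T' ∧ r = r' := by
  have key : ∀ {T T' : Tri n} {r r' : ZMod n} (d : ℕ), IsTriangulation T → enc T r = enc T' r' →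
      r' = r + (d : ZMod n) → 1 ≤ d → d < n →
      ps (lw T r) d + 1 ≤ d ∧ (2 ≤ d → ps (lw T r) d + 2 ≤ d) := by
    intro T T' r r' d hT h e h1 h2
    refine ⟨enc_ballot hn hT r h1, fun h3 => ?_⟩
    obtain ⟨c, rfl⟩ : ∃ c, d = c + 1 := ⟨d - 1, by omega⟩
    have h4 := enc_ballot hn hT r (v := c) (by omega)
    have h5 : ps (lw T r) (c + 1) = ps (lw T r) c + lw T r c := sum_range_succ _ _
    have h6 := enc_at T' r' (show n - 1 < n by omega)
    rw [enc_last hn, ← h, e, add_assoc, ← Nat.cast_add, show c + 1 + (n - 1) = c + n by omega,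
      Nat.cast_add, ZMod.natCast_self, add_zero, enc_at T r (by omega)] at h6
    omega
  obtain rfl : r = r' := by
    by_contra hne
    obtain ⟨d, hd, e⟩ : ∃ d < n, r' = r + (d : ZMod n) := ⟨(r' - r).val, ZMod.val_lt _, by simp⟩
    have d0 : d ≠ 0 := fun k => hne (by simp [e, k])
    have h1 := key d hT h e (by omega) hd
    have h2 := key (n - d) hT' h.symm (by
      rw [e, add_assoc, ← Nat.cast_add, Nat.add_sub_cancel' hd.le, ZMod.natCast_self, add_zero])
      (by omega) (by omega)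
    have h3 := enc_total hn hT r
    have h4 : ps (lw T r) (d + (n - d)) = ps (lw T r) d + ps (lw T' r') (n - d) := by
      refine (sum_range_add _ _ _).trans (congrArg _ (sum_congr rfl fun k hk => ?_))
      have := mem_range.1 hk
      rw [← enc_at T r (by omega), ← enc_at T' r' (by omega), h, e, Nat.cast_add, add_assoc]
    rw [Nat.add_sub_cancel' hd.le] at h4
    omega
  have L := linTri_ER hn r.val_lt hT
  have L' := linTri_ER hn r.val_lt hT'
  have ho : ∀ i, 1 ≤ i → i ≤ n - 1 → od (ER T r.val) i = od (ER T' r.val) i := fun i h1 h2 => by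
    have := (enc_at T r (show i - 1 < n by omega)).symm.trans
      ((congrFun h _).trans (enc_at T' r (by omega)))
    rwa [lw, lw, show i - 1 + 1 = i by omega] at this
  exact ⟨Subset.antisymm (subset_of_ER r.val_lt hT hT' (L.eq_of_od L' ho))
    (subset_of_ER r.val_lt hT' hT (L'.eq_of_od L fun i a b => (ho i a b).symm)), rfl⟩

end Pool.Agent.Lib.MP_04fdae_co.G
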