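import Mathlib
import Pool.Agent.Lib.MP_04fdae_co.G.Enc

/-! Marks (paper M2, M3, M4). -/

namespace Pool.Agent.Lib.MP_04fdae_co.G

open Finset
open scoped ENNReal

theorem marks_ps_add (o : ℕ → ℕ) (i k : ℕ) :
    ps o (i + k) = ps o i + ps (fun j => o (i + j)) k := sum_range_add _ _ _

theorem marks_ps_succ (o : ℕ → ℕ) (k : ℕ) : ps o (k + 1) = ps o k + o k := sum_range_succ _ _

theorem marks_ps_congr {o o' : ℕ → ℕ} {k : ℕ} (h : ∀ j < k, o j = o' j) : ps o k = ps o' k :=
  sum_congr rfl fun j hj => h j (mem_range.1 hj)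

theorem marks_chW {o o' : ℕ → ℕ} {l : ℕ} (h : ∀ j < l, o j = o' j) (H : ChW o l) : ChW o' l :=
  ⟨fun k h1 h2 => marks_ps_congr (fun j hj => h j (hj.trans h2)) ▸ H.1 k h1 h2,
    marks_ps_congr h ▸ H.2⟩

theorem marks_up_lt {s : ℕ} {w : Win} {k : ℕ} (h : k + w.q + 1 < w.l) : up s w k = w.u k :=
  if_pos h

theorem marks_up_gt {s : ℕ} {w : Win} {k : ℕ} (h : w.l < k + w.q + 1) : up s w k = 1 := by
  rw [up, if_neg (by omega), if_neg (by omega)]

theorem marks_ps_le {s : ℕ} {w : Win} {k : ℕ} (h : k + w.q < w.l) :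
    ps (up s w) k = ps w.u k := marks_ps_congr fun j hj => marks_up_lt (by omega)

theorem marks_ps_u {s q0 : ℕ} {w : Win} (hw : Valid s q0 w) :
    ps w.u (w.l - w.q) + s = w.l + 1 := by
  have h1 := marks_ps_add w.u (w.l - w.q) w.q
  have h2 : ps (fun j => w.u (w.l - w.q + j)) w.q = 0 :=
    sum_eq_zero fun j _ => hw.tail _ (by omega)
  have h3 := hw.qlt
  rw [h2, Nat.sub_add_cancel h3.le] at h1
  have := hw.tot
  omega

theorem marks_ps_gt {s q0 : ℕ} {w : Win} (hs : q0 + 3 ≤ s) (hw : Valid s q0 w) {k : ℕ}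
    (h : w.l ≤ k + w.q) : ps (up s w) k + 1 = k := by
  have h3 := hw.qlt
  have h4 := hw.qle
  obtain ⟨t, ht⟩ : ∃ t, t + w.q + 1 = w.l := ⟨w.l - 1 - w.q, by omega⟩
  induction k, (show t + 1 ≤ k by omega) using Nat.le_induction with
  | base =>
    have h1 := marks_ps_u hw
    rw [show w.l - w.q = t + 1 by omega, marks_ps_succ] at h1
    rw [marks_ps_succ, marks_ps_le (by omega), up, if_neg (by omega), if_pos ht]
    omega
  | succ k hk ih =>
    rw [marks_ps_succ, marks_up_gt (by omega), ih (by omega)]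

theorem up_facts {s q0 : ℕ} {w : Win} (hs : q0 + 3 ≤ s) (hw : Valid s q0 w) :
    ChW (up s w) w.l ∧ ps (up s w) w.l + 1 = w.l ∧ s ≤ w.l := by
  have h1 := marks_ps_gt hs hw (k := w.l) (by omega)
  refine ⟨⟨fun k k1 k2 => ?_, h1.ge⟩, h1, ?_⟩
  · by_cases h : k + w.q < w.l
    · rw [marks_ps_le h]; exact hw.pre k k1 k2
    · have := marks_ps_gt hs hw (k := k) (by omega)
      omega
  · have h2 := marks_ps_u hw
    have h3 := hw.qlt
    have h4 := hw.nz
    rw [show w.l - w.q = w.l - 1 - w.q + 1 by omega, marks_ps_succ] at h2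
    omega

variable {n : ℕ} [NeZero n] {T : Tri n} {s q0 : ℕ} {x : ZMod n} {w : Win}

omit [NeZero n] in
theorem marks_val (x : ZMod n) {j : ℕ} (hj : j < n) : (x + (j : ZMod n) - x).val = j := by
  rw [add_sub_cancel_left, ZMod.val_natCast, Nat.mod_eq_of_lt hj]

omit [NeZero n] in
theorem marks_in (T : Tri n) (x : ZMod n) {j : ℕ} (hj : j < w.l) (hn : j < n) :
    mword T x w (x + (j : ZMod n)) = w.u j := by
  rw [mword, marks_val x hn, if_pos hj]

omit [NeZero n] in
theorem marks_out (T : Tri n) (x : ZMod n) {j : ℕ} (hn : w.l + j < n) :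
    mword T x w (x + (w.l : ZMod n) + (j : ZMod n)) = lw T (x + (w.l : ZMod n)) j := by
  rw [add_assoc, ← Nat.cast_add, mword, marks_val x hn, if_neg (by omega), Nat.add_sub_cancel_left]

theorem marks_sum (x : ZMod n) (f : ZMod n → ℕ) : ∑ i, f i = ps (sh f x) n := by
  refine sum_nbij' (fun i => (i - x).val) (fun k => x + (k : ZMod n)) ?_ ?_ ?_ ?_ ?_
  · exact fun i _ => mem_range.2 (ZMod.val_lt _)
  · exact fun _ _ => mem_univ _
  · intro i _; simp
  · exact fun k hk => marks_val x (mem_range.1 hk)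
  · intro i _; simp [sh]

theorem marks_dg0 (hn : 3 ≤ n) (hT : IsTriangulation T) (r : ZMod n) {m : ℕ} (hm : 2 ≤ m)
    (hmn : m < n) : Dg T r m ↔ ChW (lw T r) m := by
  simpa using dg_iff hn hT r 0 m hm (by omega)

theorem mark_dg (hs : q0 + 3 ≤ s) (hw : Valid s q0 w) (hn : w.l + 2 ≤ n)
    (hT : IsTriangulation T) (hM : Mark s T x w) : Dg T x w.l := by
  obtain ⟨h1, -, h3⟩ := up_facts hs hw
  exact (marks_dg0 (by omega) hT x (by omega) (by omega)).2
    (marks_chW (fun j hj => (hM j hj).symm) h1)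

theorem marks_dg' (hs : q0 + 3 ≤ s) (hw : Valid s q0 w) (hn : w.l + 2 ≤ n)
    (hT : IsTriangulation T) (hM : Mark s T x w) : Dg T (x + (w.l : ZMod n)) (n - w.l) :=
  (dg_compl T x w.l (by have := (up_facts hs hw).2.2; omega) hn).1 (mark_dg hs hw hn hT hM)

theorem marks_ps_out (hs : q0 + 3 ≤ s) (hw : Valid s q0 w) (hn : w.l + 2 ≤ n)
    (hT : IsTriangulation T) (hM : Mark s T x w) :
    ps (sh (mword T x w) (x + (w.l : ZMod n))) (n - w.l) + 1 = n - w.l := by
  have h3 := (up_facts hs hw).2.2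
  have h4 : ps (sh (mword T x w) (x + (w.l : ZMod n))) (n - w.l) =
      ps (lw T (x + (w.l : ZMod n))) (n - w.l) :=
    marks_ps_congr fun j hj => marks_out T x (by omega)
  rw [h4]
  exact ps_lw (by omega) hT _ _ (marks_dg' hs hw hn hT hM)

theorem mword_mem (hs : q0 + 3 ≤ s) (hw : Valid s q0 w) (hn : w.l + 2 ≤ n)
    (hT : IsTriangulation T) (hM : Mark s T x w) : mword T x w ∈ Wd n (n - s) := by
  have h1 := marks_ps_out hs hw hn hT hM
  have h2 := marks_ps_add (sh (mword T x w) x) w.l (n - w.l)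
  have h3 : ps (sh (mword T x w) x) w.l = ps w.u w.l :=
    marks_ps_congr fun j hj => marks_in T x hj (by omega)
  have h4 : (fun j => sh (mword T x w) x (w.l + j)) = sh (mword T x w) (x + (w.l : ZMod n)) :=
    funext fun j => by simp only [sh, Nat.cast_add, add_assoc]
  have h5 := hw.tot
  rw [h3, h4, Nat.add_sub_cancel' (by omega)] at h2
  refine mem_piAntidiag.2 ⟨?_, fun _ _ => mem_univ _⟩
  rw [show univ.sum (mword T x w) = _ from marks_sum x (mword T x w)]
  omega

theorem m2 (hs : q0 + 3 ≤ s) (hw : Valid s q0 w) (hn : w.l + 2 ≤ n)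
    (hT : IsTriangulation T) (hM : Mark s T x w) :
    Cd (x + (w.l : ZMod n)) (n - w.l) (mword T x w) := by
  have h3 := (up_facts hs hw).2.2
  exact marks_chW (fun j hj => (marks_out T x (by omega)).symm)
    ((marks_dg0 (by omega) hT _ (by omega) (by omega)).1 (marks_dg' hs hw hn hT hM))

/-- M3.  With `t = l - 1 - q` and last letter `e = i + m - 1`: `e ≤ t` is type In; `e > t`,
`i = 0` is type Ex; `e > t`, `i > 0` contradicts the prefix bound at `k = t - i + 1`. -/
theorem m3 (hs : q0 + 3 ≤ s) (hw : Valid s q0 w) (hn : w.l + 2 ≤ n)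
    (hT : IsTriangulation T) (hM : Mark s T x w) {d : Fin n × Fin n} (hd : d ∈ T) :
    ∃ (a : ZMod n) (m : ℕ), 2 ≤ m ∧ m + 2 ≤ n ∧ Names d a m ∧ Typ q0 (mword T x w) x w.l a m := by
  have h3 := (up_facts hs hw).2.2
  have h4 := hw.qlt
  have h5 := hw.qle
  obtain ⟨a, m, m1, m2, hN, hc⟩ := exists_name hT (by omega) hn (mark_dg hs hw hn hT hM) hd
  have hD := (mem_iff_dg hT (hT.1 d hd) m1 m2 hN).1 hd
  refine ⟨a, m, m1, m2, hN, ?_⟩
  rcases hc with ⟨i, rfl, hi⟩ | ⟨i, rfl, hi⟩
  · have H : ChW (fun k => up s w (i + k)) m := marks_chW (fun j hj => hM _ (by omega))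
      ((dg_iff (by omega) hT x i m m1 (by omega)).1 hD)
    have H1 : up s w i = 0 := by simpa [ps] using H.1 1 le_rfl (by omega)
    by_cases he : i + m + w.q ≤ w.l
    · refine Or.inr (Or.inl ⟨i, rfl, hi, ?_, ?_⟩)
      · rw [marks_in T x (by omega) (by omega), ← marks_up_lt (s := s) (by omega), H1]
      · rw [add_assoc, ← Nat.cast_add, marks_in T x (by omega) (by omega)]
        rcases he.eq_or_lt with he | he
        · rw [show i + (m - 1) = w.l - 1 - w.q by omega]; exact hw.nz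
        · have a1 := H.1 (m - 1) (by omega) (by omega)
          have a2 := H.2
          have a3 := marks_ps_succ (fun k => up s w (i + k)) (m - 1)
          rw [Nat.sub_add_cancel (by omega), marks_up_lt (by omega)] at a3
          omega
    · rcases Nat.eq_zero_or_pos i with rfl | hi0
      · exact Or.inr (Or.inr ⟨by simp, by omega, by omega⟩)
      · exfalso
        by_cases hit : i + w.q < w.l
        · have a1 := H.1 (w.l - w.q - i) (by omega) (by omega)
          have a2 := marks_ps_add (up s w) i (w.l - w.q - i)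
          have a3 := marks_ps_gt hs hw (k := i + (w.l - w.q - i)) (by omega)
          have a4 := hw.pre i hi0 (by omega)
          rw [marks_ps_le hit] at a2
          omega
        · rw [marks_up_gt (by omega)] at H1; omega
  · refine Or.inl ⟨i, rfl, hi, marks_chW (fun j hj => ?_)
      ((dg_iff (by omega) hT _ i m m1 (by omega)).1 hD)⟩
    rw [sh, add_assoc _ (i : ZMod n), ← Nat.cast_add, marks_out T x (by omega)]

/-- prefix sums of the word of a mark, read from the end of the window -/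
theorem marks_pre (hs : q0 + 3 ≤ s) (hw : Valid s q0 w) (hn : w.l + 2 ≤ n)
    (hT : IsTriangulation T) (hM : Mark s T x w) {k : ℕ} (k1 : 1 ≤ k) (k2 : k ≤ n) :
    ps (sh (mword T x w) (x + (w.l : ZMod n))) k < k ∧
      (n - w.l < k → ps (sh (mword T x w) (x + (w.l : ZMod n))) k + 2 ≤ k) := by
  have h1 := marks_ps_out hs hw hn hT hM
  have h2 : n - w.l < k → ps (sh (mword T x w) (x + (w.l : ZMod n))) k + 2 ≤ k := fun h => by
    obtain ⟨j, rfl⟩ : ∃ j, k = n - w.l + j := ⟨k - (n - w.l), by omega⟩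
    have a1 : ps (fun i => sh (mword T x w) (x + (w.l : ZMod n)) (n - w.l + i)) j = ps w.u j :=
      marks_ps_congr fun i hi => by
        rw [sh, add_assoc, ← Nat.cast_add, show w.l + (n - w.l + i) = n + i by omega,
          Nat.cast_add, ZMod.natCast_self, zero_add, marks_in T x (by omega) (by omega)]
    have a2 : ps w.u j < j := by
      rcases (show j ≤ w.l by omega).eq_or_lt with rfl | hj
      · have := hw.tot; omega
      · exact hw.pre j (by omega) hj
    rw [marks_ps_add, a1]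
    omega
  refine ⟨?_, h2⟩
  rcases lt_trichotomy k (n - w.l) with h | h | h
  · exact (m2 hs hw hn hT hM).1 k k1 h
  · rw [h]; omega
  · have := h2 h; omega

theorem marks_far {T' : Tri n} {x' : ZMod n} {w' : Win} (hs : q0 + 3 ≤ s) (hw : Valid s q0 w)
    (hw' : Valid s q0 w') (hn : w.l + 2 ≤ n) (hn' : w'.l + 2 ≤ n) (hT : IsTriangulation T)
    (hT' : IsTriangulation T') (hM : Mark s T x w) (hM' : Mark s T' x' w')
    (h : mword T x w = mword T' x' w') {d : ℕ} (d1 : 1 ≤ d)
    (hd : x' + (w'.l : ZMod n) = x + (w.l : ZMod n) + (d : ZMod n)) : n - w.l ≤ d := by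
  by_contra hc
  have a1 := marks_ps_out hs hw hn hT hM
  have a2 := marks_ps_add (sh (mword T x w) (x + (w.l : ZMod n))) d (n - w.l - d)
  have a3 := (marks_pre hs hw hn hT hM d1 (by omega)).1
  have a4 := (marks_pre hs hw' hn' hT' hM' (k := n - w.l - d) (by omega) (by omega)).1
  have a5 : (fun j => sh (mword T x w) (x + (w.l : ZMod n)) (d + j)) =
      sh (mword T' x' w') (x' + (w'.l : ZMod n)) :=
    funext fun j => by rw [sh, sh, hd, h, Nat.cast_add, add_assoc _ (d : ZMod n)]
  rw [a5, Nat.add_sub_cancel' (by omega)] at a2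
  omega

theorem marks_sub {T' : Tri n} (hs : q0 + 3 ≤ s) (hw : Valid s q0 w) (hn : w.l + 2 ≤ n)
    (hT : IsTriangulation T) (hT' : IsTriangulation T') (hM : Mark s T x w)
    (hM' : Mark s T' x w) (h : mword T x w = mword T' x w) : T ⊆ T' := fun d hd => by
  have h3 := (up_facts hs hw).2.2
  obtain ⟨a, m, m1, m2, hN, hc⟩ := exists_name hT (by omega) hn (mark_dg hs hw hn hT hM) hd
  have hD := (mem_iff_dg hT (hT.1 d hd) m1 m2 hN).1 hd
  refine (mem_iff_dg hT' (hT.1 d hd) m1 m2 hN).2 ?_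
  rcases hc with ⟨i, rfl, hi⟩ | ⟨i, rfl, hi⟩
  · exact (dg_iff (by omega) hT' x i m m1 (by omega)).2 (marks_chW
      (fun j hj => (hM _ (by omega)).trans (hM' _ (by omega)).symm)
      ((dg_iff (by omega) hT x i m m1 (by omega)).1 hD))
  · refine (dg_iff (by omega) hT' _ i m m1 (by omega)).2 (marks_chW (fun j hj => ?_)
      ((dg_iff (by omega) hT _ i m m1 (by omega)).1 hD))
    rw [← marks_out T x (by omega), ← marks_out T' x (by omega), h]

/-- M4.  From `a = x + l` all prefix sums `ps k < k` for `1 ≤ k ≤ n`, and `ps (n-l) + 1 = n - l`;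
two different `a` force `n ≤ l + l'`. -/
theorem m4 {T' : Tri n} {x' : ZMod n} {w' : Win} (hs : q0 + 3 ≤ s) (hw : Valid s q0 w)
    (hw' : Valid s q0 w') (hn : w.l + w'.l < n) (hT : IsTriangulation T)
    (hT' : IsTriangulation T') (hM : Mark s T x w) (hM' : Mark s T' x' w')
    (h : mword T x w = mword T' x' w') : T = T' ∧ x = x' ∧ w = w' := by
  have l1 := (up_facts hs hw).2.2
  have l2 := (up_facts hs hw').2.2
  have n1 : w.l + 2 ≤ n := by omega
  have n2 : w'.l + 2 ≤ n := by omega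
  have ha : x' + (w'.l : ZMod n) = x + (w.l : ZMod n) := by
    obtain ⟨d, hd, e⟩ : ∃ d < n, x' + (w'.l : ZMod n) = x + (w.l : ZMod n) + (d : ZMod n) :=
      ⟨_, ZMod.val_lt (x' + (w'.l : ZMod n) - (x + (w.l : ZMod n))), by simp⟩
    rcases Nat.eq_zero_or_pos d with rfl | d1
    · simpa using e
    · have a1 := marks_far hs hw hw' n1 n2 hT hT' hM hM' h d1 e
      have a2 := marks_far hs hw' hw n2 n1 hT' hT hM' hM h.symm (d := n - d) (by omega) (by
        rw [e, add_assoc _ (d : ZMod n), ← Nat.cast_add, Nat.add_sub_cancel' hd.le,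
          ZMod.natCast_self, add_zero])
      omega
  have hl : w.l = w'.l := by
    have a1 := marks_ps_out hs hw n1 hT hM
    have a2 := marks_ps_out hs hw' n2 hT' hM'
    have a3 := (marks_pre hs hw n1 hT hM (k := n - w'.l) (by omega) (by omega)).2
    have a4 := (marks_pre hs hw' n2 hT' hM' (k := n - w.l) (by omega) (by omega)).2
    rw [ha, ← h] at a2 a4
    omega
  obtain rfl : x' = x := add_right_cancel (ha.trans (by rw [hl]))
  have hu : w.u = w'.u := funext fun j => by
    by_cases hj : j < w.l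
    · rw [← marks_in T x' hj (by omega), h, marks_in T' x' (by omega) (by omega)]
    · rw [hw.tail j (by omega), hw'.tail j (by omega)]
  have hq : w.q = w'.q := by
    have a1 := hw.qlt
    have a2 := hw'.qlt
    have a3 : ¬ w'.l ≤ w.l - 1 - w.q + w'.q := fun c => hw.nz (hu ▸ hw'.tail _ c)
    have a4 : ¬ w.l ≤ w'.l - 1 - w'.q + w.q := fun c => hw'.nz (hu ▸ hw.tail _ c)
    omega
  obtain rfl : w = w' := by
    cases w; cases w'
    simp only at hl hu hq
    rw [hl, hu, hq]
  exact ⟨Subset.antisymm (marks_sub hs hw n1 hT hT' hM hM' h)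
    (marks_sub hs hw n1 hT' hT hM' hM h.symm), rfl, rfl⟩

theorem card_Ft {L2 : ℕ} (hs : q0 + 3 ≤ s) {U : Finset Win}
    (hU : ∀ w ∈ U, Valid s q0 w ∧ w.l ≤ L2) (hn : 2 * L2 < n) {F : Finset (Tri n)}
    (hF : ∀ T ∈ F, IsTriangulation T) : (Ft s U F).card = ∑ T ∈ F, nmark s U T := by
  classical
  unfold Ft nmark
  rw [card_image_of_injOn, card_filter, sum_product]
  · exact sum_congr rfl fun T _ => (card_filter _ _).symm
  · rintro ⟨T, x, w⟩ h ⟨T', x', w'⟩ h' e
    simp only [coe_filter, mem_product, mem_univ, true_and, Set.mem_ofPred_eq] at h h'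
    have a1 := hU w h.1.2
    have a2 := hU w' h'.1.2
    obtain ⟨rfl, rfl, rfl⟩ := m4 hs a1.1 a2.1 (by omega) (hF T h.1.1) (hF T' h'.1.1) h.2 h'.2 e
    rfl

theorem marks_of_pat (hs : q0 + 3 ≤ s) (hw : Valid s q0 w) (hT : IsTriangulation T)
    (r : ZMod n) {i : ℕ} (hi : i + w.l < n) (h : Pat s (enc T r) (r + (i : ZMod n)) w) :
    Mark s T (r + (i : ZMod n)) w := by
  obtain ⟨f1, f2, f3⟩ := up_facts hs hw
  have e : ∀ k < w.l, sh (enc T r) (r + (i : ZMod n)) k = lw T r (i + k) := fun k hk => by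
    rw [sh, add_assoc, ← Nat.cast_add, enc, marks_val r (by omega)]
  obtain ⟨t, ht⟩ : ∃ t, w.l = t + 1 := ⟨w.l - 1, by omega⟩
  have p1 : ∀ k < t, lw T r (i + k) = up s w k := fun k hk =>
    (e k (by omega)).symm.trans (h.1 k (by omega))
  have p2 : up s w t ≤ lw T r (i + t) := by
    have := h.2
    rwa [e _ (by omega), show w.l - 1 = t by omega] at this
  have hD : Dg T (r + (i : ZMod n)) w.l := by
    refine (dg_iff (by omega) hT r i w.l (by omega) hi).2 ⟨fun k k1 k2 => ?_, ?_⟩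
    · rw [marks_ps_congr fun j hj => p1 j (by omega)]; exact f1.1 k k1 k2
    · rw [ht, marks_ps_succ] at f2
      rw [ht, marks_ps_succ, marks_ps_congr p1]
      omega
  have p3 : ∀ k < t, lw T (r + (i : ZMod n)) k = up s w k := fun k hk =>
    (lw_sub (by omega) hT r i w.l hi hD k (by omega)).trans (p1 k hk)
  intro k hk
  rcases (show k ≤ t by omega).eq_or_lt with rfl | hk
  · have a1 := ps_lw (by omega) hT _ _ hD
    rw [ht, marks_ps_succ] at f2
    rw [ht, marks_ps_succ, marks_ps_congr p3] at a1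
    omega
  · exact p3 k hk

/-- A pattern that avoids the root letter is a mark (`dg_iff`, `lw_sub`, `ps_lw`). -/
theorem npat_le {L2 : ℕ} (hs : q0 + 3 ≤ s) {U : Finset Win}
    (hU : ∀ w ∈ U, Valid s q0 w ∧ w.l ≤ L2) (hn : L2 + 2 ≤ n) (hT : IsTriangulation T)
    (r : ZMod n) : npat s U (enc T r) ≤ nmark s U T + L2 * U.card := by
  classical
  have hB : (univ.filter fun x : ZMod n => n ≤ (x - r).val + L2).card ≤ L2 := by
    refine le_trans (card_le_card_of_injOn (t := Ico (n - L2) n) (fun x => (x - r).val)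
      (fun x hx => ?_) fun x _ y _ e => sub_left_injective (ZMod.val_injective n e)) ?_
    · have := (mem_filter.1 hx).2
      exact mem_Ico.2 ⟨by dsimp only; omega, ZMod.val_lt _⟩
    · rw [Nat.card_Ico]; omega
  refine le_trans ?_ (Nat.add_le_add_left (Nat.mul_le_mul_right _ hB) _)
  rw [← card_product]
  refine le_trans (card_le_card fun z hz => ?_) (card_union_le _ _)
  obtain ⟨h1, h2⟩ := mem_filter.1 hz
  have h3 := hU z.2 (mem_product.1 h1).2
  by_cases hc : n ≤ (z.1 - r).val + L2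
  · exact mem_union_right _ (mem_product.2 ⟨mem_filter.2 ⟨mem_univ _, hc⟩, (mem_product.1 h1).2⟩)
  · have e : z.1 = r + ((z.1 - r).val : ZMod n) := by simp
    refine mem_union_left _ (mem_filter.2 ⟨h1, ?_⟩)
    rw [e] at h2 ⊢
    exact marks_of_pat hs h3.1 hT r (by omega) h2

end Pool.Agent.Lib.MP_04fdae_co.G
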