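import Mathlib
import Pool.Agent.Lib.MP_04fdae_co.G.Anti
import Pool.Agent.Lib.MP_04fdae_co.G.Marks

/-! The law of large numbers for marks. -/

namespace Pool.Agent.Lib.MP_04fdae_co.G

open Finset
open scoped ENNReal

theorem lln_rec (y : ℕ) :
    (y + 2) * (2 * (y + 1) + 1).choose (y + 1) = 2 * (2 * y + 3) * (2 * y + 1).choose y := by
  have h : ∀ y, Nat.centralBinom (y + 1) = 2 * (2 * y + 1).choose y := fun y => by
    rw [Nat.centralBinom, show 2 * (y + 1) = 2 * y + 1 + 1 by ring, Nat.choose_succ_succ',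
      Nat.choose_symm_half, two_mul ((2 * y + 1).choose y)]
  have := Nat.succ_mul_centralBinom_succ (y + 1)
  rw [h, h] at this
  nlinarith

theorem lln_rat (y k : ℕ) :
    (2 * (y + k) + 1).choose (y + k) ≤ 4 ^ k * (2 * y + 1).choose y ∧
      4 ^ k * ((y + 1) * (2 * y + 1).choose y) ≤ (y + k + 1) * (2 * (y + k) + 1).choose (y + k) := by
  induction k with
  | zero => simp
  | succ k ih =>
    have h := lln_rec (y + k)
    rw [← add_assoc, pow_succ]
    refine ⟨Nat.le_of_mul_le_mul_left ?_ (show 0 < y + k + 2 by omega), ?_⟩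
    · rw [h]
      nlinarith [ih.1, Nat.zero_le ((2 * (y + k) + 1).choose (y + k))]
    · rw [show y + k + 1 + 1 = y + k + 2 from rfl, h]
      nlinarith [ih.2, Nat.zero_le ((2 * (y + k) + 1).choose (y + k))]

open Classical in
theorem lln_abs {Ω Z : Type} (S : Finset Ω) (A : Finset Z) (I : Z → Ω → Prop) (p : Z → ℝ)
    (B : Z → Z → ℝ) (h0 : ∀ z ∈ A, 0 ≤ p z)
    (h1 : ∀ z ∈ A, p z * S.card ≤ (S.filter (I z)).card)
    (h2 : ∀ z ∈ A, ∀ z' ∈ A,
      ((S.filter fun ω => I z ω ∧ I z' ω).card : ℝ) ≤ (p z * p z' + B z z') * S.card) :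
    ∑ ω ∈ S, (((A.filter fun z => I z ω).card : ℝ) - ∑ z ∈ A, p z) ^ 2 ≤
      (∑ z ∈ A, ∑ z' ∈ A, B z z') * S.card := by
  simp only [card_filter, Nat.cast_sum, Nat.cast_ite, Nat.cast_one, Nat.cast_zero] at h1 h2 ⊢
  simp only [← sum_sub_distrib, sq, sum_mul_sum]
  rw [sum_comm, sum_mul]
  refine sum_le_sum fun z hz => ?_
  rw [sum_comm, sum_mul]
  refine sum_le_sum fun z' hz' => ?_
  have e : ∀ ω, ((if I z ω then (1 : ℝ) else 0) - p z) * ((if I z' ω then 1 else 0) - p z') =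
      (if I z ω ∧ I z' ω then 1 else 0) - p z' * (if I z ω then 1 else 0) -
        p z * (if I z' ω then 1 else 0) + p z * p z' := fun ω => by
    by_cases a : I z ω <;> by_cases b : I z' ω <;> simp [a, b] <;> ring
  simp only [e, sum_add_distrib, sum_sub_distrib, ← mul_sum, sum_const, nsmul_eq_mul]
  nlinarith [h2 z hz z' hz', mul_le_mul_of_nonneg_left (h1 z hz) (h0 z' hz'),
    mul_le_mul_of_nonneg_left (h1 z' hz') (h0 z hz)]

section

variable {n : ℕ} [NeZero n]

omit [NeZero n] in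
theorem lln_pat (s : ℕ) (x : ZMod n) (w : Win) (h1 : 1 ≤ w.l) (h2 : w.l ≤ n) :
    ∃ (P Q : Finset (ZMod n)) (g : ZMod n → ℕ), Disjoint P Q ∧ P.card + 1 = w.l ∧
      ∑ i ∈ P ∪ Q, g i = ps (up s w) w.l ∧ (∀ i ∈ P ∪ Q, ∃ k < w.l, i = x + (k : ZMod n)) ∧
      ∀ ω, Pat s ω x w ↔ (∀ i ∈ P, ω i = g i) ∧ ∀ i ∈ Q, g i ≤ ω i := by
  obtain ⟨m, hm⟩ : ∃ m, w.l = m + 1 := ⟨w.l - 1, by omega⟩
  have v : ∀ k < n, (x + (k : ZMod n) - x).val = k := fun k hk => by
    rw [add_sub_cancel_left, ZMod.val_cast_of_lt hk]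
  have inj : ∀ k < n, ∀ k' < n, x + (k : ZMod n) = x + (k' : ZMod n) → k = k' :=
    fun k hk k' hk' h => by rw [← v k hk, h, v k' hk']
  have io : Set.InjOn (fun k : ℕ => x + (k : ZMod n)) (range m) := fun k hk k' hk' =>
    inj k (by have := mem_range.1 hk; omega) k' (by have := mem_range.1 hk'; omega)
  have d : Disjoint ((range m).image fun k : ℕ => x + (k : ZMod n)) {x + (m : ZMod n)} := by
    rw [disjoint_singleton_right, mem_image]
    rintro ⟨k, hk, h⟩
    have := mem_range.1 hk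
    have := inj k (by omega) m (by omega) h
    omega
  refine ⟨_, _, fun i => up s w (i - x).val, d, by rw [card_image_of_injOn io, card_range, hm],
    ?_, fun i hi => ?_, fun ω => ?_⟩
  · rw [sum_union d, sum_image io, sum_singleton, ps, hm, sum_range_succ, v m (by omega)]
    congr 1
    exact sum_congr rfl fun k hk => by rw [v k (by have := mem_range.1 hk; omega)]
  · rcases mem_union.1 hi with h | h
    · obtain ⟨k, hk, rfl⟩ := mem_image.1 h
      exact ⟨k, by have := mem_range.1 hk; omega, rfl⟩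
    · exact ⟨m, by omega, mem_singleton.1 h⟩
  · simp only [Pat, sh, forall_mem_image, mem_singleton, forall_eq, mem_range, hm,
      Nat.add_sub_cancel, v m (by omega), add_lt_add_iff_right]
    exact and_congr_left' (forall₂_congr fun k hk => by rw [v k (by omega)])

open Classical in
theorem lln_one (s : ℕ) (x : ZMod n) (w : Win) (h : ps (up s w) w.l + 1 = w.l) {y : ℕ}
    (hy : n = y + w.l + 1) :
    ((Wd n (n - 2)).filter fun ω => Pat s ω x w).card = (2 * y + 1).choose y := by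
  obtain ⟨P, Q, g, a1, a2, a3, -, a5⟩ := lln_pat s x w (by omega) (by omega)
  simp only [a5]
  convert card_pat P Q a1 (by omega) g (n - 2) y (by omega) using 2
  omega

open Classical in
theorem lln_two (s : ℕ) (x x' : ZMod n) (w w' : Win) (h : ps (up s w) w.l + 1 = w.l)
    (h' : ps (up s w') w'.l + 1 = w'.l) {y : ℕ} (hy : n = y + w.l + w'.l)
    (hd : ∀ k < w.l, ∀ k' < w'.l, x + (k : ZMod n) ≠ x' + (k' : ZMod n)) :
    ((Wd n (n - 2)).filter fun ω => Pat s ω x w ∧ Pat s ω x' w').card = (2 * y + 1).choose y := by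
  obtain ⟨P, Q, g, a1, a2, a3, a4, a5⟩ := lln_pat s x w (by omega) (by omega)
  obtain ⟨P', Q', g', b1, b2, b3, b4, b5⟩ := lln_pat s x' w' (by omega) (by omega)
  have d : Disjoint (P ∪ Q) (P' ∪ Q') := disjoint_left.2 fun i hi hi' => by
    obtain ⟨k, hk, e⟩ := a4 i hi
    obtain ⟨k', hk', e'⟩ := b4 i hi'
    exact hd k hk k' hk' (e.symm.trans e')
  have e1 : ∀ i ∈ P ∪ Q, (P ∪ Q).piecewise g g' i = g i := fun i hi =>
    piecewise_eq_of_mem _ _ _ hi
  have e2 : ∀ i ∈ P' ∪ Q', (P ∪ Q).piecewise g g' i = g' i := fun i hi =>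
    piecewise_eq_of_notMem _ _ _ (disjoint_right.1 d hi)
  have d' := d
  simp only [disjoint_union_left, disjoint_union_right] at d'
  have c : (P ∪ P').card = P.card + P'.card := card_union_of_disjoint d'.1.1
  convert card_pat (P ∪ P') (Q ∪ Q') (by
    simp only [disjoint_union_left, disjoint_union_right, a1, b1, d'.2.1, d'.1.2.symm, and_self])
    (by omega) ((P ∪ Q).piecewise g g') (n - 2) y (by
      rw [union_union_union_comm, sum_union d, (sum_congr rfl e1).trans a3, (sum_congr rfl e2).trans b3]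
      omega) using 2
  · refine filter_congr fun ω _ => ?_
    rw [a5, b5, forall_mem_union, forall_mem_union, and_and_and_comm]
    exact and_congr (and_congr (forall₂_congr fun i hi => by rw [e1 i (mem_union_left _ hi)])
      (forall₂_congr fun i hi => by rw [e2 i (mem_union_left _ hi)]))
      (and_congr (forall₂_congr fun i hi => by rw [e1 i (mem_union_right _ hi)])
      (forall₂_congr fun i hi => by rw [e2 i (mem_union_right _ hi)]))
  · omega

theorem lln_card {y k : ℕ} (h : n = y + k + 2) :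
    (Wd n (n - 2)).card = (2 * (y + k) + 1).choose (y + k) := by
  rw [card_Wd]
  congr 1 <;> omega

end

/-- With `c t = C(2t-3, t-2)`: one pattern of length `l` is carried by `c (n-l+1)` words, two with
disjoint windows by `c (n-l-l'+2)` (`card_pat`), `c n ≤ 4^k c (n-k) ≤ (1+δ) c n`, and there are
at most `n * 2 L2 * |U|^2` overlapping pairs. -/
theorem lln_var (s L2 : ℕ) (U : Finset Win)
    (hU : ∀ w ∈ U, 2 ≤ w.l ∧ w.l ≤ L2 ∧ ps (up s w) w.l + 1 = w.l) (δ : ℝ) (hδ : 0 < δ) :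
    ∃ n0 : ℕ, ∀ (n : ℕ) [NeZero n], n0 ≤ n →
      ∑ ω ∈ Wd n (n - 2), ((npat s U ω : ℝ) - n * nu U) ^ 2 ≤
        δ * (n : ℝ) ^ 2 * (Wd n (n - 2)).card := by
  classical
  obtain ⟨ε, e0, hε⟩ : ∃ ε : ℝ, 0 < ε ∧ 2 * ε * (U.card : ℝ) ^ 2 ≤ δ :=
    ⟨δ / (2 * (U.card ^ 2 + 1)), by positivity, by
      rw [mul_div_assoc', div_mul_eq_mul_div, div_le_iff₀ (by positivity)]; nlinarith⟩
  obtain ⟨n1, hn1⟩ := exists_nat_ge (2 * (L2 : ℝ) / ε)
  rw [div_le_iff₀ e0] at hn1
  refine ⟨n1 + 2 * L2 + 1, fun n _ hn => ?_⟩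
  let B : ZMod n → Finset (ZMod n) := fun x =>
    (range (2 * L2)).image fun j : ℕ => x - (L2 : ZMod n) + (j : ZMod n)
  have pw : ∀ l : ℕ, 1 ≤ l → (4 : ℝ) / 4 ^ l = (4 ^ (l - 1))⁻¹ := fun l hl => by
    obtain ⟨m, rfl⟩ := Nat.exists_eq_add_of_le' hl
    rw [Nat.add_sub_cancel, pow_succ]
    field_simp
  have key := lln_abs (Wd n (n - 2)) ((univ : Finset (ZMod n)) ×ˢ U) (fun z ω => Pat s ω z.1 z.2)
    (fun z => 4 / 4 ^ z.2.l) (fun z z' => ε + if z'.1 ∈ B z.1 then 1 else 0)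
    (fun z _ => by positivity) (fun z hz => by
      obtain ⟨a1, a2, a3⟩ := hU _ (mem_product.1 hz).2
      obtain ⟨y, hy⟩ : ∃ y, n = y + z.2.l + 1 := ⟨n - z.2.l - 1, by omega⟩
      rw [lln_one s z.1 z.2 a3 hy, lln_card (y := y) (k := z.2.l - 1) (by omega), pw _ (by omega),
        inv_mul_le_iff₀ (by positivity)]
      exact_mod_cast (lln_rat y _).1) fun z hz z' hz' => by
      obtain ⟨a1, a2, a3⟩ := hU _ (mem_product.1 hz).2
      obtain ⟨b1, b2, b3⟩ := hU _ (mem_product.1 hz').2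
      split_ifs with h
      · refine le_trans (Nat.cast_le.2 (card_filter_le _ _)) (le_mul_of_one_le_left
          (Nat.cast_nonneg _) (le_add_of_nonneg_of_le (by positivity) (by linarith)))
      obtain ⟨y, hy⟩ : ∃ y, n = y + z.2.l + z'.2.l := ⟨n - z.2.l - z'.2.l, by omega⟩
      obtain ⟨k, hk⟩ : ∃ k, k = z.2.l - 1 + (z'.2.l - 1) := ⟨_, rfl⟩
      rw [lln_two s z.1 z'.1 z.2 z'.2 a3 b3 hy fun k hk k' hk' e => h (mem_image.2
        ⟨L2 + k - k', mem_range.2 (by omega), by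
          rw [Nat.cast_sub (by omega), Nat.cast_add]; linear_combination e⟩),
        lln_card (y := y) (k := k) (by omega), pw _ (by omega), pw _ (by omega), ← mul_inv,
        ← pow_add, ← hk, add_zero]
      have h1 : (4 : ℝ) ^ k * ((y + 1) * (2 * y + 1).choose y) ≤
          (y + k + 1) * (2 * (y + k) + 1).choose (y + k) := by exact_mod_cast (lln_rat y k).2
      have h2 : (k : ℝ) ≤ 2 * L2 := by exact_mod_cast (by omega : k ≤ 2 * L2)
      have h3 : (n1 : ℝ) ≤ y + 1 := by exact_mod_cast (by omega : n1 ≤ y + 1)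
      have h4 : (1 : ℝ) ≤ 4 ^ k := one_le_pow₀ (by norm_num)
      have h5 : (0 : ℝ) ≤ (2 * (y + k) + 1).choose (y + k) := Nat.cast_nonneg _
      generalize ((2 * (y + k) + 1).choose (y + k) : ℝ) = c at *
      generalize ((2 * y + 1).choose y : ℝ) = a at *
      have h6 : (k : ℝ) ≤ (y + 1) * ε := by nlinarith
      have h7 : 4 ^ k * a ≤ (1 + ε) * c := le_of_mul_le_mul_left (a := (y : ℝ) + 1)
        (by nlinarith [mul_le_mul_of_nonneg_right h6 h5]) (by positivity)
      refine le_of_mul_le_mul_left (h7.trans ?_) (show (0 : ℝ) < 4 ^ k by positivity)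
      rw [← mul_assoc, mul_add, mul_inv_cancel₀ (by positivity)]
      gcongr
      exact le_mul_of_one_le_left e0.le h4
  have e1 : ∑ z ∈ (univ : Finset (ZMod n)) ×ˢ U, (4 : ℝ) / 4 ^ z.2.l = n * nu U := by
    rw [sum_product]
    simp [nu]
  rw [e1] at key
  refine le_trans key (mul_le_mul_of_nonneg_right ?_ (Nat.cast_nonneg _))
  have h1 : ∀ z ∈ (univ : Finset (ZMod n)) ×ˢ U, ∑ z' ∈ (univ : Finset (ZMod n)) ×ˢ U,
      (ε + if z'.1 ∈ B z.1 then (1 : ℝ) else 0) ≤ U.card * (n * ε + 2 * L2) := fun z _ => by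
    have : ((B z.1).card : ℝ) ≤ 2 * L2 := by
      exact_mod_cast card_image_le.trans (card_range _).le
    rw [sum_product_right]
    simp only [sum_add_distrib, sum_const, card_univ, ZMod.card, nsmul_eq_mul, sum_boole,
      filter_mem_eq_inter, univ_inter]
    nlinarith [mul_le_mul_of_nonneg_left this (Nat.cast_nonneg U.card)]
  refine (sum_le_card_nsmul _ _ _ h1).trans ?_
  rw [card_product, card_univ, ZMod.card, nsmul_eq_mul, Nat.cast_mul]
  have h2 : (n1 : ℝ) ≤ n := by exact_mod_cast (by omega : n1 ≤ n)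
  have h3 : 2 * (L2 : ℝ) ≤ n * ε := hn1.trans (by gcongr)
  have h4 : (0 : ℝ) ≤ n := Nat.cast_nonneg _
  calc (n : ℝ) * U.card * (U.card * (n * ε + 2 * L2)) ≤ n * U.card * (U.card * (n * ε + n * ε)) := by
        gcongr
    _ = 2 * ε * U.card ^ 2 * n ^ 2 := by ring
    _ ≤ _ := by gcongr

/-- `enc` maps `F × ZMod n` injectively into `Wd n (n-2)`, Cauchy-Schwarz with `lln_var`,
`npat_le`, `card_Ft`, `choose_eq_catalan`, `choose_shift_le`. -/
theorem lln (s q0 L2 : ℕ) (hs : q0 + 3 ≤ s) (U : Finset Win)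
    (hU : ∀ w ∈ U, Valid s q0 w ∧ w.l ≤ L2) (δ : ℝ) (hδ : 0 < δ) :
    ∃ n0 : ℕ, ∀ (n : ℕ) [NeZero n], n0 ≤ n → ∀ F : Finset (Tri n),
      (∀ T ∈ F, IsTriangulation T) → catalan (n - 2) ≤ 4 * F.card →
      (varpi s U - δ) * F.card * (Wd n (n - s)).card ≤
        ((Ft s U F).card : ℝ) * catalan (n - 2) := by
  classical
  obtain ⟨η, e0, hη⟩ : ∃ η : ℝ, 0 < η ∧ δ = 2 ^ s * η / 4 :=
    ⟨4 * δ / 2 ^ s, by positivity, by field_simp⟩
  obtain ⟨n0, h0⟩ := lln_var s L2 U (fun w hw => by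
    have := up_facts hs (hU w hw).1
    exact ⟨by omega, (hU w hw).2, this.2.1⟩) (η ^ 2 / 8) (by positivity)
  obtain ⟨n1, hn1⟩ := exists_nat_ge ((L2 : ℝ) * U.card / η)
  rw [div_le_iff₀ e0] at hn1
  refine ⟨n0 + n1 + 2 * L2 + s, fun n _ hn F hF hc => ?_⟩
  rcases le_total (varpi s U - δ) 0 with hv | hv
  · exact le_trans (mul_nonpos_of_nonpos_of_nonneg (mul_nonpos_of_nonpos_of_nonneg hv
      (Nat.cast_nonneg _)) (Nat.cast_nonneg _)) (by positivity)
  have n0' : (0 : ℝ) < n := by exact_mod_cast (by omega : 0 < n)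
  have c1 : ((Wd n (n - 2)).card : ℝ) ≤ 2 * n * catalan (n - 2) := by
    rw [card_Wd, choose_eq_catalan n (by omega)]
    exact_mod_cast Nat.mul_le_mul_right _ (Nat.sub_le _ _)
  have c2 : ((Wd n (n - s)).card : ℝ) * 2 ^ s ≤ 4 * (Wd n (n - 2)).card := by
    rw [card_Wd, card_Wd]
    exact_mod_cast choose_shift_le n s (by omega) (by omega)
  have c3 : (catalan (n - 2) : ℝ) ≤ 4 * F.card := by exact_mod_cast hc
  have h1 : ∑ z ∈ F ×ˢ (univ : Finset (ZMod n)), ((npat s U (enc z.1 z.2) : ℝ) - n * nu U) ^ 2 ≤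
      η ^ 2 / 8 * (n : ℝ) ^ 2 * (Wd n (n - 2)).card := by
    refine le_trans ?_ (h0 n (by omega))
    rw [← sum_image (g := fun z : Tri n × ZMod n => enc z.1 z.2)
      (f := fun ω => ((npat s U ω : ℝ) - n * nu U) ^ 2) fun z hz z' hz' h => by
        have := enc_inj (by omega) (hF _ (mem_product.1 hz).1) (hF _ (mem_product.1 hz').1) h
        exact Prod.ext this.1 this.2]
    refine sum_le_sum_of_subset_of_nonneg (fun ω h => ?_) fun _ _ _ => sq_nonneg _
    obtain ⟨z, hz, rfl⟩ := mem_image.1 h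
    exact enc_mem (by omega) (hF _ (mem_product.1 hz).1) _
  have h2 : ∑ z ∈ F ×ˢ (univ : Finset (ZMod n)),
      (2 * (η * n) * (n * nu U - L2 * U.card) - (η * n) ^ 2 - 2 * (η * n) * nmark s U z.1) ≤
      ∑ z ∈ F ×ˢ (univ : Finset (ZMod n)), ((npat s U (enc z.1 z.2) : ℝ) - n * nu U) ^ 2 :=
    sum_le_sum fun z hz => by
      have h : (npat s U (enc z.1 z.2) : ℝ) ≤ nmark s U z.1 + L2 * U.card := by
        exact_mod_cast npat_le hs hU (by omega) (hF _ (mem_product.1 hz).1) z.2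
      nlinarith [sq_nonneg ((npat s U (enc z.1 z.2) : ℝ) - n * nu U + η * n),
        mul_le_mul_of_nonneg_left h (show 0 ≤ η * n by positivity)]
  have h3 : ∑ z ∈ F ×ˢ (univ : Finset (ZMod n)), (nmark s U z.1 : ℝ) = n * (Ft s U F).card := by
    rw [card_Ft hs hU (by omega) hF, sum_product_right]
    simp
  rw [sum_sub_distrib, ← mul_sum, h3, sum_const, card_product, card_univ, ZMod.card, nsmul_eq_mul,
    Nat.cast_mul] at h2
  have h4 : (L2 : ℝ) * U.card ≤ n * η :=
    hn1.trans (mul_le_mul_of_nonneg_right (by exact_mod_cast (by omega : n1 ≤ n)) e0.le)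
  have f0 : (0 : ℝ) ≤ F.card := Nat.cast_nonneg _
  have h5 : (F.card : ℝ) * (n * (nu U - 2 * η)) ≤ (Ft s U F).card := by
    have a1 : ((Wd n (n - 2)).card : ℝ) ≤ 8 * n * F.card := by nlinarith
    have a2 := (h2.trans h1).trans (mul_le_mul_of_nonneg_left a1 (by positivity))
    have a3 := mul_le_mul_of_nonneg_left h4 (show 0 ≤ F.card * n * (2 * (η * n)) by positivity)
    refine le_of_mul_le_mul_left (a := 2 * (η * n) * n) ?_ (by positivity)
    linarith
  have h6 : varpi s U - δ = 2 ^ s * ((nu U - 2 * η) / 8) := by rw [varpi, hη]; ring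
  rw [h6] at hv ⊢
  have h7 : 0 ≤ (nu U - 2 * η) / 8 := le_of_mul_le_mul_left (by rwa [mul_zero]) (show (0 : ℝ) < 2 ^ s by positivity)
  refine le_trans ?_ (mul_le_mul_of_nonneg_right h5 (Nat.cast_nonneg _))
  have h8 := mul_le_mul_of_nonneg_left (c2.trans (mul_le_mul_of_nonneg_left c1 (by norm_num)))
    (mul_nonneg h7 f0)
  linarith

end Pool.Agent.Lib.MP_04fdae_co.G
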