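import Mathlib
import Pool.Agent.Lib.MP_04fdae_co.G.Anti

/-! Markov and the union bound over pairs of words. -/

namespace Pool.Agent.Lib.MP_04fdae_co.G

open Finset
open scoped ENNReal

open Classical in
theorem good_mass {B : Type} [Fintype B] (D φ A A' : B → ℝ) (β η ε c ζ ζ' : ℝ)
    (hD : ∀ b, 0 ≤ D b) (hφ : ∀ b, φ b ≤ D b) (hA : ∀ b, 0 ≤ A b) (hA' : ∀ b, 0 ≤ A' b)
    (hη : 0 ≤ η) (hc : 0 < c) (hζ : 0 < ζ) (hζ' : 0 < ζ')
    (h1 : β * ∑ b, D b ≤ ∑ b, φ b) (h2 : Fintype.card B * c ≤ ε * ∑ b, D b)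
    (h3 : ∑ b, A b ≤ ε * ζ * c * ∑ b, D b) (h4 : ∑ b, A' b ≤ ε * ζ' * ∑ b, D b) :
    (β - η - 3 * ε) * ∑ b, D b ≤
      ∑ b ∈ univ.filter (fun b => η * D b ≤ φ b ∧ c ≤ D b ∧ A b ≤ ζ * D b ^ 2 ∧ A' b ≤ ζ' * D b),
        D b := by
  have key : ∀ b, φ b ≤ (if η * D b ≤ φ b ∧ c ≤ D b ∧ A b ≤ ζ * D b ^ 2 ∧ A' b ≤ ζ' * D b then D b
      else 0) + η * D b + c + A b / (ζ * c) + A' b / ζ' := fun b => by
    have a1 : 0 ≤ η * D b := mul_nonneg hη (hD b)
    have a2 : 0 ≤ A b / (ζ * c) := div_nonneg (hA b) (by positivity)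
    have a3 : 0 ≤ A' b / ζ' := div_nonneg (hA' b) hζ'.le
    have a4 := hφ b
    split_ifs with h
    · linarith
    by_cases c1 : η * D b ≤ φ b
    swap
    · linarith
    by_cases c2 : c ≤ D b
    swap
    · linarith
    by_cases c3 : A b ≤ ζ * D b ^ 2
    · have : D b ≤ A' b / ζ' := by
        rw [le_div_iff₀ hζ']
        linarith [not_le.1 fun c4 => h ⟨c1, c2, c3, c4⟩]
      linarith
    · have : D b ≤ A b / (ζ * c) := by
        rw [le_div_iff₀ (by positivity)]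
        have := mul_le_mul_of_nonneg_left c2 (mul_nonneg hζ.le (hD b))
        nlinarith
      linarith
  have := sum_le_sum fun b (_ : b ∈ univ) => key b
  rw [sum_add_distrib, sum_add_distrib, sum_add_distrib, sum_add_distrib, ← sum_filter, ← mul_sum,
    ← sum_div, ← sum_div, sum_const, card_univ, nsmul_eq_mul] at this
  have a5 : (∑ b, A b) / (ζ * c) ≤ ε * ∑ b, D b := by
    rw [div_le_iff₀ (by positivity)]; linarith
  have a6 : (∑ b, A' b) / ζ' ≤ ε * ∑ b, D b := by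
    rw [div_le_iff₀ hζ']; linarith
  linarith

open Classical in
noncomputable def pairI (p : Prop) : ℝ := if p then 1 else 0

theorem pairI_nonneg (p : Prop) : 0 ≤ pairI p := by
  unfold pairI; split_ifs <;> norm_num

theorem pairI_pos {p : Prop} (h : p) : pairI p = 1 := if_pos h

theorem pair_single {α : Type} {s : Finset α} {f : α → ℝ} (h : ∀ x, 0 ≤ f x) {a : α} (ha : a ∈ s)
    (h1 : 1 ≤ f a) : 1 ≤ ∑ x ∈ s, f x := h1.trans (single_le_sum (fun x _ => h x) ha)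

theorem pair_amgm (p q : ℝ) {t : ℝ} (ht : 0 < t) : p * q ≤ (t * p ^ 2 + q ^ 2 / t) / 2 := by
  have : 0 ≤ (t * p - q) ^ 2 / t := by positivity
  have e : (t * p - q) ^ 2 / t = t * p ^ 2 + q ^ 2 / t - 2 * (p * q) := by field_simp; ring
  linarith

variable {n : ℕ} [NeZero n]

noncomputable def pairW (N : ℕ) (b : ZMod n → Bool) : Finset (ZMod n → ℕ) :=
  (Wd n N).filter fun o => can o = b

theorem pair_pr (b : ZMod n → Bool) (N : ℕ) (X : (ZMod n → ℕ) → Prop) :
    pr b N X = (∑ o ∈ pairW N b, pairI (X o)) / 2 ^ N := by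
  classical
  rw [pr, cw, pairW, sum_filter, card_filter]
  push_cast
  congr 1
  refine sum_congr rfl fun o _ => ?_
  by_cases h : can o = b <;> by_cases h' : X o <;> simp [pairI, h, h']

theorem pair_pr_nonneg (b : ZMod n → Bool) (N : ℕ) (X : (ZMod n → ℕ) → Prop) : 0 ≤ pr b N X := by
  unfold pr; positivity

noncomputable def pairE (N : ℕ) (b b' : ZMod n → Bool)
    (F : (ZMod n → ℕ) → (ZMod n → ℕ) → ℝ) : ℝ :=
  (∑ o ∈ pairW N b, (∑ o' ∈ pairW N b', F o o') / 2 ^ N) / 2 ^ N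

section
variable (N : ℕ) (b b' : ZMod n → Bool)

theorem pairE_mul (X Y : (ZMod n → ℕ) → Prop) :
    pairE N b b' (fun o o' => pairI (X o) * pairI (Y o')) = pr b N X * pr b' N Y := by
  rw [pair_pr, pair_pr, pairE, ← sum_div, ← sum_mul_sum]
  ring

theorem pairE_add (F G : (ZMod n → ℕ) → (ZMod n → ℕ) → ℝ) :
    pairE N b b' (fun o o' => F o o' + G o o') = pairE N b b' F + pairE N b b' G := by
  simp only [pairE, sum_add_distrib, add_div]

theorem pairE_sum {α : Type} (s : Finset α) (F : α → (ZMod n → ℕ) → (ZMod n → ℕ) → ℝ) :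
    pairE N b b' (fun o o' => ∑ x ∈ s, F x o o') = ∑ x ∈ s, pairE N b b' (F x) := by
  classical
  induction s using Finset.induction_on with
  | empty => simp [pairE]
  | insert a s ha ih => simp only [sum_insert ha, pairE_add, ih]

theorem pairE_swap (F : (ZMod n → ℕ) → (ZMod n → ℕ) → ℝ) :
    pairE N b b' F = pairE N b' b fun o' o => F o o' := by
  simp only [pairE, ← sum_div]
  rw [sum_comm]

theorem pairE_mono {F G : (ZMod n → ℕ) → (ZMod n → ℕ) → ℝ}
    (h : ∀ o o', can o = b → can o' = b' → F o o' ≤ G o o') : pairE N b b' F ≤ pairE N b b' G := by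
  unfold pairE
  gcongr with o ho o' ho'
  exact h o o' (mem_filter.1 ho).2 (mem_filter.1 ho').2

theorem pairE_win {L2 s q0 : ℕ} {S : Finset (ZMod n → ℕ)} (xw : (ZMod n → ℕ) → ZMod n)
    {lw' : (ZMod n → ℕ) → ℕ} (hl : ∀ o ∈ S, s ≤ lw' o ∧ lw' o ≤ L2) {κ : ℝ} (hκ0 : 0 ≤ κ)
    (hκ : ∀ (a : ZMod n) (m : ℕ), s ≤ m + q0 → m ≤ L2 → pr b' N (Cd a m) ≤ κ) :
    pairE N b b' (fun o o' => pairI (o ∈ S) * ∑ m ∈ Icc (lw' o - q0) (lw' o), pairI (Cd (xw o) m o'))
      ≤ (q0 + 1) * κ * pr b N fun _ => True := by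
  rw [pair_pr, pairE, ← mul_div_assoc, mul_sum]
  gcongr with o ho
  rw [pairI_pos trivial, mul_one, ← mul_sum, sum_comm, mul_div_assoc, sum_div]
  by_cases h : o ∈ S
  · rw [pairI_pos h, one_mul]
    refine (sum_le_card_nsmul _ _ κ fun m hm => ?_).trans ?_
    · have := hl o h
      have := mem_Icc.1 hm
      rw [← pair_pr]
      exact hκ _ _ (by omega) (by omega)
    · rw [Nat.card_Icc, nsmul_eq_mul]
      exact mul_le_mul_of_nonneg_right (by exact_mod_cast (by omega)) hκ0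
  · rw [pairI, if_neg h, zero_mul]
    positivity

end

theorem pair_shift (f : ZMod n → ℝ) (c : ZMod n) : ∑ a, f (a + c) = ∑ a, f a :=
  Equiv.sum_comp (Equiv.addRight c) f

/-- Cover the pairs `(o, o')` by the six cases; `p p' ≤ (t p^2 + p'^2 / t) / 2`. -/
theorem pair_bound (N L L2 s q0 : ℕ) (S : Finset (ZMod n → ℕ)) (xw : (ZMod n → ℕ) → ZMod n)
    (lw' : (ZMod n → ℕ) → ℕ) (hl : ∀ o ∈ S, s ≤ lw' o ∧ lw' o ≤ L2) (b b' : ZMod n → Bool)
    (hcase : ∀ o ∈ S, ∀ o' ∈ S, can o = b → can o' = b' →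
      Cases L L2 s q0 o (xw o) (lw' o) o' (xw o') (lw' o'))
    (κ : ℝ) (hκ0 : 0 ≤ κ)
    (hκ : ∀ (a : ZMod n) (m : ℕ), s ≤ m + q0 → m ≤ L2 →
      pr b N (Cd a m) ≤ κ ∧ pr b' N (Cd a m) ≤ κ) (t : ℝ) (ht : 0 < t) :
    pr b N (fun o => o ∈ S) * pr b' N (fun o => o ∈ S) ≤
      ((2 * L2 + 1) * (L2 + 1) + 2) * ((t * AA N L L2 b + AA N L L2 b' / t) / 2) +
        (q0 + 1) * κ * (pr b N (fun _ => True) + pr b' N (fun _ => True)) +
        SH N s L b b' + SH N s L b' b := by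
  have I0 := pairI_nonneg
  have key := pairE_mono N b b' (F := fun o o' => pairI (o ∈ S) * pairI (o' ∈ S))
    (G := fun o o' =>
      (∑ i ∈ range (2 * L2 + 1), ∑ m ∈ Icc (n - L2) n, ∑ m' ∈ Icc (n - L2) n, ∑ a : ZMod n,
        pairI (Cd a m o) * pairI (Cd (a + ((i : ZMod n) - (L2 : ZMod n))) m' o')) +
      (∑ m ∈ Icc L (n - L), ∑ a : ZMod n, pairI (Cd a m o) * pairI (Cd a m o')) +
      (∑ m ∈ Icc L (n - L), ∑ a : ZMod n,
        pairI (Cd a m o) * pairI (Cd (a + (m : ZMod n)) (n - m) o')) +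
      (pairI (o ∈ S) * ∑ m ∈ Icc (lw' o - q0) (lw' o), pairI (Cd (xw o) m o')) +
      (pairI (o' ∈ S) * ∑ m ∈ Icc (lw' o' - q0) (lw' o'), pairI (Cd (xw o') m o)) +
      (∑ a : ZMod n, ∑ l ∈ Ico s L, pairI (Cd (a + (l : ZMod n)) (n - l) o) * pairI (Cd a l o')) +
      ∑ a : ZMod n, ∑ l ∈ Ico s L, pairI (Cd a l o) * pairI (Cd (a + (l : ZMod n)) (n - l) o'))
    fun o o' h h' => by
      have I2 : ∀ p q, 0 ≤ pairI p * pairI q := fun p q => mul_nonneg (I0 p) (I0 q)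
      have I1 : ∀ {p q}, p → q → 1 ≤ pairI p * pairI q := fun h h' => by
        rw [pairI_pos h, pairI_pos h', mul_one]
      generalize h1 : (∑ i ∈ range (2 * L2 + 1), ∑ m ∈ Icc (n - L2) n, ∑ m' ∈ Icc (n - L2) n,
        ∑ a : ZMod n, pairI (Cd a m o) * pairI (Cd (a + ((i : ZMod n) - (L2 : ZMod n))) m' o')) = t1
      generalize h2 : (∑ m ∈ Icc L (n - L), ∑ a : ZMod n,
        pairI (Cd a m o) * pairI (Cd a m o')) = t2
      generalize h3 : (∑ m ∈ Icc L (n - L), ∑ a : ZMod n,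
        pairI (Cd a m o) * pairI (Cd (a + (m : ZMod n)) (n - m) o')) = t3
      generalize h4 : (∑ m ∈ Icc (lw' o - q0) (lw' o), pairI (Cd (xw o) m o')) = t4
      generalize h5 : (∑ m ∈ Icc (lw' o' - q0) (lw' o'), pairI (Cd (xw o') m o)) = t5
      generalize h6 : (∑ a : ZMod n, ∑ l ∈ Ico s L,
        pairI (Cd (a + (l : ZMod n)) (n - l) o) * pairI (Cd a l o')) = t6
      generalize h7 : (∑ a : ZMod n, ∑ l ∈ Ico s L,
        pairI (Cd a l o) * pairI (Cd (a + (l : ZMod n)) (n - l) o')) = t7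
      have n1 : 0 ≤ t1 := h1 ▸ sum_nonneg fun _ _ => sum_nonneg fun _ _ => sum_nonneg fun _ _ =>
        sum_nonneg fun _ _ => I2 _ _
      have n2 : 0 ≤ t2 := h2 ▸ sum_nonneg fun _ _ => sum_nonneg fun _ _ => I2 _ _
      have n3 : 0 ≤ t3 := h3 ▸ sum_nonneg fun _ _ => sum_nonneg fun _ _ => I2 _ _
      have n4 : 0 ≤ t4 := h4 ▸ sum_nonneg fun _ _ => I0 _
      have n5 : 0 ≤ t5 := h5 ▸ sum_nonneg fun _ _ => I0 _
      have n6 : 0 ≤ t6 := h6 ▸ sum_nonneg fun _ _ => sum_nonneg fun _ _ => I2 _ _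
      have n7 : 0 ≤ t7 := h7 ▸ sum_nonneg fun _ _ => sum_nonneg fun _ _ => I2 _ _
      by_cases hS : o ∈ S ∧ o' ∈ S
      swap
      · have : pairI (o ∈ S) * pairI (o' ∈ S) = 0 := by
          rcases not_and_or.1 hS with h | h <;> simp [pairI, h]
        have := mul_nonneg (I0 (o ∈ S)) n4
        have := mul_nonneg (I0 (o' ∈ S)) n5
        linarith
      rw [pairI_pos hS.1, pairI_pos hS.2]
      rcases hcase o hS.1 o' hS.2 h h' with ⟨a, a', m, m', i, c1, c2, c3, c4, c5, c6, c7, c8⟩ |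
        ⟨a, m, c1, c2, c3, c4 | c4⟩ | ⟨m, c1, c2, c3⟩ | ⟨m, c1, c2, c3⟩ | ⟨a, m, c1, c2, c3, c4⟩ |
        ⟨a, m, c1, c2, c3, c4⟩
      · have : 1 ≤ t1 := h1 ▸ pair_single (fun _ => sum_nonneg fun _ _ => sum_nonneg fun _ _ =>
          sum_nonneg fun _ _ => I2 _ _) (mem_range.2 (by omega : i < _))
          (pair_single (fun _ => sum_nonneg fun _ _ => sum_nonneg fun _ _ => I2 _ _)
            (mem_Icc.2 ⟨(by omega : _ ≤ m), c2⟩)
            (pair_single (fun _ => sum_nonneg fun _ _ => I2 _ _) (mem_Icc.2 ⟨(by omega : _ ≤ m'), c4⟩)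
              (pair_single (fun _ => I2 _ _) (mem_univ a) (I1 c7 (by
                rwa [show a + ((i : ZMod n) - L2) = a' by linear_combination -c6])))))
        linarith
      · have : 1 ≤ t2 := h2 ▸ pair_single (fun _ => sum_nonneg fun _ _ => I2 _ _)
          (mem_Icc.2 ⟨c1, by omega⟩) (pair_single (fun _ => I2 _ _) (mem_univ a) (I1 c3 c4))
        linarith
      · have : 1 ≤ t3 := h3 ▸ pair_single (fun _ => sum_nonneg fun _ _ => I2 _ _)
          (mem_Icc.2 ⟨c1, by omega⟩) (pair_single (fun _ => I2 _ _) (mem_univ a) (I1 c3 c4))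
        linarith
      · have : 1 ≤ t4 := h4 ▸ pair_single (fun _ => I0 _) (mem_Icc.2 ⟨by omega, c2⟩)
          (pairI_pos c3).ge
        linarith
      · have : 1 ≤ t5 := h5 ▸ pair_single (fun _ => I0 _) (mem_Icc.2 ⟨by omega, c2⟩)
          (pairI_pos c3).ge
        linarith
      · have : 1 ≤ t6 := h6 ▸ pair_single (fun _ => sum_nonneg fun _ _ => I2 _ _) (mem_univ a)
          (pair_single (fun _ => I2 _ _) (mem_Ico.2 ⟨c1, c2⟩) (I1 c3 c4))
        linarith
      · have : 1 ≤ t7 := h7 ▸ pair_single (fun _ => sum_nonneg fun _ _ => I2 _ _) (mem_univ a)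
          (pair_single (fun _ => I2 _ _) (mem_Ico.2 ⟨c1, c2⟩) (I1 c4 c3))
        linarith
  have w1 := pairE_win N b b' xw hl hκ0 fun a m h h' => (hκ a m h h').2
  have w2 := pairE_win N b' b xw hl hκ0 fun a m h h' => (hκ a m h h').1
  rw [pairE_swap] at w2
  simp only [pairE_add, pairE_sum, pairE_mul] at key
  have sub : ∀ (c : ZMod n → Bool) (I : Finset ℕ), I ⊆ Icc L (n - L) ∪ Icc (n - L2) n →
      ∑ m ∈ I, ∑ a : ZMod n, pr c N (Cd a m) ^ 2 ≤ AA N L L2 c := fun c I hI => by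
    rw [AA, sum_comm (s := univ)]
    exact sum_le_sum_of_subset_of_nonneg hI fun _ _ _ => sum_nonneg fun _ _ => sq_nonneg _
  have am : ∀ (m m' : ℕ) (c : ZMod n), ∑ a : ZMod n, pr b N (Cd a m) * pr b' N (Cd (a + c) m') ≤
      (t * ∑ a : ZMod n, pr b N (Cd a m) ^ 2 + (∑ a : ZMod n, pr b' N (Cd a m') ^ 2) / t) / 2 :=
    fun m m' c => by
      rw [← pair_shift (fun a => pr b' N (Cd a m') ^ 2) c, mul_sum, sum_div, ← sum_add_distrib,
        sum_div]
      exact sum_le_sum fun a _ => pair_amgm _ _ ht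
  generalize hX : (t * AA N L L2 b + AA N L L2 b' / t) / 2 = X
  have fin : ∀ {x y : ℝ} {k : ℝ}, 0 ≤ k → x ≤ AA N L L2 b → y ≤ AA N L L2 b' →
      (t * (k * x) + k * y / t) / 2 ≤ k * X := fun hk h h' => by
    rw [← hX]
    refine le_trans (b := (t * (_ * AA N L L2 b) + _ * AA N L L2 b' / t) / 2) (by gcongr)
      (le_of_eq (by ring))
  have t1 : ∑ i ∈ range (2 * L2 + 1), ∑ m ∈ Icc (n - L2) n, ∑ m' ∈ Icc (n - L2) n, ∑ a : ZMod n,
      pr b N (Cd a m) * pr b' N (Cd (a + ((i : ZMod n) - L2)) m') ≤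
      (2 * L2 + 1) * (L2 + 1) * X := by
    refine (sum_le_card_nsmul _ _ ((L2 + 1) * X) fun i _ => ?_).trans
      (le_of_eq (by rw [card_range, nsmul_eq_mul]; push_cast; ring))
    refine (sum_le_sum fun m _ => sum_le_sum fun m' _ => am m m' _).trans ?_
    have hX0 : 0 ≤ X := by
      simpa using fin zero_le_one (sub b ∅ (empty_subset _)) (sub b' ∅ (empty_subset _))
    have hc : ((Icc (n - L2) n).card : ℝ) ≤ L2 + 1 := by
      rw [Nat.card_Icc]; exact_mod_cast (by omega)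
    refine le_trans (le_of_eq ?_) ((fin (Nat.cast_nonneg _) (sub b _ subset_union_right)
      (sub b' _ subset_union_right)).trans (mul_le_mul_of_nonneg_right hc hX0))
    simp only [← sum_div, sum_add_distrib, ← mul_sum, sum_const, nsmul_eq_mul]
  have t2 : ∑ m ∈ Icc L (n - L), ∑ a : ZMod n, pr b N (Cd a m) * pr b' N (Cd a m) ≤ X := by
    refine (sum_le_sum fun m _ => by simpa using am m m 0).trans ?_
    have := fin zero_le_one (sub b _ subset_union_left) (sub b' _ subset_union_left)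
    simpa only [← sum_div, sum_add_distrib, ← mul_sum, one_mul] using this
  have t3 : ∑ m ∈ Icc L (n - L), ∑ a : ZMod n, pr b N (Cd a m) * pr b' N (Cd (a + m) (n - m)) ≤
      X := by
    refine (sum_le_sum fun m _ => am m (n - m) m).trans ?_
    have := fin zero_le_one (sub b _ subset_union_left) (sub b' _ subset_union_left)
    rw [← sum_nbij' (s := Icc L (n - L)) (t := Icc L (n - L))
      (f := fun m => ∑ a : ZMod n, pr b' N (Cd a (n - m)) ^ 2)
      (g := fun m => ∑ a : ZMod n, pr b' N (Cd a m) ^ 2) (fun m => n - m) (fun m => n - m)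
      (fun m h => by simp only [mem_Icc] at h ⊢; omega)
      (fun m h => by simp only [mem_Icc] at h ⊢; omega)
      (fun m h => by simp only [mem_Icc] at h ⊢; omega)
      (fun m h => by simp only [mem_Icc] at h ⊢; omega) fun _ _ => rfl] at this
    simpa only [← sum_div, sum_add_distrib, ← mul_sum, one_mul] using this
  have t7 : SH N s L b' b = ∑ a : ZMod n, ∑ l ∈ Ico s L,
      pr b N (Cd a l) * pr b' N (Cd (a + (l : ZMod n)) (n - l)) := by
    simp only [SH, mul_comm]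
  rw [t7, SH]
  linarith

end Pool.Agent.Lib.MP_04fdae_co.G
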