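import Mathlib
import Pool.Agent.Lib.MP_04fdae_co.G.Surv1

/-! Most words carry a valid window. -/

namespace Pool.Agent.Lib.MP_04fdae_co.G

open Finset
open scoped ENNReal

theorem varpi_ex {ι : Type} [Fintype ι] [DecidableEq ι] (l : ℕ) : ∀ (c : ℕ → ℕ) (e : ℕ → ι),
    Set.InjOn e (Set.Iio l) → Ex gw (fun o : ι → ℕ => ind (∀ k < l, o (e k) = c k)) ≤
      (2⁻¹ : ℝ≥0∞) ^ (ps c l + l) := by
  induction l with
  | zero =>
    exact fun c e _ => (Ex_mono fun _ => ind_le_one _).trans
      ((Ex_const tsum_gw 1).trans (pow_zero _).symm).le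
  | succ l ih =>
    intro c e h
    rw [Ex_update tsum_gw (e 0), tsum_eq_single (c 0) fun v hv => ?_]
    · refine (mul_le_mul_right ((Ex_mono fun o => ind_mono fun a k hk => ?_).trans
        (ih (fun k => c (k + 1)) _ (surv1_inj h).1)) _).trans (le_of_eq ?_)
      · exact (Function.update_of_ne ((surv1_inj h).2 k hk) _ _).symm.trans
          (a (k + 1) (Nat.succ_lt_succ hk))
      · rw [gw, ← pow_add, surv1_ps]
        congr 1
        ring
    · refine mul_eq_zero_of_right _ (le_antisymm ((Ex_mono fun o => (ind_false fun a =>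
        hv ((Function.update_self ..).symm.trans (a 0 l.succ_pos))).le).trans
        (Ex_const tsum_gw 0).le) zero_le)

theorem varpi_fin (s q0 L : ℕ) : {w : Win | Valid s q0 w ∧ w.l ≤ L}.Finite := by
  classical
  refine Set.Finite.of_finite_image (f := fun w => (w.l, w.q, fun i : Fin L => w.u i))
    ((Set.finite_Iic (L, L, fun _ : Fin L => L + 1)).subset ?_) ?_
  · rintro _ ⟨w, ⟨h, hl⟩, rfl⟩
    refine ⟨hl, h.qlt.le.trans hl, fun i => ?_⟩
    change w.u i ≤ L + 1
    obtain a | a := lt_or_ge i.1 w.l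
    · have b : w.u i ≤ ps w.u w.l := single_le_sum (fun _ _ => zero_le) (mem_range.2 a)
      have := h.tot
      omega
    · rw [h.tail i (by omega)]
      exact zero_le
  · rintro ⟨l, q, u⟩ ⟨h, hl⟩ ⟨l', q', u'⟩ ⟨h', hl'⟩ e
    simp only [Prod.mk.injEq] at e hl hl'
    obtain ⟨rfl, rfl, e⟩ := e
    congr 1
    funext i
    obtain a | a := lt_or_ge i L
    · exact congrFun e ⟨i, a⟩
    · exact (h.tail i (by simp only; omega)).trans (h'.tail i (by simp only; omega)).symm

theorem varpi_rev (y : ℕ → ℕ) {l j : ℕ} (h : j ≤ l) :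
    ps (fun i => if i < l then y (l - 1 - i) else 0) j + ps y (l - j) = ps y l := by
  induction j with
  | zero => simp [ps]
  | succ j ih =>
    rw [← ih (by omega), show l - j = l - (j + 1) + 1 by omega]
    simp only [ps, sum_range_succ, if_pos (show j < l from h)]
    rw [show l - 1 - j = l - (j + 1) by omega]
    ring

theorem varpi_win {s q0 L : ℕ} (hs : q0 + 3 ≤ s) {y : ℕ → ℕ} (h : ¬ BackW (s - 2) y L)
    (h' : ¬ ∀ k < q0 + 1, y k = 0) :
    ∃ w, (Valid s q0 w ∧ w.l ≤ L) ∧ ∀ k < w.l, y k = w.u (w.l - 1 - k) := by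
  classical
  have e1 : ∃ k, s - 2 + ps y k < k := by
    by_contra a
    exact h fun k _ _ => not_lt.1 fun b => a ⟨k, b⟩
  have e2 : ∃ k, y k ≠ 0 := by
    by_contra a
    exact h' fun k _ => not_not.1 fun b => a ⟨k, b⟩
  have hl := Nat.find_spec e1
  have hq := Nat.find_spec e2
  have ml : ∀ k < Nat.find e1, k ≤ s - 2 + ps y k := fun k a => not_lt.1 (Nat.find_min e1 a)
  have mq : ∀ k < Nat.find e2, y k = 0 := fun k a => not_not.1 (Nat.find_min e2 a)
  have lL : Nat.find e1 ≤ L := by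
    by_contra a
    exact h fun k _ b => ml k (by omega)
  have q1 : Nat.find e2 ≤ q0 := by
    by_contra a
    exact h' fun k b => mq k (by omega)
  generalize Nat.find e1 = l at *
  generalize Nat.find e2 = q at *
  have tot : ps y l + s = l + 1 := by
    have a := ml (l - 1) (by omega)
    have b : ps y (l - 1) ≤ ps y l := sum_le_sum_of_subset (range_mono (by omega))
    omega
  refine ⟨⟨l, q, fun i => if i < l then y (l - 1 - i) else 0⟩,
    ⟨⟨?_, fun j a b => ?_, q1, by simp only; omega, ?_, fun i a => ?_⟩, lL⟩, fun k a => ?_⟩ <;>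
    simp only at *
  · have := varpi_rev y (le_refl l)
    rw [Nat.sub_self, show ps y 0 = 0 from rfl] at this
    omega
  · have := varpi_rev y b.le
    have := ml (l - j) (by omega)
    omega
  · rwa [if_pos (by omega), show l - 1 - (l - 1 - q) = q by omega]
  · split_ifs
    exacts [mq _ (by omega), rfl]
  · rw [if_pos (by omega), show l - 1 - (l - 1 - k) = k by omega]

theorem varpi_half (n : ℕ) : (2⁻¹ : ℝ≥0∞) ^ n = ENNReal.ofReal (2⁻¹ ^ n) := by
  rw [ENNReal.ofReal_pow (by norm_num), ENNReal.ofReal_inv_of_pos two_pos, ENNReal.ofReal_ofNat]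

/-- Read `y : Fin L2 → ℕ` (the window backward) until `BackW (s - 2)` first fails, at time `l`;
then `l + 1 = s + ps y l`.  `1 ≤ ind (survival) + ind (first q0+1 letters zero) + ∑ w ∈ U,
ind (y starts with the reverse of w.u)`, the last has expectation `2^(s-1) / 4^l`. -/
theorem varpi_ge (δ : ℝ) (hδ : 0 < δ) : ∃ q0 : ℕ, ∀ s : ℕ, q0 + 3 ≤ s →
    ∃ (L2 : ℕ) (U : Finset Win), (∀ w ∈ U, Valid s q0 w ∧ w.l ≤ L2) ∧ 1 - δ ≤ varpi s U := by
  classical
  obtain ⟨q0, hq⟩ := exists_pow_lt_of_lt_one (half_pos hδ) (show (2⁻¹ : ℝ) < 1 by norm_num)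
  refine ⟨q0, fun s hs => ?_⟩
  obtain ⟨L, hL⟩ := exists_nat_ge (max (q0 : ℝ) ((14 * (((s - 2 : ℕ) : ℝ) + 1) / δ) ^ 2))
  have h1 : q0 ≤ L := by exact_mod_cast (le_max_left _ _).trans hL
  have h2 : 7 * (((s - 2 : ℕ) : ℝ) + 1) / √(((L + 1 : ℕ) : ℝ) + 1) ≤ δ / 2 := by
    have : 14 * (((s - 2 : ℕ) : ℝ) + 1) / δ ≤ √(((L + 1 : ℕ) : ℝ) + 1) :=
      Real.le_sqrt_of_sq_le (((le_max_right _ _).trans hL).trans (by push_cast; linarith))
    rw [div_le_iff₀ hδ] at this
    rw [div_le_iff₀ (by positivity)]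
    linarith
  set U := (varpi_fin s q0 (L + 1)).toFinset with hU
  have mU : ∀ w, w ∈ U ↔ Valid s q0 w ∧ w.l ≤ L + 1 := fun w => Set.Finite.mem_toFinset _
  refine ⟨L + 1, U, fun w a => (mU w).1 a, ?_⟩
  have inj : ∀ l ≤ L + 1, Set.InjOn (Fin.ofNat (L + 1)) (Set.Iio l) := fun l a i b j c d => by
    have := congrArg Fin.val d
    rwa [Fin.val_ofNat, Fin.val_ofNat, Nat.mod_eq_of_lt (b.trans_le a),
      Nat.mod_eq_of_lt (c.trans_le a)] at this
  have key : (1 : ℝ≥0∞) ≤ ENNReal.ofReal (δ / 2) + ENNReal.ofReal (δ / 2) +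
      ∑ w ∈ U, ENNReal.ofReal (2 ^ s * (4 / 4 ^ w.l) / 8) := by
    refine (Ex_const (ι := Fin (L + 1)) tsum_gw 1).ge.trans ((Ex_mono (G := fun o =>
      ind (BackW (s - 2) (fun k => o (Fin.ofNat (L + 1) k)) (L + 1)) +
      ind (∀ k < q0 + 1, o (Fin.ofNat (L + 1) k) = 0) +
      ∑ w ∈ U, ind (∀ k < w.l, o (Fin.ofNat (L + 1) k) = w.u (w.l - 1 - k))) fun o => ?_).trans ?_)
    · by_cases a : BackW (s - 2) (fun k => o (Fin.ofNat (L + 1) k)) (L + 1)
      · rw [ind_true a, add_assoc]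
        exact le_self_add
      by_cases b : ∀ k < q0 + 1, o (Fin.ofNat (L + 1) k) = 0
      · rw [ind_true b]
        exact le_add_self.trans le_self_add
      obtain ⟨w, c, d⟩ := varpi_win hs a b
      exact (ind_true d).ge.trans ((single_le_sum (f := fun w : Win => ind (∀ k < w.l,
        o (Fin.ofNat (L + 1) k) = w.u (w.l - 1 - k))) (fun _ _ => zero_le) ((mU w).2 c)).trans
        le_add_self)
    · rw [Ex_add, Ex_add, Ex_sum]
      refine add_le_add (add_le_add ((surv1_back _ _ _ (inj _ le_rfl)).trans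
        (ENNReal.ofReal_le_ofReal h2)) ((varpi_ex _ (fun _ => 0) _ (inj _ (by omega))).trans ?_))
        (sum_le_sum fun w a => (varpi_ex _ _ _ (inj _ ((mU w).1 a).2)).trans (le_of_eq ?_))
      · rw [varpi_half]
        exact ENNReal.ofReal_le_ofReal ((pow_le_pow_of_le_one (by norm_num) (by norm_num)
          (by omega)).trans hq.le)
      · have b : ps (fun k => w.u (w.l - 1 - k)) w.l = ps w.u w.l := sum_range_reflect _ _
        have c : (2 : ℝ) ^ (ps w.u w.l + s) = 2 ^ (w.l + 1) := by rw [((mU w).1 a).1.tot]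
        rw [varpi_half, b, inv_pow, show (4 : ℝ) ^ w.l = 2 ^ w.l * 2 ^ w.l by
          rw [← mul_pow]; norm_num]
        congr 1
        rw [pow_add, pow_succ] at c
        rw [pow_add]
        field_simp
        linarith
  rw [← ENNReal.ofReal_sum_of_nonneg fun _ _ => by positivity,
    ← ENNReal.ofReal_add (by positivity) (by positivity),
    ← ENNReal.ofReal_add (by positivity) (sum_nonneg fun _ _ => by positivity),
    ← ENNReal.ofReal_one, ENNReal.ofReal_le_ofReal_iff
      (add_nonneg (by positivity) (sum_nonneg fun _ _ => by positivity))] at key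
  rw [varpi, nu, mul_sum, sum_div]
  linarith

end Pool.Agent.Lib.MP_04fdae_co.G
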