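import Mathlib
import Pool.Agent.Lib.MP_04fdae_co.G.ChordD
import Pool.Agent.Lib.MP_04fdae_co.G.ChordP
import Pool.Agent.Lib.MP_04fdae_co.G.CT
import Pool.Agent.Lib.MP_04fdae_co.G.Case
import Pool.Agent.Lib.MP_04fdae_co.G.Varpi
import Pool.Agent.Lib.MP_04fdae_co.G.LLN
import Pool.Agent.Lib.MP_04fdae_co.G.Pair

/-! Assembly. -/

namespace Pool.Agent.Lib.MP_04fdae_co.G

open Finset
open scoped ENNReal

theorem main_sqrt (A B : ℝ) (hB : 0 < B) : ∃ t0 : ℕ, ∀ t : ℝ, (t0 : ℝ) ≤ t → A / √t ≤ B := by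
  obtain ⟨t0, ht0⟩ := exists_nat_gt ((A / B) ^ 2)
  refine ⟨t0, fun t ht => ?_⟩
  have h0 : 0 < t := lt_of_le_of_lt (sq_nonneg _) (ht0.trans_le ht)
  have h1 : A / B ≤ √t := Real.le_sqrt_of_sq_le (by linarith)
  rw [div_le_iff₀ (Real.sqrt_pos.mpr h0)]
  rw [div_le_iff₀ hB] at h1
  linarith

section

variable {n : ℕ} [NeZero n]

theorem pr_nonneg (b : ZMod n → Bool) (N : ℕ) (X : (ZMod n → ℕ) → Prop) : 0 ≤ pr b N X := by
  unfold pr; positivity

theorem pr_le_true (b : ZMod n → Bool) (N : ℕ) (X : (ZMod n → ℕ) → Prop) :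
    pr b N X ≤ pr b N (fun _ => True) := by
  classical
  unfold pr cw
  refine div_le_div_of_nonneg_right ?_ (by positivity)
  refine Nat.cast_le.mpr (card_le_card fun o ho => ?_)
  simp only [mem_filter] at ho ⊢
  exact ⟨ho.1, ho.2.1, trivial⟩

theorem main_AA_nonneg (N L L2 : ℕ) (b : ZMod n → Bool) : 0 ≤ AA N L L2 b :=
  sum_nonneg fun _ _ => sum_nonneg fun _ _ => sq_nonneg _

theorem main_A3_nonneg (N s L : ℕ) (b : ZMod n → Bool) : 0 ≤ A3 N s L b :=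
  sum_nonneg fun _ _ => sum_nonneg fun _ _ => mul_nonneg (pr_nonneg _ _ _) ENNReal.toReal_nonneg

theorem main_sum_pr (N : ℕ) (S : Finset (ZMod n → ℕ)) (hS : S ⊆ Wd n N) :
    ∑ b : ZMod n → Bool, pr b N (fun o => o ∈ S) = S.card / 2 ^ N := by
  classical
  unfold pr
  rw [← sum_div, ← Nat.cast_sum, sum_cw]
  congr 3
  ext o
  simp only [mem_filter]
  exact ⟨fun h => h.2, fun h => ⟨hS h, h⟩⟩

theorem main_sum_D (N : ℕ) :
    ∑ b : ZMod n → Bool, pr b N (fun _ => True) = (Wd n N).card / 2 ^ N := by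
  classical
  unfold pr
  rw [← sum_div, ← Nat.cast_sum, sum_cw]
  congr 3
  ext o
  simp only [mem_filter, and_true]

theorem main_SH {N s L : ℕ} (hs : 16 ≤ s) (hL : 8 * L ≤ n) {b b' : ZMod n → Bool}
    (hsep : Sep L b b') (hb : n ≤ 4 * sz b') : SH N s L b b' ≤ 3 * A3 N s L b / √(n : ℝ) := by
  unfold SH A3
  rw [mul_sum, sum_div]
  refine sum_le_sum fun a _ => ?_
  rw [mul_sum, sum_div]
  refine sum_le_sum fun l hl => ?_
  rw [mem_Ico] at hl
  obtain ⟨c, hc⟩ := hsep.noCommon a hl.2.le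
  have h := o3 c b b' N a l (by omega) (by omega) hb hc
  calc _ ≤ pr b N (Cd (a + (l : ZMod n)) (n - l)) * (3 * zz b a l / √(n : ℝ)) :=
        mul_le_mul_of_nonneg_left h (pr_nonneg _ _ _)
    _ = _ := by ring

theorem main_mem_Ft {s : ℕ} {U : Finset Win} {F : Finset (Tri n)} {o : ZMod n → ℕ}
    (ho : o ∈ Ft s U F) :
    ∃ z : Tri n × ZMod n × Win, z.1 ∈ F ∧ z.2.2 ∈ U ∧ Mark s z.1 z.2.1 z.2.2 ∧
      mword z.1 z.2.1 z.2.2 = o := by
  classical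
  unfold Ft at ho
  simp only [mem_image, mem_filter, mem_product, mem_univ, true_and] at ho
  obtain ⟨z, ⟨⟨h1, h2⟩, h3⟩, h4⟩ := ho
  exact ⟨z, h1, h2, h3, h4⟩

/-- Two good separated canopies cannot both be heavy. -/
theorem main_pair {s q0 L L2 : ℕ} (hs : q0 + 3 ≤ s) (hs16 : 16 ≤ s) {U : Finset Win}
    (hU : ∀ w ∈ U, Valid s q0 w ∧ w.l ≤ L2) (hL : L2 < L) (hLn : 8 * L ≤ n)
    {F : Finset (Tri n)} (hF : ∀ T ∈ F, IsTriangulation T)
    (hint : ∀ T₁ ∈ F, ∀ T₂ ∈ F, (T₁ ∩ T₂).Nonempty) {b b' : ZMod n → Bool} (hsep : Sep L b b')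
    (hb : n ≤ 4 * sz b) (hb' : n ≤ 4 * sz b') (N : ℕ) (t : ℝ) (ht : 0 < t) :
    pr b N (fun o => o ∈ Ft s U F) * pr b' N (fun o => o ∈ Ft s U F) ≤
      ((2 * L2 + 1) * (L2 + 1) + 2) * ((t * AA N L L2 b + AA N L L2 b' / t) / 2) +
        (q0 + 1) * (84 / (√((s : ℝ) - q0) * √(n : ℝ))) *
          (pr b N (fun _ => True) + pr b' N (fun _ => True)) +
        3 * A3 N s L b / √(n : ℝ) + 3 * A3 N s L b' / √(n : ℝ) := by
  classical
  have hch : ∀ o : ZMod n → ℕ, ∃ z : Tri n × ZMod n × Win, o ∈ Ft s U F →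
      z.1 ∈ F ∧ z.2.2 ∈ U ∧ Mark s z.1 z.2.1 z.2.2 ∧ mword z.1 z.2.1 z.2.2 = o := by
    intro o
    by_cases ho : o ∈ Ft s U F
    · obtain ⟨z, hz⟩ := main_mem_Ft ho
      exact ⟨z, fun _ => hz⟩
    · exact ⟨(∅, 0, ⟨0, 0, fun _ => 0⟩), fun h => absurd h ho⟩
  choose z hz using hch
  have hn0 : 0 < n := Nat.pos_of_ne_zero (NeZero.ne n)
  have hsq : (0 : ℝ) < (s : ℝ) - q0 := by
    have : ((q0 + 3 : ℕ) : ℝ) ≤ s := by exact_mod_cast hs
    push_cast at this; linarith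
  have hκ : ∀ (c : ZMod n → Bool), n ≤ 4 * sz c → ∀ (a : ZMod n) (m : ℕ), s ≤ m + q0 → m ≤ L2 →
      pr c N (Cd a m) ≤ 84 / (√((s : ℝ) - q0) * √(n : ℝ)) := by
    intro c hc a m h1 h2
    refine (o2 c N a m (by omega) (by omega) hc).trans ?_
    have h3 : (s : ℝ) - q0 ≤ m := by
      have : (s : ℝ) ≤ ((m + q0 : ℕ) : ℝ) := by exact_mod_cast h1
      push_cast at this; linarith
    have h4 : (0 : ℝ) < n := by exact_mod_cast hn0
    gcongr
  have key := pair_bound N L L2 s q0 (Ft s U F) (fun o => (z o).2.1) (fun o => (z o).2.2.l)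
    (fun o ho => ⟨(up_facts hs (hU _ (hz o ho).2.1).1).2.2, (hU _ (hz o ho).2.1).2⟩) b b' ?_
    (84 / (√((s : ℝ) - q0) * √(n : ℝ))) (by positivity)
    (fun a m h1 h2 => ⟨hκ b hb a m h1 h2, hκ b' hb' a m h1 h2⟩) t ht
  · have h1 := main_SH (N := N) hs16 hLn hsep hb'
    have h2 := main_SH (N := N) hs16 hLn hsep.symm hb
    linarith
  · intro o ho o' ho' e1 e2
    obtain ⟨t1, t2, t3, t4⟩ := hz o ho
    obtain ⟨u1, u2, u3, u4⟩ := hz o' ho'
    obtain ⟨v1, v2⟩ := hU _ t2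
    obtain ⟨w1, w2⟩ := hU _ u2
    obtain ⟨d, hd⟩ := hint _ t1 _ u1
    rw [mem_inter] at hd
    obtain ⟨a, m, a1, a2, a3, a4⟩ := m3 hs v1 (by omega) (hF _ t1) t3 hd.1
    obtain ⟨a', m', b1, b2, b3, b4⟩ := m3 hs w1 (by omega) (hF _ u1) u3 hd.2
    have c1 := m2 hs v1 (by omega) (hF _ t1) t3
    have c2 := m2 hs w1 (by omega) (hF _ u1) u3
    rw [t4] at a4 c1
    rw [u4] at b4 c2
    refine cases_of_typ hL (by omega) (up_facts hs v1).2.2 v2 (up_facts hs w1).2.2 w2 (by omega)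
      c1 c2 (by rw [e1, e2]; exact hsep) a1 a2 a4 b4 (names_eq a1 a2 b1 b2 a3 b3)

end

theorem main_arith {ε c ζ ζ' r D D' φ φ' A A' B B' P κ : ℝ} (hε : 0 < ε) (hc : 0 < c)
    (hr : 0 < r) (hD : c / r ≤ D) (hD' : c / r ≤ D') (hφ : ε * D ≤ φ) (hφ' : ε * D' ≤ φ')
    (hA : A ≤ ζ' * D ^ 2) (hA' : A' ≤ ζ' * D' ^ 2) (hB : B ≤ ζ * D) (hB' : B' ≤ ζ * D')
    (hP : 0 < P) (hζ' : P * ζ' = ε ^ 2 / 4) (hζ : ζ = ε ^ 2 * c / 48) (hκ0 : 0 ≤ κ)
    (hκ : κ ≤ ε ^ 2 * c / 8)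
    (h : φ * φ' ≤ P * ((D' / D * A + A' / (D' / D)) / 2) + κ / r * (D + D') + 3 * B / r +
      3 * B' / r) : False := by
  have hD0 : 0 < D := (div_pos hc hr).trans_le hD
  have hD0' : 0 < D' := (div_pos hc hr).trans_le hD'
  have h1 : ε ^ 2 * (D * D') ≤ φ * φ' := by
    calc ε ^ 2 * (D * D') = (ε * D) * (ε * D') := by ring
      _ ≤ φ * φ' := mul_le_mul hφ hφ' (by positivity) ((by positivity : 0 ≤ ε * D).trans hφ)
  have h2 : D' / D * A ≤ ζ' * (D * D') := by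
    calc D' / D * A ≤ D' / D * (ζ' * D ^ 2) := mul_le_mul_of_nonneg_left hA (by positivity)
      _ = _ := by field_simp
  have h3 : A' / (D' / D) ≤ ζ' * (D * D') := by
    calc A' / (D' / D) ≤ ζ' * D' ^ 2 / (D' / D) := div_le_div_of_nonneg_right hA' (by positivity)
      _ = _ := by field_simp
  have h4 : P * ((D' / D * A + A' / (D' / D)) / 2) ≤ ε ^ 2 / 4 * (D * D') := by
    calc _ ≤ P * (ζ' * (D * D')) := mul_le_mul_of_nonneg_left (by linarith) hP.le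
      _ = _ := by rw [← hζ']; ring
  have i1 : 1 / r ≤ D / c := by
    rw [div_le_div_iff₀ hr hc]; rw [div_le_iff₀ hr] at hD; linarith
  have i2 : 1 / r ≤ D' / c := by
    rw [div_le_div_iff₀ hr hc]; rw [div_le_iff₀ hr] at hD'; linarith
  have j1 : D / r ≤ D * D' / c := by
    calc D / r = D * (1 / r) := by ring
      _ ≤ D * (D' / c) := mul_le_mul_of_nonneg_left i2 hD0.le
      _ = _ := by ring
  have j2 : D' / r ≤ D * D' / c := by
    calc D' / r = D' * (1 / r) := by ring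
      _ ≤ D' * (D / c) := mul_le_mul_of_nonneg_left i1 hD0'.le
      _ = _ := by ring
  have h5 : κ / r * (D + D') ≤ ε ^ 2 / 4 * (D * D') := by
    calc κ / r * (D + D') = κ * (D / r + D' / r) := by ring
      _ ≤ (ε ^ 2 * c / 8) * (D * D' / c + D * D' / c) :=
        mul_le_mul hκ (by linarith) (by positivity) (by positivity)
      _ = _ := by field_simp; ring
  have hζ0 : 0 < ζ := by rw [hζ]; positivity
  have h6 : 3 * B / r ≤ ε ^ 2 / 16 * (D * D') := by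
    calc 3 * B / r ≤ 3 * (ζ * D) / r := by gcongr
      _ = 3 * ζ * (D / r) := by ring
      _ ≤ 3 * ζ * (D * D' / c) := by gcongr
      _ = _ := by rw [hζ]; field_simp; ring
  have h7 : 3 * B' / r ≤ ε ^ 2 / 16 * (D * D') := by
    calc 3 * B' / r ≤ 3 * (ζ * D') / r := by gcongr
      _ = 3 * ζ * (D' / r) := by ring
      _ ≤ 3 * ζ * (D * D' / c) := by gcongr
      _ = _ := by rw [hζ]; field_simp; ring
  have h8 : 0 < ε ^ 2 * (D * D') := by positivity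
  linarith

theorem main_quarter (ε : ℝ) (hε : 0 < ε) (hε' : ε ≤ 1 / 40) : ∃ n0 : ℕ, ∀ n : ℕ, n0 ≤ n →
    ∀ F : Finset (Tri n), (∀ T ∈ F, IsTriangulation T) →
      (∀ T₁ ∈ F, ∀ T₂ ∈ F, (T₁ ∩ T₂).Nonempty) →
      (F.card : ℝ) ≤ (1 / 4 + 10 * ε) * catalan (n - 2) := by
  classical
  obtain ⟨c0, hc0, hdt⟩ := dtot
  obtain ⟨K3, hK3, hA3⟩ := sum_A3
  obtain ⟨q0, hq⟩ := varpi_ge ε hε
  obtain ⟨γ0, hγ0, hct⟩ := ct ε hε
  obtain ⟨c, hc⟩ : ∃ c, c = ε * c0 := ⟨_, rfl⟩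
  have hc' : 0 < c := by rw [hc]; positivity
  obtain ⟨ζ, hζ⟩ : ∃ ζ, ζ = ε ^ 2 * c / 48 := ⟨_, rfl⟩
  have hζ0 : 0 < ζ := by rw [hζ]; positivity
  obtain ⟨s1, hs1⟩ := main_sqrt ((q0 + 1) * 84) (ε ^ 2 * c / 8) (by positivity)
  obtain ⟨s2, hs2⟩ := main_sqrt K3 (ε * ζ * c0) (by positivity)
  obtain ⟨s, hs⟩ : ∃ s, s = q0 + 16 + s1 + s2 := ⟨_, rfl⟩
  obtain ⟨L2, U, hU, hvp⟩ := hq s (by omega)
  obtain ⟨P, hP⟩ : ∃ P : ℝ, P = (2 * L2 + 1) * (L2 + 1) + 2 := ⟨_, rfl⟩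
  have hP0 : 0 < P := by rw [hP]; positivity
  obtain ⟨ζ', hζ'⟩ : ∃ ζ', ζ' = ε ^ 2 / 4 / P := ⟨_, rfl⟩
  have hζ0' : 0 < ζ' := by rw [hζ']; positivity
  obtain ⟨γ, hγ⟩ : ∃ γ, γ = min γ0 (1 / 8) := ⟨_, rfl⟩
  have hγp : 0 < γ := by rw [hγ]; exact lt_min hγ0 (by norm_num)
  obtain ⟨n1, hn1⟩ := hdt s
  obtain ⟨n2, hn2⟩ := hct s
  obtain ⟨n3, hn3⟩ := sz_large c hc' s
  obtain ⟨n4, hn4⟩ := lln s q0 L2 (by omega) U hU ε hε
  obtain ⟨n5, hn5⟩ := sum_AA (γ / 2) (by positivity) L2 (ε * ζ' * c * c0) (by positivity)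
  obtain ⟨n6, hn6⟩ := exists_nat_gt (2 * (L2 + 1) / γ)
  refine ⟨n1 + n2 + n3 + n4 + n5 + n6 + s + 1, fun n hn F hF hint => ?_⟩
  have : NeZero n := ⟨by omega⟩
  by_contra hcon
  rw [not_le] at hcon
  have hnp : (0 : ℝ) < n := by exact_mod_cast (by omega : 0 < n)
  have hr : 0 < √(n : ℝ) := Real.sqrt_pos.mpr hnp
  have hrr : √(n : ℝ) * √(n : ℝ) = n := Real.mul_self_sqrt hnp.le
  -- the length of the pieces
  obtain ⟨L, hL⟩ : ∃ L, L = ⌊γ * n⌋₊ := ⟨_, rfl⟩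
  have hL1 : (L : ℝ) ≤ γ * n := by rw [hL]; exact Nat.floor_le (by positivity)
  have hL2 : γ * n < L + 1 := by rw [hL]; exact Nat.lt_floor_add_one _
  have hγn : 2 * ((L2 : ℝ) + 1) ≤ γ * n := by
    have h1 : (n6 : ℝ) ≤ n := by exact_mod_cast (by omega : n6 ≤ n)
    rw [div_lt_iff₀ hγp] at hn6
    nlinarith
  have hL20 : (0 : ℝ) ≤ L2 := Nat.cast_nonneg _
  have hL3 : γ / 2 * n ≤ L := by linarith
  have hL4 : L2 < L := by
    have : (L2 : ℝ) < L := by linarith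
    exact_mod_cast this
  have hL5 : 8 * L ≤ n := by
    have h1 : γ ≤ 1 / 8 := by rw [hγ]; exact min_le_right _ _
    have : (8 : ℝ) * L ≤ n := by nlinarith
    exact_mod_cast this
  have hL6 : (L : ℝ) ≤ γ0 * n := by
    have h1 : γ ≤ γ0 := by rw [hγ]; exact min_le_left _ _
    nlinarith
  have hN : 1 ≤ n - s := by omega
  -- total mass
  have hD : 2 ^ n * (c0 / √(n : ℝ)) ≤ ∑ b : ZMod n → Bool, pr b (n - s) (fun _ => True) := by
    rw [main_sum_D, card_Wd, le_div_iff₀ (by positivity)]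
    refine le_trans (le_of_eq ?_) (hn1 n (by omega))
    rw [pow_add]; ring
  have hsub : Ft s U F ⊆ Wd n (n - s) := by
    intro o ho
    obtain ⟨z, t1, t2, t3, t4⟩ := main_mem_Ft ho
    rw [← t4]
    have := (hU _ t2).2
    exact mword_mem (q0 := q0) (by omega) (hU _ t2).1 (by omega) (hF _ t1) t3
  have hcat : (0 : ℝ) < catalan (n - 2) := by
    have h1 := succ_mul_catalan_eq_centralBinom (n - 2)
    have h2 := Nat.centralBinom_pos (n - 2)
    have : 0 < catalan (n - 2) := by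
      rcases Nat.eq_zero_or_pos (catalan (n - 2)) with h | h
      · rw [h] at h1; omega
      · exact h
    exact_mod_cast this
  have h1 : (1 / 4 + 9 * ε) * ∑ b : ZMod n → Bool, pr b (n - s) (fun _ => True) ≤
      ∑ b : ZMod n → Bool, pr b (n - s) (fun o => o ∈ Ft s U F) := by
    rw [main_sum_D, main_sum_pr _ _ hsub, ← mul_div_assoc]
    refine div_le_div_of_nonneg_right ?_ (by positivity)
    have h4 : catalan (n - 2) ≤ 4 * F.card := by
      have : (catalan (n - 2) : ℝ) ≤ 4 * F.card := by nlinarith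
      exact_mod_cast this
    have h5 := hn4 n (by omega) F hF h4
    have hW : (0 : ℝ) ≤ (Wd n (n - s)).card := Nat.cast_nonneg _
    refine le_of_mul_le_mul_right (le_trans ?_ h5) hcat
    have h6 : (1 / 4 + 9 * ε) * (catalan (n - 2) : ℝ) ≤ (varpi s U - ε) * F.card := by
      calc _ ≤ (1 - 2 * ε) * ((1 / 4 + 10 * ε) * catalan (n - 2)) := by
            rw [← mul_assoc]
            exact mul_le_mul_of_nonneg_right (by nlinarith) hcat.le
        _ ≤ _ := mul_le_mul (by linarith) hcon.le (by positivity) (by linarith)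
    nlinarith
  have hcard : (Fintype.card (ZMod n → Bool) : ℝ) = 2 ^ n := by
    rw [Fintype.card_fun, ZMod.card]; simp
  have hG := good_mass (fun b : ZMod n → Bool => pr b (n - s) (fun _ => True))
    (fun b => pr b (n - s) (fun o => o ∈ Ft s U F)) (AA (n - s) L L2) (A3 (n - s) s L)
    (1 / 4 + 9 * ε) ε ε (c / √(n : ℝ)) ζ' ζ (fun b => pr_nonneg _ _ _) (fun b => pr_le_true _ _ _)
    (main_AA_nonneg _ _ _) (main_A3_nonneg _ _ _) hε.le (by positivity) hζ0' hζ0 h1 ?_ ?_ ?_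
  · obtain ⟨b, hb, b', hb', hsep⟩ := hn2 n (by omega) L hL6 _ (by
      have e : ∀ b : ZMod n → Bool, (wt (n - s) (sz b) : ℝ) =
          pr b (n - s) (fun _ => True) * 2 ^ (n - s) := by
        intro b; unfold pr; rw [cw_true b hN]; field_simp
      simp only [e, ← sum_mul, ← mul_assoc]
      refine mul_le_mul_of_nonneg_right (le_trans ?_ hG) (by positivity)
      exact mul_le_mul_of_nonneg_right (by linarith) (sum_nonneg fun b _ => pr_nonneg _ _ _))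
    simp only [mem_filter, mem_univ, true_and] at hb hb'
    obtain ⟨p1, p2, p3, p4⟩ := hb
    obtain ⟨r1, r2, r3, r4⟩ := hb'
    have hsz : ∀ b : ZMod n → Bool, c / √(n : ℝ) ≤ pr b (n - s) (fun _ => True) → n ≤ 4 * sz b := by
      intro b h
      refine hn3 n (by omega) (sz b) ?_
      unfold pr at h
      rwa [cw_true b hN] at h
    have hDp : 0 < pr b (n - s) (fun _ => True) := (div_pos hc' hr).trans_le p2
    have hDp' : 0 < pr b' (n - s) (fun _ => True) := (div_pos hc' hr).trans_le r2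
    have key := main_pair (q0 := q0) (by omega) (by omega) hU hL4 hL5 hF hint hsep (hsz b p2)
      (hsz b' r2) (n - s) _ (div_pos hDp' hDp)
    have hκ := hs1 ((s : ℝ) - q0) (by
      have : ((s1 + q0 : ℕ) : ℝ) ≤ s := by exact_mod_cast (by omega : s1 + q0 ≤ s)
      push_cast at this; linarith)
    refine main_arith (P := P) (κ := (q0 + 1) * 84 / √((s : ℝ) - q0)) hε hc' hr p2 r2 p1 r1 p3 r3
      p4 r4 hP0 (by rw [hζ']; field_simp) hζ (by positivity) hκ (key.trans (le_of_eq ?_))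
    rw [hP, div_div]; ring
  · rw [hcard]
    calc 2 ^ n * (c / √(n : ℝ)) = ε * (2 ^ n * (c0 / √(n : ℝ))) := by rw [hc]; ring
      _ ≤ _ := mul_le_mul_of_nonneg_left hD hε.le
  · refine (hn5 n (by omega) (n - s) L hL3).trans ?_
    calc 2 ^ n * (ε * ζ' * c * c0 / n) =
          ε * ζ' * (c / √(n : ℝ)) * (2 ^ n * (c0 / √(n : ℝ))) := by
          nth_rewrite 1 [← hrr]; field_simp
      _ ≤ _ := mul_le_mul_of_nonneg_left hD (by positivity)
  · refine (hA3 n (n - s) s L (by omega) (by omega)).trans ?_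
    have h2 := hs2 s (by exact_mod_cast (by omega : s2 ≤ s))
    calc 2 ^ n * (K3 / (√(n : ℝ) * √(s : ℝ))) = 2 ^ n / √(n : ℝ) * (K3 / √(s : ℝ)) := by
          rw [← div_div]; ring
      _ ≤ 2 ^ n / √(n : ℝ) * (ε * ζ * c0) := mul_le_mul_of_nonneg_left h2 (by positivity)
      _ = ε * ζ * (2 ^ n * (c0 / √(n : ℝ))) := by ring
      _ ≤ _ := mul_le_mul_of_nonneg_left hD (by positivity)

theorem main (ε : ℝ) (hε : 0 < ε) : ∃ n0 : ℕ, ∀ n : ℕ, n0 ≤ n →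
    ∀ F : Finset (Finset (Fin n × Fin n)), (∀ T ∈ F, IsTriangulation T) →
      (∀ T₁ ∈ F, ∀ T₂ ∈ F, (T₁ ∩ T₂).Nonempty) →
      (F.card : ℝ) ≤ (1 + ε) * catalan (n - 3) := by
  obtain ⟨n0, h⟩ := main_quarter (min (ε / 40) (1 / 40)) (lt_min (by positivity) (by norm_num))
    (min_le_right _ _)
  refine ⟨n0 + 3, fun n hn F hF hint => (h n (by omega) F hF hint).trans ?_⟩
  have h1 : (catalan (n - 2) : ℝ) ≤ 4 * catalan (n - 3) := by
    have := catalan_succ_le (n - 3)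
    rw [show n - 3 + 1 = n - 2 by omega] at this
    exact_mod_cast this
  have h2 : min (ε / 40) (1 / 40) ≤ ε / 40 := min_le_left _ _
  have h3 : (0 : ℝ) ≤ catalan (n - 2) := Nat.cast_nonneg _
  calc _ ≤ (1 / 4 + ε / 4) * (catalan (n - 2) : ℝ) := mul_le_mul_of_nonneg_right (by linarith) h3
    _ ≤ (1 / 4 + ε / 4) * (4 * catalan (n - 3)) := mul_le_mul_of_nonneg_left h1 (by positivity)
    _ = _ := by ring

end Pool.Agent.Lib.MP_04fdae_co.G
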